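import Mathlib
import Pool.Agent.TH278.DX.Defs2

/-! # Job 4950: Herz-Schur factorisation of a function dominated by `√F` -/

set_option autoImplicit false

namespace Pool.Agent.TH989.J4950

open Pool.Agent.TH278.DX

variable {G : Type} [Group G]

theorem sum1 (F : G →₀ ℝ) (h : G → ℝ) (C : ℝ)
    (hex : ∀ s, (F.sum fun g r => r * h (s * g)) ≤ C * h s) (u : G) :
    Summable (fun t => F (u⁻¹ * t) * h t) ∧ ∑' t, F (u⁻¹ * t) * h t ≤ C * h u := by
  have e1 : ∀ g, F (u⁻¹ * (Equiv.mulLeft u g)) * h (Equiv.mulLeft u g) = F g * h (u * g) := by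
    intro g
    rw [Equiv.coe_mulLeft, inv_mul_cancel_left]
  have hs : Summable (fun g => F g * h (u * g)) := by
    apply summable_of_ne_finset_zero (s := F.support)
    intro g hg
    rw [Finsupp.notMem_support_iff.1 hg, zero_mul]
  constructor
  · rw [← (Equiv.mulLeft u).summable_iff]
    refine hs.congr fun g => ?_
    exact (e1 g).symm
  · rw [← (Equiv.mulLeft u).tsum_eq (fun t => F (u⁻¹ * t) * h t)]
    simp only [e1]
    rw [tsum_eq_sum (s := F.support)]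
    · exact hex u
    · intro g hg
      rw [Finsupp.notMem_support_iff.1 hg, zero_mul]

theorem gen (F : G →₀ ℝ) (hF : ∀ g, 0 ≤ F g) (h : G → ℝ) (C : ℝ) (hpos : ∀ s, 0 < h s)
    (hex : ∀ s, (F.sum fun g r => r * h (s * g)) ≤ C * h s) (u : G) (P : G → Prop)
    [DecidablePred P] (hP : ∀ t, P t → h u ≤ h t) (ψ : G → ℂ)
    (hψ : ∀ t, ‖ψ t‖ ^ 2 ≤ F (u⁻¹ * t)) :
    ∃ v : lp (fun _ : G => ℂ) 2, (∀ t, v t = if P t then ψ t else 0) ∧ ‖v‖ ^ 2 ≤ C := by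
  obtain ⟨s1, s2⟩ := sum1 F h C hex u
  have hle : ∀ t, ‖(if P t then ψ t else 0 : ℂ)‖ ^ (2 : ℝ) ≤ F (u⁻¹ * t) * h t / h u := by
    intro t
    rw [Real.rpow_two]
    by_cases hp : P t
    · rw [if_pos hp, le_div_iff₀ (hpos u)]
      exact mul_le_mul (hψ t) (hP t hp) (hpos u).le (hF _)
    · rw [if_neg hp, norm_zero, zero_pow two_ne_zero]
      exact div_nonneg (mul_nonneg (hF _) (hpos t).le) (hpos u).le
  have hsum : Summable fun t => ‖(if P t then ψ t else 0 : ℂ)‖ ^ (2 : ℝ) :=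
    Summable.of_nonneg_of_le (fun t => by positivity) hle (s1.div_const _)
  have h2 : (2 : ENNReal).toReal = 2 := by simp
  have hmem : Memℓp (fun t => (if P t then ψ t else 0 : ℂ)) 2 := by
    apply memℓp_gen
    rw [h2]
    exact hsum
  refine ⟨⟨_, hmem⟩, fun t => rfl, ?_⟩
  have h3 := lp.norm_rpow_eq_tsum (p := 2) (by rw [h2]; norm_num)
    (⟨fun t => (if P t then ψ t else 0 : ℂ), hmem⟩ : lp (fun _ : G => ℂ) 2)
  rw [h2, Real.rpow_two] at h3
  rw [h3]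
  calc _ ≤ ∑' t, F (u⁻¹ * t) * h t / h u := hsum.tsum_le_tsum hle (s1.div_const _)
    _ = (∑' t, F (u⁻¹ * t) * h t) / h u := tsum_div_const
    _ ≤ C * h u / h u := by
      apply div_le_div_of_nonneg_right s2 (hpos u).le
    _ = C := mul_div_cancel_right₀ _ (hpos u).ne'

theorem m2_of_excessive (F : G →₀ ℝ) (hF : ∀ g, 0 ≤ F g)
    (hsym : ∀ g, F g⁻¹ = F g) (h : G → ℝ) (C : ℝ) (hC : 0 < C) (hpos : ∀ s, 0 < h s)
    (hex : ∀ s, (F.sum fun g r => r * h (s * g)) ≤ C * h s) (φ : G → ℂ)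
    (hφ : ∀ g, ‖φ g‖ ^ 2 ≤ F g) : M2 φ (2 * Real.sqrt C) := by
  classical
  have hv : ∀ t : G, ∃ v : lp (fun _ : G => ℂ) 2,
      (∀ s, v s = if h t < h s then φ (s⁻¹ * t) else 0) ∧ ‖v‖ ^ 2 ≤ C := by
    intro t
    refine gen F hF h C hpos hex t (fun s => h t < h s) (fun s hs => hs.le)
      (fun s => φ (s⁻¹ * t)) fun s => ?_
    refine (hφ _).trans (le_of_eq ?_)
    rw [← hsym]
    congr 1
    group
  have hw : ∀ s : G, ∃ w : lp (fun _ : G => ℂ) 2,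
      (∀ t, w t = if h s ≤ h t then (starRingEnd ℂ) (φ (s⁻¹ * t)) else 0) ∧ ‖w‖ ^ 2 ≤ C := by
    intro s
    refine gen F hF h C hpos hex s (fun t => h s ≤ h t) (fun t ht => ht)
      (fun t => (starRingEnd ℂ) (φ (s⁻¹ * t))) fun t => ?_
    rw [Complex.norm_conj]
    exact hφ _
  choose v hv1 hv2 using hv
  choose w hw1 hw2 using hw
  obtain ⟨q, hq⟩ : ∃ q : ℝ, q = Real.sqrt (Real.sqrt C) := ⟨_, rfl⟩
  have hsC : 0 < Real.sqrt C := Real.sqrt_pos.2 hC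
  have hq0 : 0 < q := by rw [hq]; exact Real.sqrt_pos.2 hsC
  have hq2 : q ^ 2 = Real.sqrt C := by rw [hq]; exact Real.sq_sqrt hsC.le
  have hC2 : Real.sqrt C ^ 2 = C := Real.sq_sqrt hC.le
  have hbound : ∀ (a b : lp (fun _ : G => ℂ) 2), ‖a‖ = 1 → ‖b‖ ^ 2 ≤ C →
      ‖(q : ℂ) • a‖ ^ 2 + ‖((q : ℂ))⁻¹ • b‖ ^ 2 ≤ 2 * Real.sqrt C := by
    intro a b ha hb
    rw [norm_smul, norm_smul, ha, mul_one, norm_inv, Complex.norm_real, Real.norm_eq_abs,
      abs_of_pos hq0, mul_pow, inv_pow, hq2]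
    have h4 : (Real.sqrt C)⁻¹ * ‖b‖ ^ 2 ≤ (Real.sqrt C)⁻¹ * C :=
      mul_le_mul_of_nonneg_left hb (by positivity)
    have h5 : (Real.sqrt C)⁻¹ * C = Real.sqrt C := by
      rw [inv_mul_eq_iff_eq_mul₀ hsC.ne']
      nlinarith
    linarith
  have hsingle : ∀ t : G, ‖(lp.single 2 t (1 : ℂ) : lp (fun _ : G => ℂ) 2)‖ = 1 := by
    intro t
    rw [lp.norm_single (by norm_num)]
    simp
  refine ⟨WithLp 2 (lp (fun _ : G => ℂ) 2 × lp (fun _ : G => ℂ) 2), inferInstance, inferInstance,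
    inferInstance,
    fun t => WithLp.toLp 2 ((q : ℂ) • lp.single 2 t (1 : ℂ), ((q : ℂ))⁻¹ • v t),
    fun s => WithLp.toLp 2 (((q : ℂ))⁻¹ • w s⁻¹, (q : ℂ) • lp.single 2 s⁻¹ (1 : ℂ)), ?_, ?_, ?_⟩
  · intro t
    rw [WithLp.prod_norm_sq_eq_of_L2]
    exact hbound _ _ (hsingle t) (hv2 t)
  · intro s
    rw [WithLp.prod_norm_sq_eq_of_L2, add_comm]
    exact hbound _ _ (hsingle s⁻¹) (hw2 s⁻¹)
  · intro s t
    rw [WithLp.prod_inner_apply]
    simp only [inner_smul_left, inner_smul_right]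
    rw [lp.inner_single_right, lp.inner_single_left, hw1, hv1]
    have hqc : (q : ℂ) ≠ 0 := by exact_mod_cast hq0.ne'
    simp only [map_inv₀, Complex.conj_ofReal, inv_inv]
    by_cases hst : h s⁻¹ ≤ h t
    · rw [if_pos hst, if_neg (not_lt.2 hst)]
      simp [hqc]
    · rw [if_neg hst, if_pos (not_le.1 hst)]
      simp [hqc]

end Pool.Agent.TH989.J4950
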