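import Mathlib
import Pool.Agent.TH881.RK.Defs
import Pool.Agent.TH881.RK.DefsG
import Pool.Agent.H373R2.T7.Sys2

/-!
# Job 4026 (RK-S1): replacing the primes by the sieve model, differences, `m` factors
-/

set_option autoImplicit false

namespace Pool.Agent.TH989.J4026

open Finset Filter Topology
open Pool.Agent.TH881
open Pool.Agent.TH881.RG
open Pool.Agent.TH881.RQ
open Pool.Agent.TH881.RK
open Pool.Agent.H373R2.T7

theorem mixAG (m G U : ℕ) (hG : 1 ≤ G) : ∃ B0 : ℕ, ∀ E : ℕ, ∃ X0 : ℕ, ∀ X : ℕ, X0 ≤ X → ∀ z : ℕ,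
    Real.log X ^ B0 ≤ z → (z : ℝ) ≤ Real.log X ^ E → ∀ K : Finset ℕ, K ⊆ Icc 1 X →
    ∑ N ∈ Fintype.piFinset (fun _ : Fin m => Ioc X (G * X)),
      |∑ n ∈ K, (∏ j, lp (N j - n) - ∏ j, lamz z (N j - n))| ≤ (X : ℝ) ^ m * X / Real.log X ^ U := by
  classical
  obtain ⟨B0, hB0⟩ := sys_diffP (k := m) (fun _ => Polynomial.X) (fun _ => by simp)
    (fun _ => by simp) (fun _ => -1) (fun _ => Or.inr rfl) G hG (U + 1)
  refine ⟨B0, fun E => ?_⟩
  obtain ⟨N0, hN0⟩ := hB0 E
  have hev : ∀ᶠ X : ℕ in atTop, (G : ℝ) ^ m ≤ Real.log X :=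
    (Real.tendsto_log_atTop.comp tendsto_natCast_atTop_atTop).eventually_ge_atTop _
  obtain ⟨N1, hN1⟩ := eventually_atTop.1 hev
  refine ⟨max (max N0 N1) 3, fun X hX z hz1 hz2 K hK => ?_⟩
  have hX3 : 3 ≤ X := (le_max_right _ _).trans hX
  have hlog : 1 ≤ Real.log X := by
    rw [Real.le_log_iff_exp_le (by exact_mod_cast (by omega : 0 < X))]
    have h3 : (3 : ℝ) ≤ X := by exact_mod_cast hX3
    have := Real.exp_one_lt_three
    linarith
  have hGl := hN1 X (((le_max_right _ _).trans (le_max_left _ _)).trans hX)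
  have h := hN0 X (((le_max_left _ _).trans (le_max_left _ _)).trans hX) (fun _ => G * X)
    (fun _ => by
      rw [Polynomial.natDegree_X, pow_one]
      exact ⟨le_refl _, by nlinarith [Nat.mul_le_mul hG hG]⟩) z hz1 hz2
    (fun n => if n ∈ K then 1 else 0) (fun n _ => by
      beta_reduce
      split_ifs
      · rw [abs_one]; exact hlog
      · rw [abs_zero]; linarith)
  have hsum : ∀ N : Fin m → ℕ, N ∈ Fintype.piFinset (fun _ : Fin m => Ioc X (G * X)) →
      ∑ n ∈ Icc 1 X, (if n ∈ K then (1 : ℝ) else 0) *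
      (∏ i, lamP (vl (fun _ => Polynomial.X) (fun _ => -1) N i n) -
        ∏ i, lamzI z (vl (fun _ => Polynomial.X) (fun _ => -1) N i n)) =
      ∑ n ∈ K, (∏ j, lp (N j - n) - ∏ j, lamz z (N j - n)) := by
    intro N hN
    have hNX : ∀ j, X < N j := fun j => (mem_Ioc.1 (Fintype.mem_piFinset.1 hN j)).1
    simp only [ite_mul, one_mul, zero_mul]
    rw [← Finset.sum_filter, Finset.filter_mem_eq_inter, Finset.inter_eq_right.2 hK]
    refine Finset.sum_congr rfl fun n hn => ?_
    have hn1 : n ≤ X := (mem_Icc.1 (hK hn)).2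
    have hv : ∀ i, vl (fun _ => Polynomial.X) (fun _ => -1) N i n = ((N i - n : ℕ) : ℤ) := by
      intro i
      unfold vl
      rw [Polynomial.eval_X]
      have := hNX i
      push_cast [Nat.cast_sub (by omega : n ≤ N i)]
      ring
    congr 1
    · refine Finset.prod_congr rfl fun i _ => ?_
      rw [hv]
      unfold lamP Pool.Agent.TH881.RK.lp
      rw [Int.toNat_natCast]
    · refine Finset.prod_congr rfl fun i _ => ?_
      rw [hv]
      unfold lamzI
      have := hNX i
      rw [if_pos (by exact_mod_cast (by omega : 1 ≤ N i - n)), Int.toNat_natCast]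
  have hsub : Fintype.piFinset (fun _ : Fin m => Ioc X (G * X)) ⊆
      Fintype.piFinset (fun _ : Fin m => Icc 1 (G * X)) := by
    refine Fintype.piFinset_subset _ _ fun _ => ?_
    intro a ha
    rw [mem_Ioc] at ha
    rw [mem_Icc]
    exact ⟨by omega, ha.2⟩
  have h2 : (X : ℝ) * (∏ _i : Fin m, ((G * X : ℕ) : ℝ)) / Real.log X ^ (U + 1) ≤
      (X : ℝ) ^ m * X / Real.log X ^ U := by
    rw [Finset.prod_const, Finset.card_univ, Fintype.card_fin, div_le_div_iff₀ (by positivity) (by positivity),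
      pow_succ, Nat.cast_mul, mul_pow]
    have h0 : 0 ≤ (X : ℝ) ^ m * X * Real.log X ^ U := by positivity
    nlinarith [mul_le_mul_of_nonneg_left hGl h0]
  refine le_trans ?_ (h.trans h2)
  refine le_trans (le_of_eq ?_) (Finset.sum_le_sum_of_subset_of_nonneg hsub fun _ _ _ => abs_nonneg _)
  refine Finset.sum_congr rfl fun N hN => ?_
  rw [← hsum N hN]

end Pool.Agent.TH989.J4026
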