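import Mathlib
import Pool.Agent.TH923.DM.Defs

/-!
# Adapted bases of finite `ZMod p`-spaces for an order, index function and counting
(project of helper923, MP_43acf5_nt; statements `S_ADAPT` and `S_IND`)
-/

set_option autoImplicit false

namespace Pool.Agent.TH923.DM

universe w

section

variable {L : Type w} [Field L] {u : L → ℤ} {p : ℕ} [Fact p.Prime] [Algebra (ZMod p) L]

lemma AdBasis.finrank_eq {V : Submodule (ZMod p) L} {h : ℕ} {b : Fin h → L}
    (H : AdBasis p u V h b) : Module.finrank (ZMod p) V = h := by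
  rw [← H.span, finrank_span_eq_card H.li, Fintype.card_fin]

lemma exists_min_ord (V : Submodule (ZMod p) L) [FiniteDimensional (ZMod p) V] (hV : V ≠ ⊥) :
    ∃ b0 ∈ V, b0 ≠ 0 ∧ ∀ x ∈ V, x ≠ 0 → u b0 ≤ u x := by
  have : Finite V := Module.finite_of_finite (ZMod p)
  obtain ⟨y, hy, hy0⟩ := Submodule.exists_mem_ne_zero_of_ne_bot hV
  have : Nonempty {x : V // x ≠ 0} := ⟨⟨⟨y, hy⟩, fun h => hy0 (congrArg Subtype.val h)⟩⟩
  obtain ⟨x0, hx0⟩ := Finite.exists_min (fun x : {x : V // x ≠ 0} => u (x.1 : L))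
  refine ⟨x0.1, x0.1.2, fun h => x0.2 (Subtype.ext h), fun x hx hx1 => ?_⟩
  exact hx0 ⟨⟨x, hx⟩, fun h => hx1 (congrArg Subtype.val h)⟩

lemma exists_adBasis [CharP L p] (hu : IsOrd u) : ∀ (n : ℕ) (V : Submodule (ZMod p) L)
    [FiniteDimensional (ZMod p) V], Module.finrank (ZMod p) V = n →
    ∃ (h : ℕ) (b : Fin h → L), AdBasis p u V h b := by
  intro n
  induction n using Nat.strong_induction_on with
  | _ n ih =>
  intro V _ hn
  by_cases hV : V = ⊥
  · subst hV
    refine ⟨0, Fin.elim0, ⟨linearIndependent_empty_type, ?_, fun i => i.elim0,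
      fun _ i => i.elim0⟩⟩
    rw [Set.range_eq_empty, Submodule.span_empty]
  obtain ⟨b0, hb0V, hb0, hmin⟩ := exists_min_ord (u := u) V hV
  have hnot : b0 ∉ levG p hu V (u b0) := by
    rw [mem_levG]
    rintro ⟨_, h | h⟩
    · exact hb0 h
    · exact lt_irrefl _ h
  obtain ⟨f, hf, hle⟩ := Submodule.exists_le_ker_of_notMem hnot
  -- the hyperplane
  set V' : Submodule (ZMod p) L := V ⊓ LinearMap.ker f with hV'
  have hV'V : V' ≤ V := inf_le_left
  have hb0V' : b0 ∉ V' := fun h => hf (LinearMap.mem_ker.1 h.2)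
  have : FiniteDimensional (ZMod p) V' := Submodule.finiteDimensional_of_le hV'V
  have hlt : Module.finrank (ZMod p) V' < n := by
    rw [← hn]
    exact Submodule.finrank_lt_finrank_of_lt (lt_of_le_of_ne hV'V (fun h => hb0V' (h ▸ hb0V)))
  obtain ⟨h, b', H⟩ := ih _ hlt V' rfl
  have hb'mem : ∀ j, b' j ∈ V' := fun j => by
    rw [← H.span]; exact Submodule.subset_span ⟨j, rfl⟩
  refine ⟨h + 1, Fin.cons b0 b', ?_, ?_, ?_, ?_⟩
  · rw [linearIndependent_finCons, H.span]
    exact ⟨H.li, hb0V'⟩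
  · rw [Fin.range_cons, Submodule.span_insert, H.span]
    apply le_antisymm
    · exact sup_le ((Submodule.span_singleton_le_iff_mem _ _).2 hb0V) hV'V
    · intro x hx
      have h1 : x - (f x / f b0) • b0 ∈ V' := by
        refine ⟨V.sub_mem hx (V.smul_mem _ hb0V), ?_⟩
        show f (x - (f x / f b0) • b0) = 0
        rw [map_sub, map_smul, smul_eq_mul, div_mul_cancel₀ _ hf, sub_self]
      rw [Submodule.mem_sup]
      exact ⟨(f x / f b0) • b0, Submodule.smul_mem _ _ (Submodule.mem_span_singleton_self _),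
        _, h1, by abel⟩
  · intro i j hij
    rcases Fin.eq_zero_or_eq_succ i with rfl | ⟨i', rfl⟩
    · rcases Fin.eq_zero_or_eq_succ j with rfl | ⟨j', rfl⟩
      · exact le_rfl
      · show u b0 ≤ u (b' j')
        exact hmin _ (hV'V (hb'mem j')) (H.li.ne_zero j')
    · rcases Fin.eq_zero_or_eq_succ j with rfl | ⟨j', rfl⟩
      · exact absurd hij (not_le.2 (Fin.succ_pos i'))
      · show u (b' i') ≤ u (b' j')
        exact H.mono (Fin.succ_le_succ_iff.1 hij)
  · intro a i hi hlt'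
    have hsum : ∑ j, a j • (Fin.cons b0 b' : Fin (h + 1) → L) j =
        a 0 • b0 + ∑ j : Fin h, a j.succ • b' j := by
      rw [Fin.sum_univ_succ]
      rfl
    rcases Fin.eq_zero_or_eq_succ i with rfl | ⟨i', rfl⟩
    · show u (∑ j, a j • (Fin.cons b0 b' : Fin (h + 1) → L) j) = u b0
      rw [hsum]
      have hx' : ∑ j : Fin h, a j.succ • b' j ∈ V' :=
        Submodule.sum_mem _ fun j _ => V'.smul_mem _ (hb'mem j)
      have hf' : f (a 0 • b0 + ∑ j : Fin h, a j.succ • b' j) ≠ 0 := by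
        have h1 : f (∑ j : Fin h, a j.succ • b' j) = 0 := hx'.2
        rw [map_add, map_smul, h1, add_zero, smul_eq_mul]
        exact mul_ne_zero hi hf
      have hV2 : a 0 • b0 + ∑ j : Fin h, a j.succ • b' j ∈ V :=
        V.add_mem (V.smul_mem _ hb0V) (hV'V hx')
      refine le_antisymm (le_of_not_gt fun hgt => hf' ?_) (hmin _ hV2 fun h0 => hf' ?_)
      · refine hle ?_
        rw [mem_levG]
        exact ⟨hV2, Or.inr (by exact_mod_cast hgt)⟩
      · rw [h0, map_zero]
    · show u (∑ j, a j • (Fin.cons b0 b' : Fin (h + 1) → L) j) = u (b' i')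
      rw [hsum, hlt' 0 (Fin.succ_pos i'), zero_smul, zero_add]
      exact H.val (fun j => a j.succ) i' hi fun j hj =>
        hlt' j.succ (Fin.succ_lt_succ_iff.2 hj)

end

theorem lemADAPT : S_ADAPT.{w} := by
  intro p _ L _ _ _ u hu V _ h hh
  obtain ⟨h', b, H⟩ := exists_adBasis hu _ V rfl
  have h1 := H.finrank_eq
  rw [hh] at h1
  subst h1
  exact ⟨b, H⟩

theorem lemIND : S_IND.{w} := by
  intro p _ L _ _ _ u hu V h b hh H
  classical
  have hco : ∀ x : L, ∃ a : Fin h → ZMod p, x ∈ V → ∑ j, a j • b j = x := by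
    intro x
    by_cases hx : x ∈ V
    · rw [← H.span, Submodule.mem_span_range_iff_exists_fun] at hx
      obtain ⟨a, ha⟩ := hx
      exact ⟨a, fun _ => ha⟩
    · exact ⟨0, fun h => absurd h hx⟩
  choose a ha using hco
  have hnz : ∀ x ∈ V, x ≠ 0 → ∃ i, a x i ≠ 0 := by
    intro x hx hx0
    by_contra hcon
    push Not at hcon
    apply hx0
    rw [← ha x hx]
    exact Finset.sum_eq_zero fun j _ => by rw [hcon j, zero_smul]
  have hmin : ∀ x : L, ∃ i : Fin h, x ∈ V → x ≠ 0 → a x i ≠ 0 ∧ ∀ j < i, a x j = 0 := by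
    intro x
    by_cases hx : x ∈ V ∧ x ≠ 0
    · obtain ⟨i0, hi0⟩ := hnz x hx.1 hx.2
      obtain ⟨i, hi, hm⟩ := (Finset.univ.filter fun i => a x i ≠ 0).exists_min_image id
        ⟨i0, by simpa using hi0⟩
      refine ⟨i, fun _ _ => ⟨by simpa using hi, fun j hj => ?_⟩⟩
      by_contra hne
      exact absurd (hm j (by simpa using hne)) (not_le.2 hj)
    · exact ⟨⟨0, hh⟩, fun h1 h2 => absurd ⟨h1, h2⟩ hx⟩
  choose ind hind using hmin
  refine ⟨ind, fun x hx hx0 => ?_, fun X hX i hi => ?_⟩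
  · obtain ⟨h1, h2⟩ := hind x hx hx0
    have h3 := H.val (a x) (ind x) h1 h2
    rwa [ha x hx] at h3
  · have hcard : Fintype.card (Fin (h - i) → ZMod p) = p ^ (h - i) := by
      rw [Fintype.card_fun, ZMod.card, Fintype.card_fin]
    rw [← hcard, ← Finset.card_univ]
    refine Finset.card_le_card_of_injOn
      (fun x => fun j : Fin (h - i) => a x ⟨i + j, by omega⟩) (fun _ _ => Finset.mem_univ _) ?_
    intro x hx y hy hxy
    rw [Finset.mem_coe, Finset.mem_filter] at hx hy
    obtain ⟨hxV, hx0⟩ := hX x hx.1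
    obtain ⟨hyV, hy0⟩ := hX y hy.1
    rw [← ha x hxV, ← ha y hyV]
    refine Finset.sum_congr rfl fun j _ => ?_
    by_cases hj : (j : ℕ) < i
    · rw [(hind x hxV hx0).2 j (Fin.lt_def.2 (lt_of_lt_of_le hj hx.2)),
        (hind y hyV hy0).2 j (Fin.lt_def.2 (lt_of_lt_of_le hj hy.2))]
    · have h1 := congrFun hxy ⟨j - i, by omega⟩
      simp only at h1
      have h2 : (⟨i + (j - i), by omega⟩ : Fin h) = j := Fin.ext (by simp; omega)
      rw [h2] at h1
      rw [h1]

end Pool.Agent.TH923.DM
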