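import Mathlib
import Pool.Agent.TH165.Tan2.Defs5

set_option autoImplicit false
set_option linter.unusedVariables false

open CategoryTheory TensorProduct

namespace Pool.Agent.TH165.Tan

namespace H989

open CategoryTheory.Limits

/-! ### Cokernels in the category of modules -/

section

variable {R : Type} [CommRing R]

/-- A surjective map whose kernel is the range of `f - g` is a coequalizer. -/
theorem mod_colim {A B C : ModuleCat.{0} R} (f g : A ⟶ B) (h : B ⟶ C) (w : f ≫ h = g ≫ h)
    (hs : Function.Surjective h.hom) (hk : ∀ n, h.hom n = 0 → ∃ m, n = f.hom m - g.hom m) :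
    Nonempty (IsColimit (Cofork.ofπ h w)) := by
  refine ⟨Cofork.IsColimit.mk' _ fun s => ?_⟩
  have hker : LinearMap.ker h.hom ≤ LinearMap.ker s.π.hom := by
    intro n hn
    obtain ⟨m, rfl⟩ := hk n hn
    have h1 : s.π.hom (f.hom m) = s.π.hom (g.hom m) := congrArg (fun u => u.hom m) s.condition
    rw [LinearMap.mem_ker, map_sub, h1, sub_self]
  let d : C →ₗ[R] s.pt := ((LinearMap.ker h.hom).liftQ s.π.hom hker).comp
    (h.hom.quotKerEquivOfSurjective hs).symm.toLinearMap
  have hd : ∀ n, d (h.hom n) = s.π.hom n := by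
    intro n
    have h2 : (h.hom.quotKerEquivOfSurjective hs).symm (h.hom n) = (LinearMap.ker h.hom).mkQ n := by
      rw [LinearEquiv.symm_apply_eq]
      rfl
    change ((LinearMap.ker h.hom).liftQ s.π.hom hker) ((h.hom.quotKerEquivOfSurjective hs).symm (h.hom n)) = _
    rw [h2]
    rfl
  refine ⟨ModuleCat.ofHom d, ?_, ?_⟩
  · ext n
    exact hd n
  · intro m hm
    ext n
    obtain ⟨n', rfl⟩ := hs n
    refine Eq.trans ?_ (hd n').symm
    exact congrArg (fun u => u.hom n') hm

/-- A coequalizer is surjective with kernel the range of `f - g`. -/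
theorem colim_mod {A B C : ModuleCat.{0} R} (f g : A ⟶ B) (h : B ⟶ C) (w : f ≫ h = g ≫ h)
    (hc : IsColimit (Cofork.ofπ h w)) :
    Function.Surjective h.hom ∧ ∀ n, h.hom n = 0 → ∃ m, n = f.hom m - g.hom m := by
  constructor
  · have he : Epi h := epi_of_isColimit_cofork hc
    exact (ModuleCat.epi_iff_surjective h).1 he
  · intro n hn
    let q := (LinearMap.range (f.hom - g.hom)).mkQ
    have hq : f ≫ ModuleCat.ofHom q = g ≫ ModuleCat.ofHom q := by
      ext m
      have h1 : q (f.hom m - g.hom m) = 0 := by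
        rw [← LinearMap.mem_ker, Submodule.ker_mkQ]
        exact ⟨m, rfl⟩
      rw [map_sub] at h1
      exact sub_eq_zero.1 h1
    have h2 := Cofork.IsColimit.π_desc' hc (ModuleCat.ofHom q) hq
    have h3 : q n = 0 := by
      have h4 := congrArg (fun u => u.hom n) h2
      refine h4.symm.trans ?_
      change (Cofork.IsColimit.desc hc (ModuleCat.ofHom q) hq).hom (h.hom n) = 0
      rw [hn, map_zero]
    rw [← LinearMap.mem_ker, Submodule.ker_mkQ] at h3
    obtain ⟨m, hm⟩ := h3
    exact ⟨m, hm.symm⟩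

end

/-- The components of an isomorphism of quasi-coherent sheaves are bijective. -/
theorem iso_bij {T : Fib} {M N : QSh T} (e : M ≅ N) {R : Type} [CommRing R] (t : T.Obj R) :
    Function.Bijective (QSh.Hom.app e.hom t).app := by
  constructor
  · intro m n h
    have h1 : ∀ m, (QSh.Hom.app e.inv t).app ((QSh.Hom.app e.hom t).app m) = m := fun m =>
      congrArg (fun u : QSh.Hom M M => (u.app t).app m) e.hom_inv_id
    rw [← h1 m, ← h1 n, h]
  · intro n
    exact ⟨(QSh.Hom.app e.inv t).app n, congrArg (fun u : QSh.Hom N N => (u.app t).app n) e.inv_hom_id⟩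

end H989

section

variable {X T : Fib} (F : CTF X T) {R : Type} [CommRing R] (t : T.Obj R)

variable {M N P Q M' N' : QSh X}

lemma Vm_id (m : Vs F t M) : Vm F t (QSh.Hom.id M) m = m :=
  congrArg (fun u : QSh.Hom (F.F.obj M) (F.F.obj M) => (u.app t).app m) (F.F.map_id M)

lemma Vm_comp (a : QSh.Hom M N) (b : QSh.Hom N P) (m : Vs F t M) :
    Vm F t (a.comp b) m = Vm F t b (Vm F t a m) :=
  congrArg (fun u : QSh.Hom (F.F.obj M) (F.F.obj P) => (u.app t).app m) (F.F.map_comp a b)

lemma Vm_add {a b c : QSh.Hom M N} (h : QSh.IsSum a b c) (m : Vs F t M) :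
    Vm F t c m = Vm F t a m + Vm F t b m := F.add h t m

lemma bx_nat (a : QSh.Hom M M') (b : QSh.Hom N N') (m : Vs F t M) (n : Vs F t N) :
    Vm F t (a.tens b) (bx F t m n) = bx F t (Vm F t a m) (Vm F t b n) :=
  (congrArg (fun u : QSh.Hom ((F.F.obj M).tens (F.F.obj N)) (F.F.obj (M'.tens N')) =>
    (u.app t).app (m ⊗ₜ[R] n)) (Functor.LaxMonoidal.μ_natural F.F a b)).symm

lemma bx_lunit (m : Vs F t M) : Vm F t (QSh.lunitHom M) (bx F t (v1 F t) m) = m := by
  have h := congrArg (fun u : QSh.Hom ((QSh.unit T).tens (F.F.obj M)) (F.F.obj M) =>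
    (u.app t).app ((1 : R) ⊗ₜ[R] m)) (Functor.LaxMonoidal.left_unitality F.F M)
  refine h.symm.trans ?_
  exact one_smul R m

lemma bx_runit (m : Vs F t M) : Vm F t (QSh.runitHom M) (bx F t m (v1 F t)) = m := by
  have h := congrArg (fun u : QSh.Hom ((F.F.obj M).tens (QSh.unit T)) (F.F.obj M) =>
    (u.app t).app (m ⊗ₜ[R] (1 : R))) (Functor.LaxMonoidal.right_unitality F.F M)
  refine h.symm.trans ?_
  exact one_smul R m

lemma bx_symm (m : Vs F t M) (n : Vs F t N) :
    Vm F t (QSh.symmHom M N) (bx F t m n) = bx F t n m :=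
  congrArg (fun u : QSh.Hom ((F.F.obj M).tens (F.F.obj N)) (F.F.obj (N.tens M)) =>
    (u.app t).app (m ⊗ₜ[R] n)) (Functor.LaxBraided.braided (F := F.F) M N)

lemma bx_assoc (m : Vs F t M) (n : Vs F t N) (p : Vs F t P) :
    Vm F t (QSh.assocHom M N P) (bx F t (bx F t m n) p) = bx F t m (bx F t n p) :=
  congrArg (fun u : QSh.Hom (((F.F.obj M).tens (F.F.obj N)).tens (F.F.obj P))
    (F.F.obj (M.tens (N.tens P))) => (u.app t).app ((m ⊗ₜ[R] n) ⊗ₜ[R] p))
      (Functor.LaxMonoidal.associativity F.F M N P)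

lemma bx_bij : Function.Bijective (TensorProduct.lift (bx F t (M := M) (N := N))) := by
  have h : TensorProduct.lift (bx F t (M := M) (N := N)) =
      (QSh.Hom.app (Functor.LaxMonoidal.μ F.F M N) t).lin := by
    refine TensorProduct.ext' fun m n => ?_
    rw [TensorProduct.lift.tmul]
    rfl
  rw [h]
  exact H989.iso_bij (Functor.Monoidal.μIso F.F M N) t

lemma v1_bij : Function.Bijective (fun r : R => r • v1 F t) := by
  have h : (fun r : R => r • v1 F t) = (QSh.Hom.app (Functor.LaxMonoidal.ε F.F) t).app := by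
    funext r
    refine (((QSh.Hom.app (Functor.LaxMonoidal.ε F.F) t).lin.map_smul r (1 : R)).symm).trans ?_
    exact congrArg (QSh.Hom.app (Functor.LaxMonoidal.ε F.F) t).app (mul_one r)
  rw [h]
  exact H989.iso_bij (Functor.Monoidal.εIso F.F) t

open CategoryTheory.Limits in
/-- Cocontinuous functors preserve exactness. -/
theorem Vm_exact (a b : QSh.Hom M N) (c : QSh.Hom N Q)
    (hs : ∀ {S : Type} [CommRing S] (x : X.Obj S), Function.Surjective (c.app x).app)
    (hab : ∀ {S : Type} [CommRing S] (x : X.Obj S) (m : (M.sec x).carrier),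
      (c.app x).app ((a.app x).app m) = (c.app x).app ((b.app x).app m))
    (hk : ∀ {S : Type} [CommRing S] (x : X.Obj S) (n : (N.sec x).carrier),
      (c.app x).app n = 0 → ∃ m, n = (a.app x).app m - (b.app x).app m) :
    Function.Surjective (Vm F t c) ∧
      ∀ n : Vs F t N, Vm F t c n = 0 → ∃ m, n = Vm F t a m - Vm F t b m := by
  let a' : M ⟶ N := a
  let b' : M ⟶ N := b
  let c' : N ⟶ Q := c
  have w : a' ≫ c' = b' ≫ c' := QSh.hom_ext _ _ hab
  have h1 : ∀ {S : Type} [CommRing S] (x : X.Obj S),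
      Nonempty (IsColimit ((QSh.ev x).mapCocone (Cofork.ofπ c' w))) := by
    intro S _ x
    obtain ⟨h2⟩ := H989.mod_colim ((QSh.ev x).map a') ((QSh.ev x).map b') ((QSh.ev x).map c')
      (by rw [← Functor.map_comp, w, Functor.map_comp]) (hs x) (hk x)
    exact ⟨(isColimitMapCoconeCoforkEquiv (QSh.ev x) w).symm h2⟩
  have h3 : IsColimit (Cofork.ofπ c' w) := isColimitOfEv _ fun x => (h1 x).some
  have h4 := isColimitCoforkMapOfIsColimit F.F w h3
  have h5 := isColimitCoforkMapOfIsColimit (QSh.ev t) _ h4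
  exact H989.colim_mod _ _ _ _ h5

end

end Pool.Agent.TH165.Tan
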