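import Mathlib

/-!
# Minkowski's integral inequality
-/

set_option autoImplicit false

namespace Pool.Agent.TH989.FN

open MeasureTheory Set
open scoped ENNReal

theorem minkowski {X Y : Type*} [MeasurableSpace X] [MeasurableSpace Y] {μ : Measure X}
    {ν : Measure Y} [SigmaFinite μ] [SigmaFinite ν] (p : ℝ) (hp : 1 ≤ p) (h : X → Y → ℝ≥0∞)
    (hm : Measurable (Function.uncurry h)) :
    (∫⁻ x, (∫⁻ y, h x y ∂ν) ^ p ∂μ) ^ (1 / p) ≤ ∫⁻ y, (∫⁻ x, h x y ^ p ∂μ) ^ (1 / p) ∂ν := by
  rcases hp.eq_or_lt with rfl | hp1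
  · simp only [ENNReal.rpow_one, div_one]
    exact le_of_eq (lintegral_lintegral_swap hm.aemeasurable)
  have hp0 : 0 < p := by linarith
  set q : ℝ := p / (p - 1) with hq
  have hpq : p.HolderConjugate q := Real.HolderConjugate.conjExponent hp1
  have hq0 : 0 < q := hpq.symm.pos
  have hpp : (p - 1) * q = p := by rw [hq]; field_simp [(by linarith : p - 1 ≠ 0)]
  set R : ℝ≥0∞ := ∫⁻ y, (∫⁻ x, h x y ^ p ∂μ) ^ (1 / p) ∂ν with hR
  set I : X → ℝ≥0∞ := fun x => ∫⁻ y, h x y ∂ν with hI
  have hIm : Measurable I := hm.lintegral_prod_right'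
  let G : ℕ → X → ℝ≥0∞ := fun N => (spanningSets μ N).indicator (fun x => min (I x) N)
  have hGm : ∀ N, Measurable (G N) := fun N =>
    (hIm.min measurable_const).indicator (measurableSet_spanningSets μ N)
  have hGI : ∀ N x, G N x ≤ I x := by
    intro N x
    show (spanningSets μ N).indicator (fun x => min (I x) N) x ≤ I x
    by_cases hx : x ∈ spanningSets μ N
    · rw [indicator_of_mem hx]; exact min_le_left _ _
    · rw [indicator_of_notMem hx]; exact zero_le
  have hGN : ∀ N x, G N x ≤ (spanningSets μ N).indicator (fun _ => (N : ℝ≥0∞)) x := by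
    intro N x
    show (spanningSets μ N).indicator (fun x => min (I x) N) x ≤ _
    exact indicator_le_indicator (min_le_right _ _)
  have hsl : ∀ y, Measurable fun x => h x y := fun y => hm.comp measurable_prodMk_right
  have hsr : ∀ x, Measurable fun y => h x y := fun x => hm.comp measurable_prodMk_left
  -- the key inequality
  have key : ∀ N, ∫⁻ x, G N x ^ p ∂μ ≤ R ^ p := by
    intro N
    set A : ℝ≥0∞ := ∫⁻ x, G N x ^ p ∂μ with hA
    have hAtop : A ≠ ∞ := by
      have h1 : A ≤ ∫⁻ x, (spanningSets μ N).indicator (fun _ => (N : ℝ≥0∞) ^ p) x ∂μ := by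
        refine lintegral_mono fun x => ?_
        refine (ENNReal.rpow_le_rpow (hGN N x) hp0.le).trans (le_of_eq ?_)
        by_cases hx : x ∈ spanningSets μ N
        · rw [indicator_of_mem hx, indicator_of_mem hx]
        · rw [indicator_of_notMem hx, indicator_of_notMem hx, ENNReal.zero_rpow_of_pos hp0]
      refine ne_top_of_le_ne_top ?_ h1
      rw [lintegral_indicator (measurableSet_spanningSets μ N), lintegral_const,
        Measure.restrict_apply_univ]
      exact ENNReal.mul_ne_top (ENNReal.rpow_ne_top_of_nonneg hp0.le (ENNReal.natCast_ne_top N))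
        (measure_spanningSets_lt_top μ N).ne
    have hAq : A ^ (1 / q) ≠ ∞ := ENNReal.rpow_ne_top_of_nonneg (by positivity) hAtop
    have h1 : A ≤ R * A ^ (1 / q) := by
      calc A ≤ ∫⁻ x, G N x ^ (p - 1) * ∫⁻ y, h x y ∂ν ∂μ := by
            refine lintegral_mono fun x => ?_
            have e : G N x ^ p = G N x ^ (p - 1) * G N x := by
              conv_lhs => rw [show p = (p - 1) + 1 by ring]
              rw [ENNReal.rpow_add_of_nonneg _ _ (by linarith) zero_le_one, ENNReal.rpow_one]
            rw [e]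
            exact mul_le_mul_right (hGI N x) _
        _ = ∫⁻ x, ∫⁻ y, G N x ^ (p - 1) * h x y ∂ν ∂μ := by
            refine lintegral_congr fun x => ?_
            rw [lintegral_const_mul _ (hsr x)]
        _ = ∫⁻ y, ∫⁻ x, G N x ^ (p - 1) * h x y ∂μ ∂ν := by
            refine lintegral_lintegral_swap ?_
            exact ((((hGm N).pow_const _).comp measurable_fst).mul hm).aemeasurable
        _ ≤ ∫⁻ y, (∫⁻ x, h x y ^ p ∂μ) ^ (1 / p) * A ^ (1 / q) ∂ν := by
            refine lintegral_mono fun y => ?_
            have e := ENNReal.lintegral_mul_le_Lp_mul_Lq μ hpq (hsl y).aemeasurable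
              ((hGm N).pow_const (p - 1)).aemeasurable
            refine le_trans (le_of_eq (lintegral_congr fun x => ?_)) (e.trans (le_of_eq ?_))
            · rw [Pi.mul_apply, mul_comm]
            · congr 3
              funext x
              rw [← ENNReal.rpow_mul, hpp]
        _ = R * A ^ (1 / q) := by rw [lintegral_mul_const' _ _ hAq]
    by_cases hA0 : A = 0
    · rw [hA0]; exact zero_le
    have hAq0 : A ^ (1 / q) ≠ 0 := by
      intro h0
      rcases (ENNReal.rpow_eq_zero_iff).1 h0 with h2 | h2
      · exact hA0 h2.1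
      · exact hAtop h2.1
    have h2 : A ^ (1 / p) ≤ R := by
      have e : A = A ^ (1 / p) * A ^ (1 / q) := by
        rw [← ENNReal.rpow_add_of_nonneg _ _ (by positivity) (by positivity)]
        have : 1 / p + 1 / q = 1 := by
          simpa [one_div] using hpq.inv_add_inv_eq_one
        rw [this, ENNReal.rpow_one]
      have h3 : A ^ (1 / p) * A ^ (1 / q) ≤ R * A ^ (1 / q) := by rw [← e]; exact h1
      exact (ENNReal.mul_le_mul_iff_left hAq0 hAq).1 h3
    calc A = (A ^ (1 / p)) ^ p := by
          rw [← ENNReal.rpow_mul, one_div_mul_cancel hp0.ne', ENNReal.rpow_one]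
      _ ≤ R ^ p := ENNReal.rpow_le_rpow h2 hp0.le
  have hlim : Filter.Tendsto (fun N => ∫⁻ x, G N x ^ p ∂μ) Filter.atTop
      (nhds (∫⁻ x, I x ^ p ∂μ)) := by
    refine lintegral_tendsto_of_tendsto_of_monotone (fun N => ((hGm N).pow_const p).aemeasurable)
      (Filter.Eventually.of_forall fun x => ?_) (Filter.Eventually.of_forall fun x => ?_)
    · intro N M hNM
      refine ENNReal.rpow_le_rpow ?_ hp0.le
      show (spanningSets μ N).indicator (fun x => min (I x) N) x ≤
        (spanningSets μ M).indicator (fun x => min (I x) M) x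
      by_cases hx : x ∈ spanningSets μ N
      · rw [indicator_of_mem hx, indicator_of_mem (monotone_spanningSets μ hNM hx)]
        exact min_le_min le_rfl (by exact_mod_cast hNM)
      · rw [indicator_of_notMem hx]; exact zero_le
    · refine (ENNReal.continuous_rpow_const.tendsto _).comp ?_
      have h1 : Filter.Tendsto (fun N : ℕ => min (I x) (N : ℝ≥0∞)) Filter.atTop
          (nhds (I x)) := by
        have := (tendsto_const_nhds (x := I x)).min ENNReal.tendsto_nat_nhds_top
        rwa [min_eq_left le_top] at this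
      refine h1.congr' ?_
      filter_upwards [Filter.eventually_ge_atTop (spanningSetsIndex μ x)] with N hN
      exact (indicator_of_mem (mem_spanningSets_of_index_le μ x hN) (fun x => min (I x) (N : ℝ≥0∞))).symm
  have hfin : ∫⁻ x, I x ^ p ∂μ ≤ R ^ p := le_of_tendsto' hlim key
  calc (∫⁻ x, I x ^ p ∂μ) ^ (1 / p) ≤ (R ^ p) ^ (1 / p) :=
        ENNReal.rpow_le_rpow hfin (by positivity)
    _ = R := by rw [← ENNReal.rpow_mul, mul_one_div_cancel hp0.ne', ENNReal.rpow_one]

end Pool.Agent.TH989.FN
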