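import Mathlib
import Pool.Agent.Helper113.Gorin.Defs

set_option autoImplicit false

open Metric Set Topology H113G

namespace Pool.Agent.TH989.J177

open Polynomial in
/-- clearing denominators in a polynomial -/
theorem clear {R K : Type*} [CommRing R] [IsDomain R] [Field K] [Algebra R K] [IsFractionRing R K]
    (Q : K[X]) : ∃ (c : R) (q : R[X]), c ≠ 0 ∧
      q.map (algebraMap R K) = C (algebraMap R K c) * Q := by
  obtain ⟨b, hb, h⟩ := IsLocalization.integerNormalization_spec (nonZeroDivisors R) (S := K) Q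
  refine ⟨b, IsLocalization.integerNormalization (nonZeroDivisors R) Q,
    nonZeroDivisors.ne_zero hb, ?_⟩
  rw [h, ← smul_eq_C_mul, algebraMap_smul]

open Polynomial in
/-- the number of distinct roots is generically constant -/
theorem alg_part {k : ℕ} (F : (MvPolynomial (Fin k) ℂ)[X]) (hF : F ≠ 0) :
    ∃ Δ : MvPolynomial (Fin k) ℂ, Δ ≠ 0 ∧ ∃ d : ℕ, ∀ v : Fin k → ℂ,
      MvPolynomial.eval v Δ ≠ 0 → ∃ s : Finset ℂ, s.card = d ∧
        ∀ t : ℂ, (F.map (MvPolynomial.eval v)).eval t = 0 ↔ t ∈ s := by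
  classical
  set R := MvPolynomial (Fin k) ℂ with hR
  let K := FractionRing R
  have hinj : Function.Injective (Polynomial.map (algebraMap R K)) :=
    Polynomial.map_injective _ (IsFractionRing.injective R K)
  have hFK : F.map (algebraMap R K) ≠ 0 := by
    intro h
    exact hF (hinj (by simpa using h))
  let P : K[X] := UniqueFactorizationMonoid.radical (F.map (algebraMap R K))
  have hP : P ≠ 0 := UniqueFactorizationMonoid.radical_ne_zero
  have hsq : Squarefree P := UniqueFactorizationMonoid.squarefree_radical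
  have : CharZero K := by
    have : CharZero R := by infer_instance
    exact charZero_of_injective_algebraMap (IsFractionRing.injective R K)
  have hsep : P.Separable := PerfectField.separable_iff_squarefree.2 hsq
  obtain ⟨H, hH⟩ : P ∣ F.map (algebraMap R K) := UniqueFactorizationMonoid.radical_dvd_self
  obtain ⟨n, H', hH'⟩ := UniqueFactorizationMonoid.exists_dvd_radical_self_pow hFK
  change P ^ n = _ at hH'
  obtain ⟨a, b, hab⟩ := hsep
  obtain ⟨c0, G, hc0, hG⟩ := clear (R := R) P
  obtain ⟨c1, H1, hc1, hH1⟩ := clear (R := R) H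
  obtain ⟨c2, H2, hc2, hH2⟩ := clear (R := R) H'
  obtain ⟨ca, A, hca, hA⟩ := clear (R := R) a
  obtain ⟨cb, B, hcb, hB⟩ := clear (R := R) b
  have hG0 : G ≠ 0 := by
    rintro rfl
    simp only [Polynomial.map_zero] at hG
    have : (C (algebraMap R K c0) : K[X]) ≠ 0 := by
      simpa using hc0
    exact (mul_ne_zero this hP) hG.symm
  -- first relation
  have r1 : C (c0 * c1) * F = G * H1 := by
    apply hinj
    simp only [Polynomial.map_mul, Polynomial.map_C, map_mul, hG, hH1, hH]
    ring
  have r2 : C c2 * G ^ n = F * (C (c0 ^ n) * H2) := by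
    apply hinj
    simp only [Polynomial.map_mul, Polynomial.map_C, hG, hH2, Polynomial.map_pow,
      map_pow, mul_pow, hH']
    ring
  have hG' : (derivative G).map (algebraMap R K) = C (algebraMap R K c0) * derivative P := by
    rw [← derivative_map, hG, derivative_C_mul]
  have r3 : C cb * A * G + C ca * B * derivative G = C (c0 * ca * cb) := by
    apply hinj
    simp only [Polynomial.map_mul, Polynomial.map_C, map_mul, hG, hG', hA, hB,
      Polynomial.map_add]
    have : (C (algebraMap R K c0) * C (algebraMap R K ca) * C (algebraMap R K cb) : K[X])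
        = C (algebraMap R K c0) * C (algebraMap R K ca) * C (algebraMap R K cb) *
          (a * P + b * derivative P) := by
      rw [hab, mul_one]
    rw [this]
    ring
  refine ⟨c0 * c1 * c2 * ca * cb * G.leadingCoeff, ?_, G.natDegree, ?_⟩
  · simp [hc0, hc1, hc2, hca, hcb, hG0]
  · intro v hv
    simp only [map_mul, mul_ne_zero_iff] at hv
    obtain ⟨⟨⟨⟨⟨h0, h1⟩, h2⟩, ha⟩, hb⟩, hl⟩ := hv
    set φ : R →+* ℂ := MvPolynomial.eval v with hφ
    have hsepv : (G.map φ).Separable := by
      have := congrArg (Polynomial.map φ) r3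
      simp only [Polynomial.map_mul, Polynomial.map_C, map_mul, Polynomial.map_add] at this
      refine ⟨C ((φ c0 * φ ca * φ cb)⁻¹) * (C (φ cb) * A.map φ),
        C ((φ c0 * φ ca * φ cb)⁻¹) * (C (φ ca) * B.map φ), ?_⟩
      rw [derivative_map]
      have e : C ((φ c0 * φ ca * φ cb)⁻¹) * (C (φ cb) * A.map φ) * G.map φ +
          C ((φ c0 * φ ca * φ cb)⁻¹) * (C (φ ca) * B.map φ) * (derivative G).map φ
          = C ((φ c0 * φ ca * φ cb)⁻¹) * (C (φ cb) * A.map φ * G.map φ +
            C (φ ca) * B.map φ * (derivative G).map φ) := by ring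
      rw [e, this, ← C_mul, ← C_mul, ← C_mul, inv_mul_cancel₀, C_1]
      exact mul_ne_zero (mul_ne_zero h0 ha) hb
    refine ⟨(G.map φ).roots.toFinset, ?_, ?_⟩
    · rw [Multiset.toFinset_card_of_nodup (nodup_roots hsepv)]
      exact IsAlgClosed.card_roots_map_eq_natDegree_of_leadingCoeff_ne_zero hl
    · intro t
      have hGv : G.map φ ≠ 0 := by
        intro h
        have := hsepv.ne_zero
        exact this h
      rw [Multiset.mem_toFinset, mem_roots hGv, IsRoot.def]
      have e1 := congrArg (fun p => (Polynomial.map φ p).eval t) r1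
      have e2 := congrArg (fun p => (Polynomial.map φ p).eval t) r2
      simp only [Polynomial.map_mul, Polynomial.map_C, eval_mul, eval_C, Polynomial.map_pow,
        eval_pow, map_mul, map_pow] at e1 e2
      constructor
      · intro h
        rw [h, zero_mul] at e2
        rcases mul_eq_zero.1 e2 with h' | h'
        · exact absurd h' h2
        · exact (pow_eq_zero_iff (by rintro rfl; simp at h')).1 h'
      · intro h
        rw [h, zero_mul] at e1
        rcases mul_eq_zero.1 e1 with h' | h'
        · exact absurd h' (mul_ne_zero h0 h1)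
        · exact h'

/-- the polynomial `δ (t v)` in `t` -/
noncomputable def lineP {k : ℕ} (δ : MvPolynomial (Fin k) ℂ) :
    Polynomial (MvPolynomial (Fin k) ℂ) :=
  MvPolynomial.aeval (fun i => Polynomial.C (MvPolynomial.X i) * Polynomial.X) δ

theorem lineP_eval {k : ℕ} (δ : MvPolynomial (Fin k) ℂ) (v : Fin k → ℂ) (t : ℂ) :
    ((lineP δ).map (MvPolynomial.eval v)).eval t = MvPolynomial.eval (t • v) δ := by
  unfold lineP
  induction δ using MvPolynomial.induction_on with
  | C a =>
    simp only [MvPolynomial.algHom_C, MvPolynomial.eval_C]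
    rw [Polynomial.algebraMap_apply, Polynomial.map_C, Polynomial.eval_C,
      MvPolynomial.algebraMap_eq, MvPolynomial.eval_C]
  | add p q hp hq => simp only [map_add, Polynomial.map_add, Polynomial.eval_add, hp, hq]
  | mul_X p i hp =>
    simp only [map_mul, Polynomial.map_mul, Polynomial.eval_mul, hp, MvPolynomial.aeval_X,
      Polynomial.map_C, Polynomial.map_X, Polynomial.eval_C, Polynomial.eval_X,
      MvPolynomial.eval_X, Pi.smul_apply, smul_eq_mul]
    ring

/-- a zero persists under small perturbations -/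
theorem zero_near {k : ℕ} (f : (Fin k → ℂ) → ℂ → ℂ)
    (hf : Continuous (fun p : (Fin k → ℂ) × ℂ => f p.1 p.2))
    (hd : ∀ v, Differentiable ℂ (f v)) (v₁ : Fin k → ℂ) (a : ℂ) (ha : f v₁ a = 0)
    (r : ℝ) (hr : 0 < r) (hz : ∀ t, t ∈ sphere a r → f v₁ t ≠ 0) :
    ∀ᶠ v in 𝓝 v₁, ∃ t ∈ closedBall a r, f v t = 0 := by
  -- the minimum of `|f v₁|` on the circle
  have hcs : IsCompact (sphere a r) := isCompact_sphere a r
  have hne : (sphere a r).Nonempty := NormedSpace.sphere_nonempty.2 hr.le
  obtain ⟨t₀, ht₀, hmin⟩ := hcs.exists_isMinOn hne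
    (f := fun t => ‖f v₁ t‖) (((hd v₁).continuous.norm).continuousOn)
  set c := ‖f v₁ t₀‖ with hc
  have hcpos : 0 < c := norm_pos_iff.2 (hz t₀ ht₀)
  have hU : ∀ᶠ v in 𝓝 v₁, ∀ t ∈ sphere a r, c / 2 < ‖f v t‖ := by
    have : ∀ t ∈ sphere a r, ∀ᶠ p : (Fin k → ℂ) × ℂ in 𝓝 v₁ ×ˢ 𝓝 t, c / 2 < ‖f p.1 p.2‖ := by
      intro t ht
      have h1 : c ≤ ‖f v₁ t‖ := hmin ht
      have h2 : c / 2 < ‖f v₁ t‖ := by linarith
      have h3 : Filter.Tendsto (fun p : (Fin k → ℂ) × ℂ => ‖f p.1 p.2‖) (𝓝 v₁ ×ˢ 𝓝 t)
          (𝓝 ‖f v₁ t‖) := by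
        rw [← nhds_prod_eq]
        exact (hf.norm.tendsto (v₁, t))
      exact h3.eventually (lt_mem_nhds h2)
    have h4 := hcs.eventually_forall_of_forall_eventually (x₀ := v₁)
      (P := fun v t => c / 2 < ‖f v t‖) (by
        intro t ht
        rw [nhds_prod_eq]
        exact this t ht)
    exact h4
  have hV : ∀ᶠ v in 𝓝 v₁, ‖f v a‖ < c / 2 := by
    have h3 : Filter.Tendsto (fun v => ‖f v a‖) (𝓝 v₁) (𝓝 ‖f v₁ a‖) := by
      have : Continuous (fun v => ‖f v a‖) := by
        have h5 : Continuous (fun v : Fin k → ℂ => (v, a)) := by fun_prop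
        exact (hf.comp h5).norm
      exact this.tendsto v₁
    rw [ha, norm_zero] at h3
    exact h3.eventually (gt_mem_nhds (by linarith))
  filter_upwards [hU, hV] with v h1 h2
  by_contra hcon
  push Not at hcon
  -- `1/f v` is holomorphic on the closed disc
  have hdiff : DiffContOnCl ℂ (fun t => (f v t)⁻¹) (ball a r) := by
    refine ⟨?_, ?_⟩
    · exact ((hd v).differentiableOn).inv (fun t ht => hcon t (ball_subset_closedBall ht))
    · rw [closure_ball a hr.ne']
      exact ((hd v).continuous.continuousOn).inv₀ (fun t ht => hcon t ht)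
  have hle := Complex.norm_le_of_forall_mem_frontier_norm_le (isBounded_ball)
    hdiff (C := 2 / c) (by
      intro z hz'
      rw [frontier_ball a hr.ne'] at hz'
      have := h1 z hz'
      rw [norm_inv, inv_le_comm₀ (by linarith) (by positivity)]
      rw [inv_div]
      exact this.le) (z := a) (by rw [closure_ball a hr.ne']; exact mem_closedBall_self hr.le)
  rw [norm_inv] at hle
  have hpos : 0 < ‖f v a‖ := norm_pos_iff.2 (hcon a (mem_closedBall_self hr.le))
  rw [inv_le_comm₀ hpos (by positivity), inv_div] at hle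
  linarith

/-- Job E: the zeros of `t ↦ δ (t v)` are stable for `v` outside a hypersurface. -/
theorem exists_rootStable {k : ℕ} (δ : MvPolynomial (Fin k) ℂ)
    (h0 : MvPolynomial.eval (0 : Fin k → ℂ) δ ≠ 0) :
    ∃ Δ : MvPolynomial (Fin k) ℂ, Δ ≠ 0 ∧
      ∀ v : Fin k → ℂ, MvPolynomial.eval v Δ ≠ 0 → RootStable δ v := by
  classical
  have hF : lineP δ ≠ 0 := by
    intro h
    have := lineP_eval δ 0 0
    rw [h] at this
    simp only [Polynomial.map_zero, Polynomial.eval_zero, smul_zero] at this
    exact h0 this.symm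
  obtain ⟨Δ, hΔ, d, hd⟩ := alg_part (lineP δ) hF
  refine ⟨Δ, hΔ, fun v₁ hv₁ => ?_⟩
  have key : ∀ v, MvPolynomial.eval v Δ ≠ 0 → ∃ s : Finset ℂ, s.card = d ∧
      ∀ t : ℂ, MvPolynomial.eval (t • v) δ = 0 ↔ t ∈ s := by
    intro v hv
    obtain ⟨s, hs, h⟩ := hd v hv
    refine ⟨s, hs, fun t => ?_⟩
    rw [← lineP_eval]
    exact h t
  obtain ⟨s, hs, hroots⟩ := key v₁ hv₁
  let a : Fin d → ℂ := fun i => (s.equivFin.symm (Fin.cast hs.symm i)).1
  have ha_inj : Function.Injective a := by
    intro i j hij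
    have := s.equivFin.symm.injective (Subtype.ext hij)
    exact Fin.cast_injective _ this
  have ha_mem : ∀ t, t ∈ s ↔ ∃ i, t = a i := by
    intro t
    constructor
    · intro ht
      refine ⟨Fin.cast hs (s.equivFin ⟨t, ht⟩), ?_⟩
      simp [a]
    · rintro ⟨i, rfl⟩
      exact (s.equivFin.symm (Fin.cast hs.symm i)).2
  refine ⟨d, a, ha_inj, fun t => (hroots t).trans (ha_mem t), ?_⟩
  intro ρ hρ
  -- a radius which isolates the roots
  obtain ⟨η, hη, hηsep⟩ : ∃ η : ℝ, 0 < η ∧ ∀ i j, i ≠ j → 2 * η < ‖a i - a j‖ := by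
    rcases Nat.lt_or_ge 0 d with hd0 | hd0
    · have : Nonempty (Fin d) := ⟨⟨0, hd0⟩⟩
      by_cases hne : (Finset.univ.filter (fun p : Fin d × Fin d => p.1 ≠ p.2)).Nonempty
      · obtain ⟨p, hp, hpmin⟩ := Finset.exists_min_image _
          (fun p : Fin d × Fin d => ‖a p.1 - a p.2‖) hne
        simp only [Finset.mem_filter, Finset.mem_univ, true_and] at hp hpmin
        have hpos : 0 < ‖a p.1 - a p.2‖ := norm_pos_iff.2 (sub_ne_zero.2 (fun h => hp (ha_inj h)))
        refine ⟨‖a p.1 - a p.2‖ / 4, by positivity, ?_⟩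
        intro i j hij
        have := hpmin (i, j) hij
        simp only at this
        linarith
      · refine ⟨1, one_pos, ?_⟩
        intro i j hij
        exact absurd ⟨(i, j), by simpa using hij⟩ hne
    · refine ⟨1, one_pos, ?_⟩
      intro i
      exact absurd i.2 (by omega)
  set r := min (ρ / 2) η with hr
  have hrpos : 0 < r := lt_min (by linarith) hη
  let f : (Fin k → ℂ) → ℂ → ℂ := fun v t => MvPolynomial.eval (t • v) δ
  have hfc : Continuous (fun p : (Fin k → ℂ) × ℂ => f p.1 p.2) := by
    have : Continuous (fun p : (Fin k → ℂ) × ℂ => p.2 • p.1) := by fun_prop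
    exact (MvPolynomial.continuous_eval δ).comp this
  have hfd : ∀ v, Differentiable ℂ (f v) := by
    intro v
    have : f v = fun t => ((lineP δ).map (MvPolynomial.eval v)).eval t := by
      funext t
      rw [lineP_eval]
    rw [this]
    exact Polynomial.differentiable _
  have hnear : ∀ i : Fin d, ∀ᶠ v in 𝓝 v₁, ∃ t ∈ closedBall (a i) r, f v t = 0 := by
    intro i
    refine zero_near f hfc hfd v₁ (a i) ?_ r hrpos ?_
    · exact (hroots (a i)).2 ((ha_mem _).2 ⟨i, rfl⟩)
    · intro t ht h
      obtain ⟨j, rfl⟩ := (ha_mem t).1 ((hroots t).1 h)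
      rw [mem_sphere, dist_eq_norm] at ht
      by_cases hij : j = i
      · subst hij
        simp at ht
        exact hrpos.ne' ht.symm
      · have h1 := hηsep j i hij
        have h2 : r ≤ η := min_le_right _ _
        linarith
  have hΔopen : ∀ᶠ v in 𝓝 v₁, MvPolynomial.eval v Δ ≠ 0 :=
    (MvPolynomial.continuous_eval Δ).continuousAt.eventually_ne hv₁
  have hall : ∀ᶠ v in 𝓝 v₁, (∀ i : Fin d, ∃ t ∈ closedBall (a i) r, f v t = 0) ∧
      MvPolynomial.eval v Δ ≠ 0 := (Filter.eventually_all.2 hnear).and hΔopen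
  obtain ⟨ε, hε, hball⟩ := Metric.eventually_nhds_iff_ball.1 hall
  refine ⟨ε, hε, fun v hv => ?_⟩
  obtain ⟨h1, h2⟩ := hball v hv
  choose b hb1 hb2 using h1
  have hb_dist : ∀ i, ‖b i - a i‖ ≤ r := by
    intro i
    have := hb1 i
    rwa [mem_closedBall, dist_eq_norm] at this
  refine ⟨b, fun i => ?_, fun t => ?_⟩
  · have h3 : r ≤ ρ / 2 := min_le_left _ _
    have := hb_dist i
    linarith
  · obtain ⟨s', hs', hroots'⟩ := key v h2
    have hb_inj : Function.Injective b := by
      intro i j hij
      by_contra hne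
      have h3 := hηsep i j hne
      have h4 := hb_dist i
      have h5 := hb_dist j
      have h6 : ‖a i - a j‖ ≤ ‖b i - a i‖ + ‖b j - a j‖ := by
        have : a i - a j = -(b i - a i) + (b j - a j) := by rw [hij]; ring
        rw [this]
        refine (norm_add_le _ _).trans ?_
        rw [norm_neg]
      have h7 : r ≤ η := min_le_right _ _
      linarith
    have himg : Finset.univ.image b ⊆ s' := by
      intro x hx
      simp only [Finset.mem_image, Finset.mem_univ, true_and] at hx
      obtain ⟨i, rfl⟩ := hx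
      exact (hroots' _).1 (hb2 i)
    have hcard : (Finset.univ.image b).card = d := by
      rw [Finset.card_image_of_injective _ hb_inj]
      simp
    have heq : Finset.univ.image b = s' := Finset.eq_of_subset_of_card_le himg (by omega)
    rw [hroots' t, ← heq]
    simp only [Finset.mem_image, Finset.mem_univ, true_and]
    constructor
    · rintro ⟨i, rfl⟩
      exact ⟨i, rfl⟩
    · rintro ⟨i, rfl⟩
      exact ⟨i, rfl⟩

end Pool.Agent.TH989.J177
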