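import Pool.Agent.TH313.HI.Space2

/-!
# Bounded unconditional sums in the space `WT` tend to zero (no `c_0`)
-/

set_option autoImplicit false
namespace Pool.Agent.TH989.SC1
open Finset Filter Topology Pool.Agent.TH313.HI

theorem bd_sum {ι : Type*} (s : Finset ι) (x : ι → V) (C : ι → ℝ) (h : ∀ i ∈ s, Bd (C i) (x i)) :
    Bd (∑ i ∈ s, C i) (∑ i ∈ s, x i) := by
  intro t ht a b
  rw [map_sum, map_sum]
  refine (norm_sum_le _ _).trans (Finset.sum_le_sum fun i hi => h i hi t ht a b)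

theorem OnLv_cut' (a b : ℕ) (x : V) : OnLv a b (cut a b x) := by
  intro k g hk
  rw [cut_apply, if_neg (by omega)]

/-- coordinates of a bounded unconditional sum tend to zero -/
theorem coord_tendsto (w : ℕ → WT) (K : ℝ)
    (h : ∀ (I : Finset ℕ) (θ : ℕ → ℝ), (∀ i, |θ i| ≤ 1) → ‖∑ i ∈ I, ((θ i : ℝ) : ℂ) • w i‖ ≤ K)
    (k g : ℕ) : Tendsto (fun i => ‖cw (w i) k g‖) atTop (𝓝 0) := by
  have key : ∀ (I : Finset ℕ) (θ : ℕ → ℝ), (∀ i, |θ i| ≤ 1) →
      ‖∑ i ∈ I, ((θ i : ℝ) : ℂ) * cw (w i) k g‖ ≤ K := by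
    intro I θ hθ
    refine le_trans (le_of_eq ?_) ((norm_cw_le (∑ i ∈ I, ((θ i : ℝ) : ℂ) • w i) k g).trans (h I θ hθ))
    congr 1
    rw [map_sum, Finset.sum_apply, Finset.sum_apply]
    refine Finset.sum_congr rfl fun i _ => ?_
    rw [map_smul]
    rfl
  have hsgn : ∀ x : ℝ, |((SignType.sign x : SignType) : ℝ)| ≤ (1 : ℝ) := by
    intro x
    rcases lt_trichotomy x 0 with hx | hx | hx
    · simp [sign_neg hx]
    · simp [hx]
    · simp [sign_pos hx]
  have hre : Tendsto (fun i => |(cw (w i) k g).re|) atTop (𝓝 0) := by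
    refine Summable.tendsto_atTop_zero (summable_of_sum_le (c := K) (fun _ => abs_nonneg _) fun I => ?_)
    have h1 := key I (fun i => (SignType.sign (cw (w i) k g).re : ℝ)) (fun i => hsgn _)
    refine le_trans ?_ ((Complex.re_le_norm _).trans h1)
    rw [Complex.re_sum]
    refine Finset.sum_le_sum fun i _ => ?_
    rw [Complex.re_ofReal_mul, sign_mul_self]
  have him : Tendsto (fun i => |(cw (w i) k g).im|) atTop (𝓝 0) := by
    refine Summable.tendsto_atTop_zero (summable_of_sum_le (c := K) (fun _ => abs_nonneg _) fun I => ?_)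
    have h1 := key I (fun i => (SignType.sign (cw (w i) k g).im : ℝ)) (fun i => hsgn _)
    refine le_trans ?_ ((Complex.im_le_norm _).trans h1)
    rw [Complex.im_sum]
    refine Finset.sum_le_sum fun i _ => ?_
    rw [Complex.im_ofReal_mul, sign_mul_self]
  have := hre.add him
  rw [add_zero] at this
  exact squeeze_zero (fun _ => norm_nonneg _) (fun i => Complex.norm_le_abs_re_add_abs_im _) this

theorem low_small (w : ℕ → WT) (hc : ∀ k g, Tendsto (fun i => ‖cw (w i) k g‖) atTop (𝓝 0))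
    (N : ℕ) {ε : ℝ} (hε : 0 < ε) : ∃ L, ∀ l ≥ L, Bd ε (cut 0 N (cw (w l))) := by
  rw [← eventually_atTop]
  have h2 : ∀ᶠ l in atTop, ∀ k ∈ range (N + 1), ∀ g ∈ range (2 ^ (k + 2)),
      ‖cw (w l) k g‖ ≤ ε / (N + 1) := by
    rw [Filter.eventually_all_finset]
    intro k hk
    rw [Filter.eventually_all_finset]
    intro g hg
    have h3 := (Metric.tendsto_nhds.1 (hc k g)) (ε / (N + 1)) (by positivity)
    filter_upwards [h3] with l hl
    rw [dist_zero_right, norm_norm] at hl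
    exact hl.le
  filter_upwards [h2] with l hl
  have h3 := bd_of_coord (OnLv_cut' 0 N (cw (w l))) (η := ε / (N + 1)) (by positivity) (by
    intro k _ hk g hg
    rw [cut_apply, if_pos ⟨Nat.zero_le _, hk⟩]
    exact hl k (mem_range.2 (by omega)) g (mem_range.2 hg))
  have h4 : ((N : ℝ) + 1) * (ε / (N + 1)) = ε := by field_simp
  rwa [h4] at h3

/-- windows -/
theorem windows (v : ℕ → WT) (hc : ∀ k g, Tendsto (fun i => ‖cw (v i) k g‖) atTop (𝓝 0))
    {ε : ℝ} (hε : 0 < ε) : ∃ ψ N : ℕ → ℕ, StrictMono ψ ∧ StrictMono N ∧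
      (∀ i, Bd ε (cut 0 (N i) (cw (v (ψ i))))) ∧
      (∀ i i', i' < i → ∀ a b, N i ≤ a → Bd ε (cut a b (cw (v (ψ i'))))) := by
  have hN : ∀ l : ℕ, ∃ N, ∀ l' ≤ l, ∀ a b, N ≤ a → Bd ε (cut a b (cw (v l'))) := by
    intro l
    have h1 : ∀ l', ∃ N, ∀ a b, N ≤ a → Bd ε (cut a b (cw (v l'))) := fun l' => tail _ hε
    choose N hN using h1
    refine ⟨∑ l' ∈ range (l + 1), N l', fun l' hl' a b hab => ?_⟩
    have h2 : N l' ≤ ∑ l' ∈ range (l + 1), N l' :=
      Finset.single_le_sum (f := fun l' => N l') (fun _ _ => Nat.zero_le _) (mem_range.2 (by omega))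
    exact hN l' a b (h2.trans hab)
  choose Nf hNf using hN
  choose Lf hLf using fun N => low_small v hc N hε
  let st : ℕ → ℕ × ℕ := fun i => Nat.rec (Lf 0, 0)
    (fun _ s => (max (s.1 + 1) (Lf (max (s.2 + 1) (Nf s.1))), max (s.2 + 1) (Nf s.1))) i
  have hst : ∀ i, st (i + 1) = (max ((st i).1 + 1) (Lf (max ((st i).2 + 1) (Nf (st i).1))),
      max ((st i).2 + 1) (Nf (st i).1)) := fun _ => rfl
  have hψ : StrictMono fun i => (st i).1 := strictMono_nat_of_lt_succ fun i => by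
    rw [hst]
    exact lt_of_lt_of_le (Nat.lt_succ_self _) (le_max_left _ _)
  have hw : StrictMono fun i => (st i).2 := strictMono_nat_of_lt_succ fun i => by
    rw [hst]
    exact lt_of_lt_of_le (Nat.lt_succ_self _) (le_max_left _ _)
  refine ⟨fun i => (st i).1, fun i => (st i).2, hψ, hw, ?_, ?_⟩
  · intro i
    cases i with
    | zero => exact hLf 0 (Lf 0) le_rfl
    | succ i =>
      refine hLf (st (i + 1)).2 (st (i + 1)).1 ?_
      rw [hst]
      exact le_max_right _ _
  · intro i i' hi a b ha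
    obtain ⟨i, rfl⟩ : ∃ i', i = i' + 1 := ⟨i - 1, by omega⟩
    have h1 : (st i').1 ≤ (st i).1 := hψ.monotone (by omega : i' ≤ i)
    refine hNf (st i).1 (st i').1 h1 a b (le_trans ?_ ha)
    show Nf (st i).1 ≤ (st (i + 1)).2
    rw [hst]
    exact le_max_right _ _

theorem cut_split (α β N N' : ℕ) (hN : N ≤ N') (x : V) : cut α β x =
    cut α β (cut (N + 1) N' x) + (cut α β (cut 0 N x) + cut α β (cut (N' + 1) β x)) := by
  funext k g
  show cut α β x k g = cut α β (cut (N + 1) N' x) k g + (cut α β (cut 0 N x) k g +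
    cut α β (cut (N' + 1) β x) k g)
  simp only [cut_apply]
  by_cases h3 : α ≤ k ∧ k ≤ β
  · simp only [if_pos h3]
    rcases le_or_gt k N with h4 | h4
    · rw [if_neg (by omega), if_pos (by omega), if_neg (by omega), zero_add, add_zero]
    · rcases le_or_gt k N' with h5 | h5
      · rw [if_pos (by omega), if_neg (by omega), if_neg (by omega), add_zero, add_zero]
      · rw [if_neg (by omega), if_neg (by omega), if_pos (by omega), zero_add, zero_add]
  · simp only [if_neg h3, add_zero]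

theorem wuc (w : ℕ → WT) (K : ℝ)
    (h : ∀ (I : Finset ℕ) (θ : ℕ → ℝ), (∀ i, |θ i| ≤ 1) → ‖∑ i ∈ I, ((θ i : ℝ) : ℂ) • w i‖ ≤ K) :
    Tendsto w atTop (𝓝 0) := by
  by_contra hcon
  rw [Metric.tendsto_nhds] at hcon
  push Not at hcon
  obtain ⟨δ, hδ, hfr⟩ := hcon
  obtain ⟨φ, hφ, hφδ⟩ := extraction_of_frequently_atTop hfr
  have hc := coord_tendsto w K h
  have hc' : ∀ k g, Tendsto (fun i => ‖cw (w (φ i)) k g‖) atTop (𝓝 0) :=
    fun k g => (hc k g).comp hφ.tendsto_atTop
  have hK : 0 ≤ K := (norm_nonneg _).trans (h ∅ (fun _ => 0) (fun _ => by simp))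
  -- choose an even index with large weight
  obtain ⟨j, hj⟩ := exists_nat_gt (8 * K / δ)
  have hj2 : 8 * K < δ * mm (2 * j) := by
    have h4 := lt_mm' (2 * j)
    push_cast at h4
    rw [div_lt_iff₀ hδ] at hj
    have : (j : ℝ) * δ ≤ δ * mm (2 * j) := by
      rw [mul_comm]
      refine mul_le_mul_of_nonneg_left ?_ hδ.le
      have : (0 : ℝ) ≤ j := Nat.cast_nonneg _
      linarith
    linarith
  set n := nn (2 * j) with hn
  have hnpos : 0 < (n : ℝ) := by exact_mod_cast nn_pos (2 * j)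
  set ε : ℝ := δ / (4 * (n + 2)) with hε
  have hεpos : 0 < ε := by positivity
  have hεn : (n + 2) * ε = δ / 4 := by rw [hε]; field_simp
  obtain ⟨ψ, N, hψ, hN, hhead, htail⟩ := windows (fun i => w (φ i)) hc' hεpos
  -- the sum
  set X : WT := ∑ i ∈ range n, w (φ (ψ i)) with hX
  have hXK : ‖X‖ ≤ K := by
    have h1 := h ((range n).image fun i => φ (ψ i)) (fun _ => 1) (fun _ => by simp)
    rw [Finset.sum_image (fun i _ i' _ hii' => hψ.injective (hφ.injective hii'))] at h1
    simpa using h1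
  have hcwX : cw X = ∑ i ∈ range n, cw (w (φ (ψ i))) := by rw [hX, map_sum]
  have hv : ∀ i : Fin n, ∃ t : Tr, t.Wf ∧ ∃ α β,
      δ / 4 ≤ ‖ev t (cut α β (cut (N i + 1) (N (i + 1)) (cw X)))‖ := by
    intro i
    -- a norming functional
    have h1 : ¬ Bd (δ / 2) (cw (w (φ (ψ i)))) := by
      intro hb
      have h2 := WT.norm_le (by positivity) hb
      have h3 := hφδ (ψ i)
      rw [dist_zero_right] at h3
      linarith
    unfold Bd at h1
    push Not at h1
    obtain ⟨t, ht, α, β, h1⟩ := h1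
    refine ⟨t, ht, α, β, ?_⟩
    rw [cut_split α β (N i) (N (i + 1)) (hN.monotone (Nat.le_succ _)), map_add, map_add] at h1
    have e1 : ‖ev t (cut α β (cut 0 (N i) (cw (w (φ (ψ i))))))‖ ≤ ε := hhead i t ht _ _
    have e2 : ‖ev t (cut α β (cut (N (i + 1) + 1) β (cw (w (φ (ψ i))))))‖ ≤ ε :=
      htail (i + 1) i (Nat.lt_succ_self _) _ _ (Nat.le_succ _) t ht _ _
    have e3 : δ / 2 - 2 * ε ≤ ‖ev t (cut α β (cut (N i + 1) (N (i + 1)) (cw (w (φ (ψ i))))))‖ := by
      have h2 := norm_add_le (ev t (cut α β (cut (N i + 1) (N (i + 1)) (cw (w (φ (ψ i)))))))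
        (ev t (cut α β (cut 0 (N i) (cw (w (φ (ψ i)))))) +
          ev t (cut α β (cut (N (i + 1) + 1) β (cw (w (φ (ψ i)))))))
      have h3 := norm_add_le (ev t (cut α β (cut 0 (N i) (cw (w (φ (ψ i)))))))
          (ev t (cut α β (cut (N (i + 1) + 1) β (cw (w (φ (ψ i)))))))
      linarith
    -- the other terms
    have e4 : Bd (∑ i' ∈ (range n).erase i, ε)
        (∑ i' ∈ (range n).erase i, cut (N i + 1) (N (i + 1)) (cw (w (φ (ψ i'))))) := by
      refine bd_sum _ _ _ fun i' hi' => ?_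
      rcases lt_or_gt_of_ne (Finset.ne_of_mem_erase hi') with h2 | h2
      · exact htail i i' h2 _ _ (Nat.le_succ _)
      · have h3 : cut (N i + 1) (N (i + 1)) (cw (w (φ (ψ i')))) =
            cut (N i + 1) (N (i + 1)) (cut 0 (N i') (cw (w (φ (ψ i'))))) := by
          rw [cut_cut, max_eq_left (Nat.zero_le _), min_eq_left (hN.monotone h2)]
        rw [h3]
        exact (hhead i').cut _ _
    have e5 : ∑ i' ∈ (range n).erase (i : ℕ), ε ≤ n * ε := by
      rw [Finset.sum_const, nsmul_eq_mul]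
      refine mul_le_mul_of_nonneg_right ?_ hεpos.le
      have : ((range n).erase (i : ℕ)).card ≤ n := by
        refine (Finset.card_erase_le).trans (le_of_eq (Finset.card_range n))
      exact_mod_cast this
    have e6 : cut (N i + 1) (N (i + 1)) (cw X) = cut (N i + 1) (N (i + 1)) (cw (w (φ (ψ i)))) +
        ∑ i' ∈ (range n).erase (i : ℕ), cut (N i + 1) (N (i + 1)) (cw (w (φ (ψ i')))) := by
      rw [hcwX, map_sum, Finset.add_sum_erase _ (fun i' => cut (N i + 1) (N (i + 1))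
        (cw (w (φ (ψ i'))))) (mem_range.2 i.2)]
    rw [e6, map_add, map_add]
    have e7 := (e4.mono e5) t ht α β
    have e8 := norm_sub_le (ev t (cut α β (cut (N i + 1) (N (i + 1)) (cw (w (φ (ψ i)))))) +
      ev t (cut α β (∑ i' ∈ (range n).erase (i : ℕ), cut (N i + 1) (N (i + 1)) (cw (w (φ (ψ i')))))))
      (ev t (cut α β (∑ i' ∈ (range n).erase (i : ℕ), cut (N i + 1) (N (i + 1)) (cw (w (φ (ψ i')))))))
    rw [add_sub_cancel_right] at e8
    linarith
  have hlow := lower (X.bd.mono hXK) (j := 2 * j) (by omega) (d := n) le_rfl (fun i => N i + 1)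
    (fun i => N (i + 1)) (fun i i' hii' => Nat.lt_succ_of_le (hN.monotone hii')) (by positivity) hv
  have h2 := mm_le_nn (2 * j)
  have h3 := one_le_mm (2 * j)
  have h6 : (mm (2 * j) : ℝ) ^ 2 * (δ / 4) ≤ n * (δ / 4) := by
    refine mul_le_mul_of_nonneg_right ?_ (by positivity)
    refine le_trans ?_ h2
    exact pow_le_pow_right₀ (by linarith) (by norm_num)
  nlinarith

end Pool.Agent.TH989.SC1
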