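import Pool.Agent.TH490.StmN

set_option autoImplicit false
set_option linter.unusedSectionVars false

/-!
Job 1182 (MP325-NL): nibble, locality of the step.
-/

namespace Pool.Agent.TH989.NL

open Finset Classical Pool.Agent.TH490

noncomputable section

variable {n : ℕ} {X ι : Type} [Fintype X] [Fintype ι]

lemma mem_lst {D : Nib n X ι} {t : ℕ} {x : X} : x ∈ lst D t ↔ (D.o x : ℕ) = t := by
  unfold lst
  rw [mem_filter]
  exact ⟨fun h => h.2, fun h => ⟨mem_univ _, h⟩⟩

lemma pr_nonneg {D : Nib n X ι} {s : NSt n X ι} (hw : ∀ v, 0 ≤ s.w v) (x : X) : 0 ≤ pr D s x :=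
  div_nonneg (hw x) (sum_nonneg fun y _ => hw y)

lemma hN_nonneg {D : Nib n X ι} {s : NSt n X ι} (hw : ∀ v, 0 ≤ s.w v) (v : X) : 0 ≤ hN D s v :=
  sum_nonneg fun x _ => pr_nonneg hw x

lemma hN_le_one {D : Nib n X ι} {s : NSt n X ι} (hw : ∀ v, 0 ≤ s.w v)
    (h1 : ∑ x ∈ lst D s.t, pr D s x = 1) (v : X) : hN D s v ≤ 1 := by
  rw [← h1]
  exact sum_le_sum_of_subset_of_nonneg (filter_subset _ _) fun x _ _ => pr_nonneg hw x

lemma hat_nonneg {D : Nib n X ι} {s : NSt n X ι} (hw : ∀ v, 0 ≤ s.w v) (v : X) : 0 ≤ hat D s v := by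
  unfold hat
  split_ifs
  · exact zero_le_one
  · exact le_rfl
  · exact mul_nonneg (by norm_num) (hw v)

lemma eng_nonneg {D : Nib n X ι} {s : NSt n X ι} (hw : ∀ v, 0 ≤ s.w v) (β : ι) (e : Finset X) (u : X) :
    0 ≤ eng D s β e u := by
  unfold eng
  refine mul_nonneg ?_ (prod_nonneg fun v _ => hat_nonneg hw v)
  split_ifs
  · exact zero_le_one
  · exact (Real.exp_pos _).le

lemma GG_nonneg {D : Nib n X ι} {s : NSt n X ι} {R : ℕ} (hR : 3 ≤ R) (hw : ∀ v, 0 ≤ s.w v)
    (hL : ∀ v, 0 ≤ s.L v) (u : X) : 0 ≤ GG D R s u := by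
  unfold GG
  have h1 : 0 ≤ FN D s u := sum_nonneg fun β _ => sum_nonneg fun e _ => eng_nonneg hw β e u
  have h2 : 0 ≤ FT D s u := sum_nonneg fun β _ => sum_nonneg fun e _ => eng_nonneg hw β e u
  have h3 : 0 ≤ Real.log R := Real.log_nonneg (by exact_mod_cast (by omega : 1 ≤ R))
  have := hL u
  positivity

lemma yt_bd {D : Nib n X ι} {s : NSt n X ι} {R : ℕ} (hR : 3 ≤ R) (hw : ∀ v, 0 ≤ s.w v)
    (hL : ∀ v, 0 ≤ s.L v) (u : X) : 0 ≤ yt D R s u ∧ yt D R s u ≤ s.w u := by
  have h1 := GG_nonneg (D := D) hR hw hL u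
  have h2 : max 0 (1 - GG D R s u) ≤ 1 := max_le zero_le_one (by linarith)
  have h3 : 0 ≤ max 0 (1 - GG D R s u) := le_max_left _ _
  unfold yt
  refine ⟨mul_nonneg (hw u) h3, ?_⟩
  calc s.w u * max 0 (1 - GG D R s u) ≤ s.w u * 1 := mul_le_mul_of_nonneg_left h2 (hw u)
    _ = s.w u := mul_one _

lemma one_le_log {R : ℕ} (hR : 3 ≤ R) : 1 ≤ Real.log R := by
  rw [Real.le_log_iff_exp_le (by exact_mod_cast (by omega : 0 < R))]
  have h1 := Real.exp_one_lt_d9
  have h2 : (3:ℝ) ≤ R := by exact_mod_cast hR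
  linarith

lemma cc_bd {R : ℕ} (hR : 3 ≤ R) : 0 ≤ 1 - 1 / Real.log R ∧ 1 - 1 / Real.log R ≤ 1 := by
  have h1 := one_le_log hR
  have h2 : 1 / Real.log R ≤ 1 := by rw [div_le_one (by linarith)]; exact h1
  have h3 : 0 ≤ 1 / Real.log R := by positivity
  constructor <;> linarith

lemma w_step {D : Nib n X ι} {s : NSt n X ι} {R : ℕ} (hR : 3 ≤ R) (hw : ∀ v, 0 ≤ s.w v) (x v : X) :
    0 ≤ (stepS D R s x).w v ∧ (stepS D R s x).w v ≤ s.w v * (1 + hN D s v) := by
  obtain ⟨h1, h2⟩ := cc_bd hR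
  have h3 := hN_nonneg (D := D) hw v
  have h4 := hw v
  change 0 ≤ (if blk D s x v then 0 else s.w v * (1 + (1 - 1 / Real.log R) * hN D s v)) ∧
    (if blk D s x v then 0 else s.w v * (1 + (1 - 1 / Real.log R) * hN D s v)) ≤ _
  have h5 : (1 - 1 / Real.log R) * hN D s v ≤ hN D s v := by
    calc (1 - 1 / Real.log R) * hN D s v ≤ 1 * hN D s v := mul_le_mul_of_nonneg_right h2 h3
      _ = _ := one_mul _
  split_ifs
  · exact ⟨le_rfl, by positivity⟩
  · refine ⟨by positivity, ?_⟩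
    exact mul_le_mul_of_nonneg_left (by linarith) h4

lemma L_step {D : Nib n X ι} {s : NSt n X ι} {R : ℕ} (hR : 3 ≤ R) (hw : ∀ v, 0 ≤ s.w v)
    (hL : ∀ v, 0 ≤ s.L v) (x v : X) : 0 ≤ (stepS D R s x).L v := by
  obtain ⟨h1, h2⟩ := cc_bd hR
  have h3 := hN_nonneg (D := D) hw v
  change 0 ≤ s.L v + Real.log (1 + (1 - 1 / Real.log R) * hN D s v)
  have h4 : 0 ≤ (1 - 1 / Real.log R) * hN D s v := mul_nonneg h1 h3
  exact add_nonneg (hL v) (Real.log_nonneg (by linarith))

/-- being blocked means sharing a block -/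
lemma blk_share {D : Nib n X ι} {s : NSt n X ι} (hc : ∀ β, ∀ e ∈ D.conf β, e ⊆ D.B β) {x v : X}
    (h : blk D s x v) : ∃ β, v ∈ D.B β ∧ x ∈ D.B β := by
  rcases h with ⟨β, _, e, he, h1, h2, _⟩ | ⟨β, _, e, he, h1, h2, _⟩
  · exact ⟨β, hc β e he h1.1, hc β e he h2⟩
  · exact ⟨β, hc β e he h1.1, hc β e he h2⟩

lemma hN_zero {D : Nib n X ι} {s : NSt n X ι} {v : X} (h : ∀ x ∈ lst D s.t, ¬ blk D s x v) :
    hN D s v = 0 := by
  unfold hN
  rw [filter_eq_empty_iff.2, sum_empty]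
  intro x hx hb
  exact h x hx (Or.inl hb)

theorem nyloc : N_elem → N_yloc := by
  intro hE K
  obtain ⟨R₀, hE⟩ := hE K
  refine ⟨max R₀ 3, fun R hR n X ι _ _ D hH s hI hs u hu x hx => ?_⟩
  have hR3 : 3 ≤ R := (le_max_right _ _).trans hR
  obtain ⟨-, hsum, -⟩ := hE R ((le_max_left _ _).trans hR) n X ι D hH s hI hs
  have hw := hI.w_nonneg
  have hL := hI.L_nonneg
  constructor
  · have h1 := yt_bd (D := D) hR3 hw hL u
    have h2 := yt_bd (D := D) (s := stepS D R s x) hR3 (fun v => (w_step hR3 hw x v).1)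
      (fun v => L_step hR3 hw hL x v) u
    have h3 := (w_step (D := D) hR3 hw x u).2
    have h4 := hN_le_one hw hsum u
    have h5 := hI.w_le u hu.le
    have h6 : s.w u * (1 + hN D s u) ≤ s.w u * 2 :=
      mul_le_mul_of_nonneg_left (by linarith) (hw u)
    have h7 := hw u
    rw [abs_le]
    constructor <;> linarith [h1.1, h1.2, h2.1, h2.2]
  · intro hnear
    -- elements of the current list are not close to `u`
    have hB : ∀ (v z : X) (β γ : ι), u ∈ D.B β → v ∈ D.B β → v ∈ D.B γ → z ∈ D.B γ →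
        z ∈ lst D s.t → False := fun v z β γ h1 h2 h3 h4 h5 => hnear ⟨z, h5, v, β, γ, h1, h2, h3, h4⟩
    have hblk : ∀ (v : X) (β : ι), u ∈ D.B β → v ∈ D.B β → ∀ z ∈ lst D s.t, ¬ blk D s z v := by
      intro v β h1 h2 z hz hb
      obtain ⟨γ, h3, h4⟩ := blk_share hH.conf_sub hb
      exact hB v z β γ h1 h2 h3 h4 hz
    have hblku : ∀ z ∈ lst D s.t, ¬ blk D s z u := by
      intro z hz hb
      obtain ⟨γ, h3, h4⟩ := blk_share hH.conf_sub hb
      exact hB u z γ γ h3 h3 h3 h4 hz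
    have hwu : (stepS D R s x).w u = s.w u := by
      change (if blk D s x u then 0 else s.w u * (1 + (1 - 1 / Real.log R) * hN D s u)) = _
      rw [if_neg (hblku x hx), hN_zero hblku]
      ring
    have hLu : (stepS D R s x).L u = s.L u := by
      change s.L u + Real.log (1 + (1 - 1 / Real.log R) * hN D s u) = _
      rw [hN_zero hblku]
      simp
    have hhat : ∀ (v : X) (β : ι), u ∈ D.B β → v ∈ D.B β → hat D (stepS D R s x) v = hat D s v := by
      intro v β h1 h2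
      have hv : (D.o v : ℕ) ≠ s.t := fun h => hB v v β β h1 h2 h2 h2 (mem_lst.2 h)
      change (if (D.o v : ℕ) < s.t + 1 then (if (if ((D.o v : Fin n) : ℕ) = s.t then x else s.c (D.o v)) = v
        then (1:ℝ) else 0) else 16 * (stepS D R s x).w v) = hat D s v
      unfold hat
      by_cases h3 : (D.o v : ℕ) < s.t
      · rw [if_pos (by omega), if_pos h3, if_neg hv]
      · rw [if_neg (by omega), if_neg h3]
        congr 1
        change (if blk D s x v then 0 else s.w v * (1 + (1 - 1 / Real.log R) * hN D s v)) = _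
        rw [if_neg (hblk v β h1 h2 x hx), hN_zero (hblk v β h1 h2)]
        ring
    have hLB : ∀ β, u ∈ D.B β → (stepS D R s x).LB β = s.LB β := by
      intro β h1
      change s.LB β + mB D s β = _
      have : mB D s β = 0 := by
        unfold mB
        rw [filter_eq_empty_iff.2, sum_empty]
        intro z hz h2
        exact hB z z β β h1 h2 h2 h2 hz
      rw [this, add_zero]
    have heng : ∀ β, ∀ e ∈ (D.conf β).filter (fun e => topc D u e),
        eng D (stepS D R s x) β e u = eng D s β e u := by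
      intro β e he
      rw [mem_filter] at he
      have h1 := hH.conf_sub β e he.1
      have h2 : u ∈ D.B β := h1 he.2.1
      unfold eng
      rw [hLB β h2]
      congr 1
      exact prod_congr rfl fun v hv => hhat v β h2 (h1 (mem_of_mem_erase hv))
    have hFN : FN D (stepS D R s x) u = FN D s u :=
      sum_congr rfl fun β _ => sum_congr rfl fun e he => heng β e he
    have hFT : FT D (stepS D R s x) u = FT D s u :=
      sum_congr rfl fun β _ => sum_congr rfl fun e he => heng β e he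
    unfold yt GG
    rw [hFN, hFT, hwu, hLu]

end

end Pool.Agent.TH989.NL
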