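import Pool.Agent.TH793.SB.Basic
import Pool.Agent.TH365.SB.J578

set_option autoImplicit false

/-! # Lower bound for the number of level `K` sites -/

namespace Pool.Agent.TH989.J584

open Pool.Agent.TH793.SB

/-- centred cube as a finset -/
noncomputable def fb (w : Site) (R : ℤ) : Finset Site :=
  Fintype.piFinset fun k => Finset.Icc (w k - R) (w k + R)

lemma mem_fb {w v : Site} {R : ℤ} : v ∈ fb w R ↔ v ∈ ball w R := by
  simp only [fb, ball, Fintype.mem_piFinset, Finset.mem_Icc, Set.mem_ofPred_eq, abs_le]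
  refine forall_congr' fun k => ?_
  constructor <;> rintro ⟨h1, h2⟩ <;> constructor <;> linarith

lemma card_fb (w : Site) (R : ℤ) : (fb w R).card = (2 * R + 1).toNat ^ 3 := by
  have : ∀ k : Fin 3, w k + R + 1 - (w k - R) = 2 * R + 1 := fun k => by ring
  simp [fb, Fintype.card_piFinset, this]

lemma finite_bound {D : Set Site} (hD : D.Finite) :
    ∃ R : ℤ, 0 ≤ R ∧ ∀ u ∈ D, u ∈ ball 0 R := by
  refine ⟨∑ u ∈ hD.toFinset, ∑ i, |u i|, Finset.sum_nonneg fun u _ =>
    Finset.sum_nonneg fun i _ => abs_nonneg _, fun u hu i => ?_⟩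
  have h1 : |u i| ≤ ∑ j, |u j| :=
    Finset.single_le_sum (f := fun j => |u j|) (fun j _ => abs_nonneg _) (Finset.mem_univ i)
  have h2 : ∑ j, |u j| ≤ ∑ u ∈ hD.toFinset, ∑ i, |u i| :=
    Finset.single_le_sum (f := fun u : Site => ∑ j, |u j|)
      (fun v _ => Finset.sum_nonneg fun i _ => abs_nonneg _) (hD.mem_toFinset.mpr hu)
  simpa using h1.trans h2

lemma pk_congr {X Y : Cfg} {K : ℕ} {w : Site} (h : Agree X Y (ball w (2 ^ K))) :
    w ∈ PK X K ↔ w ∈ PK Y K := by
  constructor
  · rintro ⟨c, hf, ho, hi⟩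
    exact ⟨c, (Free_congr h).1 hf, (Org_congr h).1 ho, hi⟩
  · rintro ⟨c, hf, ho, hi⟩
    exact ⟨c, (Free_congr h).2 hf, (Org_congr h).2 ho, hi⟩

open scoped Classical in
theorem totalLower (hB : BoxThm) (hU : OrgUnique) : TotalLower := by
  intro K
  have hn : (0 : ℤ) < 2 ^ K := by positivity
  refine ⟨(((2 * (3 * 2 ^ K) + 1 : ℤ).toNat ^ 3 : ℕ) : ℝ), fun X Y hX hfin => ?_⟩
  obtain ⟨c, hc⟩ := Pool.Agent.TH365.SB.valid_org hB X hX K
  obtain ⟨R0, hR0, hD⟩ := finite_bound hfin
  -- bad sites are finite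
  have hbadfin : (bad Y).Finite := by
    refine (fb 0 (R0 + 1)).finite_toSet.subset fun u hu => ?_
    rw [Finset.mem_coe, mem_fb]
    by_contra hcon
    have hag : Agree X Y {u} := agree_far hD (by
      intro v hv
      rw [Set.mem_singleton_iff] at hv
      rw [hv]; exact hcon)
    exact hu ((Good_congr hag (Set.mem_singleton u)).1 (hX u))
  set V : Finset Site := fb 0 (R0 + 2 ^ K + 1) with hV
  have hout : ∀ w, w ∉ V → (w ∈ PK X K ↔ w ∈ PK Y K) := by
    intro w hw
    apply pk_congr
    refine agree_far hD fun u hu hu2 => hw ?_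
    rw [hV, mem_fb]
    intro i
    have h1 := hu i
    have h2 := hu2 i
    rw [abs_le] at h1 h2 ⊢
    simp only [Pi.zero_apply] at h2 ⊢
    constructor <;> linarith [h1.1, h1.2, h2.1, h2.2]
  have hPX : ∀ u, u ∈ PK X K ↔ InP c K u := fun u => PK_valid hU hX hc
  -- the finsum
  have e1 : (∑ᶠ u : Site, ((if u ∈ PK Y K then (1 : ℝ) else 0) -
      (if u ∈ PK X K then (1 : ℝ) else 0))) =
      ((V.filter fun u => u ∈ PK Y K).card : ℝ) - ((V.filter fun u => u ∈ PK X K).card : ℝ) := by
    rw [finsum_eq_sum_of_support_subset (s := V)]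
    · rw [Finset.sum_sub_distrib, Finset.card_filter, Finset.card_filter]
      push_cast
      rfl
    · intro u hu
      by_contra hcon
      rw [Function.mem_support] at hu
      apply hu
      have := hout u hcon
      simp only [this, sub_self]
  -- the map
  have hψ : ∀ x : Site, Free Y (cube (fun i => x i - 2 ^ K) (4 * 2 ^ K)) →
      ∃ w : Site, w ∈ PK Y K ∧ ∀ i, x i ≤ w i ∧ w i < x i + 2 ^ K := by
    intro x hx
    rw [cube_eq_box] at hx
    obtain ⟨c', hc'⟩ := hB Y K _ _ (fun i => by linarith) hx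
    refine ⟨fun i => x i + (c' i - x i) % 2 ^ K, ⟨c', ?_, ?_, ?_⟩, ?_⟩
    · refine hx.mono fun v hv i => ?_
      have h1 := hv i
      have h2 := Int.emod_nonneg (c' i - x i) hn.ne'
      have h3 := Int.emod_lt_of_pos (c' i - x i) hn
      rw [abs_le] at h1
      simp only at h1 ⊢
      constructor <;> linarith [h1.1, h1.2]
    · refine hc'.mono (fun v hv i => ?_) le_rfl
      have h1 := hv i
      have h2 := Int.emod_nonneg (c' i - x i) hn.ne'
      have h3 := Int.emod_lt_of_pos (c' i - x i) hn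
      rw [abs_le] at h1
      simp only at h1 ⊢
      constructor <;> linarith [h1.1, h1.2]
    · intro i
      have h2 := Int.emod_add_mul_ediv (c' i - x i) (2 ^ K)
      refine ⟨-((c' i - x i) / 2 ^ K), ?_⟩
      simp only
      linarith
    · intro i
      have h2 := Int.emod_nonneg (c' i - x i) hn.ne'
      have h3 := Int.emod_lt_of_pos (c' i - x i) hn
      simp only
      constructor <;> linarith
  choose! ψ hψ1 hψ2 using hψ
  -- uniqueness modulo n
  have huniq : ∀ x w : Site, InP c K x → InP c K w → (∀ i, |w i - x i| < 2 ^ K) → w = x := by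
    intro x w hx hw h
    funext i
    have h1 : (2 : ℤ) ^ K ∣ w i - x i := by
      have := dvd_sub (hw i) (hx i)
      rwa [show w i - c i - (x i - c i) = w i - x i by ring] at this
    have := Int.eq_zero_of_abs_lt_dvd h1 (h i)
    linarith
  set A := (V.filter fun u => u ∈ PK X K).filter
    fun u => Free Y (cube (fun i => u i - 2 ^ K) (4 * 2 ^ K)) with hA
  have h1 : A.card ≤ (V.filter fun u => u ∈ PK Y K).card := by
    apply Finset.card_le_card_of_injOn ψ
    · intro x hx
      rw [Finset.mem_coe, hA, Finset.mem_filter, Finset.mem_filter] at hx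
      obtain ⟨⟨hxV, hxP⟩, hxf⟩ := hx
      have hw1 := hψ1 x hxf
      have hw2 := hψ2 x hxf
      rw [Finset.mem_coe, Finset.mem_filter]
      refine ⟨?_, hw1⟩
      by_contra hcon
      have h3 := (hPX _).1 ((hout _ hcon).2 hw1)
      have h4 := huniq x (ψ x) ((hPX x).1 hxP) h3 fun i => by
        have := hw2 i
        rw [abs_lt]
        constructor <;> linarith [this.1, this.2]
      rw [h4] at hcon
      exact hcon hxV
    · intro x hx y hy hxy
      rw [Finset.mem_coe, hA, Finset.mem_filter, Finset.mem_filter] at hx hy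
      have hw2 := hψ2 x hx.2
      have hw3 := hψ2 y hy.2
      apply huniq y x ((hPX y).1 hy.1.2) ((hPX x).1 hx.1.2)
      intro i
      have h5 := hw2 i
      have h6 := hw3 i
      rw [← hxy] at h6
      rw [abs_lt]
      constructor <;> linarith [h5.1, h5.2, h6.1, h6.2]
  have h2 : ((V.filter fun u => u ∈ PK X K) \ A).card ≤
      (2 * (3 * 2 ^ K) + 1 : ℤ).toNat ^ 3 * (bad Y).ncard := by
    have hsub : (V.filter fun u => u ∈ PK X K) \ A ⊆
        hbadfin.toFinset.biUnion fun b => fb b (3 * 2 ^ K) := by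
      intro x hx
      rw [Finset.mem_sdiff] at hx
      have h3 : ¬ Free Y (cube (fun i => x i - 2 ^ K) (4 * 2 ^ K)) := by
        intro h
        exact hx.2 (by rw [hA, Finset.mem_filter]; exact ⟨hx.1, h⟩)
      unfold Free at h3
      push Not at h3
      obtain ⟨b, hb, hbad⟩ := h3
      rw [Finset.mem_biUnion]
      refine ⟨b, hbadfin.mem_toFinset.mpr hbad, ?_⟩
      rw [mem_fb]
      intro i
      have := hb i
      simp only at this
      rw [abs_le]
      constructor <;> linarith [this.1, this.2]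
    refine (Finset.card_le_card hsub).trans ?_
    refine Finset.card_biUnion_le.trans ?_
    rw [Finset.sum_congr rfl fun b _ => card_fb b (3 * 2 ^ K), Finset.sum_const,
      ← Set.ncard_eq_toFinset_card (bad Y) hbadfin, smul_eq_mul, mul_comm]
  have h3 : (V.filter fun u => u ∈ PK X K).card =
      ((V.filter fun u => u ∈ PK X K) \ A).card + A.card :=
    (Finset.card_sdiff_add_card_eq_card (Finset.filter_subset _ _)).symm
  rw [e1, h3]
  have h1' : (A.card : ℝ) ≤ ((V.filter fun u => u ∈ PK Y K).card : ℝ) := by exact_mod_cast h1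
  have h2' : (((V.filter fun u => u ∈ PK X K) \ A).card : ℝ) ≤
      (((2 * (3 * 2 ^ K) + 1 : ℤ).toNat ^ 3 : ℕ) : ℝ) * ((bad Y).ncard : ℝ) := by exact_mod_cast h2
  push_cast at h2' ⊢
  linarith

end Pool.Agent.TH989.J584
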