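import Pool.Agent.TH179.SD.Lin

/-!
# A natural seven-form `μ ∧ a ∧ b ∧ c` (project SD of helper179, MP_2a78db_gt, task L3)
-/

set_option autoImplicit false

open scoped ContDiff Topology
open Set

noncomputable section

namespace Pool.Agent.TH989.SD
open Pool.Agent.TH179.SD

/-- the sign of a permutation as a real number -/
def sg {n : ℕ} (σ : Equiv.Perm (Fin n)) : ℝ := (((Equiv.Perm.sign σ : ℤˣ) : ℤ) : ℝ)

lemma sg_mul {n : ℕ} (σ τ : Equiv.Perm (Fin n)) : sg (σ * τ) = sg σ * sg τ := by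
  unfold sg
  rw [Equiv.Perm.sign_mul]
  push_cast
  rfl

/-- reindexing an alternating sum -/
lemma sum_comp {n : ℕ} {X : Type*} (G : (Fin n → X) → ℝ) (v : Fin n → X) (τ : Equiv.Perm (Fin n)) :
    ∑ σ : Equiv.Perm (Fin n), sg σ * G (fun j => v (σ (τ j))) =
      sg τ * ∑ σ : Equiv.Perm (Fin n), sg σ * G (fun j => v (σ j)) := by
  have hτ : sg τ * sg τ = 1 := by
    unfold sg
    have h2 : (((Equiv.Perm.sign τ : ℤˣ) : ℤ)) * ((Equiv.Perm.sign τ : ℤˣ) : ℤ) = 1 := by
      rw [← Units.val_mul, Int.units_mul_self, Units.val_one]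
    exact_mod_cast h2
  rw [← Equiv.sum_comp (Equiv.mulRight τ) (fun σ => sg σ * G (fun j => v (σ j))), Finset.mul_sum]
  refine Finset.sum_congr rfl fun σ _ => ?_
  show sg σ * G (fun j => v (σ (τ j))) = sg τ * (sg (σ * τ) * G (fun j => v ((σ * τ) j)))
  rw [sg_mul]
  have e : (fun j => v ((σ * τ) j)) = fun j => v (σ (τ j)) := rfl
  rw [e]
  calc sg σ * G (fun j => v (σ (τ j))) = (sg τ * sg τ) * (sg σ * G (fun j => v (σ (τ j)))) := by
        rw [hτ, one_mul]
    _ = _ := by ring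

/-- a permutation of `Fin (n + 1)` is the choice of the image of `0` and a permutation of the
rest -/
def dec {n : ℕ} (x : Fin (n + 1) × Equiv.Perm (Fin n)) : Equiv.Perm (Fin (n + 1)) :=
  x.1.cycleRange.symm * Equiv.Perm.decomposeFin.symm (0, x.2)

lemma dec_zero {n : ℕ} (x : Fin (n + 1) × Equiv.Perm (Fin n)) : dec x 0 = x.1 := by
  unfold dec
  rw [Equiv.Perm.mul_apply, Equiv.Perm.decomposeFin_symm_apply_zero, Fin.cycleRange_symm_zero]

lemma dec_succ {n : ℕ} (x : Fin (n + 1) × Equiv.Perm (Fin n)) (j : Fin n) :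
    dec x j.succ = x.1.succAbove (x.2 j) := by
  unfold dec
  rw [Equiv.Perm.mul_apply, Equiv.Perm.decomposeFin_symm_apply_succ, Equiv.swap_self,
    Equiv.refl_apply, Fin.cycleRange_symm_succ]

lemma sg_dec {n : ℕ} (x : Fin (n + 1) × Equiv.Perm (Fin n)) :
    sg (dec x) = (-1) ^ (x.1 : ℕ) * sg x.2 := by
  unfold dec
  rw [sg_mul]
  unfold sg
  rw [Equiv.Perm.sign_symm, Fin.sign_cycleRange, Equiv.Perm.decomposeFin.symm_sign]
  simp

lemma dec_bijective (n : ℕ) : Function.Bijective (dec (n := n)) := by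
  rw [Fintype.bijective_iff_injective_and_card]
  constructor
  · rintro ⟨i, τ⟩ ⟨i', τ'⟩ h
    have h0 : i = i' := by
      have := congrArg (fun σ : Equiv.Perm (Fin (n + 1)) => σ 0) h
      simpa only [dec_zero] using this
    subst h0
    have h1 : τ = τ' := by
      ext j
      have := congrArg (fun σ : Equiv.Perm (Fin (n + 1)) => σ j.succ) h
      simp only [dec_succ] at this
      rw [Fin.succAbove_right_injective this]
    rw [h1]
  · rw [Fintype.card_prod, Fintype.card_perm, Fintype.card_perm, Fintype.card_fin,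
      Fintype.card_fin, Nat.factorial_succ]

/-- expansion of an alternating sum -/
lemma sum_decomp {n : ℕ} {X : Type*} (H : X → (Fin n → X) → ℝ) (v : Fin (n + 1) → X) :
    ∑ i : Fin (n + 1), (-1 : ℝ) ^ (i : ℕ) * ∑ τ : Equiv.Perm (Fin n),
      sg τ * H (v i) (fun j => (i.removeNth v) (τ j)) =
    ∑ σ : Equiv.Perm (Fin (n + 1)), sg σ * H (v (σ 0)) (fun j => v (σ j.succ)) := by
  rw [← (Equiv.ofBijective _ (dec_bijective n)).sum_comp, Fintype.sum_prod_type]
  refine Finset.sum_congr rfl fun i _ => ?_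
  rw [Finset.mul_sum]
  refine Finset.sum_congr rfl fun τ _ => ?_
  show _ = sg (dec (i, τ)) * H (v (dec (i, τ) 0)) (fun j => v (dec (i, τ) j.succ))
  rw [sg_dec, dec_zero]
  simp only [dec_succ]
  rw [mul_assoc]
  rfl

/-! ### forms of degree one and two -/

lemma upd1 (x w : V) : Function.update ![x] 0 w = ![w] := by
  funext i; fin_cases i; rfl

lemma upd20 (x z w : V) : Function.update ![x, z] 0 w = ![w, z] := by
  funext i; fin_cases i <;> rfl

lemma upd21 (x z w : V) : Function.update ![z, x] 1 w = ![z, w] := by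
  funext i; fin_cases i <;> rfl

lemma alt1_add (m : Alt 1) (x y : V) : m ![x + y] = m ![x] + m ![y] := by
  have := m.map_update_add ![x] 0 x y
  rwa [upd1, upd1, upd1] at this

lemma alt1_smul (m : Alt 1) (r : ℝ) (x : V) : m ![r • x] = r * m ![x] := by
  have := m.map_update_smul ![x] 0 r x
  rwa [upd1, upd1, smul_eq_mul] at this

lemma alt2_add0 (a : Alt 2) (x y z : V) : a ![x + y, z] = a ![x, z] + a ![y, z] := by
  have := a.map_update_add ![x, z] 0 x y
  rwa [upd20, upd20, upd20] at this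

lemma alt2_add1 (a : Alt 2) (x y z : V) : a ![z, x + y] = a ![z, x] + a ![z, y] := by
  have := a.map_update_add ![z, x] 1 x y
  rwa [upd21, upd21, upd21] at this

lemma alt2_smul0 (a : Alt 2) (r : ℝ) (x z : V) : a ![r • x, z] = r * a ![x, z] := by
  have := a.map_update_smul ![x, z] 0 r x
  rwa [upd20, upd20, smul_eq_mul] at this

lemma alt2_smul1 (a : Alt 2) (r : ℝ) (x z : V) : a ![z, r • x] = r * a ![z, x] := by
  have := a.map_update_smul ![z, x] 1 r x
  rwa [upd21, upd21, smul_eq_mul] at this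

lemma alt2_swap (a : Alt 2) (x y : V) : a ![x, y] = - a ![y, x] := by
  have h : a (![y, x] ∘ ⇑(Equiv.swap 0 1)) = -a ![y, x] :=
    a.map_swap ![y, x] (show (0 : Fin 2) ≠ 1 by decide)
  rw [← h]
  congr 1
  funext i
  fin_cases i <;> rfl

/-- the product `m(v₀) a(v₁, v₂) b(v₃, v₄) c(v₅, v₆)` -/
def P (m : Alt 1) (a b c : Alt 2) : ContinuousMultilinearMap ℝ (fun _ : Fin 7 => V) ℝ where
  toFun v := m ![v 0] * a ![v 1, v 2] * b ![v 3, v 4] * c ![v 5, v 6]
  map_update_add' := by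
    intro inst v i x y
    obtain rfl : inst = instDecidableEqFin 7 := Subsingleton.elim _ _
    fin_cases i <;> simp [alt1_add, alt2_add0, alt2_add1] <;> ring
  map_update_smul' := by
    intro inst v i r x
    obtain rfl : inst = instDecidableEqFin 7 := Subsingleton.elim _ _
    fin_cases i <;> simp [alt1_smul, alt2_smul0, alt2_smul1] <;> ring
  cont := by
    have hm : Continuous fun v : Fin 7 → V => m ![v 0] := m.cont.comp (by fun_prop)
    have ha : Continuous fun v : Fin 7 → V => a ![v 1, v 2] := a.cont.comp (by fun_prop)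
    have hb : Continuous fun v : Fin 7 → V => b ![v 3, v 4] := b.cont.comp (by fun_prop)
    have hc : Continuous fun v : Fin 7 → V => c ![v 5, v 6] := c.cont.comp (by fun_prop)
    exact ((hm.mul ha).mul hb).mul hc

lemma P_apply (m : Alt 1) (a b c : Alt 2) (v : Fin 7 → V) :
    P m a b c v = m ![v 0] * a ![v 1, v 2] * b ![v 3, v 4] * c ![v 5, v 6] := rfl

/-- the value of the integrand -/
def Fw (m : Alt 1) (a b c : Alt 2) (w : Fin 7 → V) : ℝ :=
  2 * (m ![w 0] * a ![w 1, w 2] * b ![w 3, w 4] * c ![w 5, w 6])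

/-- the seven-form -/
def Wf (m : Alt 1) (a b c : Alt 2) : Alt 7 :=
  (2 : ℝ) • ContinuousMultilinearMap.alternatization (P m a b c)

lemma Wf_apply (m : Alt 1) (a b c : Alt 2) (v : Fin 7 → V) :
    Wf m a b c v = ∑ τ : Equiv.Perm (Fin 7), sg τ * Fw m a b c (fun j => v (τ j)) := by
  unfold Wf
  rw [ContinuousAlternatingMap.smul_apply, ContinuousMultilinearMap.alternatization_apply_apply,
    Finset.smul_sum]
  refine Finset.sum_congr rfl fun τ _ => ?_
  rw [P_apply, Units.smul_def, zsmul_eq_mul, smul_eq_mul]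
  unfold sg Fw
  simp only [Function.comp_apply]
  ring

/-- smoothness of a family of forms can be checked on vectors -/
lemma contDiff_alt {E : Type*} [NormedAddCommGroup E] [NormedSpace ℝ E] {k : ℕ} (f : E → Alt k)
    (h : ∀ v, ContDiff ℝ ∞ fun x => f x v) : ContDiff ℝ ∞ f := by
  let b := Module.finBasis ℝ V
  let Φ : Alt k →ₗ[ℝ] ((Fin k → Fin (Module.finrank ℝ V)) → ℝ) :=
    { toFun := fun η i => η (fun j => b (i j))
      map_add' := fun _ _ => rfl
      map_smul' := fun _ _ => rfl }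
  have hΦ : Function.Injective Φ := by
    intro η η' hη
    have h1 : η.toMultilinearMap = η'.toMultilinearMap :=
      Module.Basis.ext_multilinear (fun _ => b) fun i => congrFun hη i
    ext v
    exact congrArg (fun F : MultilinearMap ℝ (fun _ : Fin k => V) ℝ => F v) h1
  have hfin : FiniteDimensional ℝ (Alt k) := FiniteDimensional.of_injective Φ hΦ
  obtain ⟨Ψ, hΨ⟩ := LinearMap.exists_leftInverse_of_injective Φ (LinearMap.ker_eq_bot.2 hΦ)
  have hf : f = fun x => LinearMap.toContinuousLinearMap Ψ (Φ (f x)) := by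
    funext x
    exact (congrArg (fun F : Alt k →ₗ[ℝ] Alt k => F (f x)) hΨ).symm
  rw [hf]
  exact (LinearMap.toContinuousLinearMap Ψ).contDiff.comp (contDiff_pi.2 fun i => h _)

lemma contDiff_ev {E : Type*} [NormedAddCommGroup E] [NormedSpace ℝ E] {k : ℕ} {f : E → Alt k}
    (h : ContDiff ℝ ∞ f) (v : Fin k → V) : ContDiff ℝ ∞ fun x => f x v :=
  (ContinuousAlternatingMap.apply ℝ V ℝ v).contDiff.comp h

lemma contDiff_Fw {E : Type*} [NormedAddCommGroup E] [NormedSpace ℝ E] {m : E → Alt 1}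
    {a b c : E → Alt 2} (hm : ContDiff ℝ ∞ m) (ha : ContDiff ℝ ∞ a) (hb : ContDiff ℝ ∞ b)
    (hc : ContDiff ℝ ∞ c) (w : Fin 7 → V) :
    ContDiff ℝ ∞ fun x => Fw (m x) (a x) (b x) (c x) w := by
  unfold Fw
  exact contDiff_const.mul ((((contDiff_ev hm _).mul (contDiff_ev ha _)).mul
    (contDiff_ev hb _)).mul (contDiff_ev hc _))

lemma contDiff_Wf {E : Type*} [NormedAddCommGroup E] [NormedSpace ℝ E] {m : E → Alt 1}
    {a b c : E → Alt 2} (hm : ContDiff ℝ ∞ m) (ha : ContDiff ℝ ∞ a) (hb : ContDiff ℝ ∞ b)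
    (hc : ContDiff ℝ ∞ c) : ContDiff ℝ ∞ fun x => Wf (m x) (a x) (b x) (c x) := by
  refine contDiff_alt _ fun v => ?_
  simp only [Wf_apply]
  exact ContDiff.sum fun τ _ => contDiff_const.mul (contDiff_Fw hm ha hb hc _)

lemma ext1 {m : V → Alt 1} {q : V} (hm : DifferentiableAt ℝ m q) (x y : V) :
    extDeriv m q ![x, y] =
      fderiv ℝ (fun p => m p ![y]) q x - fderiv ℝ (fun p => m p ![x]) q y := by
  rw [extDeriv_apply hm, Fin.sum_univ_two]
  have e0 : (0 : Fin 2).removeNth ![x, y] = ![y] := by funext i; fin_cases i; rfl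
  have e1 : (1 : Fin 2).removeNth ![x, y] = ![x] := by funext i; fin_cases i; rfl
  rw [e0, e1]
  simp
  ring

lemma ext2 {a : V → Alt 2} {q : V} (ha : DifferentiableAt ℝ a q) (x y z : V) :
    extDeriv a q ![x, y, z] = fderiv ℝ (fun p => a p ![y, z]) q x -
      fderiv ℝ (fun p => a p ![x, z]) q y + fderiv ℝ (fun p => a p ![x, y]) q z := by
  rw [extDeriv_apply ha, Fin.sum_univ_three]
  have e0 : (0 : Fin 3).removeNth ![x, y, z] = ![y, z] := by funext i; fin_cases i <;> rfl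
  have e1 : (1 : Fin 3).removeNth ![x, y, z] = ![x, z] := by funext i; fin_cases i <;> rfl
  have e2 : (2 : Fin 3).removeNth ![x, y, z] = ![x, y] := by funext i; fin_cases i <;> rfl
  rw [e0, e1, e2]
  simp
  ring

/-- the cyclic form of closedness -/
lemma closed_cyc {a : V → Alt 2} {q : V} (ha : DifferentiableAt ℝ a q) (h : extDeriv a q = 0)
    (x y z : V) : fderiv ℝ (fun p => a p ![y, z]) q x + fderiv ℝ (fun p => a p ![z, x]) q y +
      fderiv ℝ (fun p => a p ![x, y]) q z = 0 := by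
  have h1 := ext2 ha x y z
  have h2 : extDeriv a q ![x, y, z] = 0 := by rw [h]; rfl
  have h3 : (fun p => a p ![z, x]) = fun p => - a p ![x, z] := by
    funext p; exact alt2_swap _ _ _
  have h4 : fderiv ℝ (fun p => a p ![z, x]) q y = - fderiv ℝ (fun p => a p ![x, z]) q y := by
    rw [h3, fderiv_fun_neg]
    rfl
  rw [h2] at h1
  rw [h4]
  linarith

section main

variable {m : V → Alt 1} {a b c : V → Alt 2}

lemma fderiv_Fw (hm : ContDiff ℝ ∞ m) (ha : ContDiff ℝ ∞ a) (hb : ContDiff ℝ ∞ b)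
    (hc : ContDiff ℝ ∞ c) (q u : V) (w : Fin 7 → V) :
    fderiv ℝ (fun x => Fw (m x) (a x) (b x) (c x) w) q u =
      2 * (fderiv ℝ (fun p => m p ![w 0]) q u * a q ![w 1, w 2] * b q ![w 3, w 4] *
          c q ![w 5, w 6]) +
      2 * (m q ![w 0] * fderiv ℝ (fun p => a p ![w 1, w 2]) q u * b q ![w 3, w 4] *
          c q ![w 5, w 6]) +
      2 * (m q ![w 0] * a q ![w 1, w 2] * fderiv ℝ (fun p => b p ![w 3, w 4]) q u *
          c q ![w 5, w 6]) +
      2 * (m q ![w 0] * a q ![w 1, w 2] * b q ![w 3, w 4] *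
          fderiv ℝ (fun p => c p ![w 5, w 6]) q u) := by
  have dm : HasFDerivAt (fun p => m p ![w 0]) (fderiv ℝ (fun p => m p ![w 0]) q) q :=
    ((contDiff_ev hm _).differentiable (by simp) q).hasFDerivAt
  have da : HasFDerivAt (fun p => a p ![w 1, w 2]) (fderiv ℝ (fun p => a p ![w 1, w 2]) q) q :=
    ((contDiff_ev ha _).differentiable (by simp) q).hasFDerivAt
  have db : HasFDerivAt (fun p => b p ![w 3, w 4]) (fderiv ℝ (fun p => b p ![w 3, w 4]) q) q :=
    ((contDiff_ev hb _).differentiable (by simp) q).hasFDerivAt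
  have dc : HasFDerivAt (fun p => c p ![w 5, w 6]) (fderiv ℝ (fun p => c p ![w 5, w 6]) q) q :=
    ((contDiff_ev hc _).differentiable (by simp) q).hasFDerivAt
  have h := ((((dm.mul da).mul db).mul dc).const_mul 2).fderiv
  have e : fderiv ℝ (fun x => Fw (m x) (a x) (b x) (c x) w) q u = _ :=
    congrArg (fun L : V →L[ℝ] ℝ => L u) h
  rw [e]
  simp
  ring

end main

/-! ### alternating sums of functions of eight vectors -/

/-- the alternating sum -/
def S (G : (Fin 8 → V) → ℝ) (v : Fin 8 → V) : ℝ :=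
  ∑ σ : Equiv.Perm (Fin 8), sg σ * G (fun j => v (σ j))

lemma S_comp (G : (Fin 8 → V) → ℝ) (v : Fin 8 → V) (τ : Equiv.Perm (Fin 8)) :
    S (fun z => G (fun j => z (τ j))) v = sg τ * S G v := sum_comp G v τ

lemma S_add (G G' : (Fin 8 → V) → ℝ) (v : Fin 8 → V) :
    S (fun z => G z + G' z) v = S G v + S G' v := by
  unfold S
  rw [← Finset.sum_add_distrib]
  exact Finset.sum_congr rfl fun σ _ => mul_add _ _ _

lemma S_smul (r : ℝ) (G : (Fin 8 → V) → ℝ) (v : Fin 8 → V) :
    S (fun z => r * G z) v = r * S G v := by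
  unfold S
  rw [Finset.mul_sum]
  exact Finset.sum_congr rfl fun σ _ => by ring

lemma S_cyc (G : (Fin 8 → V) → ℝ) (v : Fin 8 → V) (τ : Equiv.Perm (Fin 8)) (hτ : sg τ = 1)
    (h : ∀ z, G z + G (fun j => z (τ j)) + G (fun j => z (τ (τ j))) = 0) : S G v = 0 := by
  have h1 := S_comp G v τ
  have h2 := S_comp (fun z => G (fun j => z (τ j))) v τ
  rw [hτ, one_mul] at h1 h2
  have h3 : S (fun z => G z + G (fun j => z (τ j)) + G (fun j => z (τ (τ j)))) v = 0 := by
    unfold S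
    exact Finset.sum_eq_zero fun σ _ => mul_eq_zero_of_right _ (h _)
  rw [S_add, S_add] at h3
  have h4 : S (fun z => G fun j => z (τ (τ j))) v = S G v := h2.trans h1
  linarith

lemma sg_three {i j k : Fin 8} (hij : i ≠ j) (hjk : j ≠ k) :
    sg (Equiv.swap i j * Equiv.swap j k) = 1 := by
  unfold sg
  rw [Equiv.Perm.sign_mul, Equiv.Perm.sign_swap hij, Equiv.Perm.sign_swap hjk]
  norm_num

lemma sg_swap {i j : Fin 8} (hij : i ≠ j) : sg (Equiv.swap i j) = -1 := by
  unfold sg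
  rw [Equiv.Perm.sign_swap hij]
  norm_num

section main

variable {m : V → Alt 1} {a b c : V → Alt 2}

lemma extDeriv_gen (n : ℕ) (F : V → Alt n) (K : V → (Fin n → V) → ℝ) (q : V)
    (hF : DifferentiableAt ℝ F q)
    (hK : ∀ y v, F y v = ∑ τ : Equiv.Perm (Fin n), sg τ * K y (fun j => v (τ j)))
    (hKd : ∀ w, DifferentiableAt ℝ (fun y => K y w) q) (v : Fin (n + 1) → V) :
    extDeriv F q v = ∑ σ : Equiv.Perm (Fin (n + 1)),
      sg σ * fderiv ℝ (fun x => K x (fun j => v (σ j.succ))) q (v (σ 0)) := by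
  rw [extDeriv_apply hF]
  have key := sum_decomp (X := V) (fun u w => fderiv ℝ (fun x => K x w) q u) v
  refine Eq.trans (Finset.sum_congr rfl fun i _ => ?_) key
  rw [zsmul_eq_mul]
  push_cast
  congr 1
  have e : (fun y => F y (i.removeNth v)) =
      fun y => ∑ τ : Equiv.Perm (Fin n), sg τ * K y (fun j => (i.removeNth v) (τ j)) := by
    funext y
    exact hK _ _
  rw [e, fderiv_fun_sum (fun τ _ => (hKd _).const_mul _), sum_apply]
  refine Finset.sum_congr rfl fun τ _ => ?_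
  rw [fderiv_const_mul (hKd _), smul_apply, smul_eq_mul]

lemma extDeriv_Wf (hm : ContDiff ℝ ∞ m) (ha : ContDiff ℝ ∞ a) (hb : ContDiff ℝ ∞ b)
    (hc : ContDiff ℝ ∞ c) (q : V) (v : Fin 8 → V) :
    (extDeriv (fun y => Wf (m y) (a y) (b y) (c y)) q : V [⋀^Fin (7 + 1)]→L[ℝ] ℝ) v =
      S (fun z => fderiv ℝ (fun x => Fw (m x) (a x) (b x) (c x) (fun j => z j.succ)) q (z 0)) v :=
  extDeriv_gen 7 (fun y => Wf (m y) (a y) (b y) (c y))
    (fun y w => Fw (m y) (a y) (b y) (c y) w) q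
    ((contDiff_Wf hm ha hb hc).differentiable (by simp) q) (fun y v => Wf_apply _ _ _ _ v)
    (fun w => (contDiff_Fw hm ha hb hc w).differentiable (by simp) q) v

lemma main_eq (hm : ContDiff ℝ ∞ m) (ha : ContDiff ℝ ∞ a) (hb : ContDiff ℝ ∞ b)
    (hc : ContDiff ℝ ∞ c) (ha0 : ∀ q, extDeriv a q = 0) (hb0 : ∀ q, extDeriv b q = 0)
    (hc0 : ∀ q, extDeriv c q = 0) (q : V) (v : Fin 8 → V) :
    (extDeriv (fun y => Wf (m y) (a y) (b y) (c y)) q : V [⋀^Fin (7 + 1)]→L[ℝ] ℝ) v =
      wedge4 (extDeriv m q) (a q) (b q) (c q) v := by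
  rw [extDeriv_Wf hm ha hb hc]
  have dm : DifferentiableAt ℝ m q := hm.differentiable (by simp) q
  have da : DifferentiableAt ℝ a q := ha.differentiable (by simp) q
  have db : DifferentiableAt ℝ b q := hb.differentiable (by simp) q
  have dc : DifferentiableAt ℝ c q := hc.differentiable (by simp) q
  set G1 : (Fin 8 → V) → ℝ := fun z => fderiv ℝ (fun p => m p ![z 1]) q (z 0) * a q ![z 2, z 3] *
    b q ![z 4, z 5] * c q ![z 6, z 7] with hG1
  set G2 : (Fin 8 → V) → ℝ := fun z => m q ![z 1] * fderiv ℝ (fun p => a p ![z 2, z 3]) q (z 0) *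
    b q ![z 4, z 5] * c q ![z 6, z 7] with hG2
  set G3 : (Fin 8 → V) → ℝ := fun z => m q ![z 1] * a q ![z 2, z 3] *
    fderiv ℝ (fun p => b p ![z 4, z 5]) q (z 0) * c q ![z 6, z 7] with hG3
  set G4 : (Fin 8 → V) → ℝ := fun z => m q ![z 1] * a q ![z 2, z 3] *
    b q ![z 4, z 5] * fderiv ℝ (fun p => c p ![z 6, z 7]) q (z 0) with hG4
  have hS : (fun z : Fin 8 → V =>
      fderiv ℝ (fun x => Fw (m x) (a x) (b x) (c x) (fun j => z j.succ)) q (z 0)) =
      fun z => 2 * G1 z + 2 * G2 z + 2 * G3 z + 2 * G4 z := by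
    funext z
    exact fderiv_Fw hm ha hb hc q (z 0) (fun j => z j.succ)
  rw [hS, S_add, S_add, S_add, S_smul, S_smul, S_smul, S_smul]
  have h2 : S G2 v = 0 := by
    refine S_cyc G2 v (Equiv.swap 0 2 * Equiv.swap 2 3) (sg_three (by decide) (by decide))
      fun z => ?_
    have h := closed_cyc da (ha0 q) (z 0) (z 2) (z 3)
    have e0 : (Equiv.swap 0 2 * Equiv.swap 2 3 : Equiv.Perm (Fin 8)) 0 = 2 := by decide
    have e1 : (Equiv.swap 0 2 * Equiv.swap 2 3 : Equiv.Perm (Fin 8)) 1 = 1 := by decide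
    have e2 : (Equiv.swap 0 2 * Equiv.swap 2 3 : Equiv.Perm (Fin 8)) 2 = 3 := by decide
    have e3 : (Equiv.swap 0 2 * Equiv.swap 2 3 : Equiv.Perm (Fin 8)) 3 = 0 := by decide
    have e4 : (Equiv.swap 0 2 * Equiv.swap 2 3 : Equiv.Perm (Fin 8)) 4 = 4 := by decide
    have e5 : (Equiv.swap 0 2 * Equiv.swap 2 3 : Equiv.Perm (Fin 8)) 5 = 5 := by decide
    have e6 : (Equiv.swap 0 2 * Equiv.swap 2 3 : Equiv.Perm (Fin 8)) 6 = 6 := by decide
    have e7 : (Equiv.swap 0 2 * Equiv.swap 2 3 : Equiv.Perm (Fin 8)) 7 = 7 := by decide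
    simp only [hG2, e0, e1, e2, e3, e4, e5, e6, e7]
    linear_combination (m q ![z 1] * b q ![z 4, z 5] * c q ![z 6, z 7]) * h
  have h3 : S G3 v = 0 := by
    refine S_cyc G3 v (Equiv.swap 0 4 * Equiv.swap 4 5) (sg_three (by decide) (by decide))
      fun z => ?_
    have h := closed_cyc db (hb0 q) (z 0) (z 4) (z 5)
    have e0 : (Equiv.swap 0 4 * Equiv.swap 4 5 : Equiv.Perm (Fin 8)) 0 = 4 := by decide
    have e1 : (Equiv.swap 0 4 * Equiv.swap 4 5 : Equiv.Perm (Fin 8)) 1 = 1 := by decide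
    have e2 : (Equiv.swap 0 4 * Equiv.swap 4 5 : Equiv.Perm (Fin 8)) 2 = 2 := by decide
    have e3 : (Equiv.swap 0 4 * Equiv.swap 4 5 : Equiv.Perm (Fin 8)) 3 = 3 := by decide
    have e4 : (Equiv.swap 0 4 * Equiv.swap 4 5 : Equiv.Perm (Fin 8)) 4 = 5 := by decide
    have e5 : (Equiv.swap 0 4 * Equiv.swap 4 5 : Equiv.Perm (Fin 8)) 5 = 0 := by decide
    have e6 : (Equiv.swap 0 4 * Equiv.swap 4 5 : Equiv.Perm (Fin 8)) 6 = 6 := by decide
    have e7 : (Equiv.swap 0 4 * Equiv.swap 4 5 : Equiv.Perm (Fin 8)) 7 = 7 := by decide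
    simp only [hG3, e0, e1, e2, e3, e4, e5, e6, e7]
    linear_combination (m q ![z 1] * a q ![z 2, z 3] * c q ![z 6, z 7]) * h
  have h4 : S G4 v = 0 := by
    refine S_cyc G4 v (Equiv.swap 0 6 * Equiv.swap 6 7) (sg_three (by decide) (by decide))
      fun z => ?_
    have h := closed_cyc dc (hc0 q) (z 0) (z 6) (z 7)
    have e0 : (Equiv.swap 0 6 * Equiv.swap 6 7 : Equiv.Perm (Fin 8)) 0 = 6 := by decide
    have e1 : (Equiv.swap 0 6 * Equiv.swap 6 7 : Equiv.Perm (Fin 8)) 1 = 1 := by decide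
    have e2 : (Equiv.swap 0 6 * Equiv.swap 6 7 : Equiv.Perm (Fin 8)) 2 = 2 := by decide
    have e3 : (Equiv.swap 0 6 * Equiv.swap 6 7 : Equiv.Perm (Fin 8)) 3 = 3 := by decide
    have e4 : (Equiv.swap 0 6 * Equiv.swap 6 7 : Equiv.Perm (Fin 8)) 4 = 4 := by decide
    have e5 : (Equiv.swap 0 6 * Equiv.swap 6 7 : Equiv.Perm (Fin 8)) 5 = 5 := by decide
    have e6 : (Equiv.swap 0 6 * Equiv.swap 6 7 : Equiv.Perm (Fin 8)) 6 = 7 := by decide
    have e7 : (Equiv.swap 0 6 * Equiv.swap 6 7 : Equiv.Perm (Fin 8)) 7 = 0 := by decide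
    simp only [hG4, e0, e1, e2, e3, e4, e5, e6, e7]
    linear_combination (m q ![z 1] * a q ![z 2, z 3] * b q ![z 4, z 5]) * h
  -- the first term
  have hw : wedge4 (extDeriv m q) (a q) (b q) (c q) v =
      S (fun z => G1 z + (-1) * G1 (fun j => z (Equiv.swap (0 : Fin 8) 1 j))) v := by
    unfold wedge4 S
    refine Finset.sum_congr rfl fun σ _ => ?_
    show sg σ * _ = sg σ * _
    congr 1
    have e0 : (Equiv.swap (0 : Fin 8) 1) 0 = 1 := by decide
    have e1 : (Equiv.swap (0 : Fin 8) 1) 1 = 0 := by decide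
    have e2 : (Equiv.swap (0 : Fin 8) 1) 2 = 2 := by decide
    have e3 : (Equiv.swap (0 : Fin 8) 1) 3 = 3 := by decide
    have e4 : (Equiv.swap (0 : Fin 8) 1) 4 = 4 := by decide
    have e5 : (Equiv.swap (0 : Fin 8) 1) 5 = 5 := by decide
    have e6 : (Equiv.swap (0 : Fin 8) 1) 6 = 6 := by decide
    have e7 : (Equiv.swap (0 : Fin 8) 1) 7 = 7 := by decide
    simp only [hG1, e0, e1, e2, e3, e4, e5, e6, e7]
    rw [ext1 dm]
    ring
  rw [hw, S_add, S_smul, S_comp, sg_swap (by decide), h2, h3, h4]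
  ring

end main

theorem taskWedge : TaskWedge := by
  refine ⟨Wf, ?_, ?_, ?_⟩
  · exact contDiff_Wf contDiff_fst (contDiff_fst.comp contDiff_snd)
      (contDiff_fst.comp (contDiff_snd.comp contDiff_snd))
      (contDiff_snd.comp (contDiff_snd.comp contDiff_snd))
  · intro m a b c L
    ext v
    rw [ContinuousAlternatingMap.compContinuousLinearMap_apply, Wf_apply, Wf_apply]
    refine Finset.sum_congr rfl fun τ _ => ?_
    congr 1
    unfold Fw
    have e1 : ∀ x : V, ⇑L ∘ ![x] = ![L x] := by intro x; funext i; fin_cases i; rfl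
    have e2 : ∀ x y : V, ⇑L ∘ ![x, y] = ![L x, L y] := by
      intro x y; funext i; fin_cases i <;> rfl
    simp only [ContinuousAlternatingMap.compContinuousLinearMap_apply, e1, e2,
      Function.comp_apply]
  · intro m a b c hm ha hb hc ha0 hb0 hc0 q v
    exact main_eq hm ha hb hc ha0 hb0 hc0 q v

end Pool.Agent.TH989.SD
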