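import Pool.Agent.TH27.FS.Cross

/-!
# Right deepness, step (R1b)
-/

set_option autoImplicit false

namespace Pool.Agent.TH27.FS

open Equiv

namespace J688

variable {A : Type}

theorem site_sh' (T : TB A) (x : ℤ → A) (n p : ℤ) : T.site (sh n x) p ↔ T.site x (p + n) :=
  T.F.site_sh x n p

/-- the right part of a box at `p + d` -/
def th (T : TB A) (x : ℤ → A) (p : ℤ) : Prop :=
  cont T.n x (p + T.d) ∈ T.Z ∧ T.S.occ T.v x (p + T.d + T.n) ∧
    T.S.occ T.M x (p + T.d + T.n + T.S.μ)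

theorem th_sh (T : TB A) (x : ℤ → A) (n p : ℤ) : th T (sh n x) p ↔ th T x (p + n) := by
  unfold th
  rw [cont_sh, MS.occ_sh, MS.occ_sh, show p + T.d + n = p + n + T.d by ring,
    show p + T.d + T.n + n = p + n + T.d + T.n by ring,
    show p + T.d + T.n + T.S.μ + n = p + n + T.d + T.n + T.S.μ by ring]

theorem th_congr {T : TB A} {x y : ℤ → A} {p : ℤ}
    (h : ∀ j : ℤ, p + T.d ≤ j → j < p + T.d + T.n + 2 * T.S.μ → y j = x j) (hy : th T y p) :
    th T x p := by
  have hμ := T.S.hμ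
  obtain ⟨h1, h2, h3⟩ := hy
  refine ⟨?_, (MS.occ_congr' fun j hj hj' => h j (by omega) (by omega)).1 h2,
    (MS.occ_congr' fun j hj hj' => h j (by omega) (by omega)).1 h3⟩
  rwa [← cont_congr (x := y) (y := x) (p := p + T.d) (q := p + T.d)
    fun i hi hi' => h _ (by omega) (by omega)]

theorem site_next {T : TB A} {x : ℤ → A} {p : ℤ} (h : T.site x p) :
    T.site x (p + T.d) ↔ T.S.occ T.u x (p + T.n + 2 * T.S.μ) ∧ th T x p := by
  have e1 : p + T.d - 2 * T.S.μ = p + T.n + T.S.μ := by unfold TB.d; ring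
  have e2 : p + T.d - T.S.μ = p + T.n + 2 * T.S.μ := by unfold TB.d; ring
  unfold TB.site th
  rw [e1, e2]
  constructor
  · rintro ⟨-, h2, h3, h4, h5⟩
    exact ⟨h2, h3, h4, h5⟩
  · rintro ⟨h2, h3, h4, h5⟩
    exact ⟨h.2.2.2.2, h2, h3, h4, h5⟩

/-- after a box with a further marker there is a gap -/
theorem far {T : TB A} {x : ℤ → A} {p q : ℤ} {a : Fin 5} (hp : T.site x p)
    (ha : T.S.occ a x (p + T.n + 2 * T.S.μ)) (haM : T.M ≠ a) (hq : T.site x q) (hpq : p < q)
    (hne : q ≠ p + T.d) : p + T.d + 2 * T.S.μ ≤ q := by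
  have hμ := T.S.hμ
  have h1 := TB.site_dist hp hq hpq
  have hdd : T.d = T.n + 3 * T.S.μ := rfl
  have h2 := MS.occ_no hp.2.2.2.2 hq.1 (by omega)
  have h3 : p + T.n + 2 * T.S.μ ≠ q - 2 * T.S.μ := by
    intro h
    have := hq.1
    rw [← h] at this
    exact haM (MS.occ_inj this ha)
  have h4 := MS.occ_no ha hq.1 (by omega)
  omega

/-- transfer of `th` -/
theorem th_transfer {T : TB A} {x y : ℤ → A} {p : ℤ} {a : Fin 5}
    (ha : T.S.occ a y (p + T.n + 2 * T.S.μ))
    (h : ∀ j : ℤ, p + T.d ≤ j → j < p + T.d + T.n + 2 * T.S.μ → y j ≠ x j →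
      ∃ q, p + T.d + 2 * T.S.μ ≤ q ∧ q ≤ j ∧ T.S.occ T.M y (q - 2 * T.S.μ))
    (hy : th T y p) : th T x p := by
  have hμ := T.S.hμ
  have hdd : T.d = T.n + 3 * T.S.μ := rfl
  apply th_congr (y := y) _ hy
  intro j hj hj'
  by_contra hne
  obtain ⟨q, h1, h2, h3⟩ := h j hj hj' hne
  have ha' : T.S.occ a y (p + T.d - T.S.μ) := by
    rwa [show p + T.d - T.S.μ = p + T.n + 2 * T.S.μ by unfold TB.d; ring]
  have := MS.occ_clean ha' hy.2.1 (T.hZ _ hy.1) h3 (by omega)
  omega

/-- window length -/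
@[reducible] def HL (T : TB A) : ℕ := T.n + 3 * T.S.μ

theorem le0 (T : TB A) : 0 + T.n ≤ HL T := by unfold HL; omega

/-- the marker after the box -/
def nx (T : TB A) (x : ℤ → A) (p : ℤ) : Prop :=
  ∃ a, (a = T.u ∨ a = T.w) ∧ T.S.occ a x (p + T.n + 2 * T.S.μ)

/-- structure of the window -/
def QK (T : TB A) (x : ℤ → A) (p : ℤ) : Prop :=
  cont T.n x p ∈ T.Z ∧ T.S.occ T.v x (p + T.n) ∧ T.S.occ T.M x (p + T.n + T.S.μ) ∧ nx T x p

theorem occ_win {S : MS A} {l : ℕ} {x y : ℤ → A} {p q : ℤ} (h : cont l x p = cont l y q)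
    {a : Fin 5} {s : ℤ} (hs : 0 ≤ s) (hs' : s + S.μ ≤ l) :
    S.occ a x (p + s) ↔ S.occ a y (q + s) := by
  have hl := cont_eq_iff.1 h
  apply MS.occ_congr
  intro i hi hi'
  have := hl (s + i) (by omega) (by omega)
  rwa [← add_assoc, ← add_assoc] at this

theorem QK_congr {T : TB A} {x y : ℤ → A} {p q : ℤ} (h : cont (HL T) x p = cont (HL T) y q) :
    QK T x p → QK T y q := by
  have hl := cont_eq_iff.1 h
  have hμ := T.S.hμ
  rintro ⟨h1, h2, h3, a, h4, h5⟩
  refine ⟨?_, ?_, ?_, a, h4, ?_⟩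
  · rwa [← cont_congr (x := x) (y := y) (p := p) (q := q)
      fun i hi hi' => hl i hi (by push_cast; omega)]
  · exact (occ_win h (by omega) (by push_cast; omega)).1 h2
  · have := (occ_win (S := T.S) h (a := T.M) (s := T.n + T.S.μ) (by omega) (by push_cast; omega)).1
    rw [← add_assoc, ← add_assoc] at this
    exact this h3
  · have := (occ_win (S := T.S) h (a := a) (s := T.n + 2 * T.S.μ) (by omega) (by push_cast; omega)).1
    rw [← add_assoc, ← add_assoc] at this
    exact this h5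

theorem nx_ne {T : TB A} {a : Fin 5} (h : a = T.u ∨ a = T.w) : T.M ≠ a := by
  rcases h with rfl | rfl
  · exact T.hMu
  · exact T.hMw

/-- sites of the auxiliary family -/
def sH (T : TB A) (x : ℤ → A) (p : ℤ) : Prop := T.site x p ∧ nx T x p ∧ ¬ th T x p

theorem sH_far {T : TB A} {x : ℤ → A} {p q : ℤ} (hp : sH T x p) (hq : T.site x q) (h : p < q) :
    p + T.d + 2 * T.S.μ ≤ q := by
  obtain ⟨h1, ⟨a, ha, h2⟩, h3⟩ := hp
  refine far h1 h2 (nx_ne ha) hq h ?_
  rintro rfl
  exact h3 ((site_next h1).1 hq).2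

/-- the auxiliary family -/
def HF (T : TB A) : Fam A (HL T) where
  site := sH T
  Z := {c | ∀ x p, cont (HL T) x p = c → QK T x p}
  site_sh x n p := by
    unfold sH nx
    rw [site_sh', th_sh]
    simp only [MS.occ_sh]
    rw [show p + T.n + 2 * T.S.μ + n = p + n + T.n + 2 * T.S.μ by ring]
  site_loc := by
    obtain ⟨r, hr⟩ := T.F.site_loc
    have hd := T.d_pos
    have hdn : ((T.d.toNat : ℕ) : ℤ) = T.d := Int.toNat_of_nonneg hd.le
    have hμ := T.S.hμ
    refine ⟨r + T.d.toNat + T.n + 3 * T.S.μ, fun x y p h hs => ?_⟩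
    push_cast at h
    rw [hdn] at h
    obtain ⟨h1, ⟨a, ha, h2⟩, h3⟩ := hs
    refine ⟨hr x y p (fun i h4 h5 => h i (by omega) (by omega)) h1, ⟨a, ha, ?_⟩, fun h4 => h3 ?_⟩
    · exact (MS.occ_congr' fun j h4 h5 => h j (by omega) (by omega)).1 h2
    · exact th_congr (y := y) (fun j h5 h6 => (h j (by omega) (by omega)).symm) h4
  memZ x p h := fun y q hy => QK_congr hy.symm ⟨h.1.2.2.1, h.1.2.2.2.1, h.1.2.2.2.2, h.2.1⟩
  disj x p q hp hq h := by
    have h1 := sH_far hp hq.1 h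
    have hdd : T.d = T.n + 3 * T.S.μ := rfl
    push_cast
    omega
  inv x y h1 h2 p hp := by
    have hμ := T.S.hμ
    have hdd : T.d = T.n + 3 * T.S.μ := rfl
    have hLL : ((HL T : ℕ) : ℤ) = T.d := by rw [hdd]; push_cast; ring
    rw [hLL] at h1
    have hQ : ∀ q, sH T x q → QK T y q := fun q hq => h2 q hq y q rfl
    have hleft : ∀ q, sH T x q → ∀ j, q - 2 * T.S.μ ≤ j → j < q → y j = x j := by
      intro q hq j hj hj'
      apply h1
      intro r hr hjr
      rcases lt_trichotomy q r with h | h | h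
      · omega
      · omega
      · have := sH_far hr hq.1 h; omega
    obtain ⟨k1, k2, k3, a, ha, k4⟩ := hQ p hp
    have hsM : ∀ q, sH T x q → T.S.occ T.M y (q - 2 * T.S.μ) := fun q hq =>
      (MS.occ_congr' fun j h4 h5 => (hleft q hq j (by omega) (by omega)).symm).1 hq.1.1
    refine ⟨⟨hsM p hp, ?_, k1, k2, k3⟩, ⟨a, ha, k4⟩, fun hth => hp.2.2 ?_⟩
    · exact (MS.occ_congr' fun j h4 h5 => (hleft p hp j (by omega) (by omega)).symm).1 hp.1.2.1
    · refine th_transfer k4 (fun j hj hj' hne => ?_) hth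
      have hex : ∃ q, sH T x q ∧ q ≤ j ∧ j < q + T.d := by
        by_contra hcon
        apply hne
        apply h1
        intro q hq hjq
        exact hcon ⟨q, hq, hjq⟩
      obtain ⟨q, hq, hq1, hq2⟩ := hex
      refine ⟨q, ?_, hq1, hsM q hq⟩
      rcases lt_trichotomy p q with h | h | h
      · exact sH_far hp hq.1 h
      · omega
      · have := sH_far hq hp.1 h; omega

/-- reference word -/
noncomputable def zz (T : TB A) (a : Fin 5) (i : ℤ) : A :=
  if i < T.n + T.S.μ then T.S.wd T.v (i - T.n)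
  else if i < T.n + 2 * T.S.μ then T.S.wd T.M (i - T.n - T.S.μ)
  else T.S.wd a (i - T.n - 2 * T.S.μ)

theorem eq_zz {T : TB A} {a : Fin 5} {x : ℤ → A} {p : ℤ} (h1 : T.S.occ T.v x (p + T.n))
    (h2 : T.S.occ T.M x (p + T.n + T.S.μ)) (h3 : T.S.occ a x (p + T.n + 2 * T.S.μ)) {i : ℤ}
    (hi : T.n ≤ i) (hi' : i < T.n + 3 * T.S.μ) : x (p + i) = zz T a i := by
  unfold zz
  by_cases c1 : i < T.n + T.S.μ
  · rw [if_pos c1, ← h1 (i - T.n) (by omega) (by omega)]
    congr 1; ring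
  rw [if_neg c1]
  by_cases c2 : i < T.n + 2 * T.S.μ
  · rw [if_pos c2, ← h2 (i - T.n - T.S.μ) (by omega) (by omega)]
    congr 1; ring
  · rw [if_neg c2, ← h3 (i - T.n - 2 * T.S.μ) (by omega) (by omega)]
    congr 1; ring

theorem of_zz {T : TB A} {a : Fin 5} {x : ℤ → A} {p : ℤ}
    (h : ∀ i : ℤ, T.n ≤ i → i < T.n + 3 * T.S.μ → x (p + i) = zz T a i) :
    T.S.occ T.v x (p + T.n) ∧ T.S.occ T.M x (p + T.n + T.S.μ) ∧
      T.S.occ a x (p + T.n + 2 * T.S.μ) := by
  refine ⟨fun i hi hi' => ?_, fun i hi hi' => ?_, fun i hi hi' => ?_⟩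
  · have := h (T.n + i) (by omega) (by omega)
    rw [← add_assoc] at this
    rw [this]
    unfold zz
    rw [if_pos (by omega)]
    congr 1; ring
  · have := h (T.n + T.S.μ + i) (by omega) (by omega)
    rw [show p + T.n + T.S.μ + i = p + (T.n + T.S.μ + i) by ring, this]
    unfold zz
    rw [if_neg (by omega), if_pos (by omega)]
    congr 1; ring
  · have := h (T.n + 2 * T.S.μ + i) (by omega) (by omega)
    rw [show p + T.n + 2 * T.S.μ + i = p + (T.n + 2 * T.S.μ + i) by ring, this]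
    unfold zz
    rw [if_neg (by omega), if_neg (by omega)]
    congr 1; ring

theorem emb_mem {T : TB A} {m : Fin 5} (hm : m = T.u ∨ m = T.w) {a : Fin T.n → A}
    (ha : a ∈ T.Z) : emb T.n (HL T) 0 (zz T m) a ∈ (HF T).Z := by
  intro x p hx
  obtain ⟨h1, h2⟩ := emb_cont (le0 T) hx
  push_cast at h1 h2
  rw [add_zero] at h1
  obtain ⟨k1, k2, k3⟩ := of_zz (T := T) (a := m) (x := x) (p := p)
    fun i hi hi' => h2 i (by omega) (by omega) (by omega)
  refine ⟨by rw [h1]; exact ha, k1, k2, m, hm, k3⟩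

end J688

open J688

/-- RIGHT DEEPNESS, step (R1b) -/
theorem TB.R1b {A : Type} (T : TB A) {N : Subgroup (AutG A)} [N.Normal] (h5 : T.Five)
    (h : ∀ a b c : Fin T.n → A, a ∈ T.Z → b ∈ T.Z → c ∈ T.Z → D3 a b c →
      InN N (actf (T.F.ctl (fun x p => ¬ T.S.occ T.u x (p + T.n + 2 * T.S.μ)) (tc a b c))))
    {a b c : Fin T.n → A} (ha : a ∈ T.Z) (hb : b ∈ T.Z) (hc : c ∈ T.Z) (habc : D3 a b c) :
    InN N (actf (T.F.ctl (fun x p => ¬ T.site x (p + T.d)) (tc a b c))) := by
  classical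
  have hμ := T.S.hμ
  have hd := T.d_pos
  have hdd : T.d = T.n + 3 * T.S.μ := rfl
  have hdn : ((T.d.toNat : ℕ) : ℤ) = T.d := Int.toNat_of_nonneg hd.le
  -- `U` is good
  have gU : T.F.Good (fun x p => T.S.occ T.u x (p + T.n + 2 * T.S.μ)) := by
    refine ⟨fun x n p _ => ?_, ⟨T.n + 3 * T.S.μ, fun x y p hxy _ hc => ?_⟩,
      fun x y hm p hp hc => ?_⟩
    · rw [MS.occ_sh, show p + T.n + 2 * T.S.μ + n = p + n + T.n + 2 * T.S.μ by ring]
    · push_cast at hxy
      exact (MS.occ_congr' fun j h4 h5 => hxy j (by omega) (by omega)).1 hc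
    · refine (MS.occ_congr' fun j h4 h5 => (hm.1 j ?_).symm).1 hc
      intro q hq hj
      have hp' : T.site x p := hp
      rcases lt_trichotomy p q with h | h | h
      · have := TB.site_dist hp' hq h; omega
      · omega
      · have := TB.site_dist hq hp' h; omega
  have gsite : T.F.Good (fun x p => T.site x (p + T.d)) := by
    obtain ⟨r, hr⟩ := T.F.site_loc
    refine ⟨fun x n p _ => ?_, ⟨r + T.d.toNat, fun x y p hxy _ hc => ?_⟩,
      fun x y hm p hp hc => ?_⟩
    · rw [site_sh', show p + T.d + n = p + n + T.d by ring]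
    · push_cast at hxy
      rw [hdn] at hxy
      exact hr x y _ (fun j h4 h5 => hxy j (by omega) (by omega)) hc
    · exact hm.site hc
  have gC2 : T.F.Good (fun x p => T.S.occ T.u x (p + T.n + 2 * T.S.μ) ∧ ¬ th T x p) := by
    refine Fam.good_congr (gU.and gsite.not) fun x p hp => ?_
    have := site_next (T := T) (x := x) (p := p) hp
    rw [this]
    tauto
  have gCw : T.F.Good (fun x p => T.S.occ T.w x (p + T.n + 2 * T.S.μ) ∧ ¬ th T x p) := by
    refine ⟨fun x n p _ => ?_, ⟨T.d.toNat + T.n + 3 * T.S.μ, fun x y p hxy _ hc => ?_⟩,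
      fun x y hm p hp hc => ?_⟩
    · rw [MS.occ_sh, th_sh, show p + T.n + 2 * T.S.μ + n = p + n + T.n + 2 * T.S.μ by ring]
    · push_cast at hxy
      rw [hdn] at hxy
      refine ⟨(MS.occ_congr' fun j h4 h5 => hxy j (by omega) (by omega)).1 hc.1,
        fun h4 => hc.2 ?_⟩
      exact th_congr (y := y) (fun j h5 h6 => (hxy j (by omega) (by omega)).symm) h4
    · have hfar : ∀ q, T.site x q → p < q → p + T.d + 2 * T.S.μ ≤ q := by
        intro q hq hpq
        refine far hp hc.1 T.hMw hq hpq ?_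
        rintro rfl
        exact T.huw (MS.occ_inj ((site_next hp).1 hq).1 hc.1)
      have hw : T.S.occ T.w y (p + T.n + 2 * T.S.μ) := by
        refine (MS.occ_congr' fun j h4 h5 => (hm.1 j ?_).symm).1 hc.1
        intro q hq hj
        have hp' : T.site x p := hp
        rcases lt_trichotomy p q with h | h | h
        · have := hfar q hq h; omega
        · omega
        · have := TB.site_dist hq hp' h; omega
      refine ⟨hw, fun hth => hc.2 ?_⟩
      refine th_transfer hw (fun j hj hj' hne => ?_) hth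
      have hex : ∃ q, T.site x q ∧ q ≤ j ∧ j < q + T.n := by
        by_contra hcon
        apply hne
        apply hm.1
        intro q hq hjq
        exact hcon ⟨q, hq, hjq⟩
      obtain ⟨q, hq, hq1, hq2⟩ := hex
      have hp' : T.site x p := hp
      refine ⟨q, ?_, hq1, (hm.site hq : T.site y q).1⟩
      rcases lt_trichotomy p q with h | h | h
      · exact hfar q hq h
      · omega
      · have := TB.site_dist hq hp' h; omega
  have iw := emb_inj (A := A) (l := T.n) (l' := HL T) (s := 0) (y := zz T T.w) (le0 T)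
  have iu := emb_inj (A := A) (l := T.n) (l' := HL T) (s := 0) (y := zz T T.u) (le0 T)
  -- step 1
  have s1 : InN N (actf (T.F.ctl
      (fun x p => T.S.occ T.w x (p + T.n + 2 * T.S.μ) ∧ ¬ th T x p) (tc a b c))) := by
    obtain ⟨d, hd', e, he', k1, k2, k3⟩ := h5 a b c ha hb hc habc
    refine sub_ctl (C₁ := fun x p => ¬ T.S.occ T.u x (p + T.n + 2 * T.S.μ)) gU.not gCw
      (fun x p _ hp hp' => T.huw (MS.occ_inj hp' hp.1)) ha hb hc hd' he' habc k1 k2 k3 ?_
    exact h a b d ha hb hd' ⟨habc.1, k1.1, k2.1⟩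
  -- the two cross lemmas
  have hcr : ∀ m : Fin 5, (m = T.u ∨ m = T.w) →
      actf (T.F.ctl (fun x p => T.S.occ m x (p + T.n + 2 * T.S.μ) ∧ ¬ th T x p) (tc a b c)) =
      actf ((HF T).ctl (fun _ _ => True) (tc (emb T.n (HL T) 0 (zz T m) a)
        (emb T.n (HL T) 0 (zz T m) b) (emb T.n (HL T) 0 (zz T m) c))) := by
    intro m hm
    apply cross (le0 T) habc (Fam.good_true _) (emb_mem hm ha) (emb_mem hm hb) (emb_mem hm hc)
    · rintro x p hp ⟨hq1, hq2⟩ _
      have hp' : T.site x p := hp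
      push_cast
      rw [sub_zero]
      refine ⟨⟨hp', ⟨m, hm, hq1⟩, hq2⟩, trivial, ?_⟩
      apply cont_emb (le0 T)
      · push_cast; rw [add_zero]
      · intro k h0 h1 h2
        push_cast at h1 h2
        exact eq_zz hp'.2.2.2.1 hp'.2.2.2.2 hq1 (by omega) (by omega)
    · intro x p hp _ hcon _
      push_cast at hp hcon
      rw [sub_zero] at hp hcon
      obtain ⟨-, h2⟩ := emb_cont (le0 T) hcon
      push_cast at h2
      obtain ⟨k1, k2, k3⟩ := of_zz (T := T) (a := m) (x := x) (p := p)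
        fun i hi hi' => h2 i (by omega) (by omega) (by omega)
      exact ⟨hp.1, k3, hp.2.2⟩
  rw [hcr T.w (Or.inr rfl)] at s1
  have s3 := InN_tc (Fam.good_true _) (emb_mem (T := T) (Or.inr rfl) ha)
    (emb_mem (Or.inr rfl) hb) (emb_mem (Or.inr rfl) hc) (emb_mem (Or.inl rfl) ha)
    (emb_mem (Or.inl rfl) hb) (emb_mem (Or.inl rfl) hc)
    ⟨iw.ne habc.1, iw.ne habc.2.1, iw.ne habc.2.2⟩
    ⟨iu.ne habc.1, iu.ne habc.2.1, iu.ne habc.2.2⟩ s1
  rw [← hcr T.u (Or.inl rfl)] at s3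
  refine InN_union gU.not gC2 (fun x p hp => ?_) (fun x p hp => ?_) (Fam.ok_tc ha hb hc)
    (h a b c ha hb hc habc) s3
  · have := site_next (T := T) (x := x) (p := p) hp
    rw [this]
    tauto
  · tauto

end Pool.Agent.TH27.FS
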