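import Pool.Agent.TH27.FS.Cross

/-!
# Right deepness, step (R2)
-/

set_option autoImplicit false

namespace Pool.Agent.TH27.FS

open Equiv

namespace J689

variable {A : Type}

theorem RI_good (T : TB A) (i : ℕ) : T.F.Good (T.RI i) := by
  have hsh : ∀ (x : ℤ → A) (n p : ℤ), T.site (sh n x) p ↔ T.site x (p + n) := T.F.site_sh
  refine ⟨fun x n p _ => ?_, ?_, fun x y hm p _ h => ?_⟩
  · unfold TB.RI
    simp only [hsh]
    have e : ∀ k : ℤ, p + k * T.d + n = p + n + k * T.d := fun k => by ring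
    simp only [e]
  · obtain ⟨r, hr⟩ := T.F.site_loc
    have hd := T.d_pos
    refine ⟨r + i * T.d.toNat, fun x y p hxy _ h => ?_⟩
    have hdn : ((T.d.toNat : ℕ) : ℤ) = T.d := Int.toNat_of_nonneg hd.le
    push_cast at hxy
    rw [hdn] at hxy
    have hr' : ∀ k : ℤ, 0 ≤ k → k ≤ i → (T.site x (p + k * T.d) ↔ T.site y (p + k * T.d)) := by
      intro k h0 h1
      have h2 : k * T.d ≤ i * T.d := mul_le_mul_of_nonneg_right h1 hd.le
      have h3 : 0 ≤ k * T.d := mul_nonneg h0 hd.le
      exact ⟨hr x y _ fun j h4 h5 => hxy j (by linarith) (by linarith),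
        hr y x _ fun j h4 h5 => (hxy j (by linarith) (by linarith)).symm⟩
    refine ⟨fun k h0 h1 => (hr' k h0 h1.le).1 (h.1 k h0 h1), fun h2 => h.2 ?_⟩
    exact (hr' i (by positivity) le_rfl).2 h2
  · refine ⟨fun k h0 h1 => hm.site (h.1 k h0 h1), fun h2 => h.2 (hm.symm.site h2)⟩

/-- window length of the double boxes -/
@[reducible] def LL (T : TB A) : ℕ := T.n + 3 * T.S.μ + T.n

theorem le0 (T : TB A) : 0 + T.n ≤ LL T := by unfold LL; omega

/-- structure of a double box -/
def QH (T : TB A) (x : ℤ → A) (p : ℤ) : Prop :=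
  cont T.n x p ∈ T.Z ∧ T.S.occ T.v x (p + T.n) ∧ T.S.occ T.M x (p + T.n + T.S.μ) ∧
    T.S.occ T.u x (p + T.n + 2 * T.S.μ) ∧ cont T.n x (p + T.d) ∈ T.Z

theorem QH_congr {T : TB A} {x y : ℤ → A} {p q : ℤ} (h : cont (LL T) x p = cont (LL T) y q) :
    QH T x p → QH T y q := by
  have hl := cont_eq_iff.1 h
  push_cast at hl
  have hμ := T.S.hμ
  rintro ⟨h1, h2, h3, h4, h5⟩
  refine ⟨?_, (MS.occ_congr fun i hi hi' => ?_).1 h2, (MS.occ_congr fun i hi hi' => ?_).1 h3,
    (MS.occ_congr fun i hi hi' => ?_).1 h4, ?_⟩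
  · rwa [← cont_congr (x := x) (y := y) (p := p) (q := q) fun i hi hi' => hl i hi (by omega)]
  · have := hl (T.n + i) (by omega) (by omega)
    rwa [← add_assoc, ← add_assoc] at this
  · have := hl (T.n + T.S.μ + i) (by omega) (by omega)
    rwa [show p + (T.n + T.S.μ + i) = p + T.n + T.S.μ + i by ring,
      show q + (T.n + T.S.μ + i) = q + T.n + T.S.μ + i by ring] at this
  · have := hl (T.n + 2 * T.S.μ + i) (by omega) (by omega)
    rwa [show p + (T.n + 2 * T.S.μ + i) = p + T.n + 2 * T.S.μ + i by ring,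
      show q + (T.n + 2 * T.S.μ + i) = q + T.n + 2 * T.S.μ + i by ring] at this
  · rwa [← cont_congr (x := x) (y := y) (p := p + T.d) (q := q + T.d) fun i hi hi' => ?_]
    have := hl (T.d + i) (by unfold TB.d; omega) (by unfold TB.d; omega)
    rwa [show p + (T.d + i) = p + T.d + i by ring,
      show q + (T.d + i) = q + T.d + i by ring] at this

theorem QH_of_sites {T : TB A} {x : ℤ → A} {p : ℤ} (h1 : T.site x p) (h2 : T.site x (p + T.d)) :
    QH T x p := by
  refine ⟨h1.2.2.1, h1.2.2.2.1, h1.2.2.2.2, ?_, h2.2.2.1⟩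
  have := h2.2.1
  rwa [show p + T.d - T.S.μ = p + T.n + 2 * T.S.μ by unfold TB.d; ring] at this

/-- the second site of a double box -/
theorem site_two {T : TB A} {i : ℕ} (hi : 1 ≤ i) {x : ℤ → A} {p : ℤ} (h : T.RI (i + 1) x p) :
    T.site x (p + T.d) := by
  have := h.1 1 (by norm_num) (by push_cast; omega)
  simpa using this

theorem site_dist' {T : TB A} {x : ℤ → A} {p q : ℤ} (hp : T.site x p) (hq : T.site x q)
    (h : p ≠ q) : p + T.d ≤ q ∨ q + T.d ≤ p := by
  rcases lt_or_gt_of_ne h with h | h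
  · exact Or.inl (TB.site_dist hp hq h)
  · exact Or.inr (TB.site_dist hq hp h)

/-- the letters between the two contents are determined -/
theorem QH_mid {T : TB A} {x y : ℤ → A} {p : ℤ} (h1 : QH T x p) (h2 : QH T y p) {j : ℤ}
    (hj : p + T.n ≤ j) (hj' : j < p + T.d) : y j = x j := by
  obtain ⟨-, a1, a2, a3, -⟩ := h1
  obtain ⟨-, b1, b2, b3, -⟩ := h2
  unfold TB.d at hj'
  by_cases c1 : j < p + T.n + T.S.μ
  · have e1 := a1 (j - (p + T.n)) (by omega) (by omega)
    have e2 := b1 (j - (p + T.n)) (by omega) (by omega)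
    rw [show p + T.n + (j - (p + T.n)) = j by ring] at e1 e2
    rw [e1, e2]
  by_cases c2 : j < p + T.n + 2 * T.S.μ
  · have e1 := a2 (j - (p + T.n + T.S.μ)) (by omega) (by omega)
    have e2 := b2 (j - (p + T.n + T.S.μ)) (by omega) (by omega)
    rw [show p + T.n + T.S.μ + (j - (p + T.n + T.S.μ)) = j by ring] at e1 e2
    rw [e1, e2]
  · have e1 := a3 (j - (p + T.n + 2 * T.S.μ)) (by omega) (by omega)
    have e2 := b3 (j - (p + T.n + 2 * T.S.μ)) (by omega) (by omega)
    rw [show p + T.n + 2 * T.S.μ + (j - (p + T.n + 2 * T.S.μ)) = j by ring] at e1 e2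
    rw [e1, e2]

theorem H_not_next {T : TB A} {i : ℕ} {x : ℤ → A} {p : ℤ} (hp : T.RI (i + 1) x p)
    (hq : T.RI (i + 1) x (p + T.d)) : False := by
  apply hp.2
  have := hq.1 i (by positivity) (by push_cast; omega)
  rwa [show p + T.d + i * T.d = p + (i + 1 : ℕ) * T.d by push_cast; ring] at this

/-- the family of double boxes of right index `i + 1` -/
def HF (T : TB A) (i : ℕ) (hi : 1 ≤ i) : Fam A (LL T) where
  site x p := T.site x p ∧ T.RI (i + 1) x p
  Z := {c | ∀ x p, cont (LL T) x p = c → QH T x p}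
  site_sh x n p := by
    rw [show T.site (sh n x) p ↔ T.site x (p + n) from T.F.site_sh x n p]
    exact and_congr_right fun h => (RI_good T (i + 1)).sh x n p h
  site_loc := by
    obtain ⟨r, hr⟩ := (RI_good T (i + 1)).loc_iff
    exact ⟨r, fun x y p h hp => (hr x y p h).1 hp⟩
  memZ x p h := fun y q hy => QH_congr hy.symm (QH_of_sites h.1 (site_two hi h.2))
  disj x p q hp hq h := by
    have hμ := T.S.hμ
    have h1 := TB.site_dist hp.1 hq.1 h
    have hne : p + T.d ≠ q := by
      rintro rfl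
      exact H_not_next hp.2 hq.2
    have h2 := TB.site_dist (site_two hi hp.2) hq.1 (lt_of_le_of_ne h1 hne)
    unfold TB.d at h2
    push_cast
    omega
  inv x y h1 h2 p hp := by
    have hμ := T.S.hμ
    have hQ : ∀ q, T.site x q ∧ T.RI (i + 1) x q → QH T y q := fun q hq => h2 q hq y q rfl
    have hm : T.F.Mod x y := by
      constructor
      · intro j hj
        by_cases hex : ∃ q, (T.site x q ∧ T.RI (i + 1) x q) ∧ q ≤ j ∧ j < q + (LL T : ℕ)
        · obtain ⟨q, hq, hj1, hj2⟩ := hex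
          have k1 := hj q hq.1
          have k2 := hj (q + T.d) (site_two hi hq.2)
          push_cast at hj2
          have hdd : T.d = T.n + 3 * T.S.μ := rfl
          exact QH_mid (QH_of_sites hq.1 (site_two hi hq.2)) (hQ q hq) (by omega) (by omega)
        · push Not at hex
          apply h1
          intro q hq hj'
          have := hex q hq hj'.1
          omega
      · intro q hq
        by_cases c1 : T.RI (i + 1) x q
        · exact (hQ q ⟨hq, c1⟩).1
        by_cases c2 : T.site x (q - T.d) ∧ T.RI (i + 1) x (q - T.d)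
        · have := (hQ _ c2).2.2.2.2
          rwa [sub_add_cancel] at this
        · have hcc : cont T.n y q = cont T.n x q := by
            apply cont_congr
            intro k hk hk'
            apply h1
            intro r hr hj
            push_cast at hj
            have hdd : T.d = T.n + 3 * T.S.μ := rfl
            have hne : q ≠ r := by rintro rfl; exact c1 hr.2
            have hne2 : q ≠ r + T.d := by
              rintro rfl
              apply c2
              rwa [add_sub_cancel_right]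
            rcases site_dist' hq hr.1 hne with h | h
            · omega
            · rcases site_dist' hq (site_two hi hr.2) hne2 with h' | h' <;> omega
          show cont T.n y q ∈ T.Z
          rw [hcc]
          exact hq.2.2.1
    exact ⟨hm.site hp.1, (RI_good T (i + 1)).inv x y hm p hp.1 hp.2⟩

/-- reference word -/
noncomputable def yy (T : TB A) (z0 : Fin T.n → A) (i : ℤ) : A :=
  if h : 0 ≤ i ∧ i < T.n then z0 ⟨i.toNat, by omega⟩
  else if i < T.n + T.S.μ then T.S.wd T.v (i - T.n)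
  else if i < T.n + 2 * T.S.μ then T.S.wd T.M (i - T.n - T.S.μ)
  else if i < T.n + 3 * T.S.μ then T.S.wd T.u (i - T.n - 2 * T.S.μ)
  else if h : T.n + 3 * T.S.μ ≤ i ∧ i < T.n + 3 * T.S.μ + T.n then
    z0 ⟨(i - (T.n + 3 * T.S.μ)).toNat, by omega⟩
  else T.S.o

theorem yy_v (T : TB A) (z0 : Fin T.n → A) {i : ℤ} (h0 : 0 ≤ i) (h1 : i < T.S.μ) :
    yy T z0 (T.n + i) = T.S.wd T.v i := by
  unfold yy
  rw [dif_neg (by omega), if_pos (by omega)]
  congr 1; ring

theorem yy_M (T : TB A) (z0 : Fin T.n → A) {i : ℤ} (h0 : 0 ≤ i) (h1 : i < T.S.μ) :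
    yy T z0 (T.n + T.S.μ + i) = T.S.wd T.M i := by
  unfold yy
  rw [dif_neg (by omega), if_neg (by omega), if_pos (by omega)]
  congr 1; ring

theorem yy_u (T : TB A) (z0 : Fin T.n → A) {i : ℤ} (h0 : 0 ≤ i) (h1 : i < T.S.μ) :
    yy T z0 (T.n + 2 * T.S.μ + i) = T.S.wd T.u i := by
  unfold yy
  rw [dif_neg (by omega), if_neg (by omega), if_neg (by omega), if_pos (by omega)]
  congr 1; ring

/-- `x` has the reference word, up to the two contents -/
theorem eq_yy {T : TB A} {z0 : Fin T.n → A} {x : ℤ → A} {p : ℤ} (h : QH T x p) {i : ℤ}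
    (h0 : 0 ≤ i) (h1 : i < LL T) (hl : i < T.n → cont T.n x p = z0)
    (hr : T.n + 3 * T.S.μ ≤ i → cont T.n x (p + T.d) = z0) : x (p + i) = yy T z0 i := by
  push_cast at h1
  obtain ⟨-, a1, a2, a3, -⟩ := h
  by_cases c0 : i < T.n
  · unfold yy
    rw [dif_pos ⟨h0, c0⟩, ← hl c0]
    unfold cont
    simp only [Int.toNat_of_nonneg h0]
  by_cases c1 : i < T.n + T.S.μ
  · have e1 := a1 (i - T.n) (by omega) (by omega)
    have e2 := yy_v T z0 (i := i - T.n) (by omega) (by omega)
    rw [show p + T.n + (i - T.n) = p + i by ring] at e1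
    rw [show T.n + (i - T.n) = i by ring] at e2
    rw [e1, e2]
  by_cases c2 : i < T.n + 2 * T.S.μ
  · have e1 := a2 (i - (T.n + T.S.μ)) (by omega) (by omega)
    have e2 := yy_M T z0 (i := i - (T.n + T.S.μ)) (by omega) (by omega)
    rw [show p + T.n + T.S.μ + (i - (T.n + T.S.μ)) = p + i by ring] at e1
    rw [show T.n + T.S.μ + (i - (T.n + T.S.μ)) = i by ring] at e2
    rw [e1, e2]
  by_cases c3 : i < T.n + 3 * T.S.μ
  · have e1 := a3 (i - (T.n + 2 * T.S.μ)) (by omega) (by omega)
    have e2 := yy_u T z0 (i := i - (T.n + 2 * T.S.μ)) (by omega) (by omega)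
    rw [show p + T.n + 2 * T.S.μ + (i - (T.n + 2 * T.S.μ)) = p + i by ring] at e1
    rw [show T.n + 2 * T.S.μ + (i - (T.n + 2 * T.S.μ)) = i by ring] at e2
    rw [e1, e2]
  · unfold yy
    rw [dif_neg (by omega), if_neg (by omega), if_neg (by omega), if_neg (by omega),
      dif_pos ⟨by omega, by omega⟩, ← hr (by omega)]
    unfold cont
    simp only [Int.toNat_of_nonneg (show (0 : ℤ) ≤ i - (T.n + 3 * T.S.μ) by omega)]
    congr 1
    unfold TB.d; ring

theorem yy_left (T : TB A) (z0 : Fin T.n → A) {i : ℤ} (h0 : 0 ≤ i) (h1 : i < T.n) :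
    yy T z0 i = z0 ⟨i.toNat, by omega⟩ := by
  unfold yy
  rw [dif_pos ⟨h0, h1⟩]

theorem yy_right (T : TB A) (z0 : Fin T.n → A) {i : ℤ} (h0 : 0 ≤ i) (h1 : i < T.n) :
    yy T z0 (T.n + 3 * T.S.μ + i) = z0 ⟨i.toNat, by omega⟩ := by
  have hμ := T.S.hμ
  unfold yy
  rw [dif_neg (by omega), if_neg (by omega), if_neg (by omega), if_neg (by omega),
    dif_pos ⟨by omega, by omega⟩]
  congr 2
  congr 1
  ring

/-- from the letters of the reference word to the structure -/
theorem QH_of_yy {T : TB A} {z0 : Fin T.n → A} {x : ℤ → A} {p : ℤ}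
    (h : ∀ i : ℤ, T.n ≤ i → i < T.n + 3 * T.S.μ → x (p + i) = yy T z0 i)
    (h1 : cont T.n x p ∈ T.Z) (h2 : cont T.n x (p + T.d) ∈ T.Z) : QH T x p := by
  refine ⟨h1, fun i hi hi' => ?_, fun i hi hi' => ?_, fun i hi hi' => ?_, h2⟩
  · rw [add_assoc, h _ (by omega) (by omega), yy_v T z0 hi hi']
  · rw [show p + T.n + T.S.μ + i = p + (T.n + T.S.μ + i) by ring, h _ (by omega) (by omega),
      yy_M T z0 hi hi']
  · rw [show p + T.n + 2 * T.S.μ + i = p + (T.n + 2 * T.S.μ + i) by ring,
      h _ (by omega) (by omega), yy_u T z0 hi hi']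

theorem cont_of_yy_left {T : TB A} {z0 : Fin T.n → A} {x : ℤ → A} {p : ℤ}
    (h : ∀ i : ℤ, 0 ≤ i → i < T.n → x (p + i) = yy T z0 i) : cont T.n x p = z0 := by
  funext k
  have := h k.1 (by positivity) (by exact_mod_cast k.2)
  rw [yy_left T z0 (by positivity) (by exact_mod_cast k.2)] at this
  unfold cont
  rw [this]
  congr 1

theorem cont_of_yy_right {T : TB A} {z0 : Fin T.n → A} {x : ℤ → A} {p : ℤ}
    (h : ∀ i : ℤ, T.n + 3 * T.S.μ ≤ i → i < T.n + 3 * T.S.μ + T.n → x (p + i) = yy T z0 i) :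
    cont T.n x (p + T.d) = z0 := by
  funext k
  have hk : (k.1 : ℤ) < T.n := by exact_mod_cast k.2
  have := h (T.n + 3 * T.S.μ + k.1) (by omega) (by omega)
  rw [yy_right T z0 (by positivity) hk] at this
  unfold cont
  rw [show p + T.d + (k.1 : ℤ) = p + (T.n + 3 * T.S.μ + k.1) by unfold TB.d; ring, this]
  congr 1

theorem emb_mem_right {T : TB A} {i : ℕ} (hi : 1 ≤ i) {z0 a : Fin T.n → A} (hz0 : z0 ∈ T.Z)
    (ha : a ∈ T.Z) : emb T.n (LL T) (T.n + 3 * T.S.μ) (yy T z0) a ∈ (HF T i hi).Z := by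
  intro x p hx
  obtain ⟨h1, h2⟩ := emb_cont (le_refl _) hx
  push_cast at h1 h2
  refine QH_of_yy (z0 := z0) (fun k hk hk' => h2 k (by omega) (by omega) (by omega)) ?_ ?_
  · rw [cont_of_yy_left (z0 := z0) fun k hk hk' => h2 k hk (by omega) (by omega)]
    exact hz0
  · rw [show p + T.d = p + (T.n + 3 * T.S.μ) by unfold TB.d; ring, h1]
    exact ha

theorem emb_mem_left {T : TB A} {i : ℕ} (hi : 1 ≤ i) {z0 a : Fin T.n → A} (hz0 : z0 ∈ T.Z)
    (ha : a ∈ T.Z) : emb T.n (LL T) 0 (yy T z0) a ∈ (HF T i hi).Z := by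
  intro x p hx
  obtain ⟨h1, h2⟩ := emb_cont (le0 T) hx
  push_cast at h1 h2
  rw [add_zero] at h1
  refine QH_of_yy (z0 := z0) (fun k hk hk' => h2 k (by omega) (by omega) (by omega)) ?_ ?_
  · rw [h1]; exact ha
  · rw [cont_of_yy_right (z0 := z0) fun k hk hk' => h2 k (by omega) (by omega) (by omega)]
    exact hz0

end J689

open J689

/-- RIGHT DEEPNESS, step (R2) -/
theorem TB.R2 {A : Type} [Finite A] (T : TB A) {N : Subgroup (AutG A)} [N.Normal] (h5 : T.Five)
    {i : ℕ} (hi : 1 ≤ i)
    (h : ∀ a b c : Fin T.n → A, a ∈ T.Z → b ∈ T.Z → c ∈ T.Z → D3 a b c →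
      InN N (actf (T.F.ctl (T.RI i) (tc a b c))))
    {a b c : Fin T.n → A} (ha : a ∈ T.Z) (hb : b ∈ T.Z) (hc : c ∈ T.Z) (habc : D3 a b c) :
    InN N (actf (T.F.ctl (T.RI (i + 1)) (tc a b c))) := by
  classical
  have hμ := T.S.hμ
  have hd := T.d_pos
  have hdd : T.d = T.n + 3 * T.S.μ := rfl
  have hcast : (((T.n + 3 * T.S.μ : ℕ)) : ℤ) = T.d := by rw [hdd]; push_cast; ring
  have g1 := RI_good T i
  have g2 := RI_good T (i + 1)
  -- step 1
  have s1 : ∀ z0 : Fin T.n → A, ∀ a b c : Fin T.n → A, a ∈ T.Z → b ∈ T.Z → c ∈ T.Z → D3 a b c →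
      InN N (actf ((T.F.restrict (T.RI i) g1).ctl
        (fun x q => T.site x (q - T.d) ∧ cont T.n x (q - T.d) = z0) (tc a b c))) := by
    intro z0 a b c ha hb hc habc
    obtain ⟨d, hd', e, he', k1, k2, k3⟩ := h5 a b c ha hb hc habc
    have key : ∀ {x : ℤ → A} {q : ℤ}, T.RI i x q → T.site x (q - T.d) → ¬ T.RI i x (q - T.d) := by
      intro x q hq _ hq'
      apply hq'.2
      have := hq.1 (i - 1) (by omega) (by omega)
      rwa [show q - T.d + i * T.d = q + (i - 1) * T.d by ring]
    have hgood : (T.F.restrict (T.RI i) g1).Good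
        (fun x q => T.site x (q - T.d) ∧ cont T.n x (q - T.d) = z0) := by
      refine ⟨fun x n p _ => ?_, ?_, fun x y hm q hq hc => ?_⟩
      · rw [show T.site (sh n x) (p - T.d) ↔ T.site x (p - T.d + n) from T.F.site_sh x n _,
          cont_sh, show p - T.d + n = p + n - T.d by ring]
      · obtain ⟨r, hr⟩ := T.F.site_loc
        refine ⟨r + T.d.toNat + T.n, fun x y p hxy _ hc => ?_⟩
        have hdn : ((T.d.toNat : ℕ) : ℤ) = T.d := Int.toNat_of_nonneg hd.le
        push_cast at hxy
        rw [hdn] at hxy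
        refine ⟨hr x y _ (fun j h1 h2 => hxy j (by omega) (by omega)) hc.1, ?_⟩
        rw [← hc.2]
        exact cont_congr fun k h1 h2 => (hxy _ (by omega) (by omega)).symm
      · have hm' := Fam.restrict_mod hm
        refine ⟨hm'.site hc.1, ?_⟩
        rw [← hc.2]
        apply cont_congr
        intro k h1 h2
        apply hm.1
        intro r hr hj
        have hne : q - T.d ≠ r := by
          rintro rfl
          exact key hq.2 hc.1 hr.2
        rcases site_dist' hc.1 hr.1 hne with h | h <;> omega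
    refine sub_ctl (C₁ := fun _ _ => True) (Fam.good_true _) hgood (fun _ _ _ _ => trivial)
      ha hb hc hd' he' habc k1 k2 k3 ?_
    have := h a b d ha hb hd' ⟨habc.1, k1.1, k2.1⟩
    rwa [Fam.ctl_congr (F' := T.F) (C' := T.RI i)]
    intro x p
    simp only [Fam.restrict, and_true]
  -- steps 2, 3
  have s3 : ∀ z0 ∈ T.Z, ∀ a b c : Fin T.n → A, a ∈ T.Z → b ∈ T.Z → c ∈ T.Z → D3 a b c →
      InN N (actf ((HF T i hi).ctl (fun _ _ => True) (tc (emb T.n (LL T) 0 (yy T z0) a)
        (emb T.n (LL T) 0 (yy T z0) b) (emb T.n (LL T) 0 (yy T z0) c)))) := by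
    intro z0 hz0 a b c ha hb hc habc
    have e1 := s1 z0 a b c ha hb hc habc
    rw [cross (l' := LL T) (s := T.n + 3 * T.S.μ) (F' := HF T i hi) (C' := fun _ _ => True)
      (y := yy T z0) (le_refl _) habc (Fam.good_true _) (emb_mem_right hi hz0 ha)
      (emb_mem_right hi hz0 hb) (emb_mem_right hi hz0 hc)] at e1
    · have i1 := emb_inj (A := A) (l := T.n) (l' := LL T) (s := T.n + 3 * T.S.μ) (y := yy T z0)
        (le_refl _)
      have i2 := emb_inj (A := A) (l := T.n) (l' := LL T) (s := 0) (y := yy T z0) (le0 T)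
      exact InN_tc (Fam.good_true _) (emb_mem_right hi hz0 ha) (emb_mem_right hi hz0 hb)
        (emb_mem_right hi hz0 hc) (emb_mem_left hi hz0 ha) (emb_mem_left hi hz0 hb)
        (emb_mem_left hi hz0 hc) ⟨i1.ne habc.1, i1.ne habc.2.1, i1.ne habc.2.2⟩
        ⟨i2.ne habc.1, i2.ne habc.2.1, i2.ne habc.2.2⟩ e1
    · rintro x p ⟨hp1, hp2⟩ ⟨hq1, hq2⟩ _
      rw [hcast]
      have hH : T.RI (i + 1) x (p - T.d) := by
        refine ⟨fun k h0 h1 => ?_, ?_⟩
        · by_cases hk : k = 0
          · subst hk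
            rwa [zero_mul, add_zero]
          · have := hp2.1 (k - 1) (by omega) (by push_cast at h1; omega)
            rwa [show p - T.d + k * T.d = p + (k - 1) * T.d by ring]
        · have := hp2.2
          rwa [show p - T.d + (i + 1 : ℕ) * T.d = p + i * T.d by push_cast; ring]
      refine ⟨⟨hq1, hH⟩, trivial, ?_⟩
      apply cont_emb (le_refl _)
      · rw [hcast, sub_add_cancel]
      · intro k h0 h1 h2
        refine eq_yy (QH_of_sites hq1 (site_two hi hH)) h0 h1 (fun _ => hq2) (fun h3 => ?_)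
        exfalso
        apply h2
        push_cast at h1 ⊢
        omega
    · intro x p hp _ hcon _
      rw [hcast] at hp hcon
      obtain ⟨hp1, hp2⟩ := hp
      have hs2 := site_two hi hp2
      rw [sub_add_cancel] at hs2
      obtain ⟨-, h2⟩ := emb_cont (le_refl _) hcon
      push_cast at h2
      refine ⟨⟨hs2, ?_⟩, hp1, ?_⟩
      · refine ⟨fun k h0 h1 => ?_, ?_⟩
        · have := hp2.1 (k + 1) (by omega) (by push_cast; omega)
          rwa [show p - T.d + (k + 1) * T.d = p + k * T.d by ring] at this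
        · have := hp2.2
          rwa [show p - T.d + (i + 1 : ℕ) * T.d = p + i * T.d by push_cast; ring] at this
      · exact cont_of_yy_left fun k hk hk' => h2 k hk (by omega) (by omega)
  -- step 4
  have hgood : ∀ z0 : Fin T.n → A, (T.F.restrict (T.RI (i + 1)) g2).Good
      (fun x p => cont T.n x (p + T.d) = z0) := by
    intro z0
    refine ⟨fun x n p _ => ?_, ?_, fun x y hm q hq hc => ?_⟩
    · rw [cont_sh, show p + T.d + n = p + n + T.d by ring]
    · refine ⟨T.d.toNat + T.n, fun x y p hxy _ hc => ?_⟩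
      have hdn : ((T.d.toNat : ℕ) : ℤ) = T.d := Int.toNat_of_nonneg hd.le
      push_cast at hxy
      rw [hdn] at hxy
      rw [← hc]
      exact cont_congr fun k h1 h2 => (hxy _ (by omega) (by omega)).symm
    · rw [← hc]
      apply cont_congr
      intro k h1 h2
      apply hm.1
      intro r hr hj
      have hne : q + T.d ≠ r := by
        rintro rfl
        exact H_not_next hq.2 hr.2
      rcases site_dist' (site_two hi hq.2) hr.1 hne with h | h <;> omega
  have s4 : ∀ z0 : Fin T.n → A, InN N (actf ((T.F.restrict (T.RI (i + 1)) g2).ctl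
      (fun x p => cont T.n x (p + T.d) = z0) (tc a b c))) := by
    intro z0
    by_cases hz0 : z0 ∈ T.Z
    · refine cross_InN (l' := LL T) (s := 0) (F' := HF T i hi) (C' := fun _ _ => True)
        (y := yy T z0) (le0 T) habc (hgood z0) (Fam.good_true _) ha hb hc ?_ ?_ ?_
      · rintro x p ⟨hp1, hp2⟩ hq _
        push_cast
        rw [sub_zero]
        refine ⟨⟨hp1, hp2⟩, trivial, ?_⟩
        apply cont_emb (le0 T)
        · push_cast; rw [add_zero]
        · intro k h0 h1 h2
          refine eq_yy (QH_of_sites hp1 (site_two hi hp2)) h0 h1 (fun h3 => ?_) (fun _ => hq)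
          exfalso
          apply h2
          push_cast
          omega
      · intro x p hp _ hcon _
        push_cast at hp hcon
        rw [sub_zero] at hp hcon
        obtain ⟨-, h2⟩ := emb_cont (le0 T) hcon
        push_cast at h2
        refine ⟨hp, ?_⟩
        exact cont_of_yy_right fun k hk hk' => h2 k (by omega) (by omega) (by omega)
      · intro _ _ _
        exact s3 z0 hz0 a b c ha hb hc habc
    · apply InN_empty
      rintro x p ⟨hp1, hp2⟩ hq
      apply hz0
      rw [← hq]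
      exact (site_two hi hp2).2.2.1
  -- step 5
  have s5 : InN N (actf ((T.F.restrict (T.RI (i + 1)) g2).ctl (fun _ _ => True) (tc a b c))) := by
    refine InN_label (R := Fin T.n → A) (fun x p => cont T.n x (p + T.d)) (fun z0 => ?_)
      (Fam.ok_tc ha hb hc) (fun z0 => ?_)
    · exact Fam.good_congr (hgood z0) fun x p _ => by simp
    · have := s4 z0
      rwa [Fam.ctl_congr (F' := T.F.restrict (T.RI (i + 1)) g2)
        (C' := fun x p => cont T.n x (p + T.d) = z0)]
      intro x p
      simp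
  rwa [Fam.ctl_congr (F' := T.F) (C' := T.RI (i + 1))] at s5
  intro x p
  simp only [Fam.restrict, and_true]

end Pool.Agent.TH27.FS
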