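import Pool.Agent.TH28.FL.Defs

/-!
Job 1109 (FL-RK, FL-IND): rank of a matrix of linear forms at points, and regularity of `t ≠ 0`.
-/

set_option autoImplicit false

universe u v

namespace Pool.Agent.TH989.J1109

open Module MvPolynomial Pool.Agent.TH28.FL

section minors

variable {F : Type*} [Field F]

theorem exists_rows {a b : ℕ} (B : Matrix (Fin a) (Fin b) F) :
    ∃ e : Fin B.rank → Fin a, LinearIndependent F (B.submatrix e id).row := by
  have h1 : finrank F (Submodule.span F (Set.range B.row)) = B.rank :=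
    (Matrix.rank_eq_finrank_span_row B).symm
  obtain ⟨f, hf, -, hli⟩ := Submodule.exists_fun_fin_finrank_span_eq F (Set.range B.row)
  have hf' : ∀ i, ∃ j, B.row j = f i := fun i => hf i
  choose j hj using hf'
  refine ⟨fun l => j (Fin.cast h1.symm l), ?_⟩
  have h2 := hli.comp (Fin.cast h1.symm) (Fin.cast_injective _)
  have h3 : (f ∘ Fin.cast h1.symm) = (B.submatrix (fun l => j (Fin.cast h1.symm l)) id).row := by
    funext l
    exact (hj (Fin.cast h1.symm l)).symm
  rw [h3] at h2
  exact h2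

theorem exists_minor {a b : ℕ} (B : Matrix (Fin a) (Fin b) F) :
    ∃ (e : Fin B.rank → Fin a) (f : Fin B.rank → Fin b), (B.submatrix e f).det ≠ 0 := by
  obtain ⟨e, he⟩ := exists_rows B
  have h1 : (B.submatrix e id).rank = B.rank := by
    rw [he.rank_matrix, Fintype.card_fin]
  have h2 : (B.submatrix e id).transpose.rank = B.rank := by
    rw [Matrix.rank_transpose, h1]
  obtain ⟨f, hf⟩ := exists_rows (B.submatrix e id).transpose
  refine ⟨e, f ∘ finCongr h2.symm, ?_⟩
  have h3 : LinearIndependent F (B.submatrix e (f ∘ finCongr h2.symm)).transpose.row := by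
    have := hf.comp (finCongr h2.symm) (finCongr h2.symm).injective
    exact this
  have h4 := Matrix.linearIndependent_rows_iff_isUnit.1 h3
  rw [Matrix.isUnit_iff_isUnit_det, Matrix.det_transpose] at h4
  exact h4.ne_zero

theorem le_rank_of_minor {a b r : ℕ} (B : Matrix (Fin a) (Fin b) F)
    (e : Fin r → Fin a) (f : Fin r → Fin b) (h : (B.submatrix e f).det ≠ 0) : r ≤ B.rank := by
  have h1 := Matrix.rank_of_det_ne_zero h
  rw [Fintype.card_fin] at h1
  rw [← h1]
  exact Matrix.rank_submatrix_le B e f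

end minors

variable {k : Type u} [Field k] {g : Type v} [LieRing g] [LieAlgebra k g] {N : ℕ}

/-- the matrix of the form `(x, y) ↦ ξ (β x y)` -/
noncomputable def gmat (b : Basis (Fin N) k g) (β : g →ₗ[k] g →ₗ[k] g) (ξ : Dual k g) :
    Matrix (Fin N) (Fin N) k := Matrix.of fun i j => ξ (β (b i) (b j))

theorem gmat_apply (b : Basis (Fin N) k g) (β : g →ₗ[k] g →ₗ[k] g) (ξ : Dual k g) (i j : Fin N) :
    gmat b β ξ i j = ξ (β (b i) (b j)) := rfl

theorem gmat_rank (b : Basis (Fin N) k g) (β : g →ₗ[k] g →ₗ[k] g) (ξ : Dual k g) :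
    (gmat b β ξ).rank + finrank k (LinearMap.ker (β.compr₂ ξ)) = N := by
  have hfin : Module.Finite k g := Module.Finite.of_basis b
  have h1 : (gmat b β ξ).transpose = LinearMap.toMatrix b b.dualBasis (β.compr₂ ξ) := by
    ext i j
    rw [Matrix.transpose_apply, LinearMap.toMatrix_apply]
    simp [gmat, Basis.dualBasis_repr]
  have h2 : (gmat b β ξ).rank = finrank k (LinearMap.range (β.compr₂ ξ)) := by
    rw [← Matrix.rank_transpose, h1, Matrix.rank_eq_finrank_range_toLin _ b.dualBasis b,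
      Matrix.toLin_toMatrix]
  rw [h2, LinearMap.finrank_range_add_finrank_ker, finrank_eq_card_basis b, Fintype.card_fin]

theorem ind_le (β : g →ₗ[k] g →ₗ[k] g) (ξ : Dual k g) :
    ind β ≤ finrank k (LinearMap.ker (β.compr₂ ξ)) := Nat.sInf_le ⟨ξ, rfl⟩

theorem ind_att (β : g →ₗ[k] g →ₗ[k] g) :
    ∃ ξ : Dual k g, finrank k (LinearMap.ker (β.compr₂ ξ)) = ind β :=
  Nat.sInf_mem (Set.range_nonempty fun ξ : Dual k g => finrank k (LinearMap.ker (β.compr₂ ξ)))

theorem rk : Pool.Agent.TH28.FL.S_RK.{u,v} := by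
  intro k _ _ K _ _ g _ _ N b β ξ
  set M : Matrix (Fin N) (Fin N) (MvPolynomial (Fin N) k) :=
    Matrix.of fun i j => lin b (β (b i) (b j)) with hM
  obtain ⟨e, f, hef⟩ := exists_minor (fmat b β ξ)
  have h1 : ((fmat b β ξ).submatrix e f).det = aeval ξ (M.submatrix e f).det := by
    rw [AlgHom.map_det]
    rfl
  rw [h1] at hef
  have h2 : (M.submatrix e f).det ≠ 0 := by
    intro h
    rw [h, map_zero] at hef
    exact hef rfl
  have h3 : ∃ x : Fin N → k, eval x (M.submatrix e f).det ≠ 0 := by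
    by_contra hx
    push Not at hx
    exact h2 (MvPolynomial.funext fun x => by rw [hx x, map_zero])
  obtain ⟨x, hx⟩ := h3
  set ξ₀ : Dual k g := b.constr k x with hξ₀
  have h4 : ∀ y : g, ξ₀ y = eval x (lin b y) := by
    have : ξ₀ = (aeval x : MvPolynomial (Fin N) k →ₐ[k] k).toLinearMap.comp (lin b) := by
      refine b.ext fun i => ?_
      simp [hξ₀, lin]
    intro y
    rw [this]
    simp [MvPolynomial.aeval_eq_eval]
  have h5 : ((gmat b β ξ₀).submatrix e f).det = eval x (M.submatrix e f).det := by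
    rw [RingHom.map_det]
    congr 1
    ext i j
    rw [RingHom.mapMatrix_apply, Matrix.map_apply, Matrix.submatrix_apply, Matrix.submatrix_apply,
      gmat_apply, h4]
    rfl
  rw [← h5] at hx
  have h6 := le_rank_of_minor _ _ _ hx
  have h7 := gmat_rank b β ξ₀
  have h8 := ind_le β ξ₀
  omega

theorem ind_equiv (β β' : g →ₗ[k] g →ₗ[k] g) (φ : g ≃ₗ[k] g)
    (h : ∀ x y, φ (β x y) = β' (φ x) (φ y)) : ind β ≤ ind β' := by
  obtain ⟨ξ, hξ⟩ := ind_att β'
  rw [← hξ]
  refine (ind_le β (ξ.comp φ.toLinearMap)).trans (le_of_eq ?_)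
  have h1 : LinearMap.ker (β.compr₂ (ξ.comp φ.toLinearMap)) =
      (LinearMap.ker (β'.compr₂ ξ)).comap φ.toLinearMap := by
    ext x
    rw [Submodule.mem_comap, LinearMap.mem_ker, LinearMap.mem_ker]
    constructor
    · intro hx
      ext y
      have := LinearMap.congr_fun hx (φ.symm y)
      simpa [h] using this
    · intro hx
      ext y
      have := LinearMap.congr_fun hx (φ y)
      simpa [h] using this
  rw [h1]
  exact LinearEquiv.finrank_eq (φ.ofSubmodule' _)

theorem ind_smul (β : g →ₗ[k] g →ₗ[k] g) {c : k} (hc : c ≠ 0) : ind (c • β) = ind β := by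
  unfold ind
  congr 2
  funext ξ
  have : (c • β).compr₂ ξ = c • (β.compr₂ ξ) := by
    ext x y
    simp
  rw [this, LinearMap.ker_smul _ _ hc]

theorem pencil [Infinite k] (b : Basis (Fin N) k g) (β₀ β₁ : g →ₗ[k] g →ₗ[k] g) :
    ∃ u : k, u ≠ 0 ∧ ind (β₀ + u • β₁) ≤ ind β₀ := by
  obtain ⟨ξ, hξ⟩ := ind_att β₀
  obtain ⟨e, f, hef⟩ := exists_minor (gmat b β₀ ξ)
  set P : Polynomial k := (((gmat b β₀ ξ).map Polynomial.C +
    (Polynomial.X : Polynomial k) • (gmat b β₁ ξ).map Polynomial.C).submatrix e f).det with hP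
  have h1 : ∀ u : k, P.eval u = ((gmat b (β₀ + u • β₁) ξ).submatrix e f).det := by
    intro u
    rw [hP, ← Polynomial.coe_evalRingHom, RingHom.map_det]
    congr 1
    ext i j
    rw [RingHom.mapMatrix_apply, Matrix.map_apply, Matrix.submatrix_apply, Matrix.submatrix_apply,
      Matrix.add_apply, Matrix.smul_apply, Matrix.map_apply, Matrix.map_apply, gmat_apply, gmat_apply,
      gmat_apply]
    simp
    ring
  have h0 : P.eval 0 ≠ 0 := by
    rw [h1, zero_smul, add_zero]
    exact hef
  have hP0 : P ≠ 0 := by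
    intro h
    rw [h, Polynomial.eval_zero] at h0
    exact h0 rfl
  classical
  obtain ⟨u, hu⟩ := Infinite.exists_notMem_finset (insert 0 P.roots.toFinset)
  rw [Finset.mem_insert, not_or, Multiset.mem_toFinset, Polynomial.mem_roots hP0] at hu
  refine ⟨u, hu.1, ?_⟩
  have h2 : ((gmat b (β₀ + u • β₁) ξ).submatrix e f).det ≠ 0 := by
    rw [← h1]
    exact hu.2
  have h3 := le_rank_of_minor _ _ _ h2
  have h4 := gmat_rank b β₀ ξ
  have h5 := gmat_rank b (β₀ + u • β₁) ξ
  have h6 := ind_le (β₀ + u • β₁) ξ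
  omega

section brackets

variable (h r : LieSubalgebra k g) (hc : IsCompl h.toSubmodule r.toSubmodule)

theorem prh_mem (x : g) : prh h r hc x ∈ h := Submodule.projection_apply_mem _ x

theorem prr_mem (x : g) : prr h r hc x ∈ r := Submodule.projection_apply_mem _ x

theorem prh_h {x : g} (hx : x ∈ h) : prh h r hc x = x := by
  exact Submodule.projection_apply_left hc ⟨x, hx⟩

theorem prr_r {x : g} (hx : x ∈ r) : prr h r hc x = x := by
  exact Submodule.projection_apply_left hc.symm ⟨x, hx⟩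

theorem pr_add (x : g) : prh h r hc x + prr h r hc x = x := by
  exact Submodule.projection_add_projection_eq_self hc x

theorem prr_h {x : g} (hx : x ∈ h) : prr h r hc x = 0 := by
  have h1 := pr_add h r hc x
  rw [prh_h h r hc hx] at h1
  simpa using h1

theorem prh_r {x : g} (hx : x ∈ r) : prh h r hc x = 0 := by
  have h1 := pr_add h r hc x
  rw [prr_r h r hc hx] at h1
  simpa using h1

/-- the map `pr_h + t pr_r` -/
noncomputable def phi (t : k) : g →ₗ[k] g := prh h r hc + t • prr h r hc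

theorem phi_phi (t s : k) (hts : t * s = 1) (x : g) : phi h r hc t (phi h r hc s x) = x := by
  unfold phi
  simp only [LinearMap.add_apply, LinearMap.smul_apply, map_add, map_smul]
  rw [prh_h h r hc (prh_mem h r hc x), prh_r h r hc (prr_mem h r hc x),
    prr_h h r hc (prh_mem h r hc x), prr_r h r hc (prr_mem h r hc x), smul_zero, add_zero, zero_add,
    smul_smul, mul_comm s t, hts, one_smul, pr_add]

/-- the isomorphism -/
noncomputable def phiE {t : k} (ht : t ≠ 0) : g ≃ₗ[k] g :=
  LinearEquiv.ofLinearMap (phi h r hc t) (phi h r hc t⁻¹)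
    (LinearMap.ext fun x => phi_phi h r hc t t⁻¹ (mul_inv_cancel₀ ht) x)
    (LinearMap.ext fun x => phi_phi h r hc t⁻¹ t (inv_mul_cancel₀ ht) x)

theorem phi_brt (t : k) (x y : g) :
    phi h r hc t (brt h r hc (some t) x y) = ⁅phi h r hc t x, phi h r hc t y⁆ := by
  have e1 : ⁅prh h r hc x, prh h r hc y⁆ ∈ h := h.lie_mem (prh_mem h r hc x) (prh_mem h r hc y)
  have e2 : ⁅prr h r hc x, prr h r hc y⁆ ∈ r := r.lie_mem (prr_mem h r hc x) (prr_mem h r hc y)
  have e3 := pr_add h r hc (⁅prh h r hc x, prr h r hc y⁆ + ⁅prr h r hc x, prh h r hc y⁆)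
  set m := ⁅prh h r hc x, prr h r hc y⁆ + ⁅prr h r hc x, prh h r hc y⁆ with hm
  have e4 : brt h r hc (some t) x y = ⁅prh h r hc x, prh h r hc y⁆ + prr h r hc m +
      t • (⁅prr h r hc x, prr h r hc y⁆ + prh h r hc m) := by
    have : m = ⁅prr h r hc x, prh h r hc y⁆ + ⁅prh h r hc x, prr h r hc y⁆ := by rw [hm, add_comm]
    simp only [brt, contr, LinearMap.add_apply, LinearMap.smul_apply, LinearMap.mk₂_apply]
    rw [← hm, ← this]
  rw [e4]
  unfold phi
  simp only [LinearMap.add_apply, LinearMap.smul_apply, map_add, map_smul]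
  rw [prh_h h r hc e1, prr_h h r hc e1, prh_r h r hc e2, prr_r h r hc e2,
    prh_h h r hc (prh_mem h r hc m), prh_r h r hc (prr_mem h r hc m),
    prr_h h r hc (prh_mem h r hc m), prr_r h r hc (prr_mem h r hc m)]
  simp only [add_lie, lie_add, smul_lie, lie_smul, smul_zero, add_zero, zero_add, smul_add]
  have e5 : t • ⁅prh h r hc x, prr h r hc y⁆ + t • ⁅prr h r hc x, prh h r hc y⁆ =
      t • prh h r hc m + t • prr h r hc m := by
    rw [← smul_add, ← smul_add, e3]
  calc _ = ⁅prh h r hc x, prh h r hc y⁆ + (t • prh h r hc m + t • prr h r hc m) +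
        t • t • ⁅prr h r hc x, prr h r hc y⁆ := by abel
    _ = _ := by rw [← e5]; abel

theorem ind_brt {t : k} (ht : t ≠ 0) : ind (brt h r hc (some t)) = ind (lieB k g) := by
  apply le_antisymm
  · refine ind_equiv _ _ (phiE h r hc ht) fun x y => ?_
    exact phi_brt h r hc t x y
  · refine ind_equiv _ _ (phiE h r hc ht).symm fun x y => ?_
    rw [LinearEquiv.symm_apply_eq]
    have := phi_brt h r hc t ((phiE h r hc ht).symm x) ((phiE h r hc ht).symm y)
    have e1 : ∀ z, phi h r hc t z = phiE h r hc ht z := fun z => rfl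
    rw [e1, e1, e1, LinearEquiv.apply_symm_apply, LinearEquiv.apply_symm_apply] at this
    rw [this]
    rfl

end brackets

theorem ind' : Pool.Agent.TH28.FL.S_IND.{u,v} := by
  intro k _ _ g _ _ N b h r hc t ht s
  rw [ind_brt h r hc ht]
  rcases s with _ | s
  · obtain ⟨u, hu, h1⟩ := pencil b (brt h r hc none) (brt h r hc (some 0))
    refine le_trans (le_of_eq ?_) h1
    rw [← ind_brt h r hc (inv_ne_zero hu), ← ind_smul (brt h r hc (some u⁻¹)) hu]
    congr 1
    simp only [brt, zero_smul, add_zero, smul_add, smul_smul, mul_inv_cancel₀ hu, one_smul]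
    rw [add_comm]
  · by_cases hs : s = 0
    · subst hs
      obtain ⟨u, hu, h1⟩ := pencil b (brt h r hc (some 0)) (brt h r hc none)
      refine le_trans (le_of_eq ?_) h1
      rw [← ind_brt h r hc hu]
      congr 1
      simp only [brt, zero_smul, add_zero]
    · rw [ind_brt h r hc hs]

end Pool.Agent.TH989.J1109
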