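import Pool.Agent.TH317.CC.Geo

/-! Job CC-T3: arbitrarily fine cell systems of a tiled surface (helper989). -/

set_option autoImplicit false

universe u

namespace Pool.Agent.TH317.CC

namespace H989T3

theorem iter
    (hhalf : ∀ {M : Type u} [MetricSpace M] (T : SqTiling M),
      ∃ (T' : SqTiling M) (e : T'.F ≃ T.F × Fin 2 × Fin 2), ∀ c, ∀ x y : ℝ,
      T'.sq c (x, y) = T.sq (e c).1 ((((e c).2.1 : ℕ) + x) / 2, (((e c).2.2 : ℕ) + y) / 2))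
    {M : Type u} [MetricSpace M] (T : SqTiling M) (k : ℕ) :
    ∃ T' : SqTiling M, ∀ c : T'.F, ∃ (f : T.F) (x₀ y₀ : ℝ), 0 ≤ x₀ ∧ x₀ + 1 / 2 ^ k ≤ 1 ∧
      0 ≤ y₀ ∧ y₀ + 1 / 2 ^ k ≤ 1 ∧
      ∀ x y : ℝ, T'.sq c (x, y) = T.sq f (x₀ + x / 2 ^ k, y₀ + y / 2 ^ k) := by
  induction k with
  | zero =>
    refine ⟨T, fun c => ⟨c, 0, 0, le_rfl, by norm_num, le_rfl, by norm_num, ?_⟩⟩
    intro x y
    simp
  | succ k ih =>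
    obtain ⟨T1, h1⟩ := ih
    obtain ⟨T2, e, h2⟩ := hhalf T1
    refine ⟨T2, fun c => ?_⟩
    obtain ⟨f, x₀, y₀, hx0, hx1, hy0, hy1, h3⟩ := h1 (e c).1
    have hk : (0:ℝ) < 2 ^ k := by positivity
    have hpos : (0:ℝ) < 1 / 2 ^ (k + 1) := by positivity
    have hhalf2 : (1:ℝ) / 2 ^ k = 2 * (1 / 2 ^ (k + 1)) := by
      rw [pow_succ]
      field_simp
    have hi : ∀ i : Fin 2, (0:ℝ) ≤ ((i : ℕ) : ℝ) ∧ ((i : ℕ) : ℝ) ≤ 1 := by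
      intro i
      refine ⟨by positivity, ?_⟩
      have : (i : ℕ) ≤ 1 := by omega
      exact_mod_cast this
    obtain ⟨i0, i1⟩ := hi (e c).2.1
    obtain ⟨j0, j1⟩ := hi (e c).2.2
    refine ⟨f, x₀ + ((e c).2.1 : ℕ) * (1 / 2 ^ (k + 1)), y₀ + ((e c).2.2 : ℕ) * (1 / 2 ^ (k + 1)),
      by positivity, ?_, by positivity, ?_, ?_⟩
    · rw [hhalf2] at hx1
      nlinarith
    · rw [hhalf2] at hy1
      nlinarith
    · intro x y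
      rw [h2, h3]
      congr 2
      · rw [pow_succ]
        field_simp
        ring
      · rw [pow_succ]
        field_simp
        ring

theorem open_finite {M : Type u} [MetricSpace M] (T : SqTiling M) (K : Set M) (hK : IsCompact K) :
    ∃ U : Set M, IsOpen U ∧ K ⊆ U ∧ {f | (T.sq f '' I2 ∩ U).Nonempty}.Finite := by
  refine hK.induction_on (p := fun S => ∃ U : Set M, IsOpen U ∧ S ⊆ U ∧
    {f | (T.sq f '' I2 ∩ U).Nonempty}.Finite) ?_ ?_ ?_ ?_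
  · refine ⟨∅, isOpen_empty, le_rfl, ?_⟩
    simp
  · rintro s t hst ⟨U, h1, h2, h3⟩
    exact ⟨U, h1, hst.trans h2, h3⟩
  · rintro s t ⟨U, h1, h2, h3⟩ ⟨V, g1, g2, g3⟩
    refine ⟨U ∪ V, h1.union g1, Set.union_subset_union h2 g2, (h3.union g3).subset ?_⟩
    rintro f ⟨x, hx, hxU | hxV⟩
    · exact Or.inl ⟨x, hx, hxU⟩
    · exact Or.inr ⟨x, hx, hxV⟩
  · intro x _
    obtain ⟨t, ht, hfin⟩ := T.locfin x
    obtain ⟨U, hU, hUo, hxU⟩ := mem_nhds_iff.1 ht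
    refine ⟨U, mem_nhdsWithin_of_mem_nhds (hUo.mem_nhds hxU), U, hUo, le_rfl, hfin.subset ?_⟩
    rintro f ⟨y, hy, hyU⟩
    exact ⟨y, hy, hU hyU⟩

theorem isCompact_I2 : IsCompact I2 := isCompact_Icc

theorem mem_I2 {p : ℝ × ℝ} : p ∈ I2 ↔ (0 ≤ p.1 ∧ p.1 ≤ 1) ∧ (0 ≤ p.2 ∧ p.2 ≤ 1) := by
  unfold I2
  rw [Set.mem_Icc, Prod.le_def, Prod.le_def]
  simp only
  tauto

end H989T3

open H989T3 in
theorem tiling_cells
    (hhalf : ∀ {M : Type u} [MetricSpace M] (T : SqTiling M),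
      ∃ (T' : SqTiling M) (e : T'.F ≃ T.F × Fin 2 × Fin 2), ∀ c, ∀ x y : ℝ,
      T'.sq c (x, y) = T.sq (e c).1 ((((e c).2.1 : ℕ) + x) / 2, (((e c).2.2 : ℕ) + y) / 2))
    (hcs : ∀ {M : Type u} [MetricSpace M] (T : SqTiling M) (F₀ : Set T.F)
      (_ : F₀.Nonempty) (U : Set M) (_ : IsOpen U)
      (_ : ∀ f, ∀ p ∈ I2, T.sq f p ∈ U → f ∈ F₀)
      (ρ : ℝ) (_ : ∀ f ∈ F₀, ∀ p ∈ I2, ∀ q ∈ I2, dist (T.sq f p) (T.sq f q) ≤ ρ),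
      ∃ (D Λ J : Type u) (_ : LinearOrder Λ) (_ : Inhabited D) (G : Rib D M Λ)
      (Fc : Set (List D)) (cell : J → Set M) (inC : J → D → Prop),
      (∀ f ∈ Fc, IsFace G f) ∧ (∀ f ∈ Fc, ∃ j, ∀ c ∈ f, inC j c) ∧
      (∀ j, ∃ f ∈ F₀, cell j = T.sq f '' I2) ∧ CellSys G Fc cell inC U ρ)
    {M : Type u} [MetricSpace M] (T : SqTiling M) (K : Set M)
    (hK : IsCompact K) (hKn : K.Nonempty) :
    ∃ (U K' : Set M), IsOpen U ∧ K ⊆ U ∧ IsCompact K' ∧ ∀ ρ > 0,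
      ∃ (D Λ J : Type u) (_ : LinearOrder Λ) (_ : Inhabited D) (G : Rib D M Λ)
        (Fc : Set (List D)) (cell : J → Set M) (inC : J → D → Prop),
        (∀ f ∈ Fc, IsFace G f) ∧ (∀ f ∈ Fc, ∃ j, ∀ c ∈ f, inC j c) ∧ (∀ d, G.tl d ∈ K') ∧
        CellSys G Fc cell inC U ρ := by
  classical
  obtain ⟨U, hUo, hKU, hfin⟩ := open_finite T K hK
  set A : Set T.F := {f | (T.sq f '' I2 ∩ U).Nonempty} with hA
  refine ⟨U, ⋃ f ∈ A, T.sq f '' I2, hUo, hKU,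
    hfin.isCompact_biUnion fun f _ => isCompact_I2.image_of_continuousOn (T.cont f), ?_⟩
  intro ρ hρ
  -- uniform continuity
  obtain ⟨δ, hδ0, hδ⟩ : ∃ δ : ℝ, 0 < δ ∧ ∀ f ∈ A, ∀ p ∈ I2, ∀ q ∈ I2, dist p q < δ →
      dist (T.sq f p) (T.sq f q) < ρ := by
    have h1 : ∀ f, ∃ δ : ℝ, 0 < δ ∧ ∀ p ∈ I2, ∀ q ∈ I2, dist p q < δ →
        dist (T.sq f p) (T.sq f q) < ρ := by
      intro f
      obtain ⟨δ, h1, h2⟩ := Metric.uniformContinuousOn_iff.1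
        (isCompact_I2.uniformContinuousOn_of_continuous (T.cont f)) ρ hρ
      exact ⟨δ, h1, fun p hp q hq hpq => h2 p hp q hq hpq⟩
    choose δf hδf0 hδf using h1
    rcases A.eq_empty_or_nonempty with hAe | hAn
    · exact ⟨1, one_pos, fun f hf => absurd hf (by rw [hAe]; simp)⟩
    · obtain ⟨f0, _, hf0⟩ := Set.exists_min_image A δf hfin hAn
      exact ⟨δf f0, hδf0 f0, fun f hf p hp q hq hpq => hδf f p hp q hq (hpq.trans_le (hf0 f hf))⟩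
  obtain ⟨k, hk⟩ := exists_pow_lt_of_lt_one hδ0 (by norm_num : (1 / 2 : ℝ) < 1)
  obtain ⟨T', hT'⟩ := iter hhalf T k
  have h2k : (0:ℝ) < 2 ^ k := by positivity
  have h2k' : (1 / 2 : ℝ) ^ k = 1 / 2 ^ k := by rw [one_div_pow]
  rw [h2k'] at hk
  -- scaled points are in the square
  have hin : ∀ x₀ t : ℝ, 0 ≤ x₀ → x₀ + 1 / 2 ^ k ≤ 1 → 0 ≤ t → t ≤ 1 →
      0 ≤ x₀ + t / 2 ^ k ∧ x₀ + t / 2 ^ k ≤ 1 := by
    intro x₀ t h1 h2 h3 h4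
    refine ⟨by positivity, ?_⟩
    have : t / 2 ^ k ≤ 1 / 2 ^ k := by gcongr
    linarith
  set F₀ : Set T'.F := {c | ∃ p ∈ I2, T'.sq c p ∈ U} with hF₀
  have hF₀A : ∀ c ∈ F₀, ∀ (f : T.F) (x₀ y₀ : ℝ), 0 ≤ x₀ → x₀ + 1 / 2 ^ k ≤ 1 → 0 ≤ y₀ →
      y₀ + 1 / 2 ^ k ≤ 1 →
      (∀ x y : ℝ, T'.sq c (x, y) = T.sq f (x₀ + x / 2 ^ k, y₀ + y / 2 ^ k)) → f ∈ A := by
    rintro c ⟨p, hp, hpU⟩ f x₀ y₀ hx0 hx1 hy0 hy1 h3
    rw [mem_I2] at hp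
    have h4 := h3 p.1 p.2
    rw [Prod.mk.eta] at h4
    refine ⟨T'.sq c p, ?_, hpU⟩
    rw [h4]
    exact ⟨_, mem_I2.2 ⟨hin _ _ hx0 hx1 hp.1.1 hp.1.2, hin _ _ hy0 hy1 hp.2.1 hp.2.2⟩, rfl⟩
  have hne : F₀.Nonempty := by
    obtain ⟨x, hx⟩ := hKn
    obtain ⟨c, p, hp, hcp⟩ := T'.cover x
    exact ⟨c, p, hp, by rw [hcp]; exact hKU hx⟩
  obtain ⟨D, Λ, J, i1, i2, G, Fc, cell, inC, g1, g2, g3, g4⟩ := hcs T' F₀ hne U hUo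
    (fun f p hp h => ⟨p, hp, h⟩) ρ (by
      intro c hc p hp q hq
      obtain ⟨f, x₀, y₀, hx0, hx1, hy0, hy1, h3⟩ := hT' c
      have hfA := hF₀A c hc f x₀ y₀ hx0 hx1 hy0 hy1 h3
      have e1 := h3 p.1 p.2
      have e2 := h3 q.1 q.2
      rw [Prod.mk.eta] at e1 e2
      rw [e1, e2]
      rw [mem_I2] at hp hq
      refine (hδ f hfA _ (mem_I2.2 ⟨hin _ _ hx0 hx1 hp.1.1 hp.1.2, hin _ _ hy0 hy1 hp.2.1 hp.2.2⟩) _
        (mem_I2.2 ⟨hin _ _ hx0 hx1 hq.1.1 hq.1.2, hin _ _ hy0 hy1 hq.2.1 hq.2.2⟩) ?_).le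
      refine lt_of_le_of_lt ?_ hk
      have haux : ∀ x₀ s t : ℝ, 0 ≤ s → s ≤ 1 → 0 ≤ t → t ≤ 1 →
          dist (x₀ + s / 2 ^ k) (x₀ + t / 2 ^ k) ≤ 1 / 2 ^ k := by
        intro x₀ s t hs0 hs1 ht0 ht1
        rw [Real.dist_eq, show x₀ + s / 2 ^ k - (x₀ + t / 2 ^ k) = (s - t) / 2 ^ k by ring,
          abs_div, abs_of_pos h2k]
        gcongr
        rw [abs_le]
        constructor <;> linarith
      rw [Prod.dist_eq]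
      exact max_le (haux _ _ _ hp.1.1 hp.1.2 hq.1.1 hq.1.2) (haux _ _ _ hp.2.1 hp.2.2 hq.2.1 hq.2.2))
  refine ⟨D, Λ, J, i1, i2, G, Fc, cell, inC, g1, g2, ?_, g4⟩
  intro d
  obtain ⟨j, hj, _⟩ := g4.path d
  have h5 := g4.tl_mem j d hj
  obtain ⟨c, hc, hcell⟩ := g3 j
  rw [hcell] at h5
  obtain ⟨p, hp, hpd⟩ := h5
  obtain ⟨f, x₀, y₀, hx0, hx1, hy0, hy1, h3⟩ := hT' c
  have hfA := hF₀A c hc f x₀ y₀ hx0 hx1 hy0 hy1 h3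
  have e1 := h3 p.1 p.2
  rw [Prod.mk.eta] at e1
  rw [← hpd, e1]
  rw [mem_I2] at hp
  exact Set.mem_biUnion hfA
    ⟨_, mem_I2.2 ⟨hin _ _ hx0 hx1 hp.1.1 hp.1.2, hin _ _ hy0 hy1 hp.2.1 hp.2.2⟩, rfl⟩

end Pool.Agent.TH317.CC
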