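import Pool.Agent.TH32.H.Stmts

/-!
# Assembly of the local count (project of helper32, MP_512a3e_al)
-/

set_option autoImplicit false

namespace Pool.Agent.TH989.TZH

open Pool.Agent.H260TZ Pool.Agent.TH32

lemma ar_cond (b n m k l s c d Md : ℕ) :
    ((n : ℤ) ≤ m + l + m ∧ (m : ℤ) + k ≤ b + s ∧ (Md : ℤ) ≤ b + s ∧
        (n : ℤ) + (m + k) ≤ b + c + d ∧ (n : ℤ) + Md ≤ b + c + d ∧
        min ((m : ℤ) + l) n + (m + k) ≤ b + s + c ∧ min (m : ℤ) n + Md ≤ b + s + d) ↔
    (n ≤ 2 * m + l ∧ (m + k ≤ b + s ∧ n + (m + k) ≤ b + c + d ∧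
          min (m + l) n + (m + k) ≤ b + s + c) ∧
          (Md ≤ b + s ∧ n + Md ≤ b + c + d ∧ min m n + Md ≤ b + s + d)) := by
  have e1 : min ((m : ℤ) + l) n = ((min (m + l) n : ℕ) : ℤ) := by push_cast; rfl
  have e2 : min (m : ℤ) n = ((min m n : ℕ) : ℤ) := by push_cast; rfl
  rw [e1, e2]
  constructor
  · rintro ⟨h1, h2, h3, h4, h5, h6, h7⟩
    exact ⟨by omega, ⟨by exact_mod_cast h2, by exact_mod_cast h4, by exact_mod_cast h6⟩,
      by exact_mod_cast h3, by exact_mod_cast h5, by exact_mod_cast h7⟩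
  · rintro ⟨h1, ⟨h2, h4, h6⟩, h3, h5, h7⟩
    exact ⟨by omega, by exact_mod_cast h2, by exact_mod_cast h3, by exact_mod_cast h4,
      by exact_mod_cast h5, by exact_mod_cast h6, by exact_mod_cast h7⟩

lemma ar_min (x n : ℕ) (h : x ≤ n) : min (x : ℤ) n = x := by omega

lemma ar_T (n e b Je T : ℕ) (hT : T = min n (e + (b - Je))) :
    min (n : ℤ) (e + max ((b : ℤ) - Je) 0) = T := by omega

lemma ar_sub (x y : ℕ) : max ((x : ℤ) - y) 0 = ((x - y : ℕ) : ℤ) := by omega

lemma ar_sub2 (x y z : ℕ) : max ((x : ℤ) - (y + z)) 0 = ((x - (y + z) : ℕ) : ℤ) := by omega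

lemma ar_max (x T h : ℕ) : ((max x (T - h) : ℕ) : ℤ) = max (x : ℤ) ((T : ℤ) - h) := by omega

lemma ar_J (Je b n T : ℕ) (h : T ≤ n) :
    max ((Je : ℤ) - b) 0 + ((n : ℤ) - T) = (((Je - b) + (n - T) : ℕ) : ℤ) := by omega

/-- values below the generic one -/
lemma ar_low (B M x n h : ℕ) (hA : ¬ n + M ≤ B) (h4 : min x n + M ≤ B) (hh : h = B - M - x) :
    h ≠ n - x ∧ (B : ℤ) - M - x = h := by
  rcases le_total x n with h1 | h1
  · rw [min_eq_left h1] at h4
    omega
  · rw [min_eq_right h1] at h4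
    exact absurd h4 hA

/-- the local function in natural numbers -/
lemma Fv_eq (q : ℝ) (b n m k l l' s c d e Md Je T g h : ℕ) (hMd : m + k = Md + l)
    (hJe : m + k = Je + l') (hs : s ≤ n) (hc : c ≤ n) (hd : d ≤ n) (he : e ≤ n)
    (hT : T = min n (e + (b - Je)))
    (hg : g = if n + Md ≤ b + s + d then n - m else b + s + d - Md - m)
    (hh : h = if n + (m + k) ≤ b + s + c then n - (m + l) else b + s + c - (m + k) - (m + l)) :
    Fv q b n (m + l) m (m + k) (m + k - l) (m + k - l') s c d e =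
      if (n ≤ 2 * m + l ∧ (m + k ≤ b + s ∧ n + (m + k) ≤ b + c + d ∧
          min (m + l) n + (m + k) ≤ b + s + c) ∧
          (Md ≤ b + s ∧ n + Md ≤ b + c + d ∧ min m n + Md ≤ b + s + d)) then
        q ^ (-((((Je - b) + (n - T) : ℕ) : ℤ))) * pairF q (n - m) (n - (m + l)) T g h
      else 0 := by
  have eMd : (m : ℤ) + k - l = Md := by
    rw [sub_eq_iff_eq_add]; exact_mod_cast hMd
  have eJe : (m : ℤ) + k - l' = Je := by
    rw [sub_eq_iff_eq_add]; exact_mod_cast hJe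
  have hTn : T ≤ n := hT ▸ min_le_left _ _
  rw [eMd, eJe]
  unfold Fv F1 F2
  simp only [ar_min s n hs, ar_min c n hc, ar_min d n hd, ar_min e n he, ar_T n e b Je T hT,
    ar_sub n m, ar_sub2 n m l, ar_J Je b n T hTn]
  by_cases hN : n ≤ 2 * m + l ∧ (m + k ≤ b + s ∧ n + (m + k) ≤ b + c + d ∧
          min (m + l) n + (m + k) ≤ b + s + c) ∧
          (Md ≤ b + s ∧ n + Md ≤ b + c + d ∧ min m n + Md ≤ b + s + d)
  · have hI := (ar_cond b n m k l s c d Md).2 hN
    rw [if_pos hI, if_pos hI, if_pos hN]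
    obtain ⟨-, ⟨-, -, h4⟩, -, -, h7⟩ := hN
    clear hI
    rw [mul_left_comm, ← mul_add]
    congr 1
    unfold pairF
    by_cases hA : n + Md ≤ b + s + d
    · have hA' : (n : ℤ) + Md ≤ b + s + d := by exact_mod_cast hA
      rw [if_pos hA] at hg
      by_cases hB : n + (m + k) ≤ b + s + c
      · have hB' : (n : ℤ) + (m + k) ≤ b + s + c := by exact_mod_cast hB
        rw [if_pos hB] at hh
        rw [if_pos hA', if_pos hB', if_pos hg, if_pos hh]
        by_cases hC : T ≤ (n - m) + (n - (m + l))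
        · have hC' : (T : ℤ) ≤ ((n - m : ℕ) : ℤ) + ((n - (m + l) : ℕ) : ℤ) := by exact_mod_cast hC
          rw [if_pos hC', if_pos hC, if_neg (fun h => absurd hC' (not_le.2 h.2.2)), mul_zero,
            add_zero]
        · have hC' : ¬ (T : ℤ) ≤ ((n - m : ℕ) : ℤ) + ((n - (m + l) : ℕ) : ℤ) := by
            exact_mod_cast hC
          rw [if_neg hC', if_neg hC, if_pos ⟨hA', hB', not_le.1 hC'⟩]
          push_cast
          ring
      · have hB' : ¬ (n : ℤ) + (m + k) ≤ b + s + c := by exact_mod_cast hB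
        rw [if_neg hB] at hh
        obtain ⟨hh', e1⟩ := ar_low (b + s + c) (m + k) (m + l) n h hB h4 hh
        push_cast at e1
        rw [if_pos hA', if_neg hB', if_pos hg, if_neg hh', if_neg (fun h => hB' h.2.1), mul_zero,
          add_zero]
        congr 1
        rw [e1, ar_max]
        ring
    · have hA' : ¬ (n : ℤ) + Md ≤ b + s + d := by exact_mod_cast hA
      rw [if_neg hA] at hg
      obtain ⟨hg', e1⟩ := ar_low (b + s + d) Md m n g hA h7 hg
      push_cast at e1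
      by_cases hB : n + (m + k) ≤ b + s + c
      · have hB' : (n : ℤ) + (m + k) ≤ b + s + c := by exact_mod_cast hB
        rw [if_pos hB] at hh
        rw [if_neg hA', if_pos hB', if_neg hg', if_pos hh, if_neg (fun h => hA' h.1), mul_zero,
          add_zero]
        congr 1
        rw [e1, ar_max]
        ring
      · have hB' : ¬ (n : ℤ) + (m + k) ≤ b + s + c := by exact_mod_cast hB
        rw [if_neg hB] at hh
        obtain ⟨hh', e3⟩ := ar_low (b + s + c) (m + k) (m + l) n h hB h4 hh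
        push_cast at e3
        rw [if_neg hA', if_neg hB', if_neg hg', if_neg hh', e1, e3,
          if_neg (fun h : (n : ℤ) + Md ≤ b + s + d ∧ _ => hA' h.1), mul_zero, add_zero]
        by_cases hC : T ≤ g + h
        · rw [if_pos hC, if_pos (by exact_mod_cast hC)]
        · rw [if_neg hC, if_neg (by exact_mod_cast hC)]
  · have hI := fun h => hN ((ar_cond b n m k l s c d Md).1 h)
    rw [if_neg hI, if_neg hI, if_neg hN, mul_zero, add_zero]

section

variable {R : Type} [CommRing R] [IsDomain R] (D : DV R)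

/-- a lift of `u` modulo `t^n` lies in the coset of `t^j` of `w` iff `u` does -/
lemma dvd_lift {L j : ℕ} (hj : j ≤ L) (a w : R) :
    D.t ^ j ∣ D.lift (D.red L a) - w ↔ D.t ^ j ∣ a - w := by
  have h1 : D.t ^ j ∣ D.lift (D.red L a) - a := (pow_dvd_pow _ hj).trans (D.lift_red a)
  have e : D.lift (D.red L a) - w = (D.lift (D.red L a) - a) + (a - w) := by ring
  rw [e]
  exact (dvd_add_right h1)

end

theorem lpAsm : LPAsmStmt := by
  classical
  intro h1 h2 h3 h4 h5 h6 R _ _ D b m k z n τ₁ τ₂ l l' z₁ z₂ hl hl' hz hz' hu hu'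
  obtain ⟨Md, hMd⟩ : ∃ Md, m + k = Md + l := ⟨m + k - l, by omega⟩
  obtain ⟨Je, hJe⟩ : ∃ Je, m + k = Je + l' := ⟨m + k - l', by omega⟩
  have eMd : m + k - l = Md := by omega
  have eJe : m + k - l' = Je := by omega
  set s := min (D.lev n τ₁) (D.lev n τ₂) with hs
  set c := D.lev n τ₂ with hc
  set d := D.lev n (D.t ^ (k - l) * τ₁ + z₁ * τ₂) with hd
  set e := D.lev n (D.t ^ (k - l') * τ₁ + z₂ * τ₂) with he
  have hsn : s ≤ n := (min_le_left _ _).trans (D.lev_le n τ₁)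
  have hcn : c ≤ n := D.lev_le n _
  have hdn : d ≤ n := D.lev_le n _
  have hen : e ≤ n := D.lev_le n _
  obtain ⟨T, hT⟩ : ∃ T, T = min n (e + (b - Je)) := ⟨_, rfl⟩
  obtain ⟨g, hg⟩ : ∃ g, g = if n + Md ≤ b + s + d then n - m else b + s + d - Md - m := ⟨_, rfl⟩
  obtain ⟨h, hh⟩ : ∃ h, h = if n + (m + k) ≤ b + s + c then n - (m + l)
    else b + s + c - (m + k) - (m + l) := ⟨_, rfl⟩
  rw [Fv_eq (D.q : ℝ) b n m k l l' s c d e Md Je T g h hMd hJe hsn hcn hdn hen hT hg hh]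
  obtain ⟨L, hL⟩ : ∃ L, L = m + k + n := ⟨_, rfl⟩
  have hqpos : (0 : ℝ) < D.q := by exact_mod_cast D.q_pos
  have key6 := h6 R D b m k z n τ₁ τ₂ L hL.ge
  set N := NN D m k z n τ₁ τ₂ with hN
  set K : ℕ := Nat.card {p : D.Q L × D.Q L × D.Q L //
        Clos D b N ((D.lift p.1, D.lift p.2.1), D.lift p.2.2)} with hK
  have hC1 := h1 R D m k z n τ₁ τ₂ l z₁ hl hz hu
  have hC2 := h2 R D b m k z n τ₁ τ₂ l z₁ hl hz hu s c d hs hc hd
  have hC3 := h3 R D b m k z n τ₁ τ₂ l z₁ hl hz hu s c d hs hc hd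
  rw [eMd] at hC3
  have hC4 := h4 R D b m k z n τ₁ τ₂ l' z₂ hl' hz' hu' e T L he (by rw [eJe]; exact hT) hL.ge
  rw [eJe] at hC4
  have hcnt : (cntC D b N : ℝ) = (D.q : ℝ) ^ (n + 2 * m + k) * (K / (D.q : ℝ) ^ (3 * L)) := by
    have h7 : (cntC D b N : ℝ) * (D.q : ℝ) ^ (3 * L) = (D.q : ℝ) ^ (2 * m + k + n) * K := by
      exact_mod_cast key6
    have h8 : (D.q : ℝ) ^ (3 * L) ≠ 0 := by positivity
    have e1 : n + 2 * m + k = 2 * m + k + n := by ring
    rw [e1, ← mul_div_assoc, eq_div_iff h8, h7]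
  rw [hcnt]
  congr 1
  split_ifs with hcond
  · obtain ⟨hcA, hcB, hcC⟩ := hcond
    have hCC1 := hC1.2 hcA
    obtain ⟨v, hv⟩ := hC2.1.2 hcB
    obtain ⟨u, hu0⟩ := hC3.1.2 hcC
    obtain ⟨hv1, hv2⟩ := hC2.2 v hv
    obtain ⟨hu1, hu2⟩ := hC3.2 u hu0
    rw [← hh] at hv2
    rw [← hg] at hu2
    have hTn : T ≤ n := hT ▸ min_le_left _ _
    obtain ⟨cc, hcc⟩ : ∃ cc, cc = D.q ^ (L - (Je - b) - (n - T)) := ⟨_, rfl⟩
    set P : ℕ := Nat.card {p : D.Q L × D.Q L // D.t ^ (n - m) ∣ D.lift p.1 - u ∧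
        D.t ^ (n - (m + l)) ∣ D.lift p.2 - v ∧ D.t ^ T ∣ D.lift p.1 * D.lift p.2} with hP
    have hPval := h5 R D (n - m) (n - (m + l)) T L (by omega) (by omega) (by omega) u v
    rw [hu2, hv2, ← hP] at hPval
    have hKP : K = cc * P := by
      rw [hK, hP, Nat.card_eq_fintype_card, Nat.card_eq_fintype_card, Fintype.card_subtype,
        Fintype.card_subtype, Finset.card_filter, Finset.card_filter, Fintype.sum_prod_type,
        Fintype.sum_prod_type, Finset.mul_sum]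
      refine Finset.sum_congr rfl fun x _ => ?_
      rw [Fintype.sum_prod_type, Finset.mul_sum]
      refine Finset.sum_congr rfl fun y _ => ?_
      have h8 := hC4 (D.lift x) (D.lift y)
      rw [Nat.card_eq_fintype_card, Fintype.card_subtype, Finset.card_filter, ← hcc] at h8
      by_cases hA : D.t ^ (n - m) ∣ D.lift x - u ∧ D.t ^ (n - (m + l)) ∣ D.lift y - v
      · have h9 : ∀ z : D.Q L, (Clos D b N ((D.lift x, D.lift y), D.lift z) ↔
            C4 D b N (D.lift x) (D.lift y) (D.lift z)) := by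
          intro z
          constructor
          · exact fun h => h.2.2.2
          · exact fun h => ⟨hCC1, (hv1 _).2 hA.2, (hu1 _).2 hA.1, h⟩
        simp only [h9]
        rw [h8]
        by_cases hB : D.t ^ T ∣ D.lift x * D.lift y
        · rw [if_pos hB, if_pos ⟨hA.1, hA.2, hB⟩, mul_one]
        · rw [if_neg hB, if_neg (fun h => hB h.2.2), mul_zero]
      · rw [if_neg (fun h => hA ⟨h.1, h.2.1⟩), mul_zero]
        refine Finset.sum_eq_zero fun z _ => ?_
        rw [if_neg]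
        intro h
        exact hA ⟨(hu1 _).1 h.2.2.1, (hv1 _).1 h.2.1⟩
    rw [hKP, hcc]
    push_cast
    rw [hPval]
    obtain ⟨r, hr⟩ : ∃ r, r = (Je - b) + (n - T) := ⟨_, rfl⟩
    have e1 : L - (Je - b) - (n - T) = L - r := by omega
    have hrL : r ≤ L := by omega
    have e2 : ((Je - b : ℕ) : ℤ) + ((n - T : ℕ) : ℤ) = (r : ℤ) := by rw [hr]; push_cast; rfl
    rw [e1, e2]
    have e3 : (D.q : ℝ) ^ (3 * L) = (D.q : ℝ) ^ (L - r) * (D.q : ℝ) ^ (2 * L) * (D.q : ℝ) ^ r := by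
      rw [← pow_add, ← pow_add]
      congr 1
      omega
    rw [e3, zpow_neg, zpow_natCast]
    have p1 : (D.q : ℝ) ^ (L - r) ≠ 0 := by positivity
    have p2 : (D.q : ℝ) ^ (2 * L) ≠ 0 := by positivity
    have p3 : (D.q : ℝ) ^ r ≠ 0 := by positivity
    field_simp
  · -- no solutions
    have hK0 : K = 0 := by
      rw [hK, Nat.card_eq_zero]
      left
      constructor
      rintro ⟨p, hp1, hp2, hp3, _⟩
      exact hcond ⟨hC1.1 hp1, hC2.1.1 ⟨_, hp2⟩, hC3.1.1 ⟨_, hp3⟩⟩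
    rw [hK0]
    simp

end Pool.Agent.TH989.TZH
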