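import Pool.Agent.TH37.HG.Stmts2

set_option autoImplicit false

/-!
# Configurations of central type: the commutator can be made central of prime order
(project HG of helper37, MP_364ede_al)
-/

namespace Pool.Agent.TH989.HG

open Pool.Agent.TH37.HG
open Pool.Agent.Helper294.HallC (PC FGM Stb Noe)
open Pool.Agent.H53R2 (InVar Lw MaxN VN VNil UI SecMod exists_secMod)
open scoped commutatorElement

section

variable {G : Type} [Group G]

/-- a subgroup stable under conjugation by generators and their inverses is normal -/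
lemma normal_of_gens {S : Set G} (hS : Subgroup.closure S = ⊤) (H : Subgroup G)
    (h : ∀ s ∈ S, ∀ x ∈ H, s * x * s⁻¹ ∈ H ∧ s⁻¹ * x * s ∈ H) : H.Normal := by
  have h1 : Subgroup.closure S ≤ Subgroup.normalizer (H : Set G) := by
    rw [Subgroup.closure_le]
    intro s hs
    rw [SetLike.mem_coe, Subgroup.mem_normalizer_iff]
    intro x
    refine ⟨fun hx => (h s hs x hx).1, fun hx => ?_⟩
    have := (h s hs _ hx).2
    have e : s⁻¹ * (s * x * s⁻¹) * s = x := by group
    rwa [e] at this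
  rw [hS, top_le_iff] at h1
  exact Subgroup.normalizer_eq_top_iff.1 h1

lemma conj_comm {x y g : G} (h : Commute x y) : Commute (g * x * g⁻¹) (g * y * g⁻¹) := by
  show g * x * g⁻¹ * (g * y * g⁻¹) = g * y * g⁻¹ * (g * x * g⁻¹)
  have h' : x * y = y * x := h
  calc g * x * g⁻¹ * (g * y * g⁻¹) = g * (x * y) * g⁻¹ := by group
    _ = g * (y * x) * g⁻¹ := by rw [h']
    _ = _ := by group

/-- the conjugates under the powers of `t` -/
def cj (t x : G) (i : ℤ) : G := t ^ i * x * t ^ (-i)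

lemma cj_zero (t x : G) : cj t x 0 = x := by simp [cj]

lemma cj_cj (t x : G) (i j : ℤ) : cj t (cj t x i) j = cj t x (j + i) := by
  unfold cj
  rw [zpow_add, neg_add_rev, zpow_add]
  group

lemma cj_mul (t x y : G) (i : ℤ) : cj t (x * y) i = cj t x i * cj t y i := by
  unfold cj
  rw [zpow_neg]
  group

lemma cj_comm {t x y : G} (i : ℤ) (h : Commute x y) : Commute (cj t x i) (cj t y i) := by
  unfold cj
  rw [zpow_neg]
  exact conj_comm h

lemma cj_pow (t x : G) (i : ℤ) (n : ℕ) : cj t (x ^ n) i = cj t x i ^ n := by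
  unfold cj
  rw [zpow_neg, conj_pow]

lemma cj_commutator (t x y : G) (i : ℤ) : cj t ⁅x, y⁆ i = ⁅cj t x i, cj t y i⁆ := by
  unfold cj
  rw [zpow_neg, commutatorElement_def, commutatorElement_def]
  group

lemma commutator_pow_left {b m : G} (h : Commute ⁅b, m⁆ b) (s : ℕ) : ⁅b ^ s, m⁆ = ⁅b, m⁆ ^ s := by
  induction s with
  | zero => simp
  | succ s ih =>
    have e : ⁅b ^ (s + 1), m⁆ = b ^ s * ⁅b, m⁆ * (b ^ s)⁻¹ * ⁅b ^ s, m⁆ := by
      rw [pow_succ, commutatorElement_def, commutatorElement_def, commutatorElement_def]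
      group
    rw [e, ih]
    have h1 : b ^ s * ⁅b, m⁆ * (b ^ s)⁻¹ = ⁅b, m⁆ := by
      rw [← (h.pow_right s).eq, mul_inv_cancel_right]
    rw [h1, pow_succ']

/-- the module obtained from a maximal stable subgroup -/
lemma exists_quot (hM : MfinStmt) (b m t : G) (hcl : Subgroup.closure {b, m, t} = ⊤)
    (e : G) (he : e ≠ 1) (hb : ∀ i : ℤ, Commute (cj t e i) b) (hm : ∀ i : ℤ, Commute (cj t e i) m)
    (hee : ∀ i : ℤ, Commute e (cj t e i)) :
    ∃ X : Subgroup G, X.Normal ∧ e ∉ X ∧ (∃ n : ℕ, 0 < n ∧ e ^ n ∈ X) ∧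
      ∃ k : ℕ, 0 < k ∧ ⁅e, t ^ k⁆ ∈ X := by
  -- the subgroup generated by the conjugates
  set E0 : Subgroup G := Subgroup.closure {x | ∃ i : ℤ, x = cj t e i} with hE0
  have heE : e ∈ E0 := Subgroup.subset_closure ⟨0, (cj_zero t e).symm⟩
  have hcomm : ∀ i j : ℤ, Commute (cj t e i) (cj t e j) := by
    intro i j
    have h1 := cj_comm i (hee (j - i)) (t := t)
    rwa [cj_cj, add_sub_cancel] at h1
  -- elements commuting with the generators centralize E0
  have hcent : ∀ g : G, (∀ i : ℤ, Commute (cj t e i) g) → ∀ x ∈ E0, Commute x g := by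
    intro g hg x hx
    induction hx using Subgroup.closure_induction with
    | mem x hx => obtain ⟨i, rfl⟩ := hx; exact hg i
    | one => exact Commute.one_left g
    | mul x y _ _ hx hy => exact hx.mul_left hy
    | inv x _ hx => exact hx.inv_left
  have hEb : ∀ x ∈ E0, Commute x b := hcent b hb
  have hEm : ∀ x ∈ E0, Commute x m := hcent m hm
  have hEE : ∀ x ∈ E0, ∀ y ∈ E0, Commute x y := by
    intro x hx y hy
    exact hcent y (fun i => (hcent _ (fun j => hcomm j i) y hy).symm) x hx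
  have htE : ∀ x ∈ E0, t * x * t⁻¹ ∈ E0 ∧ t⁻¹ * x * t ∈ E0 := by
    intro x hx
    induction hx using Subgroup.closure_induction with
    | mem x hx =>
      obtain ⟨i, rfl⟩ := hx
      refine ⟨Subgroup.subset_closure ⟨1 + i, ?_⟩, Subgroup.subset_closure ⟨-1 + i, ?_⟩⟩
      · unfold cj
        rw [zpow_add, neg_add_rev, zpow_add]
        group
      · unfold cj
        rw [zpow_add, neg_add_rev, zpow_add]
        group
    | one => simp
    | mul x y _ _ hx hy =>
      refine ⟨?_, ?_⟩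
      · have := E0.mul_mem hx.1 hy.1
        have e1 : t * x * t⁻¹ * (t * y * t⁻¹) = t * (x * y) * t⁻¹ := by group
        rwa [e1] at this
      · have := E0.mul_mem hx.2 hy.2
        have e1 : t⁻¹ * x * t * (t⁻¹ * y * t) = t⁻¹ * (x * y) * t := by group
        rwa [e1] at this
    | inv x _ hx =>
      refine ⟨?_, ?_⟩
      · have := E0.inv_mem hx.1
        have e1 : (t * x * t⁻¹)⁻¹ = t * x⁻¹ * t⁻¹ := by group
        rwa [e1] at this
      · have := E0.inv_mem hx.2
        have e1 : (t⁻¹ * x * t)⁻¹ = t⁻¹ * x⁻¹ * t := by group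
        rwa [e1] at this
  -- a subgroup of E0 stable under t is normal
  have hnorm : ∀ Y : Subgroup G, Y ≤ E0 → (∀ x ∈ Y, t * x * t⁻¹ ∈ Y ∧ t⁻¹ * x * t ∈ Y) →
      Y.Normal := by
    intro Y hY ht
    refine normal_of_gens hcl Y fun s hs x hx => ?_
    have key : ∀ g : G, Commute x g → g * x * g⁻¹ ∈ Y ∧ g⁻¹ * x * g ∈ Y := by
      intro g hg
      have e1 : g * x * g⁻¹ = x := by rw [← hg.eq, mul_inv_cancel_right]
      have e2 : g⁻¹ * x * g = x := by rw [mul_assoc, hg.eq, inv_mul_cancel_left]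
      rw [e1, e2]
      exact ⟨hx, hx⟩
    rcases hs with rfl | rfl | rfl
    · exact key _ (hEb x (hY hx))
    · exact key _ (hEm x (hY hx))
    · exact ht x hx
  have hE0n : E0.Normal := hnorm E0 le_rfl htE
  -- Zorn
  obtain ⟨X, hX⟩ : ∃ X, Maximal (fun X : Subgroup G => X ≤ E0 ∧ X.Normal ∧ e ∉ X) X := by
    refine zorn_le_nonempty₀ {X : Subgroup G | X ≤ E0 ∧ X.Normal ∧ e ∉ X} (fun c hc hchain y hy => ?_)
      ⊥ ⟨bot_le, inferInstance, fun h => he (Subgroup.mem_bot.1 h)⟩ |>.imp fun X hX => hX.2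
    have hmem : ∀ {x : G}, x ∈ sSup c ↔ ∃ s ∈ c, x ∈ s :=
      fun {x} => Subgroup.mem_sSup_of_directedOn ⟨y, hy⟩ hchain.directedOn
    refine ⟨sSup c, ⟨?_, ?_, ?_⟩, fun s hs => le_sSup hs⟩
    · exact sSup_le fun s hs => (hc hs).1
    · constructor
      intro x hx g
      obtain ⟨s, hs, hxs⟩ := hmem.1 hx
      exact hmem.2 ⟨s, hs, (hc hs).2.1.conj_mem x hxs g⟩
    · intro h
      obtain ⟨s, hs, hxs⟩ := hmem.1 h
      exact (hc hs).2.2 hxs
  obtain ⟨hXE, hXn, heX⟩ := hX.prop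
  -- the quotient acting
  let C : Subgroup G := Subgroup.centralizer (E0 : Set G)
  have hCn : C.Normal := inferInstance
  have hbC : b ∈ C := Subgroup.mem_centralizer_iff.2 fun x hx => hEb x hx
  have hmC : m ∈ C := Subgroup.mem_centralizer_iff.2 fun x hx => hEm x hx
  let p : G →* G ⧸ C := QuotientGroup.mk' C
  have hpsurj : Function.Surjective p := QuotientGroup.mk'_surjective C
  have hEC : ⁅E0, C⁆ = ⊥ := by
    rw [Subgroup.commutator_eq_bot_iff_le_centralizer]
    intro x hx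
    rw [Subgroup.mem_centralizer_iff]
    intro y hy
    exact (Subgroup.mem_centralizer_iff.1 hy x hx).symm
  have hEE' : ⁅E0, E0⁆ = ⊥ := by
    rw [Subgroup.commutator_eq_bot_iff_le_centralizer]
    intro x hx
    rw [Subgroup.mem_centralizer_iff]
    intro y hy
    exact hEE y hy x hx
  obtain ⟨A, _, _, ⟨s⟩⟩ := exists_secMod p hpsurj X E0 (by rw [hEE']; exact bot_le) (by
    rw [QuotientGroup.ker_mk', hEC]; exact bot_le)
  -- Q is cyclic
  have hgen : ∀ q : G ⧸ C, ∃ i : ℤ, q = p t ^ i := by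
    have h1 : Subgroup.map p ⊤ ≤ Subgroup.zpowers (p t) := by
      rw [← hcl, MonoidHom.map_closure, Subgroup.closure_le]
      rintro _ ⟨g, hg, rfl⟩
      rcases hg with rfl | rfl | rfl
      · have : p g = 1 := (QuotientGroup.eq_one_iff g).2 hbC
        rw [this]; exact Subgroup.one_mem _
      · have : p g = 1 := (QuotientGroup.eq_one_iff g).2 hmC
        rw [this]; exact Subgroup.one_mem _
      · exact Subgroup.mem_zpowers _
    intro q
    obtain ⟨g, rfl⟩ := hpsurj q
    obtain ⟨i, hi⟩ := Subgroup.mem_zpowers_iff.1 (h1 ⟨g, trivial, rfl⟩)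
    exact ⟨i, hi.symm⟩
  have hcyc : IsCyclic (G ⧸ C) := ⟨p t, fun q => by
    obtain ⟨i, hi⟩ := hgen q
    exact Subgroup.mem_zpowers_iff.2 ⟨i, hi.symm⟩⟩
  have hfg : Group.FG (G ⧸ C) := by
    refine Group.fg_iff.2 ⟨{p t}, ?_, Set.finite_singleton _⟩
    rw [eq_top_iff]
    intro q _
    obtain ⟨i, hi⟩ := hgen q
    rw [hi]
    exact Subgroup.zpow_mem _ (Subgroup.subset_closure (Set.mem_singleton _)) i
  have hnil : Group.IsNilpotent (G ⧸ C) :=
    @CommGroup.isNilpotent (G ⧸ C) (IsCyclic.commGroup)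
  obtain ⟨r, hr⟩ : ∃ r : A, s.rep e r := ⟨(s.π ⟨e, heE⟩).toAdd, heE, rfl⟩
  have hrep0 : ∀ g : G, s.rep g 0 → g ∈ X := by
    rintro g ⟨hg, h⟩
    exact (s.ker ⟨g, hg⟩).1 h
  have hrepX : ∀ g : G, g ∈ X → s.rep g 0 := by
    intro g hg
    exact ⟨hXE hg, (s.ker ⟨g, hXE hg⟩).2 hg⟩
  have hFGM : FGM (G ⧸ C) A := by
    refine ⟨{r}, ?_⟩
    rw [eq_top_iff]
    intro a _
    obtain ⟨g, hg⟩ := s.exists_rep a
    have key : ∀ g ∈ E0, ∃ a : A, s.rep g a ∧
        a ∈ AddSubgroup.closure {a : A | ∃ g : G ⧸ C, ∃ s ∈ ({r} : Finset A), a = g • s} := by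
      intro g hg
      induction hg using Subgroup.closure_induction with
      | mem x hx =>
        obtain ⟨i, rfl⟩ := hx
        refine ⟨p (t ^ i) • r, ?_, AddSubgroup.subset_closure ⟨_, r, by simp, rfl⟩⟩
        have := SecMod.rep_conj hr (t ^ i)
        unfold cj
        rw [zpow_neg]
        exact this
      | one => exact ⟨0, s.rep_one, AddSubgroup.zero_mem _⟩
      | mul x y _ _ hx hy =>
        obtain ⟨a, ha, ha'⟩ := hx
        obtain ⟨b, hb, hb'⟩ := hy
        exact ⟨a + b, SecMod.rep_mul ha hb, AddSubgroup.add_mem _ ha' hb'⟩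
      | inv x _ hx =>
        obtain ⟨a, ha, ha'⟩ := hx
        exact ⟨-a, SecMod.rep_inv ha, AddSubgroup.neg_mem _ ha'⟩
    obtain ⟨a', ha', hcl'⟩ := key g hg.1
    rw [SecMod.rep_unique hg ha']
    exact hcl'
  have hMono : MonoM (G ⧸ C) r := by
    refine ⟨fun h => heX (hrep0 e (h ▸ hr)), fun B hB hB0 => ?_⟩
    -- the corresponding subgroup
    let Y : Subgroup G :=
      { carrier := {g | ∃ a ∈ B, s.rep g a}
        one_mem' := ⟨0, B.zero_mem, s.rep_one⟩
        mul_mem' := by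
          rintro x y ⟨a, ha, h1⟩ ⟨c, hc, h2⟩
          exact ⟨a + c, B.add_mem ha hc, SecMod.rep_mul h1 h2⟩
        inv_mem' := by
          rintro x ⟨a, ha, h1⟩
          exact ⟨-a, B.neg_mem ha, SecMod.rep_inv h1⟩ }
    have hYE : Y ≤ E0 := by
      rintro g ⟨a, _, hg, _⟩
      exact hg
    have hXY : X ≤ Y := fun g hg => ⟨0, B.zero_mem, hrepX g hg⟩
    have hYn : Y.Normal := by
      constructor
      rintro x ⟨a, ha, h1⟩ g
      exact ⟨p g • a, hB _ a ha, SecMod.rep_conj h1 g⟩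
    have hYX : ¬ Y ≤ X := by
      intro h
      apply hB0
      rw [AddSubgroup.eq_bot_iff_forall]
      intro a ha
      obtain ⟨g, hg⟩ := s.exists_rep a
      exact SecMod.rep_unique hg (hrepX g (h ⟨a, ha, hg⟩))
    have heY : e ∈ Y := by
      by_contra h
      exact hYX (hX.le_of_ge ⟨hYE, hYn, h⟩ hXY)
    obtain ⟨a, ha, h1⟩ := heY
    rw [SecMod.rep_unique hr h1]
    exact ha
  have hfin : Finite A := hM (G ⧸ C) A hFGM r hMono
  refine ⟨X, hXn, heX, ?_, ?_⟩
  · refine ⟨Nat.card A, Nat.card_pos, hrep0 _ ?_⟩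
    have h1 := SecMod.rep_zpow hr (Nat.card A : ℤ)
    rw [zpow_natCast, natCast_zsmul, card_nsmul_eq_zero'] at h1
    exact h1
  · obtain ⟨i, j, hij, h⟩ := Finite.exists_ne_map_eq_of_infinite (fun i : ℕ => (p t) ^ i • r)
    wlog hlt : i < j generalizing i j
    · exact this j i hij.symm h.symm (lt_of_le_of_ne (not_lt.1 hlt) hij.symm)
    refine ⟨j - i, by omega, hrep0 _ ?_⟩
    have h1 := SecMod.rep_comm hr (t ^ (j - i))
    have h2 : p (t ^ (j - i)) • r = r := by
      have h3 : (p t) ^ j = (p t) ^ i * (p t) ^ (j - i) := by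
        rw [← pow_add]; congr 1; omega
      rw [h3, mul_smul] at h
      rw [map_pow]
      exact (smul_left_cancel _ h).symm
    rw [h2, sub_self] at h1
    exact h1

end

open Classical in
theorem x1a (hM : MfinStmt) : X1aStmt := by
  intro W G _ hG b m t hcfg hcen hne
  -- reduce to the subgroup generated by b, m, t
  let Γ : Subgroup G := Subgroup.closure {b, m, t}
  have hbΓ : b ∈ Γ := Subgroup.subset_closure (by simp)
  have hmΓ : m ∈ Γ := Subgroup.subset_closure (by simp)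
  have htΓ : t ∈ Γ := Subgroup.subset_closure (by simp)
  let b0 : Γ := ⟨b, hbΓ⟩
  let m0 : Γ := ⟨m, hmΓ⟩
  let t0 : Γ := ⟨t, htΓ⟩
  have hinj : Function.Injective Γ.subtype := Subtype.val_injective
  have hcl : Subgroup.closure {b0, m0, t0} = ⊤ := by
    have h1 := Subgroup.closure_closure_coe_preimage (k := ({b, m, t} : Set G))
    rw [← h1]
    congr 1
    ext x
    simp only [Set.mem_insert_iff, Set.mem_singleton_iff, Set.mem_preimage]
    constructor
    · rintro (rfl | rfl | rfl)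
      · exact Or.inl rfl
      · exact Or.inr (Or.inl rfl)
      · exact Or.inr (Or.inr rfl)
    · rintro (h | h | h)
      · exact Or.inl (Subtype.ext h)
      · exact Or.inr (Or.inl (Subtype.ext h))
      · exact Or.inr (Or.inr (Subtype.ext h))
  have hcfg0 : Cfg b0 m0 t0 := by
    intro i hi
    exact Subtype.ext (hcfg i hi)
  have hcen0 : Cen b0 m0 t0 := by
    intro i
    exact ⟨Subtype.ext (hcen i).1, Subtype.ext (hcen i).2⟩
  have hne0 : ⁅b0, m0⁆ ≠ 1 := fun h => hne (congrArg Subtype.val h)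
  have hΓ : InVar W Γ := hG.subgroup Γ
  set e : Γ := ⁅b0, m0⁆ with he
  have hcb : ∀ i : ℤ, Commute e (cj t0 b0 i) := fun i =>
    commutatorElement_eq_one_iff_commute.1 (hcen0 i).1
  have hcm : ∀ i : ℤ, Commute e (cj t0 m0 i) := fun i =>
    commutatorElement_eq_one_iff_commute.1 (hcen0 i).2
  obtain ⟨X, hXn, heX, ⟨n0, hn0, hen0⟩, k, hk, hek⟩ := exists_quot hM b0 m0 t0 hcl e hne0
    (fun i => by
      have h1 := cj_comm (t := t0) i (hcb (-i))
      rwa [cj_cj, add_neg_cancel, cj_zero] at h1)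
    (fun i => by
      have h1 := cj_comm (t := t0) i (hcm (-i))
      rwa [cj_cj, add_neg_cancel, cj_zero] at h1)
    (fun i => by
      have h1 : cj t0 e i = ⁅cj t0 b0 i, cj t0 m0 i⁆ := cj_commutator t0 b0 m0 i
      rw [h1, commutatorElement_def]
      exact (((hcb i).mul_right (hcm i)).mul_right (hcb i).inv_right).mul_right (hcm i).inv_right)
  -- the quotient
  let π : Γ →* Γ ⧸ X := QuotientGroup.mk' X
  set b1 := π b0 with hb1
  set m1 := π m0 with hm1
  set t1 := π t0 with ht1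
  have hX : ∀ g : Γ, g ∈ X ↔ π g = 1 := fun g => (QuotientGroup.eq_one_iff g).symm
  have hcfg1 : Cfg b1 m1 t1 := by
    intro i hi
    have := congrArg π (hcfg0 i hi)
    simpa [map_commutatorElement] using this
  have hcen1 : Cen b1 m1 t1 := by
    intro i
    have h1 := congrArg π (hcen0 i).1
    have h2 := congrArg π (hcen0 i).2
    constructor
    · simpa [map_commutatorElement] using h1
    · simpa [map_commutatorElement] using h2
  have he1 : π e = ⁅b1, m1⁆ := map_commutatorElement _ _ _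
  have hne1 : ⁅b1, m1⁆ ≠ 1 := by
    rw [← he1]
    exact fun h => heX ((hX e).2 h)
  have hpow1 : ⁅b1, m1⁆ ^ n0 = 1 := by
    rw [← he1, ← map_pow]
    exact (hX _).1 hen0
  have htk : Commute ⁅b1, m1⁆ (t1 ^ k) := by
    rw [← commutatorElement_eq_one_iff_commute, ← he1, ht1, ← map_pow, ← map_commutatorElement]
    exact (hX _).1 hek
  have hcb1 : ∀ i : ℤ, Commute ⁅b1, m1⁆ (cj t1 b1 i) := fun i =>
    commutatorElement_eq_one_iff_commute.1 (hcen1 i).1
  have hcm1 : ∀ i : ℤ, Commute ⁅b1, m1⁆ (cj t1 m1 i) := fun i =>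
    commutatorElement_eq_one_iff_commute.1 (hcen1 i).2
  -- the order of the commutator
  set n := orderOf ⁅b1, m1⁆ with hn
  have hnpos : 0 < n := orderOf_pos_iff.2 (isOfFinOrder_iff_pow_eq_one.2 ⟨n0, hn0, hpow1⟩)
  have hn1 : n ≠ 1 := fun h => hne1 (orderOf_eq_one_iff.1 h)
  obtain ⟨p, hp, hpn⟩ := Nat.exists_prime_and_dvd hn1
  obtain ⟨s, hs⟩ := hpn
  have hspos : 0 < s := Nat.pos_of_ne_zero (by rintro rfl; simp at hs; omega)
  have hcomm' : ⁅b1 ^ s, m1⁆ = ⁅b1, m1⁆ ^ s := commutator_pow_left (by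
    have := hcb1 0
    rwa [cj_zero] at this) s
  have hzp : ∀ (i : ℤ) (x : Γ ⧸ X), (t1 ^ k) ^ i * x * (t1 ^ k) ^ (-i) = cj t1 x ((k : ℤ) * i) := by
    intro i x
    unfold cj
    rw [← zpow_natCast, ← zpow_mul, ← zpow_mul, mul_neg]
  refine ⟨p, Γ ⧸ X, inferInstance, b1 ^ s, m1, t1 ^ k, hp, hΓ.quot X, ?_, ?_, ?_, ?_, ?_⟩
  · intro i hi
    rw [hzp, commutatorElement_eq_one_iff_commute]
    refine Commute.pow_left ?_ s
    exact commutatorElement_eq_one_iff_commute.1 (hcfg1 ((k : ℤ) * i) (by positivity))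
  · intro i
    rw [hzp, hzp, hcomm', commutatorElement_eq_one_iff_commute,
      commutatorElement_eq_one_iff_commute]
    refine ⟨?_, (hcm1 _).pow_left s⟩
    rw [cj_pow]
    exact (hcb1 _).pow_pow s s
  · rw [hcomm', commutatorElement_eq_one_iff_commute]
    exact htk.pow_left s
  · rw [hcomm', ← pow_mul, mul_comm, ← hs, hn, pow_orderOf_eq_one]
  · rw [hcomm']
    intro h
    have h1 := orderOf_dvd_of_pow_eq_one h
    rw [← hn, hs] at h1
    have h2 := Nat.le_of_dvd hspos h1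
    have := hp.one_lt
    nlinarith

end Pool.Agent.TH989.HG
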