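import Pool.Agent.TH563.Z.Kx
import Pool.Agent.TH67.J364
import Pool.Agent.W125.AX.KXR

/-!
# Job 766 (Z-KXR): the lower part of the kernel at real points, to all orders

Adapted from `Pool.Agent.W125.AX.KXR` (starting file).
-/

set_option autoImplicit false

namespace Pool.Agent.TH989.J766

open Finset Filter Topology Metric
open Pool.Agent.W711.HT hiding XX
open Pool.Agent.W719.AX (UX Rl)
open Pool.Agent.W125.AX (T_eq cauchy2 pow_exp real_of_Rl ss_real)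
open Pool.Agent.TH563.Z
open Pool.Agent.TH67.J364 (D1 D2 Lam near hasDerivAt_D1 Lam_pos)
open scoped Real

/-! ### The position of the maximum -/

lemma dz_bounds {η : ℝ} (h : Adm η) : 1 / 4 ≤ dz η ∧ dz η ≤ 3 / 8 := by
  have hpi := Real.pi_pos
  have h1 : 0 < 3 + Real.cosh η := by have := Real.cosh_pos η; linarith
  have h2 := Real.one_le_cosh η
  have h3 : Real.cosh η ≤ 7 := by
    have e : Real.cosh η = 2 * Real.cosh (η / 2) ^ 2 - 1 := by
      have h4 := Real.cosh_two_mul (η / 2)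
      rw [show 2 * (η / 2) = η by ring] at h4
      have h5 := Real.cosh_sq (η / 2)
      rw [h4]; linarith
    have h6 := h.2
    have h7 := Real.one_le_cosh (η / 2)
    rw [e]; nlinarith
  unfold dz
  constructor
  · rw [le_div_iff₀ (by positivity)]
    have h8 : π / 2 ≤ Real.arccos ((1 - Real.cosh η) / (3 + Real.cosh η)) := by
      rw [← Real.arccos_zero]
      exact Real.arccos_le_arccos (div_nonpos_of_nonpos_of_nonneg (by linarith) h1.le)
    linarith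
  · rw [div_le_iff₀ (by positivity)]
    have h8 : Real.arccos ((1 - Real.cosh η) / (3 + Real.cosh η)) ≤ 3 * π / 4 := by
      rw [← Real.arccos_cos (x := 3 * π / 4) (by positivity) (by linarith)]
      apply Real.arccos_le_arccos
      rw [show 3 * π / 4 = π - π / 4 by ring, Real.cos_pi_sub, Real.cos_pi_div_four,
        le_div_iff₀ h1]
      have h9 : (14 / 10 : ℝ) ≤ √2 := Real.le_sqrt_of_sq_le (by norm_num)
      nlinarith
    linarith

/-! ### Reality -/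

lemma rr_real' {δ c : ℝ} {ψ : ℂ} (hc : Complex.cos ψ = (c : ℂ))
    (hpos : ∀ t : ℝ, 0 ≤ t → t ≤ 1 → 0 < 2 * c + 2 * Real.cos (2 * π * δ * t)) :
    (rrF (δ : ℂ) ψ).im = 0 := by
  have h : rrF (δ : ℂ) ψ = ((δ * ∫ t in (0:ℝ)..1,
      Real.log (2 * c + 2 * Real.cos (2 * π * δ * t)) : ℝ) : ℂ) := by
    unfold rrF
    push_cast
    congr 1
    rw [← intervalIntegral.integral_ofReal]
    apply intervalIntegral.integral_congr
    intro t ht
    rw [Set.uIcc_of_le (by norm_num)] at ht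
    simp only
    rw [Complex.ofReal_log (hpos t ht.1 ht.2).le, hc]
    push_cast
    rfl
  rw [h, Complex.ofReal_im]

lemma arg_le {δ t : ℝ} (h1 : 0 ≤ δ) (h2 : δ ≤ 7 / 16) (ht : 0 ≤ t) (ht' : t ≤ 1) :
    0 ≤ 2 * π * δ * t ∧ 2 * π * δ * t ≤ 7 * π / 8 := by
  have hpi := Real.pi_pos
  refine ⟨by positivity, ?_⟩
  have h3 : δ * t ≤ 7 / 16 := by nlinarith
  calc 2 * π * δ * t = 2 * π * (δ * t) := by ring
    _ ≤ 2 * π * (7 / 16) := by gcongr
    _ = _ := by ring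

lemma pos_real {δ ψ t : ℝ} (h1 : 0 ≤ δ) (h2 : δ ≤ 7 / 16) (hψ : |ψ| ≤ 1 / 16) (ht : 0 ≤ t)
    (ht' : t ≤ 1) : 0 < 2 * Real.cos ψ + 2 * Real.cos (2 * π * δ * t) := by
  have hpi := Real.pi_gt_three
  obtain ⟨h3, h4⟩ := arg_le h1 h2 ht ht'
  obtain ⟨h6, h7⟩ := abs_le.1 hψ
  have h5 : 2 * Real.cos ψ + 2 * Real.cos (2 * π * δ * t) =
      4 * (Real.cos ((ψ + 2 * π * δ * t) / 2) * Real.cos ((ψ - 2 * π * δ * t) / 2)) := by
    have := Real.cos_add_cos ψ (2 * π * δ * t)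
    linarith
  rw [h5]
  have h8 : 0 < Real.cos ((ψ + 2 * π * δ * t) / 2) :=
    Real.cos_pos_of_mem_Ioo ⟨by linarith, by linarith⟩
  have h9 : 0 < Real.cos ((ψ - 2 * π * δ * t) / 2) :=
    Real.cos_pos_of_mem_Ioo ⟨by linarith, by linarith⟩
  positivity

lemma pos_imag {δ y t : ℝ} (h1 : 0 ≤ δ) (h2 : δ ≤ 7 / 16) (ht : 0 ≤ t)
    (ht' : t ≤ 1) : 0 < 2 * Real.cosh y + 2 * Real.cos (2 * π * δ * t) := by
  have hpi := Real.pi_gt_three
  obtain ⟨h3, h4⟩ := arg_le h1 h2 ht ht'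
  have h5 : Real.cos π < Real.cos (2 * π * δ * t) :=
    Real.cos_lt_cos_of_nonneg_of_le_pi h3 le_rfl (by linarith)
  rw [Real.cos_pi] at h5
  have := Real.one_le_cosh y
  linarith

/-- a point with real cosine -/
lemma im_zero {z : ℂ} {q : ℝ} (h : Complex.cos (2 * π * z) = (q : ℂ)) (h1 : 0 < z.re)
    (h2 : z.re < 1 / 2) : z.im = 0 := by
  have hpi := Real.pi_pos
  have h7 : (2 * π * z : ℂ) = ((2 * π * z.re : ℝ) : ℂ) + ((2 * π * z.im : ℝ) : ℂ) * Complex.I := by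
    conv_lhs => rw [← Complex.re_add_im z]
    push_cast
    ring
  have h8 : Real.sin (2 * π * z.re) * Real.sinh (2 * π * z.im) = 0 := by
    have h9 := congrArg Complex.im h
    rw [h7, Complex.cos_add_mul_I, ← Complex.ofReal_cos, ← Complex.ofReal_cosh,
      ← Complex.ofReal_sin, ← Complex.ofReal_sinh, Complex.ofReal_im] at h9
    simp only [Complex.sub_im, Complex.mul_im, Complex.mul_re, Complex.ofReal_re,
      Complex.ofReal_im, Complex.I_re, Complex.I_im] at h9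
    linarith
  have h10 : 0 < Real.sin (2 * π * z.re) := by
    apply Real.sin_pos_of_pos_of_lt_pi
    · positivity
    · nlinarith
  rcases mul_eq_zero.1 h8 with h | h
  · linarith
  · rw [Real.sinh_eq_zero] at h
    rcases mul_eq_zero.1 h with h | h
    · linarith
    · exact h

lemma imag_of_Il {η r : ℝ} {z : ℂ} (h : z ∈ Il η r) : z = ((z.im : ℝ) : ℂ) * Complex.I ∧
    |z.im - η| < r ∧ ‖z - η * Complex.I‖ < r := by
  have h1 : z.re = 0 := h.1
  have h2 : |z.im - η| < r := h.2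
  have h3 : z = ((z.im : ℝ) : ℂ) * Complex.I := by
    apply Complex.ext
    · simp [h1]
    · simp
  refine ⟨h3, h2, ?_⟩
  have e : z - η * Complex.I = ((z.im - η : ℝ) : ℂ) * Complex.I := by
    conv_lhs => rw [h3]
    push_cast
    ring
  rw [e, norm_mul, Complex.norm_I, mul_one, Complex.norm_real]
  exact h2

/-! ### The far part -/

lemma cut_le {ε : ℝ} (hε : ε < 1 / 4) (N : ℕ) : cut ε N ≤ N := by
  unfold cut
  rw [Nat.ceil_le]
  have : (0 : ℝ) ≤ N := Nat.cast_nonneg N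
  nlinarith

lemma far_part' {η ε : ℝ} (h5 : FDZ η ε) {r : ℝ} (hr : 0 < r) : ∃ κ τ : ℝ, 0 < κ ∧ 0 < τ ∧
    ∀ᶠ N : ℕ in atTop, ∀ a b : ℝ, |a| ≤ π → |b - η| ≤ τ → ∀ d : ℕ, d < cut ε N →
    ¬ |(d : ℝ) / N - dz η| < r →
    ‖Rp N d a * Rp N d (b * Complex.I) / (Sd N d : ℂ) ^ 4‖ ≤ Real.exp (N * (AA η - 2 * κ)) := by
  obtain ⟨κ, hκ, τ, hτ, h⟩ := h5 r hr
  refine ⟨κ / 2, τ, by positivity, hτ, ?_⟩
  filter_upwards [h] with N hN a b ha hb d hd hdr
  have hr' : r ≤ |(d : ℝ) / N - dz η| := not_lt.1 hdr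
  have k1 := hN d hd hr' a 0 0 b ha (by rw [abs_zero]; exact hτ.le)
    (by rw [abs_zero]; exact Real.pi_pos.le) hb
  simp only [Complex.ofReal_zero, zero_mul, add_zero, zero_add] at k1
  by_cases hS : Sd N d = 0
  · rw [hS]
    simp only [Complex.ofReal_zero, ne_eq, OfNat.ofNat_ne_zero, not_false_eq_true, zero_pow,
      div_zero, norm_zero]
    positivity
  · have hS4 : 0 < Sd N d ^ 4 := by positivity
    rw [norm_div, norm_mul, norm_pow, Complex.norm_real, Real.norm_eq_abs]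
    have e0 : |Sd N d| ^ 4 = Sd N d ^ 4 := by
      rw [show (4 : ℕ) = 2 * 2 by norm_num, pow_mul, pow_mul, sq_abs]
    rw [e0, div_le_iff₀ hS4]
    calc ‖Rp N d a‖ * ‖Rp N d (b * Complex.I)‖ ≤ Sd N d ^ 4 * Real.exp (N * (AA η - κ)) := k1
      _ = Real.exp (N * (AA η - 2 * (κ / 2))) * Sd N d ^ 4 := by
          rw [mul_comm]
          congr 3
          ring

/-- the window is contained in the range of summation -/
lemma window_eq {ε : ℝ} (hε0 : 0 < ε) (hε : ε < 1 / 4) {N : ℕ} (hN : 1 ≤ N) {y r : ℝ}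
    (hy : y + r ≤ 1 / 2) :
    (range (cut ε N)).filter (fun d : ℕ => |(d : ℝ) / N - y| < r) =
      (range N).filter (fun d : ℕ => |(d : ℝ) / N - y| < r) := by
  have hN0 : (0 : ℝ) < N := by exact_mod_cast hN
  ext d
  rw [mem_filter, mem_filter, mem_range, mem_range]
  constructor
  · rintro ⟨h1, h2⟩
    exact ⟨h1.trans_le (cut_le hε N), h2⟩
  · rintro ⟨-, h2⟩
    refine ⟨?_, h2⟩
    unfold cut
    rw [Nat.lt_ceil]
    have h3 : (d : ℝ) / N < 1 / 2 := by linarith [(abs_lt.1 h2).2]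
    rw [div_lt_iff₀ hN0] at h3
    nlinarith

/-- the decomposition of the kernel -/
lemma kx_split' (s : ℂ → ℂ → ℂ) {ε : ℝ} (hε0 : 0 < ε) (hε : ε < 1 / 4) {N : ℕ} (hN : 1 ≤ N)
    (p : ℂ × ℂ) (q : ℂ) (hq : s p.1 p.2 = q) {y r : ℝ} (hy : y + r ≤ 1 / 2) : kxz ε s N p =
    ((Real.sqrt N : ℝ) : ℂ)⁻¹ * Complex.exp (-(N * q)) *
      ∑ d ∈ (range N).filter (fun d : ℕ => |(d : ℝ) / N - y| < r),
        (N : ℂ) ^ 2 * (Rp N d p.1 * Rp N d p.2 / (Sd N d : ℂ) ^ 4) +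
    ((Real.sqrt N) ^ 3 : ℝ) * Complex.exp (-(N * q)) *
      ∑ d ∈ (range (cut ε N)).filter (fun d : ℕ => ¬ |(d : ℝ) / N - y| < r),
        Rp N d p.1 * Rp N d p.2 / (Sd N d : ℂ) ^ 4 := by
  have hN0 : (0 : ℝ) < N := by exact_mod_cast hN
  unfold kxz kerL
  rw [hq, ← sum_filter_add_sum_filter_not (range (cut ε N)) (fun d : ℕ => |(d : ℝ) / N - y| < r),
    mul_add, window_eq hε0 hε hN hy]
  congr 1
  rw [← mul_sum]
  have e1 : (((Real.sqrt N) ^ 3 : ℝ) : ℂ) = ((Real.sqrt N : ℝ) : ℂ)⁻¹ * (N : ℂ) ^ 2 := by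
    have h1 : (Real.sqrt N) ^ 3 = (Real.sqrt N)⁻¹ * (N : ℝ) ^ 2 := by
      have h2 := Real.sq_sqrt hN0.le
      have h3 : 0 < Real.sqrt N := Real.sqrt_pos.2 hN0
      rw [eq_inv_mul_iff_mul_eq₀ h3.ne']
      calc Real.sqrt N * Real.sqrt N ^ 3 = (Real.sqrt N ^ 2) ^ 2 := by ring
        _ = (N : ℝ) ^ 2 := by rw [h2]
    rw [h1]
    push_cast
    rfl
  rw [e1]
  ring

/-- bound of the far part of the kernel -/
lemma kx_far' {κ A ε : ℝ} (hε : ε < 1 / 4) {N : ℕ} (hN : 1 ≤ N) {q : ℂ} {y r : ℝ}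
    (hq : A - κ ≤ q.re)
    (f : ℕ → ℂ) (hf : ∀ d : ℕ, d < cut ε N → ¬ |(d : ℝ) / N - y| < r →
      ‖f d‖ ≤ Real.exp (N * (A - 2 * κ))) :
    ‖((Real.sqrt N) ^ 3 : ℝ) * Complex.exp (-(N * q)) *
      ∑ d ∈ (range (cut ε N)).filter (fun d : ℕ => ¬ |(d : ℝ) / N - y| < r), f d‖ ≤
      (N : ℝ) ^ 3 * Real.exp (-(N * κ)) := by
  have hN0 : (0 : ℝ) < N := by exact_mod_cast hN
  have hN1 : (1 : ℝ) ≤ N := by exact_mod_cast hN
  have h1 : ‖∑ d ∈ (range (cut ε N)).filter (fun d : ℕ => ¬ |(d : ℝ) / N - y| < r), f d‖ ≤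
      N * Real.exp (N * (A - 2 * κ)) := by
    refine (norm_sum_le _ _).trans ?_
    have h2 : ∑ d ∈ (range (cut ε N)).filter (fun d : ℕ => ¬ |(d : ℝ) / N - y| < r), ‖f d‖ ≤
        (((range (cut ε N)).filter (fun d : ℕ => ¬ |(d : ℝ) / N - y| < r)).card : ℝ) *
          Real.exp (N * (A - 2 * κ)) := by
      rw [← nsmul_eq_mul]
      refine sum_le_card_nsmul _ _ _ fun d hd => ?_
      rw [mem_filter, mem_range] at hd
      exact hf d hd.1 hd.2
    refine h2.trans (mul_le_mul_of_nonneg_right ?_ (Real.exp_pos _).le)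
    have : ((range (cut ε N)).filter (fun d : ℕ => ¬ |(d : ℝ) / N - y| < r)).card ≤ N := by
      refine (card_filter_le _ _).trans ?_
      rw [card_range]
      exact cut_le hε N
    exact_mod_cast this
  have h3 : (Real.sqrt N) ^ 3 ≤ (N : ℝ) ^ 2 := by
    have h4 := Real.sq_sqrt hN0.le
    have h5 : 1 ≤ Real.sqrt N := by
      rw [show (1 : ℝ) = Real.sqrt 1 by simp]
      exact Real.sqrt_le_sqrt hN1
    calc (Real.sqrt N) ^ 3 ≤ (Real.sqrt N) ^ 4 := pow_le_pow_right₀ h5 (by norm_num)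
      _ = (Real.sqrt N ^ 2) ^ 2 := by ring
      _ = (N : ℝ) ^ 2 := by rw [h4]
  have h6 : ‖Complex.exp (-(N * q))‖ ≤ Real.exp (-(N * (A - κ))) := by
    rw [Complex.norm_exp]
    apply Real.exp_le_exp.2
    have : (-(N * q) : ℂ).re = -(N * q.re) := by
      rw [Complex.neg_re, ← Complex.ofReal_natCast, Complex.re_ofReal_mul]
    rw [this]
    have := mul_le_mul_of_nonneg_left hq hN0.le
    linarith
  rw [norm_mul, norm_mul, Complex.norm_real, Real.norm_eq_abs, abs_of_nonneg (by positivity)]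
  calc (Real.sqrt N) ^ 3 * ‖Complex.exp (-(N * q))‖ * _ ≤
      (N : ℝ) ^ 2 * Real.exp (-(N * (A - κ))) * (N * Real.exp (N * (A - 2 * κ))) := by
        gcongr
    _ = (N : ℝ) ^ 3 * (Real.exp (-(N * (A - κ))) * Real.exp (N * (A - 2 * κ))) := by
        ring
    _ = _ := by
        rw [← Real.exp_add]
        congr 2
        ring

/-- the phase -/
noncomputable def Th (p : ℂ × ℂ) (δ : ℂ) : ℂ := rrF δ p.1 + rrF δ p.2 - 4 * ssF δ

end Pool.Agent.TH989.J766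

namespace Pool.Agent.TH563.Z

open Finset Filter Topology Metric
open Pool.Agent.W711.HT hiding XX
open Pool.Agent.W719.AX (UX Rl)
open Pool.Agent.W125.AX (T_eq cauchy2 pow_exp real_of_Rl ss_real)
open Pool.Agent.TH67.J364 (D1 D2 Lam near hasDerivAt_D1 Lam_pos)
open Pool.Agent.TH989.J766
open scoped Real

theorem kxrz (h1 : S_EMRZ) (h2 : S_EMSZ) (h3 : S_WINZ) (h4 : S_RRDZ) : S_KXRZ := by
  intro η ε ρ τ ρ' τ' κ c s dl hadm hFD H
  obtain ⟨y1, y2⟩ := dz_bounds hadm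
  obtain ⟨ρR, hρR, hρR', u, u1, u2, u3⟩ := h1 η hadm
  obtain ⟨ρS, hρS, hρS', v, v1, v2, v3⟩ := h2 (dz η) y1 y2
  obtain ⟨ρD, hρD, dR, dR', dS, dd, -⟩ := h4 η hadm
  obtain ⟨Rn, hRn, hnear⟩ := near η
  obtain ⟨r', C', H', hr1, hr2⟩ := H.sdz
  have hL := Lam_pos η
  have hε := H.hε
  have hρ := H.hρ
  have hτ' := H.hτ'
  have hr' := H'.hr
  have hC' := H'.hC
  have hpi := Real.pi_gt_three
  obtain ⟨r0, hr0, r16, rR, rS, rD, rN⟩ : ∃ r0 : ℝ, 0 < r0 ∧ r0 ≤ 1 / 16 ∧ r0 ≤ ρR ∧ r0 ≤ ρS ∧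
      r0 ≤ ρD / 2 ∧ r0 ≤ Rn :=
    ⟨min (min ρR ρS) (min (ρD / 2) (min (1 / 16) Rn)), by positivity,
      (min_le_right _ _).trans ((min_le_right _ _).trans (min_le_left _ _)),
      (min_le_left _ _).trans (min_le_left _ _),
      (min_le_left _ _).trans (min_le_right _ _), (min_le_right _ _).trans (min_le_left _ _),
      (min_le_right _ _).trans ((min_le_right _ _).trans (min_le_right _ _))⟩
  obtain ⟨ρ1, hρ1, g1, g2, g3, g4, g5⟩ : ∃ ρ1 : ℝ, 0 < ρ1 ∧ ρ1 ≤ ρ ∧ ρ1 ≤ τ' ∧ ρ1 ≤ r0 ∧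
      ρ1 ≤ r' ∧ 8 * C' * ρ1 ≤ r0 := by
    refine ⟨min (min ρ τ') (min (min r0 r') (r0 / (8 * C'))), ?_, ?_, ?_, ?_, ?_, ?_⟩
    · have := hρ.1; have := hτ'.1; have := hr'.1; positivity
    · exact (min_le_left _ _).trans (min_le_left _ _)
    · exact (min_le_left _ _).trans (min_le_right _ _)
    · exact (min_le_right _ _).trans ((min_le_left _ _).trans (min_le_left _ _))
    · exact (min_le_right _ _).trans ((min_le_left _ _).trans (min_le_right _ _))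
    · have h : min (min ρ τ') (min (min r0 r') (r0 / (8 * C'))) ≤ r0 / (8 * C') :=
        (min_le_right _ _).trans (min_le_right _ _)
      rw [le_div_iff₀ (by positivity)] at h
      linarith
  -- bounds of the phase
  obtain ⟨BR, hBR⟩ := ((isCompact_closedBall (dz η : ℂ) (ρD / 2)).prod
    (isCompact_closedBall (0 : ℂ) (ρD / 2))).exists_bound_of_continuousOn
    (dR.continuousOn.mono (Set.prod_mono (closedBall_subset_ball (by linarith))
      (closedBall_subset_ball (by linarith))))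
  obtain ⟨BR', hBR'⟩ := ((isCompact_closedBall (dz η : ℂ) (ρD / 2)).prod
    (isCompact_closedBall (η * Complex.I : ℂ) (ρD / 2))).exists_bound_of_continuousOn
    (dR'.continuousOn.mono (Set.prod_mono (closedBall_subset_ball (by linarith))
      (closedBall_subset_ball (by linarith))))
  obtain ⟨BS, hBS⟩ := (isCompact_closedBall (dz η : ℂ) (ρD / 2)).exists_bound_of_continuousOn
    (dS.continuousOn.mono (closedBall_subset_ball (by linarith)))
  obtain ⟨S, hS⟩ : ∃ S : Set (ℂ × ℂ), S = Rl ρ1 ×ˢ Il η ρ1 := ⟨_, rfl⟩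
  have hmem : ∀ p ∈ S, (p.1 = ((p.1.re : ℝ) : ℂ) ∧ |p.1.re| < ρ1 ∧ ‖p.1‖ < ρ1) ∧
      (p.2 = ((p.2.im : ℝ) : ℂ) * Complex.I ∧ |p.2.im - η| < ρ1 ∧
        ‖p.2 - η * Complex.I‖ < ρ1) := by
    intro p hp
    rw [hS] at hp
    exact ⟨real_of_Rl hp.1, imag_of_Il hp.2⟩
  have hball : ∀ (r : ℝ), r0 ≤ r → ∀ z : ℂ, ‖z‖ < ρ1 → z ∈ ball (0 : ℂ) r := by
    intro r hr z hz
    rw [mem_ball_zero_iff]
    linarith
  have hball' : ∀ (r : ℝ), r0 ≤ r → ∀ z : ℂ, ‖z - η * Complex.I‖ < ρ1 →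
      z ∈ ball (η * Complex.I : ℂ) r := by
    intro r hr z hz
    rw [mem_ball, dist_eq_norm]
    linarith
  have hRc : ∀ p ∈ S, p.1 ∈ Rc r' r' ∧ p.2 ∈ Rz η r' r' := by
    intro p hp
    have hp' := hp
    rw [hS] at hp'
    obtain ⟨⟨a1, a2, a3⟩, b1, b2, b3⟩ := hmem p hp
    refine ⟨⟨by linarith, ?_⟩, ⟨?_, by linarith⟩⟩
    · have : p.1.im = 0 := hp'.1.2
      rw [this, abs_zero]; exact hr'.1
    · have : p.2.re = 0 := hp'.2.1
      rw [this, abs_zero]; exact hr'.1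
  have hder : ∀ p ∈ S, ∀ δ ∈ ball (dz η : ℂ) ρD, HasDerivAt (Th p) (D1 p.1 p.2 δ) δ := by
    intro p hp δ hδ
    obtain ⟨⟨a1, a2, a3⟩, b1, b2, b3⟩ := hmem p hp
    have k1 := ((dd δ hδ).1 p.1 (Or.inl (hball ρD (by linarith) _ a3))).1
    have k2 := ((dd δ hδ).1 p.2 (Or.inr (hball' ρD (by linarith) _ b3))).1
    have k3 := (dd δ hδ).2
    exact (k1.add k2).sub (k3.const_mul 4)
  have hrb : ball (dz η : ℂ) r0 ⊆ ball (dz η : ℂ) ρD := ball_subset_ball (by linarith)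
  have hThd : ∀ p ∈ S, DifferentiableOn ℂ (Th p) (ball (dz η : ℂ) r0) := fun p hp δ hδ =>
    ((hder p hp δ (hrb hδ)).differentiableAt).differentiableWithinAt
  have hThB : ∀ p ∈ S, ∀ δ ∈ ball (dz η : ℂ) r0, ‖Th p δ‖ ≤ BR + BR' + 4 * BS := by
    intro p hp δ hδ
    obtain ⟨⟨a1, a2, a3⟩, b1, b2, b3⟩ := hmem p hp
    have hδ' : δ ∈ closedBall (dz η : ℂ) (ρD / 2) :=
      closedBall_subset_closedBall rD (ball_subset_closedBall hδ)
    have m1 : p.1 ∈ closedBall (0 : ℂ) (ρD / 2) := by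
      rw [mem_closedBall_zero_iff]; linarith
    have m2 : p.2 ∈ closedBall (η * Complex.I : ℂ) (ρD / 2) := by
      rw [mem_closedBall, dist_eq_norm]; linarith
    have k1 := hBR (δ, p.1) ⟨hδ', m1⟩
    have k2 := hBR' (δ, p.2) ⟨hδ', m2⟩
    have k3 := hBS δ hδ'
    simp only at k1 k2
    unfold Th
    calc ‖rrF δ p.1 + rrF δ p.2 - 4 * ssF δ‖ ≤ ‖rrF δ p.1 + rrF δ p.2‖ + ‖4 * ssF δ‖ :=
          norm_sub_le _ _
      _ ≤ ‖rrF δ p.1‖ + ‖rrF δ p.2‖ + 4 * ‖ssF δ‖ := by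
          refine add_le_add (norm_add_le _ _) ?_
          rw [norm_mul]
          norm_num
      _ ≤ _ := by linarith
  have hreal : ∀ x : ℝ, ‖(x : ℂ) - (dz η : ℂ)‖ = |x - dz η| := by
    intro x
    rw [← Complex.ofReal_sub, Complex.norm_real, Real.norm_eq_abs]
  -- the critical point
  obtain ⟨δs, hδs⟩ : ∃ δs : ℂ × ℂ → ℝ, δs = fun p => (dl p.1 p.2).re := ⟨_, rfl⟩
  have hcrit : ∀ p ∈ S, dl p.1 p.2 = (δs p : ℂ) ∧ |δs p - dz η| ≤ r0 / 4 ∧
      D1 p.1 p.2 (δs p) = 0 := by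
    intro p hp
    obtain ⟨⟨a1, a2, a3⟩, b1, b2, b3⟩ := hmem p hp
    obtain ⟨m1, m2⟩ := hRc p hp
    have k := H'.dlip _ m1 _ m2
    have k' : ‖dl p.1 p.2 - ((dz η : ℝ) : ℂ)‖ ≤ r0 / 4 := by
      refine k.trans ?_
      have : C' * (‖p.1‖ + ‖p.2 - η * Complex.I‖) ≤ C' * (2 * ρ1) :=
        mul_le_mul_of_nonneg_left (by linarith) hC'.le
      linarith
    have kre : |(dl p.1 p.2).re - dz η| ≤ r0 / 4 := by
      have h := (Complex.abs_re_le_norm (dl p.1 p.2 - ((dz η : ℝ) : ℂ))).trans k'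
      rwa [Complex.sub_re, Complex.ofReal_re] at h
    obtain ⟨k1, k2⟩ := abs_le.1 kre
    have hcos1 : Complex.cos p.1 = ((Real.cos p.1.re : ℝ) : ℂ) := by
      conv_lhs => rw [a1]
      rw [Complex.ofReal_cos]
    have hcos2 : Complex.cos p.2 = ((Real.cosh p.2.im : ℝ) : ℂ) := by
      conv_lhs => rw [b1]
      rw [Complex.cos_mul_I, Complex.ofReal_cosh]
    have him : (dl p.1 p.2).im = 0 := by
      refine im_zero (q := (1 - Real.cos p.1.re * Real.cosh p.2.im) /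
        (2 + Real.cos p.1.re + Real.cosh p.2.im)) ?_ (by linarith) (by linarith)
      rw [H'.dcos _ m1 _ m2, hcos1, hcos2]
      push_cast
      rfl
    have hx : dl p.1 p.2 = (δs p : ℂ) := by
      rw [hδs]
      apply Complex.ext
      · rw [Complex.ofReal_re]
      · rw [Complex.ofReal_im]; exact him
    refine ⟨hx, ?_, ?_⟩
    · rw [hδs]; exact kre
    · rw [← hx]
      exact sub_eq_zero.2 (H'.dcrit _ m1 _ m2)
  have hdd : ∀ p ∈ S, ∀ x : ℝ, |x - dz η| < r0 →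
      (deriv (deriv (Th p)) (x : ℂ)).re ≤ -Lam η := by
    intro p hp x hx
    obtain ⟨⟨a1, a2, a3⟩, b1, b2, b3⟩ := hmem p hp
    have hxb : (x : ℂ) ∈ ball (dz η : ℂ) ρD := by
      apply hrb
      rw [mem_ball, dist_eq_norm, hreal]
      exact hx
    have e1 : deriv (Th p) =ᶠ[𝓝 (x : ℂ)] D1 p.1 p.2 :=
      Filter.eventuallyEq_of_mem (isOpen_ball.mem_nhds hxb) fun y hy => (hder p hp y hy).deriv
    rw [e1.deriv_eq]
    obtain ⟨n1, n2, n3, n4⟩ := hnear (x : ℂ) p.1 p.2 (by rw [hreal]; linarith) (by linarith)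
      (by linarith)
    rw [(hasDerivAt_D1 n1 n2 n3).deriv]
    have n5 := (Complex.abs_re_le_norm _).trans n4
    have e : (D2 ((x : ℂ), p.1, p.2) + 2 * (Lam η : ℂ)).re =
        (D2 ((x : ℂ), p.1, p.2)).re + 2 * Lam η := by
      rw [Complex.add_re]
      congr 1
      simp
    rw [e] at n5
    linarith [(abs_le.1 n5).2]
  -- the window
  obtain ⟨w, hw⟩ : ∃ w : ℕ → (ℂ × ℂ) × ℂ → ℂ, w = fun k x =>
    u k x.2 x.1.1 + u k x.2 x.1.2 - 2 * v k x.2 := ⟨_, rfl⟩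
  obtain ⟨T, hT⟩ : ∃ T : ℕ → ℕ → ℂ × ℂ → ℂ, T = fun (N d : ℕ) (p : ℂ × ℂ) =>
    (N : ℂ) ^ 2 * (Rp N d p.1 * Rp N d p.2 / (Sd N d : ℂ) ^ 4) := ⟨_, rfl⟩
  have hwB : ∀ k, ∃ B' : ℝ, ∀ p ∈ S, ∀ δ ∈ ball (dz η : ℂ) r0, ‖w k (p, δ)‖ ≤ B' := by
    intro k
    obtain ⟨B1, hB1⟩ := u2 k
    obtain ⟨B2, hB2⟩ := v2 k
    refine ⟨B1 + B1 + 2 * B2, fun p hp δ hδ => ?_⟩
    obtain ⟨⟨a1, a2, a3⟩, b1, b2, b3⟩ := hmem p hp
    have k1 := hB1 δ (ball_subset_ball rR hδ) p.1 (Or.inl (hball _ rR _ a3))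
    have k2 := hB1 δ (ball_subset_ball rR hδ) p.2 (Or.inr (hball' _ rR _ b3))
    have k3 := hB2 δ (ball_subset_ball rS hδ)
    rw [hw]
    simp only
    calc ‖u k δ p.1 + u k δ p.2 - 2 * v k δ‖ ≤ ‖u k δ p.1 + u k δ p.2‖ + ‖2 * v k δ‖ :=
          norm_sub_le _ _
      _ ≤ ‖u k δ p.1‖ + ‖u k δ p.2‖ + 2 * ‖v k δ‖ := by
          refine add_le_add (norm_add_le _ _) ?_
          rw [norm_mul]
          norm_num
      _ ≤ _ := by linarith
  obtain ⟨r, hr, hrr, A, hA, hA0⟩ := h3 (dz η) y1 y2 r0 (Lam η) (BR + BR' + 4 * BS) hr0 r16 hL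
    (ℂ × ℂ) S Th δs w T
    (by
      intro p hp
      obtain ⟨⟨a1, a2, a3⟩, b1, b2, b3⟩ := hmem p hp
      obtain ⟨c1, c2, c3⟩ := hcrit p hp
      refine ⟨hThd p hp, hThB p hp, c2, ?_, ?_, hdd p hp⟩
      · have hxb : ((δs p : ℝ) : ℂ) ∈ ball (dz η : ℂ) ρD := by
          apply hrb
          rw [mem_ball, dist_eq_norm, hreal]
          linarith
        rw [(hder p hp _ hxb).deriv]
        exact c3
      · intro x hx
        obtain ⟨x1, x2⟩ := abs_lt.1 hx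
        unfold Th
        have hx0 : 0 ≤ x := by linarith
        have hx1 : x ≤ 7 / 16 := by linarith
        have k1 : (rrF (x : ℂ) p.1).im = 0 := by
          refine rr_real' (c := Real.cos p.1.re) ?_
            fun t ht ht' => pos_real hx0 hx1 (by linarith) ht ht'
          conv_lhs => rw [a1]
          rw [Complex.ofReal_cos]
        have k2 : (rrF (x : ℂ) p.2).im = 0 := by
          refine rr_real' (c := Real.cosh p.2.im) ?_
            fun t ht ht' => pos_imag hx0 hx1 ht ht'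
          conv_lhs => rw [b1]
          rw [Complex.cos_mul_I, Complex.ofReal_cosh]
        have k3 := ss_real (δ := x) hx0 (by linarith)
        rw [Complex.sub_im, Complex.add_im, k1, k2, Complex.mul_im, k3]
        simp)
    (by
      intro k p hp
      obtain ⟨⟨a1, a2, a3⟩, b1, b2, b3⟩ := hmem p hp
      rw [hw]
      exact (((u1 k p.1 (Or.inl (hball _ rR _ a3))).mono (ball_subset_ball rR)).add
        ((u1 k p.2 (Or.inr (hball' _ rR _ b3))).mono (ball_subset_ball rR))).sub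
        (((v1 k).mono (ball_subset_ball rS)).const_mul 2))
    hwB
    (by
      intro K
      obtain ⟨Cu, hu⟩ := u3 K
      obtain ⟨Cv, hv⟩ := v3 K
      refine ⟨2 * Cu + 2 * Cv, ?_⟩
      filter_upwards [hu, hv, eventually_ge_atTop 1] with N hu hv hN d hd p hp
      obtain ⟨⟨a1, a2, a3⟩, b1, b2, b3⟩ := hmem p hp
      obtain ⟨e1, f1, k1⟩ := hu d (hd.trans_le rR) p.1 (Or.inl (hball _ rR _ a3))
      obtain ⟨e2, f2, k2⟩ := hu d (hd.trans_le rR) p.2 (Or.inr (hball' _ rR _ b3))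
      obtain ⟨e3, f3, k3⟩ := hv d (hd.trans_le rS)
      refine ⟨e1 + e2 - 2 * e3, ?_, ?_⟩
      · calc ‖e1 + e2 - 2 * e3‖ ≤ ‖e1 + e2‖ + ‖2 * e3‖ := norm_sub_le _ _
          _ ≤ ‖e1‖ + ‖e2‖ + 2 * ‖e3‖ := by
              refine add_le_add (norm_add_le _ _) ?_
              rw [norm_mul]
              norm_num
          _ ≤ Cu / (N : ℝ) ^ K + Cu / (N : ℝ) ^ K + 2 * (Cv / (N : ℝ) ^ K) := by linarith
          _ = _ := by ring
      · rw [hT]
        simp only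
        rw [T_eq hN k1 k2 k3, hw]
        unfold Th
        congr 2
        congr 1
        simp only [sub_div, add_div, sum_sub_distrib, sum_add_distrib, mul_div_assoc, mul_sum])
  obtain ⟨κf, τf, hκf, hτf, hfar⟩ := far_part' hFD hr
  obtain ⟨ρ2, hρ2, l1, l2, l3⟩ : ∃ ρ2 : ℝ, 0 < ρ2 ∧ ρ2 ≤ ρ1 ∧ ρ2 ≤ τf ∧ 2 * C' * ρ2 ≤ κf := by
    refine ⟨min ρ1 (min τf (κf / (2 * C'))), by positivity, min_le_left _ _,
      (min_le_right _ _).trans (min_le_left _ _), ?_⟩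
    have h : min ρ1 (min τf (κf / (2 * C'))) ≤ κf / (2 * C') :=
      (min_le_right _ _).trans (min_le_right _ _)
    rw [le_div_iff₀ (by positivity)] at h
    linarith
  have hSS : Rl ρ2 ×ˢ Il η ρ2 ⊆ S := by
    rw [hS]
    intro p hp
    exact ⟨⟨lt_of_lt_of_le hp.1.1 l1, hp.1.2⟩, ⟨hp.2.1, lt_of_lt_of_le hp.2.2 l1⟩⟩
  obtain ⟨B', hB'⟩ := hwB 0
  obtain ⟨M, hM, hM0⟩ : ∃ M : ℝ, 32 * (BR + BR' + 4 * BS) / r0 ^ 2 ≤ M ∧ 0 < M :=
    ⟨max (32 * (BR + BR' + 4 * BS) / r0 ^ 2) 1, le_max_left _ _,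
      lt_of_lt_of_le one_pos (le_max_right _ _)⟩
  refine ⟨ρ2, hρ2, l1.trans g1, l1.trans g2, A,
    Real.exp (-B') * (2 * π / M) ^ (1 / 2 : ℝ), by positivity, ?_, ?_⟩
  · intro K
    obtain ⟨C, hC⟩ := hA K
    refine ⟨C + 1, ?_⟩
    filter_upwards [hC, hfar, pow_exp hκf K, eventually_ge_atTop 1] with N n1 n2 n3 n4 p hp
    have hpS := hSS hp
    obtain ⟨⟨a1, a2, a3⟩, b1, b2, b3⟩ := hmem p hpS
    have a4 := (real_of_Rl hp.1).2.2
    have b4 := (imag_of_Il hp.2).2.2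
    have b5 := (imag_of_Il hp.2).2.1
    obtain ⟨c1, c2, c3⟩ := hcrit p hpS
    obtain ⟨m1, m2⟩ := hRc p hpS
    have hq : s p.1 p.2 = Th p (δs p) := by
      rw [H'.scrit p.1 m1 p.2 m2, c1]
      rfl
    rw [kx_split' s hε.1 hε.2 n4 p _ hq (y := dz η) (r := r) (by linarith)]
    have k1 := n1 p hpS
    rw [hT] at k1
    simp only at k1
    have hre : AA η - κf ≤ (Th p (δs p)).re := by
      rw [← hq]
      have k := H'.lip _ m1 _ m2
      have k3 : ‖s p.1 p.2 - ((AA η : ℝ) : ℂ)‖ ≤ κf := by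
        refine k.trans ?_
        have : C' * (‖p.1‖ + ‖p.2 - η * Complex.I‖) ≤ C' * (2 * ρ2) :=
          mul_le_mul_of_nonneg_left (by linarith) hC'.le
        linarith
      have k2 := (Complex.abs_re_le_norm (s p.1 p.2 - ((AA η : ℝ) : ℂ))).trans k3
      rw [Complex.sub_re, Complex.ofReal_re] at k2
      linarith [(abs_le.1 k2).1]
    have k2 := kx_far' (κ := κf) (A := AA η) hε.2 n4 (y := dz η) (r := r) hre
      (fun d => Rp N d p.1 * Rp N d p.2 / (Sd N d : ℂ) ^ 4) (by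
        intro d hd hdr
        have := n2 p.1.re p.2.im (by linarith) (by linarith) d hd hdr
        rw [← a1, ← b1] at this
        exact this)
    have hN0 : (0 : ℝ) < N := by exact_mod_cast n4
    have e : (C + 1) / (N : ℝ) ^ K = C / (N : ℝ) ^ K + 1 / (N : ℝ) ^ K := by ring
    rw [e]
    rw [add_sub_right_comm]
    refine (norm_add_le _ _).trans (add_le_add k1 (k2.trans n3))
  · intro p hp
    have hpS := hSS hp
    obtain ⟨c1, c2, c3⟩ := hcrit p hpS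
    rw [hA0 p hpS, norm_mul]
    have hδb : ((δs p : ℝ) : ℂ) ∈ ball (dz η : ℂ) r0 := by
      rw [mem_ball, dist_eq_norm, hreal]
      linarith
    have k1 : Real.exp (-B') ≤ ‖Complex.exp (w 0 (p, (δs p : ℂ)))‖ := by
      rw [Complex.norm_exp]
      apply Real.exp_le_exp.2
      have := (Complex.abs_re_le_norm _).trans (hB' p hpS _ hδb)
      linarith [(abs_le.1 this).1]
    have k2 := cauchy2 (z := ((δs p : ℝ) : ℂ)) hr0 (hThd p hpS) (hThB p hpS) (by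
      rw [hreal]
      exact c2)
    have k3 := hdd p hpS (δs p) (by linarith)
    set D := deriv (deriv (Th p)) ((δs p : ℝ) : ℂ) with hD
    have hD0 : 0 < ‖D‖ := by
      have := (Complex.abs_re_le_norm D)
      have h6 : Lam η ≤ |D.re| := by rw [le_abs]; right; linarith
      linarith
    have k4 : (2 * π / M) ^ (1 / 2 : ℝ) ≤ ‖(2 * (π : ℂ) / (-D)) ^ (1 / 2 : ℂ)‖ := by
      have e : (1 / 2 : ℂ) = (((1 / 2 : ℝ)) : ℂ) := by push_cast; rfl
      rw [e, Complex.norm_cpow_real, norm_div, norm_neg, norm_mul, Complex.norm_real]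
      have e2 : ‖(2 : ℂ)‖ * ‖π‖ = 2 * π := by
        rw [Real.norm_eq_abs, abs_of_pos (by linarith)]
        norm_num
      rw [e2]
      apply Real.rpow_le_rpow (by positivity) _ (by norm_num)
      apply div_le_div_of_nonneg_left (by positivity) hD0 (k2.trans hM)
    exact mul_le_mul k1 k4 (by positivity) (norm_nonneg _)

end Pool.Agent.TH563.Z
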