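import Pool.Agent.TH714.TD.Defs

/-!
# Images of quasi-convex subgroups in large quotients (job 2156)
-/

set_option autoImplicit false

namespace Pool.Agent.TH989.J2156

open Pool.Agent.TH64 Pool.Agent.TH714.TD

theorem quo_QC {G : Type*} [Group G] {H : Hyp G} {x : G} (A : Ax H x) (L : Subgroup G) (k0 : ℕ)
    (hL : H.QC (L : Set G) k0) (hcl : Clos A L) : ∃ N0 : ℕ, ∀ N ≥ N0,
    ∀ (M : Subgroup G) [M.Normal], Fill A N M → ∀ H' : Hyp (G ⧸ M),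
      (∀ q, H'.len q = H.qlen M q) →
      H'.QC ((L.map (QuotientGroup.mk' M) : Subgroup (G ⧸ M)) : Set (G ⧸ M)) k0 := by
  obtain ⟨cp, N1, hp⟩ := pmin A
  obtain ⟨N2, h2⟩ := hcl (2 * cp)
  refine ⟨N1 + N2, ?_⟩
  intro N hN M hM hF H' hH' abar ha bbar hb pbar hbet
  have hd : ∀ u v, H'.d u v = H.qd M u v := fun u v => hH' _
  rw [hd, hd, hd] at hbet
  obtain ⟨a, haL, rfl⟩ := ha
  obtain ⟨b0, hbL, rfl⟩ := hb
  simp only [QuotientGroup.mk'_apply] at hbet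
  obtain ⟨p, hpp, hap⟩ := H.qd_lift M a pbar
  obtain ⟨b, hbb, hpb⟩ := H.qd_lift M p (b0 : G ⧸ M)
  rw [hpp] at hpb
  have hab1 := H.d_tri a p b
  have hab2 := H.qd_le M a b
  rw [hbb] at hab2
  have hmin : ∀ m ∈ M, H.d a b ≤ H.d a (m * b) := by
    intro m hm
    have h3 := H.qd_le M a (m * b)
    rw [Hyp.coe_mul_left M hm, hbb] at h3
    omega
  have hs := hp N (by omega) M hF a b hmin
  have hmem : a⁻¹ * b ∈ L := by
    refine h2 N (by omega) M hF (a⁻¹ * b) ?_ ?_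
    · intro u
      have h3 := hs (a * u)
      have h4 := A.s_mul a u 1 (a⁻¹ * b)
      rw [mul_one, mul_inv_cancel_left] at h4
      rw [← h4]
      push_cast
      omega
    · refine ⟨a⁻¹ * b0, L.mul_mem (L.inv_mem haL) hbL, ?_⟩
      have h3 := QuotientGroup.eq.1 hbb.symm
      rwa [show (a⁻¹ * b0)⁻¹ * (a⁻¹ * b) = b0⁻¹ * b by group]
  have hbL' : b ∈ L := by
    have := L.mul_mem haL hmem
    rwa [mul_inv_cancel_left] at this
  obtain ⟨q, hqL, hq⟩ := hL a haL b hbL' p (by omega)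
  refine ⟨(q : G ⧸ M), ⟨q, hqL, rfl⟩, ?_⟩
  rw [hd, ← hpp]
  exact (H.qd_le M p q).trans hq

theorem quo_out {G : Type*} [Group G] {H : Hyp G} {x : G} (A : Ax H x) (L : Subgroup G)
    (hcl : Clos A L) (Z : Set G) (hZ : Z.Finite) (hZL : ∀ z ∈ Z, z ∉ L) : ∃ N0 : ℕ, ∀ N ≥ N0,
    ∀ (M : Subgroup G) [M.Normal], Fill A N M →
      ∀ z ∈ Z, (z : G ⧸ M) ∉ L.map (QuotientGroup.mk' M) := by
  obtain ⟨m, hm⟩ : ∃ m : ℕ, ∀ z ∈ Z, H.len z ≤ m := by
    obtain ⟨m, hm⟩ := (hZ.image H.len).bddAbove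
    exact ⟨m, fun z hz => hm ⟨z, hz, rfl⟩⟩
  obtain ⟨N0, h0⟩ := hcl (4 * (A.c * m + A.c * A.c + A.c))
  refine ⟨N0, ?_⟩
  intro N hN M hM hF z hz hzL
  obtain ⟨l, hl, hlz⟩ := hzL
  refine hZL z hz (h0 N hN M hF z ?_ ⟨l, hl, ?_⟩)
  · intro u
    have h1 := A.lip_s u 1 z
    rw [H.d_one] at h1
    have h2 : (A.c : ℤ) * (H.len z : ℤ) ≤ A.c * m :=
      mul_le_mul_of_nonneg_left (by exact_mod_cast hm z hz) (by positivity)
    push_cast
    have h3 : (0 : ℤ) ≤ N := by positivity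
    linarith
  · exact QuotientGroup.eq.1 hlz

end Pool.Agent.TH989.J2156
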