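import Pool.Agent.TH989.FI_GIBBS

/-!
# Integrability of the mutual information integrand, splitting of the domain
(project of helper722, MP_572a3e_an)
-/

set_option autoImplicit false

namespace Pool.Agent.TH989.FI

open MeasureTheory Set Filter Pool.Agent.TH722.FI
open scoped Topology ENNReal

variable {X Y : Type*} [MeasurableSpace X] [MeasurableSpace Y] {μ : Measure X} [IsProbabilityMeasure μ]
  {α β α' β' γ κ : Type*}

lemma summable_cells {a : X → α} (ha : ∀ c, MeasurableSet {x | a x = c})
    (hc : (range a).Countable) : Summable fun c => μ.real {x | a x = c} := by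
  have : Countable (range a) := hc.to_subtype
  have hinj : Function.Injective ((↑) : range a → α) := Subtype.val_injective
  refine (hinj.summable_iff (fun c hc => ?_)).1 ?_
  · have : {x | a x = c} = ∅ := by
      ext x
      simp only [mem_ofPred_eq, mem_empty_iff_false, iff_false]
      rintro rfl
      exact hc ⟨⟨a x, x, rfl⟩, rfl⟩
    rw [this, measureReal_empty]
  · have h1 : ∑' c : range a, μ {x | a x = c.1} = μ (⋃ c : range a, {x | a x = c.1}) := by
      refine (measure_iUnion (f := fun c : range a => {x | a x = c.1}) (fun c d hcd => ?_)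
        fun c => ha c.1).symm
      rw [Function.onFun, Set.disjoint_left]
      intro x hx hx'
      exact hcd (Subtype.ext (hx.symm.trans hx'))
    exact ENNReal.summable_toReal (h1 ▸ measure_ne_top _ _)

lemma jfun_integrable (D : Set X) (hD : MeasurableSet D) {a : X → α} {b : X → β}
    (ha : IsLab μ a) (hb : IsLab μ b) : IntegrableOn (jfun μ D a b) D μ := by
  let m : X → α × β := fun x => (a x, b x)
  have hm : ∀ c, MeasurableSet {x | m x = c} := by
    intro c
    have : {x | m x = c} = {x | a x = c.1} ∩ {x | b x = c.2} := by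
      ext x
      simp only [mem_ofPred_eq, mem_inter_iff, m, Prod.ext_iff]
    rw [this]
    exact (ha.meas _).inter (hb.meas _)
  have hc : (range m).Countable := by
    refine (ha.cnt.prod hb.cnt).mono ?_
    rintro _ ⟨x, rfl⟩
    exact ⟨⟨x, rfl⟩, ⟨x, rfl⟩⟩
  let Q : α × β → ℝ := fun c => μ.real {x | a x = c.1} * μ.real {x | b x = c.2}
  have hQ : ∀ c, 0 ≤ Q c := fun c => mul_nonneg measureReal_nonneg measureReal_nonneg
  have hQs : Summable Q :=
    (summable_cells (μ := μ) ha.meas ha.cnt).mul_of_nonneg (summable_cells (μ := μ) hb.meas hb.cnt)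
      (fun _ => measureReal_nonneg) (fun _ => measureReal_nonneg)
  obtain ⟨h1, -⟩ := div_integrable (μ := μ) D hD hm hc Q hQ hQs
  have hmeas : AEStronglyMeasurable (jfun μ D a b) (μ.restrict D) := by
    have : jfun μ D a b = fun x => (fun c : α × β =>
      Real.log (μ.real {y | y ∈ D ∧ a y = c.1 ∧ b y = c.2} /
        (μ.real {y | a y = c.1} * μ.real {y | b y = c.2}))) (m x) := rfl
    rw [this]
    exact (measurable_comp_label (E := ℝ) hm hc (fun c : α × β =>
      Real.log (μ.real {y | y ∈ D ∧ a y = c.1 ∧ b y = c.2} /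
        (μ.real {y | a y = c.1} * μ.real {y | b y = c.2})))).aestronglyMeasurable
  refine Integrable.mono' (hb.int.integrableOn.add h1) hmeas ?_
  filter_upwards [ae_pos (μ := μ) D hD hm hc] with x hx
  have e : {y | y ∈ D ∧ m y = m x} = {y | y ∈ D ∧ a y = a x ∧ b y = b x} := by
    ext y
    simp only [mem_ofPred_eq, m, Prod.mk.injEq]
  rw [e] at hx
  have hja : jmass μ D a b x ≤ mass μ a x := measureReal_mono (fun y hy => hy.2.1)
  have hjb : jmass μ D a b x ≤ mass μ b x := measureReal_mono (fun y hy => hy.2.2)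
  have hj : 0 < jmass μ D a b x := hx
  have hma : 0 < mass μ a x := hj.trans_le hja
  have hmb : 0 < mass μ b x := hj.trans_le hjb
  have hmb1 : mass μ b x ≤ 1 := measureReal_le_one
  have hinfo : 0 ≤ info μ b x := by
    unfold info
    have := Real.log_nonpos hmb.le hmb1
    linarith
  have hq : 0 ≤ Q (m x) / μ.real {y | y ∈ D ∧ m y = m x} := div_nonneg (hQ _) measureReal_nonneg
  have hup : jfun μ D a b x ≤ info μ b x := by
    unfold jfun info
    rw [← Real.log_inv]
    refine Real.log_le_log (by positivity) ?_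
    rw [div_le_iff₀ (by positivity)]
    rw [mul_comm, mul_assoc, mul_inv_cancel₀ hmb.ne', mul_one]
    exact hja
  have hlo : - jfun μ D a b x ≤ Q (m x) / μ.real {y | y ∈ D ∧ m y = m x} := by
    have h3 : - jfun μ D a b x = Real.log (mass μ a x * mass μ b x / jmass μ D a b x) := by
      unfold jfun
      rw [← Real.log_inv, inv_div]
    rw [h3]
    have h4 := Real.log_le_sub_one_of_pos (show 0 < mass μ a x * mass μ b x / jmass μ D a b x by
      positivity)
    have h5 : Q (m x) / μ.real {y | y ∈ D ∧ m y = m x} =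
        mass μ a x * mass μ b x / jmass μ D a b x := by
      rw [e]; rfl
    rw [h5]
    linarith
  show ‖jfun μ D a b x‖ ≤ info μ b x + Q (m x) / μ.real {y | y ∈ D ∧ m y = m x}
  rw [Real.norm_eq_abs, abs_le]
  constructor <;> linarith

theorem J_split (D : Set X) (hD : MeasurableSet D) {a : X → α} {b : X → β}
    (ha : IsLab μ a) (hb : IsLab μ b) (i : X → κ) (I : Finset κ) (hi : ∀ x ∈ D, i x ∈ I)
    (him : ∀ k, MeasurableSet {x | i x = k})
    (hdet : ∀ x ∈ D, ∀ y ∈ D, a x = a y → b x = b y → i x = i y) :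
    J μ D a b = ∑ k ∈ I, J μ (D ∩ {x | i x = k}) a b := by
  have hint := jfun_integrable D hD ha hb
  have hD' : D = ⋃ k ∈ I, (D ∩ {x | i x = k}) := by
    ext x
    simp only [mem_iUnion, mem_inter_iff, mem_ofPred_eq, exists_prop]
    constructor
    · intro hx
      exact ⟨i x, hi x hx, hx, rfl⟩
    · rintro ⟨_, _, hx, _⟩
      exact hx
  have h1 : J μ D a b = ∫ x in ⋃ k ∈ I, (D ∩ {x | i x = k}), jfun μ D a b x ∂μ := by
    rw [← hD']
    rfl
  rw [h1, integral_biUnion_finset I (fun k _ => hD.inter (him k)) ?_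
    (fun k _ => hint.mono_set inter_subset_left)]
  · refine Finset.sum_congr rfl fun k _ => ?_
    refine setIntegral_congr_fun (hD.inter (him k)) fun x hx => ?_
    show jfun μ D a b x = jfun μ (D ∩ {x | i x = k}) a b x
    unfold jfun
    congr 2
    unfold jmass
    congr 1
    ext y
    simp only [mem_ofPred_eq, mem_inter_iff]
    constructor
    · rintro ⟨hy, hya, hyb⟩
      exact ⟨⟨hy, (hdet y hy x hx.1 hya hyb).trans hx.2⟩, hya, hyb⟩
    · rintro ⟨⟨hy, _⟩, hya, hyb⟩
      exact ⟨hy, hya, hyb⟩
  · intro k _ l _ hkl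
    rw [Function.onFun, Set.disjoint_left]
    rintro x ⟨_, hx⟩ ⟨_, hx'⟩
    exact hkl (hx.symm.trans hx')

end Pool.Agent.TH989.FI
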