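import Pool.Agent.TH722.FI.Defs

/-!
# Gibbs inequality for a label, integrability of the mutual information integrand, splitting of the
domain (project of helper722, MP_572a3e_an)
-/

set_option autoImplicit false

namespace Pool.Agent.TH989.FI

open MeasureTheory Set Filter Pool.Agent.TH722.FI
open scoped Topology ENNReal

variable {X Y : Type*} [MeasurableSpace X] [MeasurableSpace Y] {μ : Measure X} [IsProbabilityMeasure μ]
  {α β α' β' γ κ : Type*}

omit [IsProbabilityMeasure μ] in
/-- functions of a countable measurable label are measurable -/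
lemma measurable_comp_label {E : Type*} [MeasurableSpace E] {m : X → γ}
    (hm : ∀ c, MeasurableSet {x | m x = c}) (hc : (range m).Countable) (φ : γ → E) :
    Measurable fun x => φ (m x) := by
  intro S _
  have : (fun x => φ (m x)) ⁻¹' S = ⋃ c ∈ {c ∈ range m | φ c ∈ S}, {x | m x = c} := by
    ext x
    simp only [mem_preimage, mem_iUnion, mem_ofPred_eq, exists_prop]
    constructor
    · intro hx
      exact ⟨m x, ⟨⟨x, rfl⟩, hx⟩, rfl⟩
    · rintro ⟨c, ⟨_, hc⟩, rfl⟩
      exact hc
  rw [this]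
  exact MeasurableSet.biUnion (hc.mono (fun c hc => hc.1)) fun c _ => hm c

/-- almost every point of `D` lies in a cell of positive mass -/
lemma ae_pos (D : Set X) (hD : MeasurableSet D) {m : X → γ}
    (hm : ∀ c, MeasurableSet {x | m x = c}) (hc : (range m).Countable) :
    ∀ᵐ x ∂(μ.restrict D), 0 < μ.real {y | y ∈ D ∧ m y = m x} := by
  have h1 : {x | ¬ 0 < μ.real {y | y ∈ D ∧ m y = m x}} ∩ D ⊆
      ⋃ c ∈ {c ∈ range m | μ {y | y ∈ D ∧ m y = c} = 0}, {y | y ∈ D ∧ m y = c} := by
    rintro x ⟨hx, hxD⟩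
    simp only [mem_iUnion, exists_prop]
    refine ⟨m x, ⟨⟨x, rfl⟩, ?_⟩, hxD, rfl⟩
    have h2 : μ.real {y | y ∈ D ∧ m y = m x} = 0 :=
      le_antisymm (not_lt.1 hx) measureReal_nonneg
    rwa [measureReal_eq_zero_iff] at h2
  rw [ae_iff, Measure.restrict_apply₀' hD.nullMeasurableSet]
  refine measure_mono_null h1 ?_
  rw [measure_biUnion_null_iff (hc.mono (fun c hc => hc.1))]
  exact fun c hc => hc.2

/-- the key estimate -/
lemma div_integrable (D : Set X) (hD : MeasurableSet D) {m : X → γ}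
    (hm : ∀ c, MeasurableSet {x | m x = c}) (hc : (range m).Countable) (Q : γ → ℝ)
    (hQ : ∀ c, 0 ≤ Q c) (hQs : Summable Q) :
    IntegrableOn (fun x => Q (m x) / μ.real {y | y ∈ D ∧ m y = m x}) D μ ∧
    ∫ x in D, Q (m x) / μ.real {y | y ∈ D ∧ m y = m x} ∂μ ≤ ∑' c, Q c := by
  classical
  let _ : MeasurableSpace (range m) := ⊤
  have : Countable (range m) := hc.to_subtype
  let m' : X → range m := fun x => ⟨m x, x, rfl⟩
  have hm' : Measurable m' := by
    refine measurable_to_countable' fun c => ?_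
    have : m' ⁻¹' {c} = {x | m x = c.1} := by
      ext x
      simp only [mem_preimage, mem_singleton_iff, mem_ofPred_eq]
      exact ⟨fun h => congrArg Subtype.val h, fun h => Subtype.ext h⟩
    rw [this]
    exact hm c.1
  set ν : Measure (range m) := (μ.restrict D).map m' with hν
  let p : γ → ℝ := fun c => μ.real {y | y ∈ D ∧ m y = c}
  let φ : range m → ℝ := fun c => Q c.1 / p c.1
  have hν1 : ∀ c, ν {c} = μ {y | y ∈ D ∧ m y = c.1} := by
    intro c
    rw [hν, Measure.map_apply hm' (measurableSet_singleton c),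
      Measure.restrict_apply (hm' (measurableSet_singleton c))]
    congr 1
    ext x
    simp only [mem_inter_iff, mem_preimage, mem_singleton_iff, mem_ofPred_eq]
    constructor
    · rintro ⟨h1, h2⟩
      exact ⟨h2, congrArg Subtype.val h1⟩
    · rintro ⟨h1, h2⟩
      exact ⟨Subtype.ext h2, h1⟩
  have hν2 : ∀ c, ν.real {c} = p c.1 := fun c => by
    show (ν {c}).toReal = (μ _).toReal
    rw [hν1]
  have hφ0 : ∀ c, 0 ≤ φ c := fun c => div_nonneg (hQ _) measureReal_nonneg
  have hle : ∀ c, φ c * p c.1 ≤ Q c.1 := by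
    intro c
    show Q c.1 / p c.1 * p c.1 ≤ Q c.1
    by_cases h : p c.1 = 0
    · rw [h, mul_zero]; exact hQ _
    · rw [div_mul_cancel₀ _ h]
  have hQs' : Summable fun c : range m => Q c.1 := hQs.comp_injective Subtype.val_injective
  have hint : Integrable φ ν := by
    refine ⟨Measurable.aestronglyMeasurable (fun _ _ => trivial), ?_⟩
    rw [hasFiniteIntegral_iff_enorm, lintegral_countable']
    have h1 : ∀ c, ‖φ c‖ₑ * ν {c} ≤ ENNReal.ofReal (Q c.1) := by
      intro c
      have h2 : ν {c} = ENNReal.ofReal (p c.1) := by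
        rw [← hν2, ofReal_measureReal]
      rw [Real.enorm_of_nonneg (hφ0 c), h2, ← ENNReal.ofReal_mul (hφ0 c)]
      exact ENNReal.ofReal_le_ofReal (hle c)
    refine lt_of_le_of_lt (ENNReal.tsum_le_tsum h1) ?_
    rw [← ENNReal.ofReal_tsum_of_nonneg (f := fun c : range m => Q c.1) (fun c => hQ c.1) hQs']
    exact ENNReal.ofReal_lt_top
  have e : (fun x => Q (m x) / μ.real {y | y ∈ D ∧ m y = m x}) = fun x => φ (m' x) := rfl
  rw [e]
  constructor
  · exact (integrable_map_measure hint.1 hm'.aemeasurable).1 hint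
  · have h1 : ∫ x in D, φ (m' x) ∂μ = ∫ c, φ c ∂ν :=
      (integral_map hm'.aemeasurable hint.1).symm
    rw [h1, integral_countable' hint]
    have h2 : ∀ c, ν.real {c} • φ c ≤ Q c.1 := by
      intro c
      rw [hν2, smul_eq_mul, mul_comm]
      exact hle c
    have h3 : Summable fun c => ν.real {c} • φ c :=
      Summable.of_nonneg_of_le (fun c => by
        rw [smul_eq_mul]; exact mul_nonneg measureReal_nonneg (hφ0 c)) h2 hQs'
    exact (h3.tsum_le_tsum h2 hQs').trans (hQs.tsum_subtype_le _ _ hQ)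

theorem gibbs (D : Set X) (hD : MeasurableSet D) (m : X → γ) (hm : ∀ c, MeasurableSet {x | m x = c})
    (hc : (range m).Countable) (Q : γ → ℝ) (hQ : ∀ c, 0 ≤ Q c) (hQs : Summable Q)
    (hpos : ∀ᵐ x ∂(μ.restrict D), 0 < Q (m x))
    (hint : IntegrableOn (fun x => Real.log (Q (m x) / μ.real {y | y ∈ D ∧ m y = m x})) D μ) :
    ∫ x in D, Real.log (Q (m x) / μ.real {y | y ∈ D ∧ m y = m x}) ∂μ ≤ ∑' c, Q c - μ.real D := by
  obtain ⟨h1, h2⟩ := div_integrable (μ := μ) D hD hm hc Q hQ hQs
  have h3 : ∫ x in D, Real.log (Q (m x) / μ.real {y | y ∈ D ∧ m y = m x}) ∂μ ≤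
      ∫ x in D, (Q (m x) / μ.real {y | y ∈ D ∧ m y = m x} - 1) ∂μ := by
    refine integral_mono_ae hint (h1.sub (integrable_const _)) ?_
    filter_upwards [hpos, ae_pos (μ := μ) D hD hm hc] with x hx hx'
    exact Real.log_le_sub_one_of_pos (div_pos hx hx')
  refine h3.trans ?_
  rw [integral_sub h1 (integrable_const _), integral_const]
  simp only [measureReal_restrict_apply_univ, smul_eq_mul, mul_one]
  linarith

end Pool.Agent.TH989.FI
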