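import Pool.Agent.TH806.LK.Defs

set_option autoImplicit false

/-! LK project, job UPG: Fubini for Fourier integrals and the bound `(1+V)^(-1/2)`. -/

namespace Pool.Agent.TH989.LK_UPG

open Finset Filter Topology MeasureTheory Complex
open Pool.Agent.W184.NZ
open Pool.Agent.TH806
open Pool.Agent.TH806.LK
open Pool.Agent.H306R2.SM (om cl Yf)
open Pool.Agent.H262R4.TM (Rng Ck)

noncomputable section

/-- the one-dimensional Gaussian bound -/
lemma gauss1 (V : ℝ) (hV : 0 ≤ V) (a : ℝ) :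
    ∫ x in Set.Ioc (-1:ℝ) 1, Real.exp (-(a + x) ^ 2 / 4 * V) ≤ 6 * (1 + V) ^ (-(1 / 2) : ℝ) := by
  have h1V : 0 < 1 + V := by linarith
  have hr : (1 + V) ^ (-(1 / 2) : ℝ) = 1 / Real.sqrt (1 + V) := by
    rw [Real.rpow_neg h1V.le, ← Real.sqrt_eq_rpow, one_div]
  have hs : 0 < Real.sqrt (1 + V) := Real.sqrt_pos.2 h1V
  rw [hr]
  rcases le_total V 1 with h | h
  · have hle : ∫ x in Set.Ioc (-1:ℝ) 1, Real.exp (-(a + x) ^ 2 / 4 * V) ≤
        ∫ x in Set.Ioc (-1:ℝ) 1, (1 : ℝ) := by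
      refine setIntegral_mono_on ?_ (integrable_const _) measurableSet_Ioc ?_
      · exact (Continuous.integrableOn_Icc (by fun_prop)).mono_set Set.Ioc_subset_Icc_self
      · intro x _
        rw [Real.exp_le_one_iff]
        have : 0 ≤ (a + x) ^ 2 / 4 * V := by positivity
        linarith [show -(a + x) ^ 2 / 4 * V = - ((a + x) ^ 2 / 4 * V) by ring]
    have h2 : ∫ x in Set.Ioc (-1:ℝ) 1, (1 : ℝ) = 2 := by
      simp
      norm_num
    rw [h2] at hle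
    refine hle.trans ?_
    rw [mul_one_div, le_div_iff₀ hs]
    have h3 : Real.sqrt (1 + V) ≤ 3 := by
      rw [Real.sqrt_le_left (by norm_num)]
      linarith
    linarith
  · have hV0 : 0 < V := by linarith
    have hint : Integrable (fun x : ℝ => Real.exp (-(V / 4) * x ^ 2)) :=
      integrable_exp_neg_mul_sq (by positivity)
    have hint2 : Integrable (fun x : ℝ => Real.exp (-(V / 4) * (a + x) ^ 2)) := hint.comp_add_left a
    have h1 : ∫ x in Set.Ioc (-1:ℝ) 1, Real.exp (-(a + x) ^ 2 / 4 * V) ≤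
        ∫ x : ℝ, Real.exp (-(V / 4) * (a + x) ^ 2) := by
      have e : ∀ x : ℝ, -(a + x) ^ 2 / 4 * V = -(V / 4) * (a + x) ^ 2 := fun x => by ring
      simp_rw [e]
      exact setIntegral_le_integral hint2 (Filter.Eventually.of_forall fun x => (Real.exp_pos _).le)
    rw [integral_add_left_eq_self (fun x : ℝ => Real.exp (-(V / 4) * x ^ 2)) a,
      integral_gaussian] at h1
    refine h1.trans ?_
    rw [mul_one_div, le_div_iff₀ hs, ← Real.sqrt_mul (by positivity)]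
    rw [Real.sqrt_le_left (by norm_num)]
    have hpi := Real.pi_lt_d2
    rw [show Real.pi / (V / 4) * (1 + V) = 4 * Real.pi * (1 + V) / V by field_simp,
      div_le_iff₀ hV0]
    nlinarith

lemma zz_cont (I : ℕ → Finset ℕ) (i : ℕ) (h : ∀ p ∈ I i, p.Prime) : Continuous fun t => zz I t i := by
  unfold zz PI
  refine continuous_finsetSum _ fun p hp => ?_
  have hp0 : (p : ℂ) ≠ 0 := by exact_mod_cast (h p hp).ne_zero
  refine Continuous.const_cpow (by fun_prop) (Or.inl hp0)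

lemma zz_norm (I : ℕ → Finset ℕ) (i : ℕ) (h : ∀ p ∈ I i, p.Prime) (t : ℝ) :
    ‖zz I t i‖ ≤ (I i).card := by
  unfold zz PI
  refine (norm_sum_le _ _).trans ?_
  refine (Finset.sum_le_card_nsmul _ _ 1 fun p hp => ?_).trans (by simp)
  have hp1 := (h p hp).one_lt
  rw [Complex.norm_natCast_cpow_of_pos (by omega)]
  refine Real.rpow_le_one_of_one_le_of_nonpos (by exact_mod_cast hp1.le) ?_
  simp

lemma G_bound (F : ℝ → ℝ → ℂ → ℂ) (hF : Continuous fun x : ℝ × ℝ × ℂ => F x.1 x.2.1 x.2.2) (r : ℝ) :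
    ∃ B : ℝ, 0 ≤ B ∧ ∀ θ₁ ∈ Set.Icc (-1:ℝ) 1, ∀ θ₂ ∈ Set.Icc (-1:ℝ) 1, ∀ z : ℂ, ‖z‖ ≤ r →
      ‖F θ₁ θ₂ z‖ ≤ B := by
  have hc : IsCompact ((Set.Icc (-1:ℝ) 1) ×ˢ ((Set.Icc (-1:ℝ) 1) ×ˢ (Metric.closedBall (0:ℂ) r))) :=
    isCompact_Icc.prod (isCompact_Icc.prod (isCompact_closedBall _ _))
  obtain ⟨B, hB⟩ := hc.exists_bound_of_continuousOn hF.continuousOn
  refine ⟨max B 0, le_max_right _ _, ?_⟩
  intro θ₁ h1 θ₂ h2 z hz
  exact (hB (θ₁, θ₂, z) ⟨h1, h2, by simpa using hz⟩).trans (le_max_left _ _)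

theorem t_UPG (h : P_AV0) : P_UPG := by
  refine ⟨12, by norm_num, ?_⟩
  filter_upwards [h, eventually_ge_atTop 3] with T hT hT3
  intro κ hκ c Q C J I b K G ν h₁ h₂ u s M hRg hLW hK hG hGc hh1 hh2 hhb hM hlog hprod
  have hT0 : (0:ℝ) < T := by linarith
  have hlogT : 0 < Real.log T := Real.log_pos (by linarith)
  have hκ0 : (0:ℝ) < κ := lt_of_lt_of_le (by positivity) hκ.1
  have hδ : 0 < (κ : ℝ) / T := by positivity
  set δ : ℝ := κ / T with hδdef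
  set om' : ℝ → ℂ := fun t => ((om κ δ t : ℝ) : ℂ) with hom'
  have hpr : ∀ i, ∀ p ∈ I i, p.Prime := fun i p hp => (hRg.pr i p hp).1
  have hV0 : 0 ≤ VV I J := sum_nonneg fun i _ => vI_nonneg _
  -- integrability of the weight
  have hom_int : Integrable om' (volume.restrict (Set.Ioi (0:ℝ))) := by
    have h1 := Pool.Agent.H262R4.TM.TTW.om_poly κ 0 hδ
    simp only [pow_zero, mul_one] at h1
    exact h1.ofReal
  have hom_cont : Continuous om' :=
    Complex.continuous_ofReal.comp (Pool.Agent.H262R4.TM.TTW.om_cont κ δ)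
  -- the measure on the square
  set μ : Measure ℝ := volume.restrict (Set.Ioc (-1:ℝ) 1) with hμ
  set ρ : Measure ℝ := volume.restrict (Set.Ioi (0:ℝ)) with hρ
  -- the integrand
  set P : ℝ → ℝ × ℝ → ℂ := fun t θ => ∏ i ∈ range J, G i θ.1 θ.2 (zz I t i) with hP
  set E : ℝ × ℝ → ℂ := fun θ => ((h₁ θ.1 * h₂ θ.2 : ℝ) : ℂ) *
    Complex.exp (-(((θ.1 + θ.2) * u : ℝ) : ℂ) * Complex.I) with hE
  have hPc : Continuous (fun x : ℝ × ℝ × ℝ => P x.1 x.2) := by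
    refine continuous_finsetProd _ fun i hi => ?_
    have h1 := hGc i (mem_range.1 hi)
    have h2 := zz_cont I i (hpr i)
    exact h1.comp (by fun_prop : Continuous fun x : ℝ × ℝ × ℝ => (x.2.1, x.2.2, zz I x.1 i))
  have hEc : Continuous E := by
    refine Continuous.mul ?_ ?_
    · exact Complex.continuous_ofReal.comp ((hh1.comp continuous_fst).mul (hh2.comp continuous_snd))
    · fun_prop
  have hEn : ∀ θ : ℝ × ℝ, θ.1 ∈ Set.Icc (-1:ℝ) 1 → θ.2 ∈ Set.Icc (-1:ℝ) 1 → ‖E θ‖ ≤ 1 := by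
    intro θ h1 h2
    have e1 : ‖Complex.exp (-(((θ.1 + θ.2) * u : ℝ) : ℂ) * Complex.I)‖ = 1 := by
      rw [← Complex.ofReal_neg, Complex.norm_exp_ofReal_mul_I]
    rw [hE]
    simp only
    rw [norm_mul, e1, mul_one, Complex.norm_real, Real.norm_eq_abs, abs_mul]
    exact mul_le_one₀ (hhb θ.1 h1).1 (abs_nonneg _) (hhb θ.2 h2).2
  -- uniform bound
  obtain ⟨B, hB0, hB⟩ : ∃ B : ℝ, 0 ≤ B ∧ ∀ t : ℝ, ∀ θ : ℝ × ℝ, θ.1 ∈ Set.Icc (-1:ℝ) 1 →
      θ.2 ∈ Set.Icc (-1:ℝ) 1 → ‖P t θ‖ ≤ B := by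
    have h1 : ∀ i, ∃ B : ℝ, 0 ≤ B ∧ (i < J → ∀ θ₁ ∈ Set.Icc (-1:ℝ) 1, ∀ θ₂ ∈ Set.Icc (-1:ℝ) 1,
        ∀ z : ℂ, ‖z‖ ≤ (I i).card → ‖G i θ₁ θ₂ z‖ ≤ B) := by
      intro i
      by_cases hi : i < J
      · obtain ⟨B, hB0, hB⟩ := G_bound (G i) (hGc i hi) (I i).card
        exact ⟨B, hB0, fun _ => hB⟩
      · exact ⟨0, le_rfl, fun h => absurd h hi⟩
    choose Bf hBf0 hBf using h1
    refine ⟨∏ i ∈ range J, Bf i, prod_nonneg fun i _ => hBf0 i, ?_⟩
    intro t θ h1 h2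
    rw [hP]
    simp only
    rw [norm_prod]
    exact prod_le_prod (fun i _ => norm_nonneg _) fun i hi =>
      hBf i (mem_range.1 hi) _ h1 _ h2 _ (zz_norm I i (hpr i) t)
  -- points of the square
  have hae : ∀ᵐ θ ∂(μ.prod μ), θ.1 ∈ Set.Icc (-1:ℝ) 1 ∧ θ.2 ∈ Set.Icc (-1:ℝ) 1 := by
    rw [hμ, Measure.prod_restrict]
    refine (ae_restrict_iff' (measurableSet_Ioc.prod measurableSet_Ioc)).2 ?_
    exact Filter.Eventually.of_forall fun θ hθ =>
      ⟨Set.Ioc_subset_Icc_self hθ.1, Set.Ioc_subset_Icc_self hθ.2⟩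
  -- integrability on the product
  have hint : Integrable (Function.uncurry fun (t : ℝ) (θ : ℝ × ℝ) => om' t * (E θ * P t θ))
      (ρ.prod (μ.prod μ)) := by
    have h1 : Integrable (fun x : ℝ × (ℝ × ℝ) => om' x.1 * ((B : ℂ))) (ρ.prod (μ.prod μ)) :=
      hom_int.mul_prod (integrable_const (B : ℂ))
    refine h1.norm.mono' ?_ ?_
    · refine Continuous.aestronglyMeasurable ?_
      exact (hom_cont.comp continuous_fst).mul ((hEc.comp continuous_snd).mul hPc)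
    · have h2 : ∀ᵐ x ∂(ρ.prod (μ.prod μ)), x.2.1 ∈ Set.Icc (-1:ℝ) 1 ∧ x.2.2 ∈ Set.Icc (-1:ℝ) 1 :=
        (Measure.quasiMeasurePreserving_snd (μ := ρ) (ν := μ.prod μ)).ae hae
      filter_upwards [h2] with x hx
      have e0 : ‖(B : ℂ)‖ = B := by rw [Complex.norm_real, Real.norm_of_nonneg hB0]
      have e1 : ‖om' x.1 * (B : ℂ)‖ = ‖om' x.1‖ * B := by
        rw [norm_mul, e0]
      rw [e1]
      calc ‖om' x.1 * (E x.2 * P x.1 x.2)‖ = ‖om' x.1‖ * (‖E x.2‖ * ‖P x.1 x.2‖) := by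
            rw [norm_mul, norm_mul (E x.2)]
        _ ≤ ‖om' x.1‖ * (1 * B) := by
            refine mul_le_mul_of_nonneg_left ?_ (norm_nonneg _)
            exact mul_le_mul (hEn _ hx.1 hx.2) (hB _ _ hx.1 hx.2) (norm_nonneg _) zero_le_one
        _ = ‖om' x.1‖ * B := by rw [one_mul]
  -- the inner integral
  have hinner : ∀ t : ℝ, (∫ θ₁ in (-1:ℝ)..1, ∫ θ₂ in (-1:ℝ)..1,
        ((h₁ θ₁ * h₂ θ₂ : ℝ) : ℂ) * (Complex.exp (-(((θ₁ + θ₂) * u : ℝ) : ℂ) * Complex.I) *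
          ∏ i ∈ range J, G i θ₁ θ₂ (zz I t i))) = ∫ θ, E θ * P t θ ∂(μ.prod μ) := by
    intro t
    have hi : Integrable (fun θ : ℝ × ℝ => E θ * P t θ) (μ.prod μ) := by
      refine (integrable_const (B : ℝ)).mono' ?_ ?_
      · exact (hEc.mul (hPc.comp (by fun_prop : Continuous fun θ : ℝ × ℝ => (t, θ)))).aestronglyMeasurable
      · filter_upwards [hae] with θ hθ
        rw [norm_mul]
        calc ‖E θ‖ * ‖P t θ‖ ≤ 1 * B :=
              mul_le_mul (hEn _ hθ.1 hθ.2) (hB _ _ hθ.1 hθ.2) (norm_nonneg _) zero_le_one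
          _ = B := one_mul B
    rw [integral_prod _ hi, intervalIntegral.integral_of_le (by norm_num)]
    refine integral_congr_ae (Filter.Eventually.of_forall fun θ₁ => ?_)
    simp only
    rw [intervalIntegral.integral_of_le (by norm_num)]
    refine integral_congr_ae (Filter.Eventually.of_forall fun θ₂ => ?_)
    simp only [hE, hP]
    ring
  have hswap : (∫ t in Set.Ioi (0:ℝ), ((om κ δ t : ℝ) : ℂ) * ∫ θ₁ in (-1:ℝ)..1, ∫ θ₂ in (-1:ℝ)..1,
        ((h₁ θ₁ * h₂ θ₂ : ℝ) : ℂ) * (Complex.exp (-(((θ₁ + θ₂) * u : ℝ) : ℂ) * Complex.I) *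
          ∏ i ∈ range J, G i θ₁ θ₂ (zz I t i))) =
      ∫ θ, E θ * ∫ t, om' t * P t θ ∂ρ ∂(μ.prod μ) := by
    calc _ = ∫ t, ∫ θ, om' t * (E θ * P t θ) ∂(μ.prod μ) ∂ρ := by
          refine integral_congr_ae (Filter.Eventually.of_forall fun t => ?_)
          simp only
          rw [hinner t, ← integral_const_mul]
      _ = ∫ θ, ∫ t, om' t * (E θ * P t θ) ∂ρ ∂(μ.prod μ) := integral_integral_swap hint
      _ = _ := by
          refine integral_congr_ae (Filter.Eventually.of_forall fun θ => ?_)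
          simp only
          rw [← integral_const_mul]
          refine integral_congr_ae (Filter.Eventually.of_forall fun t => ?_)
          simp only
          ring
  rw [hswap]
  -- the mean value theorem
  have hpt : ∀ θ : ℝ × ℝ, θ.1 ∈ Set.Icc (-1:ℝ) 1 → θ.2 ∈ Set.Icc (-1:ℝ) 1 →
      ‖E θ * ∫ t, om' t * P t θ ∂ρ‖ ≤
        M * (Real.exp (s * VV I J) * Real.exp (-(θ.1 + θ.2) ^ 2 / 4 * VV I J)) +
          T ^ (-(1 / 2) : ℝ) := by
    intro θ h1 h2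
    have h3 := hT κ hκ c Q C J I b K (fun i => G i θ.1 θ.2) ν hRg hLW
      (fun i hi => ⟨hK i hi, hG i hi _ h1 _ h2⟩) hlog
    have h4 := hprod _ h1 _ h2
    rw [← norm_prod] at h4
    have h5 : ‖∫ t, om' t * P t θ ∂ρ‖ ≤
        M * Real.exp ((s - (θ.1 + θ.2) ^ 2 / 4) * VV I J) + T ^ (-(1 / 2) : ℝ) := by
      have h6 := norm_add_le ((∫ t, om' t * P t θ ∂ρ) - ∏ i ∈ range J, ∫ q, q.2 * G i θ.1 θ.2 q.1 ∂(ν i))
        (∏ i ∈ range J, ∫ q, q.2 * G i θ.1 θ.2 q.1 ∂(ν i))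
      rw [sub_add_cancel] at h6
      linarith
    rw [← Real.exp_add, show s * VV I J + -(θ.1 + θ.2) ^ 2 / 4 * VV I J =
      (s - (θ.1 + θ.2) ^ 2 / 4) * VV I J by ring, norm_mul]
    calc ‖E θ‖ * ‖∫ t, om' t * P t θ ∂ρ‖ ≤ 1 * ‖∫ t, om' t * P t θ ∂ρ‖ :=
          mul_le_mul_of_nonneg_right (hEn θ h1 h2) (norm_nonneg _)
      _ ≤ _ := by rw [one_mul]; exact h5
  -- integrate the bound
  have hgc : Continuous fun θ : ℝ × ℝ => Real.exp (-(θ.1 + θ.2) ^ 2 / 4 * VV I J) := by fun_prop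
  have hg1 : ∀ θ : ℝ × ℝ, Real.exp (-(θ.1 + θ.2) ^ 2 / 4 * VV I J) ≤ 1 := by
    intro θ
    rw [Real.exp_le_one_iff]
    have : 0 ≤ (θ.1 + θ.2) ^ 2 / 4 * VV I J := by positivity
    linarith [show -(θ.1 + θ.2) ^ 2 / 4 * VV I J = - ((θ.1 + θ.2) ^ 2 / 4 * VV I J) by ring]
  have hgi : Integrable (fun θ : ℝ × ℝ => Real.exp (-(θ.1 + θ.2) ^ 2 / 4 * VV I J)) (μ.prod μ) := by
    refine (integrable_const (1 : ℝ)).mono' hgc.aestronglyMeasurable ?_
    refine Filter.Eventually.of_forall fun θ => ?_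
    rw [Real.norm_of_nonneg (Real.exp_pos _).le]
    exact hg1 θ
  have hμ1 : μ.real Set.univ = 2 := by
    rw [hμ]
    simp
    norm_num
  have hfin : ‖∫ θ, E θ * ∫ t, om' t * P t θ ∂ρ ∂(μ.prod μ)‖ ≤
      ∫ θ, (M * (Real.exp (s * VV I J) * Real.exp (-(θ.1 + θ.2) ^ 2 / 4 * VV I J)) +
          T ^ (-(1 / 2) : ℝ)) ∂(μ.prod μ) := by
    refine norm_integral_le_of_norm_le ?_ ?_
    · exact ((hgi.const_mul _).const_mul _).add (integrable_const _)
    · filter_upwards [hae] with θ hθ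
      exact hpt θ hθ.1 hθ.2
  refine hfin.trans ?_
  rw [integral_add ((hgi.const_mul _).const_mul _) (integrable_const _), integral_const_mul,
    integral_const_mul, integral_const]
  have hg2 : ∫ θ, Real.exp (-(θ.1 + θ.2) ^ 2 / 4 * VV I J) ∂(μ.prod μ) ≤
      12 * (1 + VV I J) ^ (-(1 / 2) : ℝ) := by
    rw [integral_prod _ hgi]
    calc ∫ x, ∫ y, Real.exp (-(x + y) ^ 2 / 4 * VV I J) ∂μ ∂μ
        ≤ ∫ x, 6 * (1 + VV I J) ^ (-(1 / 2) : ℝ) ∂μ := by
          refine integral_mono_of_nonneg ?_ (integrable_const _) ?_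
          · exact Filter.Eventually.of_forall fun x => integral_nonneg fun y => (Real.exp_pos _).le
          · exact Filter.Eventually.of_forall fun x => gauss1 _ hV0 x
      _ = _ := by
          rw [integral_const, hμ1, smul_eq_mul]
          ring
  have hreal : (μ.prod μ).real Set.univ = 4 := by
    rw [← Set.univ_prod_univ, measureReal_prod_prod, hμ1]
    norm_num
  rw [hreal, smul_eq_mul]
  have e1 : M * (Real.exp (s * VV I J) * ∫ θ, Real.exp (-(θ.1 + θ.2) ^ 2 / 4 * VV I J) ∂(μ.prod μ)) ≤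
      M * (Real.exp (s * VV I J) * (12 * (1 + VV I J) ^ (-(1 / 2) : ℝ))) :=
    mul_le_mul_of_nonneg_left (mul_le_mul_of_nonneg_left hg2 (Real.exp_pos _).le) hM
  have e2 : M * (Real.exp (s * VV I J) * (12 * (1 + VV I J) ^ (-(1 / 2) : ℝ))) =
      12 * M * ((1 + VV I J) ^ (-(1 / 2) : ℝ) * Real.exp (s * VV I J)) := by ring
  linarith

end

end Pool.Agent.TH989.LK_UPG
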