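import Pool.Agent.TH806.N4.Defs
import Pool.Agent.TH806.G0

set_option autoImplicit false

/-!
Job N4-T2: upper bound of the right order for `E |ζ|² |P|^{2(1+a)}`.
-/

namespace Pool.Agent.TH989.N4_T2

open Finset Filter Topology MeasureTheory Complex MonoidAlgebra
open Pool.Agent.W184.NZ Pool.Agent.TH806 Pool.Agent.TH806.N4
open Pool.Agent.H306R2.SM (om cl Yf)
open Pool.Agent.H262R4.TM (Rng Ck)
open Pool.Agent.H448R2.GC (cu cs ker XX)

noncomputable section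

/-- one range, for the weight of the twisted second moment -/
lemma gE_up1 {c : ℝ} (_hc : 0 ≤ c) {I : Finset ℕ} (hI : ∀ p ∈ I, p.Prime ∧ 144 ≤ p) (hv : vI I ≤ c) (hu : uI I ≤ c)
    {R : ℕ} (hR : 1 ≤ R) {a : ℝ} (ha : |a| ≤ 9 / 8) (ha0 : 0 ≤ 2 * a + a ^ 2) :
    0 ≤ lam w1 (gE (20 * R) a R I) ∧ lam w1 (gE (20 * R) a R I) ≤
      Real.exp ((2 * a + a ^ 2) * vI I + 17 * uI I + (3 + 2 * CC c c) * Real.exp (-(R:ℝ))) := by
  obtain ⟨ν, h⟩ := law_exists goodW1 I hI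
  have := h.prob
  obtain ⟨B, hB⟩ := h.bdd
  have u0 := uI_nonneg I
  have v0 := vI_nonneg I
  have h4 := law_exp4 goodW1 h
  have hc' : ‖((2 * a : ℝ) : ℂ)‖ = 2 * |a| := by
    rw [Complex.norm_real, Real.norm_eq_abs, abs_mul]; norm_num
  have h5 := h.expb ((2 * a : ℝ) : ℂ) (by rw [hc']; linarith)
  have e1 : ∀ z : ℂ, (((2 * a : ℝ) : ℂ) * z).re = 2 * a * z.re := fun z => Complex.re_ofReal_mul _ _
  simp_rw [e1] at h5
  rw [hc', Complex.ofReal_re] at h5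
  set E := (2 * a + a ^ 2) * vI I + 17 * uI I with hE
  have h6 : ∫ z : ℂ, Real.exp (2 * a * z.re) ∂ν ≤ Real.exp E := by
    refine h5.trans (Real.exp_le_exp.mpr ?_)
    have a0 := abs_nonneg a
    have h7 : (2 * |a|) ^ 2 = 4 * a ^ 2 := by rw [mul_pow, sq_abs]; ring
    have h8 : (2 * |a|) ^ 2 ≤ (9 / 4) ^ 2 := pow_le_pow_left₀ (by positivity) (by linarith) 2
    have h9 : (2 * |a|) ^ 3 ≤ (9 / 4) ^ 3 := pow_le_pow_left₀ (by positivity) (by linarith) 3
    have h10 : (2 * |a|) ^ 2 + (2 * |a|) ^ 3 ≤ 17 := by norm_num at h8 h9; linarith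
    have h11 := mul_le_mul_of_nonneg_right h10 u0
    have e : (1 * (2 * a) + (2 * |a|) ^ 2 / 4) * vI I = (2 * a + a ^ 2) * vI I := by rw [h7]; ring
    rw [e]
    linarith
  set x := Real.exp (-(R:ℝ)) with hx
  have hx0 : 0 < x := Real.exp_pos _
  have hx1 : x ≤ 1 := Real.exp_le_one_iff.mpr (by simp)
  have hR1 : (1:ℝ) ≤ R := by exact_mod_cast hR
  have hx2 : Real.exp (-(3 / 2 * (R:ℝ))) ≤ x := Real.exp_le_exp.mpr (by linarith)
  have i1 : Integrable (fun z : ℂ => Real.exp (2 * a * z.re)) ν := integrable_of_bdd hB (by fun_prop)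
  have i2 : Integrable (fun z : ℂ => Real.exp (4 * ‖z‖)) ν := integrable_of_bdd hB (by fun_prop)
  rw [lam_gE h]
  refine ⟨integral_nonneg fun z => gf_nonneg _ _ _ z, ?_⟩
  have h7 : ∫ z, gf (20 * R) a R z ∂ν ≤ ∫ z : ℂ, ((1 + x) ^ 2 * Real.exp (2 * a * z.re) +
      2 * x * Real.exp (4 * ‖z‖)) ∂ν := by
    refine integral_mono (integrable_of_bdd hB ?_) ((i1.const_mul _).add (i2.const_mul _)) fun z => ?_
    · unfold gf NK; fun_prop
    · refine (gf_le hR ha z).trans ?_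
      have a1 : 2 * Real.exp (-(3 / 2 * (R:ℝ))) * Real.exp (4 * ‖z‖) ≤ 2 * x * Real.exp (4 * ‖z‖) := by gcongr
      linarith
  rw [integral_add (i1.const_mul _) (i2.const_mul _), integral_const_mul, integral_const_mul] at h7
  have hD : CC (vI I) (uI I) ≤ CC c c := CC_mono hv hu
  have hD0 := CC_pos c c
  have h2 : 1 ≤ Real.exp E := Real.one_le_exp (by positivity)
  calc ∫ z, gf (20 * R) a R z ∂ν ≤ (1 + x) ^ 2 * (∫ z : ℂ, Real.exp (2 * a * z.re) ∂ν) +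
        2 * x * ∫ z : ℂ, Real.exp (4 * ‖z‖) ∂ν := h7
    _ ≤ (1 + x) ^ 2 * Real.exp E + 2 * x * CC c c := by
      have := h4.trans hD
      gcongr
    _ ≤ (1 + x) ^ 2 * Real.exp E + 2 * x * CC c c * Real.exp E := by
      have h3 : 2 * x * CC c c * 1 ≤ 2 * x * CC c c * Real.exp E := by
        gcongr
      linarith
    _ = Real.exp E * ((1 + x) ^ 2 + 2 * CC c c * x) := by ring
    _ ≤ Real.exp E * ((3 + 2 * CC c c) * x + 1) := by
      refine mul_le_mul_of_nonneg_left ?_ (Real.exp_pos _).le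
      have hx3 : x ^ 2 ≤ x := by nlinarith
      nlinarith
    _ ≤ Real.exp E * Real.exp ((3 + 2 * CC c c) * x) :=
      mul_le_mul_of_nonneg_left (Real.add_one_le_exp _) (Real.exp_pos _).le
    _ = _ := by rw [← Real.exp_add]

/-! ### nonnegative coefficients -/

lemma Nn_smul {f : DA} (hf : Nn f) {c : ℝ} (hc : 0 ≤ c) : Nn (c • f) := fun x => by
  have : (c • f).coeff x = c * f.coeff x := by simp
  rw [this]
  exact mul_nonneg hc (hf x)

lemma Nn_NK {f : DA} (hf : Nn f) (K : ℕ) {a : ℝ} (ha : 0 ≤ a) : Nn (NK K a f) := by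
  unfold NK
  exact Nn.sum fun k _ => Nn_smul (hf.pow k) (by positivity)

lemma Nn_gE (K : ℕ) {a : ℝ} (ha : 0 ≤ a) (R : ℕ) (I : Finset ℕ) : Nn (gE K a R I) := by
  unfold gE
  exact ((Nn_NK xI_Nn K ha).mul (Nn_NK yI_Nn K ha)).add
    (Nn_smul ((xI_Nn.pow R).mul (yI_Nn.pow R)) (by positivity))

lemma Nn_prod (J : ℕ) {f : ℕ → DA} (hf : ∀ i, Nn (f i)) : Nn (∏ i ∈ range J, f i) := by
  induction J with
  | zero => rw [range_zero, prod_empty]; exact Nn.one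
  | succ n ih => rw [prod_range_succ]; exact ih.mul (hf n)

lemma Nn_GP (J : ℕ) {a : ℝ} (ha : 0 ≤ a) (R : ℕ → ℕ) (I : ℕ → Finset ℕ) : Nn (GP J a R I) := by
  unfold GP
  exact Nn_prod J fun i => Nn_gE _ ha _ _

lemma wl_nn {N : ℝ} {f : DA} (hf : Nn f) (hB : Bd N f) : 0 ≤ lam wl f := by
  rw [lam_apply]
  exact sum_nonneg fun x hx => mul_nonneg (hf x) (wl_nonneg (hB x hx).1.1 (hB x hx).1.2)

theorem t_T2 : P_T2 := by
  obtain ⟨η, hη, h⟩ := two_avg
  refine ⟨min (η / 2) (1 / 200), by positivity, min_le_right _ _, fun c => ?_⟩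
  refine ⟨3 * Real.exp (17 * c + 2 * (3 + 2 * CC c c)) + 2, by positivity, fun Rs hRs => ?_⟩
  filter_upwards [h, eventually_ge_atTop (1:ℝ), Real.tendsto_log_atTop.eventually_ge_atTop 1] with
    T hT hT1 hL k hk y a J hBL hy1 ha
  have hT0 : 0 < T := by linarith
  have hy144 := hBL.y1
  have hy : 1 ≤ y := by linarith
  have hly : 0 ≤ Real.log y := Real.log_nonneg hy
  have hc0 := hBL.c0
  have hk1 : 1 ≤ k := by
    have := hk.1
    have h2 : (0:ℝ) < k := lt_of_lt_of_le (by positivity) this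
    exact_mod_cast h2
  set L := Real.log T with hLd
  set V := ∑ i ∈ range J, vI (II y i) with hV
  set G := GP J (1 + a) (RR Rs) (II y) with hG
  have hRs1 : (1:ℝ) ≤ Rs := by exact_mod_cast hRs
  obtain ⟨hal, har⟩ := abs_le.mp ha
  have ha1 : |1 + a| ≤ 9 / 8 := by rw [abs_le]; constructor <;> linarith
  have hm1 : min (η / 2) (1 / 200) * L ≤ η / 2 * L := mul_le_mul_of_nonneg_right (min_le_left _ _) (by linarith)
  have hm2 : min (η / 2) (1 / 200) * L ≤ 1 / 200 * L := mul_le_mul_of_nonneg_right (min_le_right _ _) (by linarith)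
  have g1 : Bd (T ^ ((1:ℝ) / 4)) G := by
    refine (GP_Bd (Rs := Rs) hy hBL.rg (1 + a)).mono ?_
    rw [Real.rpow_def_of_pos hT0, ← hLd]
    apply Real.exp_le_exp.mpr
    nlinarith
  have g2 : l1 G ≤ T ^ (η / 2) := by
    refine (GP_l1' hy hBL.rg hRs (by linarith)).trans ?_
    rw [Real.rpow_def_of_pos hT0, ← hLd]
    apply Real.exp_le_exp.mpr
    nlinarith
  have hf : ∀ i, gE (20 * RR Rs i) (1 + a) (RR Rs i) (II y i) ∈ SA (MI (II y i)) := fun i =>
    gE_mem (fun p hp => (hBL.rg.pr i p hp).1) _ _ _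
  have hquad : 0 ≤ 2 * (1 + a) + (1 + a) ^ 2 := by nlinarith [sq_nonneg (1 + a)]
  have hloc : ∀ i ∈ range J, 0 ≤ lam w1 (gE (20 * RR Rs i) (1 + a) (RR Rs i) (II y i)) ∧
      lam w1 (gE (20 * RR Rs i) (1 + a) (RR Rs i) (II y i)) ≤
      Real.exp ((2 * (1 + a) + (1 + a) ^ 2) * vI (II y i) + 17 * uI (II y i) +
        (3 + 2 * CC c c) * Real.exp (-(RR Rs i:ℝ))) := by
    intro i hi
    have hi' := mem_range.mp hi
    exact gE_up1 hc0 (fun p hp => ⟨(hBL.rg.pr i p hp).1, (hBL.rg.pr i p hp).2.1⟩) (hBL.rg.v i hi') (hBL.rg.u hi')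
      (by unfold RR; omega) ha1 hquad
  have hE3 : (2 * (1 + a) + (1 + a) ^ 2) = 3 + 4 * a + a ^ 2 := by ring
  have g3' : 0 ≤ lam w1 G ∧ lam w1 G ≤ Real.exp ((3 + 4 * a + a ^ 2) * V) * Real.exp (17 * c + 2 * (3 + 2 * CC c c)) := by
    rw [hG]
    unfold GP
    rw [lam_prod goodW1 J hBL.rg.dj hf]
    refine ⟨prod_nonneg fun i hi => (hloc i hi).1, ?_⟩
    refine (prod_le_prod (fun i hi => (hloc i hi).1) fun i hi => (hloc i hi).2).trans ?_
    rw [← Real.exp_sum, sum_add_distrib, sum_add_distrib, ← mul_sum, ← mul_sum, ← mul_sum, ← Real.exp_add, hE3]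
    refine Real.exp_le_exp.mpr ?_
    have hD0 := CC_pos c c
    have h2 := mul_le_mul_of_nonneg_left (sum_exp_le J Rs (RR_ge Rs)) (by positivity : 0 ≤ 3 + 2 * CC c c)
    have h3 := mul_le_mul_of_nonneg_left hBL.rg.U (by norm_num : (0:ℝ) ≤ 17)
    have h4 : Real.exp (-(Rs:ℝ)) ≤ 1 := Real.exp_le_one_iff.mpr (by simp)
    have h5 : (3 + 2 * CC c c) * (2 * Real.exp (-(Rs:ℝ))) ≤ (3 + 2 * CC c c) * (2 * 1) := by gcongr
    linarith
  have hwl : 0 ≤ lam wl G := wl_nn (Nn_GP J (by linarith) _ _) g1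
  have h1 := hT k hk G g1
  have e1 : ∀ t, (ev t G).re = gp J (1 + a) (RR Rs) (II y) t := fun t => (gp_eq hBL (1 + a) Rs t).symm
  simp_rw [e1] at h1
  have h2 : 2 * T ^ (-η) * l1 G ≤ 2 := by
    calc 2 * T ^ (-η) * l1 G ≤ 2 * T ^ (-η) * T ^ (η / 2) := by gcongr
      _ = 2 * T ^ (-(η / 2)) := by rw [mul_assoc, ← Real.rpow_add hT0]; congr 2; ring
      _ ≤ 2 * 1 := by
        have := Real.rpow_le_one_of_one_le_of_nonpos hT1 (by linarith : -(η / 2) ≤ 0)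
        linarith
      _ = 2 := by norm_num
  have h3 := (abs_le.mp h1).2
  have hV0 : 0 ≤ V := sum_nonneg fun i _ => vI_nonneg _
  have hq0 : 0 ≤ 3 + 4 * a + a ^ 2 := by rw [← hE3]; exact hquad
  have h4 : 1 ≤ Real.exp ((3 + 4 * a + a ^ 2) * V) := Real.one_le_exp (mul_nonneg hq0 hV0)
  have hyf := (abs_le.mp (yf_bound hk1 hT0)).2
  set E := Real.exp ((3 + 4 * a + a ^ 2) * V) with hE
  set D := Real.exp (17 * c + 2 * (3 + 2 * CC c c)) with hD
  have h5 : (Real.log (Yf k T) + Ck k) * lam w1 G ≤ 3 * L * (E * D) := by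
    calc (Real.log (Yf k T) + Ck k) * lam w1 G ≤ (3 * L) * lam w1 G :=
          mul_le_mul_of_nonneg_right (by linarith) g3'.1
      _ ≤ 3 * L * (E * D) := mul_le_mul_of_nonneg_left g3'.2 (by linarith)
  have h6 : 1 ≤ L * E := by nlinarith
  have h7 : (3 * D + 2) * L * E = 3 * L * (E * D) + 2 * (L * E) := by ring
  rw [h7]
  linarith

end

end Pool.Agent.TH989.N4_T2
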