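import Pool.Agent.TH614.HS.Defs

/-!
Project HS (helper614), job 3570: existence of the chord relations.
-/

set_option autoImplicit false

namespace Pool.Agent.TH989.J3570

open Pool.Agent.TH614.HS

variable {L : Type} [Field L]

/-- the computation, in coordinates on the line: `V = (va, 0)`, `U = (ua, ub)`, `W = (wa, wb)`,
`Y = (0, 1)`, `r = (ra, rb)`, `r2 = (qa, qb)` -/
lemma core (th va ua ub wa wb ra rb qa qb : L) (h2 : (2 : L) ≠ 0) (hth : th ^ 2 = 3)
    (hraa : ra ^ 2 = va ^ 2 + ua * wa)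
    (hrbb : rb ^ 2 = 1 + ub * wb)
    (hrab : 2 * ra * rb = -th * va + ua * wb + ub * wa)
    (hqaa : qa ^ 2 = ua ^ 2 + va * wa)
    (hqbb : qb ^ 2 = 1 - th * ub + ub ^ 2)
    (hqab : 2 * qa * qb = -th * ua + 2 * ua * ub + va * wb)
    (hub : ub ≠ 0) (hwa : wa ≠ 0)
    (hl2 : ¬ (va + ua - wa = 0 ∧ ub - th - wb = 0)) :
    ∃ H be g rho : L, (H = 1 ∨ H = -1) ∧ be ≠ 0 ∧ g ≠ 0 ∧ be ^ 2 = 1 + g ^ 2 ∧
      (va - ua) * (ub - th - wb) - (-ub) * (va + ua - wa) ≠ 0 ∧
      ra - H * qa = be * (va - ua) ∧ rb - H * qb = be * (-ub) ∧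
      be * (ra + H * qa) = va + ua - wa ∧ be * (rb + H * qb) = ub - th - wb ∧
      th * wa = g * (va - ua) + rho * (va + ua - wa) ∧
      1 + th * wb = g * (-ub) + rho * (ub - th - wb) ∧
      4 * be ^ 2 * wa = -2 * be ^ 2 * g * rho * (va - ua) - (g ^ 2 + be ^ 2 * rho ^ 2) * (va + ua - wa) ∧
      4 * be ^ 2 * wb = -2 * be ^ 2 * g * rho * (-ub) - (g ^ 2 + be ^ 2 * rho ^ 2) * (ub - th - wb) := by
  have h4 : (4 : L) ≠ 0 := by
    have : (4 : L) = 2 * 2 := by norm_num
    rw [this]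
    exact mul_ne_zero h2 h2
  obtain ⟨pa, hpa⟩ : ∃ pa, pa = va - ua := ⟨_, rfl⟩
  obtain ⟨pb, hpb⟩ : ∃ pb, pb = -ub := ⟨_, rfl⟩
  obtain ⟨la, hla⟩ : ∃ la, la = va + ua - wa := ⟨_, rfl⟩
  obtain ⟨lb, hlb⟩ : ∃ lb, lb = ub - th - wb := ⟨_, rfl⟩
  have hpb0 : pb ≠ 0 := by rw [hpb]; exact neg_ne_zero.2 hub
  rw [← hpa, ← hpb, ← hla, ← hlb]
  rw [← hla, ← hlb] at hl2
  have E1 : ra ^ 2 - qa ^ 2 = pa * la := by rw [hraa, hqaa, hpa, hla]; ring
  have E2 : rb ^ 2 - qb ^ 2 = pb * lb := by rw [hrbb, hqbb, hpb, hlb]; ring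
  have E3 : 2 * (ra * rb - qa * qb) = pa * lb + pb * la := by
    have : 2 * (ra * rb - qa * qb) = 2 * ra * rb - 2 * qa * qb := by ring
    rw [this, hrab, hqab, hpa, hpb, hla, hlb]; ring
  have hprod : ((ra - qa) * pb - (rb - qb) * pa) * ((ra + qa) * pb - (rb + qb) * pa) = 0 := by
    linear_combination pb ^ 2 * E1 + pa ^ 2 * E2 - pa * pb * E3
  obtain ⟨H, hH, hHz⟩ : ∃ H : L, (H = 1 ∨ H = -1) ∧ (ra - H * qa) * pb - (rb - H * qb) * pa = 0 := by
    rcases mul_eq_zero.1 hprod with h | h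
    · exact ⟨1, Or.inl rfl, by linear_combination h⟩
    · exact ⟨-1, Or.inr rfl, by linear_combination h⟩
  have hH2 : H ^ 2 = 1 := by rcases hH with h | h <;> rw [h] <;> norm_num
  obtain ⟨be, hbe⟩ : ∃ be, be = (rb - H * qb) / pb := ⟨_, rfl⟩
  have hb1 : rb - H * qb = be * pb := by rw [hbe, div_mul_cancel₀ _ hpb0]
  have ha1 : ra - H * qa = be * pa := by
    have : (ra - H * qa - be * pa) * pb = 0 := by linear_combination hHz + pa * hb1
    rcases mul_eq_zero.1 this with h | h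
    · linear_combination h
    · exact absurd h hpb0
  have hb2 : be * (rb + H * qb) = lb := by
    have : (be * (rb + H * qb) - lb) * pb = 0 := by
      linear_combination E2 - (rb + H * qb) * hb1 + qb ^ 2 * hH2 * (-1)
    rcases mul_eq_zero.1 this with h | h
    · linear_combination h
    · exact absurd h hpb0
  have ha2 : be * (ra + H * qa) = la := by
    have : (be * (ra + H * qa) - la) * pb = 0 := by
      linear_combination E3 - (ra + H * qa) * hb1 - (rb + H * qb) * ha1 + pa * hb2 * (-1)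
        - 2 * qa * qb * hH2
    rcases mul_eq_zero.1 this with h | h
    · linear_combination h
    · exact absurd h hpb0
  have hbe0 : be ≠ 0 := by
    intro h
    apply hl2
    rw [h, zero_mul] at ha2 hb2
    exact ⟨ha2.symm, hb2.symm⟩
  have hbe2 : be ^ 2 ≠ 0 := pow_ne_zero _ hbe0
  have Ra : 2 * be * ra = be ^ 2 * pa + la := by linear_combination be * ha1 + ha2
  have Rb : 2 * be * rb = be ^ 2 * pb + lb := by linear_combination be * hb1 + hb2
  have Ka : 2 * be * qa * H = la - be ^ 2 * pa := by linear_combination ha2 - be * ha1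
  have Kb : 2 * be * qb * H = lb - be ^ 2 * pb := by linear_combination hb2 - be * hb1
  obtain ⟨za, hza⟩ : ∃ za, za = th * wa := ⟨_, rfl⟩
  obtain ⟨zb, hzb⟩ : ∃ zb, zb = 1 + th * wb := ⟨_, rfl⟩
  rw [← hza, ← hzb]
  have Saa : 4 * be ^ 2 * (ra ^ 2 + qa ^ 2) = 2 * be ^ 4 * pa ^ 2 + 2 * la ^ 2 := by
    linear_combination (2 * be * ra + be ^ 2 * pa + la) * Ra +
      (2 * be * qa * H + la - be ^ 2 * pa) * Ka - 4 * be ^ 2 * qa ^ 2 * hH2
  have Sbb : 4 * be ^ 2 * (rb ^ 2 + qb ^ 2) = 2 * be ^ 4 * pb ^ 2 + 2 * lb ^ 2 := by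
    linear_combination (2 * be * rb + be ^ 2 * pb + lb) * Rb +
      (2 * be * qb * H + lb - be ^ 2 * pb) * Kb - 4 * be ^ 2 * qb ^ 2 * hH2
  have Sab : 4 * be ^ 2 * (2 * ra * rb + 2 * qa * qb) = 4 * be ^ 4 * pa * pb + 4 * la * lb := by
    linear_combination 2 * (2 * be * rb) * Ra + 2 * (be ^ 2 * pa + la) * Rb +
      2 * (2 * be * qb * H) * Ka + 2 * (la - be ^ 2 * pa) * Kb - 8 * be ^ 2 * qa * qb * hH2
  have Qaa : be ^ 2 * ((be ^ 2 - 1) * pa ^ 2 - za ^ 2) = la * ((be ^ 2 - 1) * la + 4 * be ^ 2 * wa) := by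
    have h : 2 * (be ^ 2 * ((be ^ 2 - 1) * pa ^ 2 - za ^ 2) -
        la * ((be ^ 2 - 1) * la + 4 * be ^ 2 * wa)) = 0 := by
      have e : 2 * (ra ^ 2 + qa ^ 2) = pa ^ 2 + la ^ 2 + za ^ 2 + 4 * wa * la := by
        rw [hraa, hqaa, hpa, hla, hza]
        linear_combination (-wa ^ 2) * hth
      linear_combination (-1) * Saa + 2 * be ^ 2 * e
    rcases mul_eq_zero.1 h with h | h
    · exact absurd h h2
    · linear_combination h
  have Qbb : be ^ 2 * ((be ^ 2 - 1) * pb ^ 2 - zb ^ 2) = lb * ((be ^ 2 - 1) * lb + 4 * be ^ 2 * wb) := by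
    have h : 2 * (be ^ 2 * ((be ^ 2 - 1) * pb ^ 2 - zb ^ 2) -
        lb * ((be ^ 2 - 1) * lb + 4 * be ^ 2 * wb)) = 0 := by
      have e : 2 * (rb ^ 2 + qb ^ 2) = pb ^ 2 + lb ^ 2 + zb ^ 2 + 4 * wb * lb := by
        rw [hrbb, hqbb, hpb, hlb, hzb]
        linear_combination (-wb ^ 2 - 1) * hth
      linear_combination (-1) * Sbb + 2 * be ^ 2 * e
    rcases mul_eq_zero.1 h with h | h
    · exact absurd h h2
    · linear_combination h
  have Qab : be ^ 2 * ((be ^ 2 - 1) * (2 * pa * pb) - 2 * za * zb) =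
      la * ((be ^ 2 - 1) * lb + 4 * be ^ 2 * wb) + lb * ((be ^ 2 - 1) * la + 4 * be ^ 2 * wa) := by
    have h : 2 * (be ^ 2 * ((be ^ 2 - 1) * (2 * pa * pb) - 2 * za * zb) -
      (la * ((be ^ 2 - 1) * lb + 4 * be ^ 2 * wb) +
        lb * ((be ^ 2 - 1) * la + 4 * be ^ 2 * wa))) = 0 := by
      have e : 2 * (2 * ra * rb + 2 * qa * qb) =
          2 * pa * pb + 2 * la * lb + 2 * za * zb + 4 * (wa * lb + wb * la) := by
        rw [hrab, hqab, hpa, hpb, hla, hlb, hza, hzb]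
        linear_combination (-2 * wa * wb) * hth
      linear_combination (-1) * Sab + 2 * be ^ 2 * e
    rcases mul_eq_zero.1 h with h | h
    · exact absurd h h2
    · linear_combination h
  have hD : pa * lb - pb * la ≠ 0 := by
    intro hD
    have hlb0 : lb ≠ 0 := by
      intro h
      rw [h, mul_zero, zero_sub, neg_eq_zero] at hD
      rcases mul_eq_zero.1 hD with h' | h'
      · exact hpb0 h'
      · exact hl2 ⟨h', h⟩
    obtain ⟨k, hk⟩ : ∃ k, k = pa / pb := ⟨_, rfl⟩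
    have hpk : pa = k * pb := by rw [hk, div_mul_cancel₀ _ hpb0]
    have hlk : la = k * lb := by
      have : pb * (la - k * lb) = 0 := by linear_combination (-1) * hD + lb * hpk
      rcases mul_eq_zero.1 this with h | h
      · exact absurd h hpb0
      · linear_combination h
    have hz : za = k * zb := by
      have : be ^ 2 * (za - k * zb) ^ 2 = 0 := by
        linear_combination (-1) * Qaa + k * Qab - k ^ 2 * Qbb
          + (be ^ 2 * (be ^ 2 - 1) * (pa - k * pb)) * hpk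
          - ((be ^ 2 - 1) * (la - k * lb) + 4 * be ^ 2 * (wa - k * wb)) * hlk
      rcases mul_eq_zero.1 this with h | h
      · exact absurd h hbe2
      · have := pow_eq_zero_iff (two_ne_zero) |>.1 h
        linear_combination this
    have hw : wa = k * wb := by
      have : 4 * (be ^ 2 * (lb * (wa - k * wb))) = 0 := by
        rw [hpk, hlk, hz] at Qab
        linear_combination (-1) * Qab + 2 * k * Qbb
      rcases mul_eq_zero.1 this with h | h
      · exact absurd h h4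
      rcases mul_eq_zero.1 h with h | h
      · exact absurd h hbe2
      rcases mul_eq_zero.1 h with h | h
      · exact absurd h hlb0
      · linear_combination h
    have hk0 : k = 0 := by
      linear_combination (-1) * hz + hza - k * hzb + th * hw
    rw [hk0, zero_mul] at hw
    exact hwa hw
  obtain ⟨g, hg⟩ : ∃ g, g = (za * lb - zb * la) / (pa * lb - pb * la) := ⟨_, rfl⟩
  obtain ⟨rho, hrho⟩ : ∃ rho, rho = (pa * zb - pb * za) / (pa * lb - pb * la) := ⟨_, rfl⟩
  have hg' : g * (pa * lb - pb * la) = za * lb - zb * la := by rw [hg, div_mul_cancel₀ _ hD]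
  have hrho' : rho * (pa * lb - pb * la) = pa * zb - pb * za := by rw [hrho, div_mul_cancel₀ _ hD]
  have hZa : za = g * pa + rho * la := by
    have : (za - (g * pa + rho * la)) * (pa * lb - pb * la) = 0 := by
      linear_combination (-pa) * hg' - la * hrho'
    rcases mul_eq_zero.1 this with h | h
    · linear_combination h
    · exact absurd h hD
  have hZb : zb = g * pb + rho * lb := by
    have : (zb - (g * pb + rho * lb)) * (pa * lb - pb * la) = 0 := by
      linear_combination (-pb) * hg' - lb * hrho'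
    rcases mul_eq_zero.1 this with h | h
    · linear_combination h
    · exact absurd h hD
  have hgg : be ^ 2 = 1 + g ^ 2 := by
    have : be ^ 2 * (pa * lb - pb * la) ^ 2 * (be ^ 2 - 1 - g ^ 2) = 0 := by
      have e : be ^ 2 * ((be ^ 2 - 1) * (pa * lb - pb * la) ^ 2 - (za * lb - zb * la) ^ 2) = 0 := by
        linear_combination lb ^ 2 * Qaa - la * lb * Qab + la ^ 2 * Qbb
      rw [← hg'] at e
      linear_combination e
    rcases mul_eq_zero.1 this with h | h
    · rcases mul_eq_zero.1 h with h | h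
      · exact absurd h hbe2
      · exact absurd h (pow_ne_zero _ hD)
    · linear_combination h
  -- cancel `l2`
  have hNa : la * ((be ^ 2 - 1) * la + 4 * be ^ 2 * wa + 2 * be ^ 2 * g * rho * pa +
      be ^ 2 * rho ^ 2 * la) = 0 := by
    rw [hZa] at Qaa
    linear_combination (-1) * Qaa + be ^ 2 * pa ^ 2 * hgg
  have hNb : lb * ((be ^ 2 - 1) * lb + 4 * be ^ 2 * wb + 2 * be ^ 2 * g * rho * pb +
      be ^ 2 * rho ^ 2 * lb) = 0 := by
    rw [hZb] at Qbb
    linear_combination (-1) * Qbb + be ^ 2 * pb ^ 2 * hgg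
  have hNab : la * ((be ^ 2 - 1) * lb + 4 * be ^ 2 * wb + 2 * be ^ 2 * g * rho * pb +
      be ^ 2 * rho ^ 2 * lb) + lb * ((be ^ 2 - 1) * la + 4 * be ^ 2 * wa + 2 * be ^ 2 * g * rho * pa +
      be ^ 2 * rho ^ 2 * la) = 0 := by
    rw [hZa, hZb] at Qab
    linear_combination (-1) * Qab + 2 * be ^ 2 * pa * pb * hgg
  obtain ⟨Na, hNa'⟩ : ∃ N, N = (be ^ 2 - 1) * la + 4 * be ^ 2 * wa + 2 * be ^ 2 * g * rho * pa +
      be ^ 2 * rho ^ 2 * la := ⟨_, rfl⟩
  obtain ⟨Nb, hNb'⟩ : ∃ N, N = (be ^ 2 - 1) * lb + 4 * be ^ 2 * wb + 2 * be ^ 2 * g * rho * pb +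
      be ^ 2 * rho ^ 2 * lb := ⟨_, rfl⟩
  rw [← hNa'] at hNa
  rw [← hNb'] at hNb
  rw [← hNa', ← hNb'] at hNab
  have hN : Na = 0 ∧ Nb = 0 := by
    by_cases h0 : la = 0
    · have h1 : lb ≠ 0 := fun h => hl2 ⟨h0, h⟩
      rw [h0, zero_mul, zero_add] at hNab
      exact ⟨(mul_eq_zero.1 hNab).resolve_left h1, (mul_eq_zero.1 hNb).resolve_left h1⟩
    · have h1 := (mul_eq_zero.1 hNa).resolve_left h0
      rw [h1, mul_zero, add_zero] at hNab
      exact ⟨h1, (mul_eq_zero.1 hNab).resolve_left h0⟩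
  have hWa : 4 * be ^ 2 * wa = -2 * be ^ 2 * g * rho * pa - (g ^ 2 + be ^ 2 * rho ^ 2) * la := by
    have := hN.1
    rw [hNa'] at this
    linear_combination this - la * hgg
  have hWb : 4 * be ^ 2 * wb = -2 * be ^ 2 * g * rho * pb - (g ^ 2 + be ^ 2 * rho ^ 2) * lb := by
    have := hN.2
    rw [hNb'] at this
    linear_combination this - lb * hgg
  have hg0 : g ≠ 0 := by
    intro h0
    rw [h0] at hWa hWb hZa hZb
    have e1 : be ^ 2 * (4 * wa + rho ^ 2 * la) = 0 := by linear_combination hWa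
    have e2 : be ^ 2 * (4 * wb + rho ^ 2 * lb) = 0 := by linear_combination hWb
    have e1' := (mul_eq_zero.1 e1).resolve_left hbe2
    have e2' := (mul_eq_zero.1 e2).resolve_left hbe2
    have e3 : 4 * la = 0 := by
      linear_combination (-4 * la) * hzb + 4 * la * hZb + 4 * lb * hza - 4 * lb * hZa
        + th * lb * e1' - th * la * e2'
    have e4 := (mul_eq_zero.1 e3).resolve_left h4
    rw [e4, mul_zero, add_zero] at e1'
    exact hwa ((mul_eq_zero.1 e1').resolve_left h4)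
  exact ⟨H, be, g, rho, hH, hbe0, hg0, hgg, hD, ha1, hb1, ha2, hb2, hZa, hZb, hWa, hWb⟩

lemma onL_iff {x0 x1 x2 y0 y1 y2 P0 P1 P2 Y : L} (h : PL x0 x1 x2 y0 y1 y2) :
    OnL x0 x1 x2 y0 y1 y2 P0 P1 P2 Y ↔ P1 = (x1 * P0 + y2 * Y) / x0 ∧ P2 = (x2 * P0 - y1 * Y) / x0 := by
  obtain ⟨hx0, -, -, -, -, -, he⟩ := h
  constructor
  · rintro ⟨-, h2, h3⟩
    constructor
    · rw [eq_div_iff hx0]
      linear_combination h3
    · rw [eq_div_iff hx0]
      linear_combination (-1) * h2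
  · rintro ⟨h1, h2⟩
    rw [eq_div_iff hx0] at h1 h2
    refine ⟨?_, by linear_combination (-1) * h2, by linear_combination h1⟩
    have : x0 * (x1 * P2 - x2 * P1 - Y * y0) = 0 := by
      linear_combination x1 * h2 - x2 * h1 - Y * he
    rcases mul_eq_zero.1 this with h | h
    · exact absurd h hx0
    · linear_combination h

theorem CH1 : S_CH1 := by
  intro L _ th x0 x1 x2 y0 y1 y2 s t mu eta mu2 eta2 h2 hth hPL hs ht hR1 hR2 hex
  have hPL' := hPL
  obtain ⟨hx0, hx1, hx2, hy0, hy1, hy2, he⟩ := hPL'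
  obtain ⟨ua, hua⟩ : ∃ ua, ua = t * x2 / x0 := ⟨_, rfl⟩
  obtain ⟨ub, hub⟩ : ∃ ub, ub = -(t * y1 / x0) := ⟨_, rfl⟩
  obtain ⟨wa, hwa⟩ : ∃ wa, wa = x1 / (x0 * s * t) := ⟨_, rfl⟩
  obtain ⟨wb, hwb⟩ : ∃ wb, wb = y2 / (x0 * s * t) := ⟨_, rfl⟩
  have hst : s * t ≠ 0 := mul_ne_zero hs ht
  have hU : ∀ p Y, t * ((x2 * p - y1 * Y) / x0) = ua * p + ub * Y := by
    intro p Y
    rw [hua, hub]
    field_simp
    ring
  have hW : ∀ p Y, (x1 * p + y2 * Y) / x0 / (s * t) = wa * p + wb * Y := by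
    intro p Y
    rw [hwa, hwb]
    field_simp
  have hr : ∀ p Y, (mu * s * p + eta * Y) ^ 2 =
      Y ^ 2 - th * (s * p) * Y + (s * p) ^ 2 + (ua * p + ub * Y) * (wa * p + wb * Y) := by
    intro p Y
    have h := hR1 p _ _ Y ((onL_iff hPL).2 ⟨rfl, rfl⟩)
    rw [← hU, ← hW, ← h]
    unfold Dq
    field_simp
  have hq : ∀ p Y, (mu2 * (ua * p + ub * Y) + eta2 * Y) ^ 2 =
      Y ^ 2 - th * (ua * p + ub * Y) * Y + (ua * p + ub * Y) ^ 2 + (s * p) * (wa * p + wb * Y) := by
    intro p Y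
    have h0 : OnL x2 x0 x1 y2 y0 y1 ((x2 * p - y1 * Y) / x0) p ((x1 * p + y2 * Y) / x0) Y := by
      obtain ⟨h1, h2, h3⟩ := (onL_iff (P0 := p) (Y := Y) hPL).2 ⟨rfl, rfl⟩
      exact ⟨h3, h1, h2⟩
    have h := hR2 _ _ _ Y h0
    rw [← hU, ← hW]
    have e : (mu2 * (t * ((x2 * p - y1 * Y) / x0)) + eta2 * Y) =
        mu2 * t * ((x2 * p - y1 * Y) / x0) + eta2 * Y := by ring
    rw [e, ← h]
    unfold Dq
    field_simp
  -- coefficients
  have r10 := hr 1 0
  have r01 := hr 0 1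
  have r11 := hr 1 1
  have q10 := hq 1 0
  have q01 := hq 0 1
  have q11 := hq 1 1
  obtain ⟨H, be, g, rho, hH, hbe, hg, hbg, hD, ha1, hb1, ha2, hb2, hZa, hZb, hWa, hWb⟩ :=
    core th s ua ub wa wb (mu * s) eta (mu2 * ua) (mu2 * ub + eta2) h2 hth
      (by linear_combination r10) (by linear_combination r01)
      (by linear_combination r11 - r10 - r01)
      (by linear_combination q10) (by linear_combination q01)
      (by linear_combination q11 - q10 - q01)
      (by rw [hub]; exact neg_ne_zero.2 (div_ne_zero (mul_ne_zero ht hy1) hx0))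
      (by rw [hwa]; exact div_ne_zero hx1 (mul_ne_zero (mul_ne_zero hx0 hs) ht))
      (by
        rintro ⟨h1, h3⟩
        obtain ⟨P0, P1, P2, Y, hP, hl⟩ := hex
        apply hl
        obtain ⟨e1, e2⟩ := (onL_iff hPL).1 hP
        unfold l2
        rw [e1, e2, hU, hW]
        linear_combination P0 * h1 + Y * h3)
  refine ⟨H, be, g, rho, hH, hbe, hg, hbg, ?_, ?_⟩
  · intro a b hab
    have key : ∀ p Y : L, a * (s * p - (ua * p + ub * Y)) +
        b * (s * p + (ua * p + ub * Y) - th * Y - (wa * p + wb * Y)) = 0 := by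
      intro p Y
      have h := hab p _ _ Y ((onL_iff hPL).2 ⟨rfl, rfl⟩)
      unfold l1 l2 at h
      rw [hU, hW] at h
      exact h
    have k1 := key 1 0
    have k2 := key 0 1
    constructor
    · have : a * ((s - ua) * (ub - th - wb) - (-ub) * (s + ua - wa)) = 0 := by
        linear_combination (ub - th - wb) * k1 - (s + ua - wa) * k2
      exact (mul_eq_zero.1 this).resolve_right hD
    · have : b * ((s - ua) * (ub - th - wb) - (-ub) * (s + ua - wa)) = 0 := by
        linear_combination (s - ua) * k2 - (-ub) * k1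
      exact (mul_eq_zero.1 this).resolve_right hD
  · intro P0 P1 P2 Y hP
    obtain ⟨e1, e2⟩ := (onL_iff hPL).1 hP
    have hU' : t * P2 = ua * P0 + ub * Y := by rw [e2, hU]
    have hW' : P1 / (s * t) = wa * P0 + wb * Y := by rw [e1, hW]
    have hl1 : l1 s t P0 P2 = (s - ua) * P0 + (-ub) * Y := by
      unfold l1
      rw [hU']
      ring
    have hl2 : l2 th s t P0 P1 P2 Y = (s + ua - wa) * P0 + (ub - th - wb) * Y := by
      unfold l2
      rw [hU', hW']
      ring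
    have hr2 : mu2 * t * P2 = mu2 * (ua * P0 + ub * Y) := by rw [← hU']; ring
    rw [hl1, hl2, hr2, hW']
    refine ⟨?_, ?_, ?_, ?_⟩
    · linear_combination P0 * ha1 + Y * hb1
    · rw [eq_div_iff hbe]
      linear_combination P0 * ha2 + Y * hb2
    · linear_combination P0 * hZa + Y * hZb
    · rw [← hbg]
      have hbe2 : be ^ 2 ≠ 0 := pow_ne_zero _ hbe
      have : be ^ 2 * (4 * (wa * P0 + wb * Y)) = be ^ 2 * (-2 * g * rho *
          ((s - ua) * P0 + -ub * Y) - (g ^ 2 / be ^ 2 + rho ^ 2) *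
            ((s + ua - wa) * P0 + (ub - th - wb) * Y)) := by
        have e : be ^ 2 * (g ^ 2 / be ^ 2) = g ^ 2 := mul_div_cancel₀ _ hbe2
        linear_combination P0 * hWa + Y * hWb -
          ((s + ua - wa) * P0 + (ub - th - wb) * Y) * e * (-1)
      exact mul_left_cancel₀ hbe2 this

end Pool.Agent.TH989.J3570
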