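import Pool.Agent.TH614.HS.Base

/-!
Project HS (helper614), job 3866: the sign formula at a simple circle root.
-/

set_option autoImplicit false

namespace Pool.Agent.TH989.J3866

open Pool.Agent.TH614.HS Pool.Agent.TH614.HS.HD

lemma nm_eq {L : Type} [Field L] (D : HD L) {s : L} (hs : D.circ s) :
    s * D.nt s * s ^ (D.q ^ 2) = D.Nm s := by
  rw [hs.nt]
  unfold Nm
  rw [pow_add, pow_add, pow_one]
  ring

lemma nm_q {L : Type} [Field L] (D : HD L) {s : L} (hs : D.circ s) :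
    D.Nm s ^ D.q = (D.Nm s)⁻¹ := by
  have h3 := hs.inv
  have h4 : s ^ (D.q ^ 4) = (s ^ D.q)⁻¹ := by
    rw [← D.pq s 3, h3, inv_pow]
  have h5 : s ^ (D.q ^ 5) = (s ^ (D.q ^ 2))⁻¹ := by
    rw [← D.pp s 3 2, h3, inv_pow]
  have hsq : s ^ D.q ≠ 0 := pow_ne_zero _ hs.ne
  have e : D.Nm s = s * s ^ (D.q ^ 4) * s ^ (D.q ^ 2) := by
    rw [← nm_eq D hs, hs.nt]
  rw [e, mul_pow, mul_pow, D.pq, D.pq, h5, h3, h4]
  field_simp

theorem T : S_T1 → S_TA → S_TB → S_TC → S_T := by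
  intro hT1 hTA hTB hTC L _ _ D x s mu eta e be g rho ep hx hs hSg hEp
  obtain ⟨hbe3, b, hb1, hb2, hTri⟩ := hT1 L D x s mu eta e be g rho ep hx hs hSg hEp
  obtain ⟨hRD, -, hC2⟩ := hSg
  obtain ⟨he, hbe, hg, hbg, hind, -⟩ := hC2.1
  obtain ⟨hep, -⟩ := hEp
  have hs0 : s ≠ 0 := hs.ne
  have ht0 : D.nt s ≠ 0 := by rw [hs.nt]; exact pow_ne_zero _ hs0
  have hu0 : s ^ (D.q ^ 2) ≠ 0 := pow_ne_zero _ hs0
  have hnu := nm_eq D hs
  have hnu0 : D.Nm s ≠ 0 := by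
    rw [← hnu]
    exact mul_ne_zero (mul_ne_zero hs0 ht0) hu0
  have hev : 2 * ((D.q + 1) / 2) = D.q + 1 := by
    have := D.h4
    omega
  have hcase : (e * ep = 1 ∧ e = ep) ∨ (e * ep = -1 ∧ e = -ep) := by
    rcases he with h | h <;> rcases hep with h' | h' <;> rw [h, h'] <;> norm_num
  rcases hcase with ⟨hk, hee⟩ | ⟨hk, hee⟩
  · rw [hk] at hTri hb1 hb2
    obtain ⟨h1, h2, h3⟩ := hTA L D.th _ _ _ _ _ _ s (D.nt s) (s ^ (D.q ^ 2)) be b (be ^ (D.q ^ 2))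
      mu eta _ _ _ _ D.two_ne D.th2 hx.PL hs0 ht0 hu0 hRD.2 hind hTri
    rw [hnu] at h3
    have hg2 : g ^ 2 = (D.Nm s)⁻¹ := by
      rw [one_div] at h3
      linear_combination h3 - hbg
    have hbeq : be ^ (D.q ^ 3) = be ^ D.q := by
      rw [← D.pq be 2, ← h2]
    rw [hbeq, eq_div_iff hg] at hbe3
    have hbq : be ^ D.q ≠ 0 := pow_ne_zero _ hbe
    have hg1 : g ^ (D.q + 1) = 1 := by
      have e1 : (be ^ D.q * g) ^ (D.q + 1) = (-ep * be) ^ (D.q + 1) := by rw [hbe3]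
      have e2 : (-ep) ^ (D.q + 1) = 1 := by
        rw [← hev, pow_mul]
        rcases hep with h | h <;> rw [h] <;> norm_num
      have e3 : (be ^ D.q) ^ (D.q + 1) = be ^ (D.q + 1) := by
        rw [pow_succ, D.qq, ← h2, pow_succ]
        ring
      rw [mul_pow, mul_pow, e2, one_mul, e3] at e1
      exact mul_left_cancel₀ (pow_ne_zero _ hbe) (by rw [e1, mul_one])
    have hm : D.Nm s ^ ((D.q + 1) / 2) = 1 := by
      rw [← hev, pow_mul, hg2, inv_pow, inv_eq_one] at hg1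
      exact hg1
    rw [hm, mul_one, hee]
  · rw [hk] at hTri hb1 hb2
    have h1 := hTB L D.th _ _ _ _ _ _ s (D.nt s) (s ^ (D.q ^ 2)) be b (be ^ (D.q ^ 2))
      mu eta _ _ _ _ D.two_ne D.th2 hx.PL hs0 ht0 hu0 hTri
    rw [hnu] at h1
    rw [D.pp] at hb2
    norm_num at hb2
    have hb : b = -be ^ (D.q ^ 4) := by rw [hb2, neg_neg]
    have h6 : be ^ (D.q ^ 6) = be := by
      have e1 : be ^ (D.q ^ 6) = (be ^ (D.q ^ 4)) ^ (D.q ^ 2) := by rw [D.pp]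
      rw [e1, hb2, D.negn, hb1]
      ring
    have hm := hTC L D be g ep (D.Nm s) hep hbe hg hbg h6 hbe3 hnu0 (nm_q D hs) (by
      rw [h1, hb]
      ring)
    rw [hm, hee]
    ring

end Pool.Agent.TH989.J3866
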