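import Pool.Agent.TH793.SB.Defs

set_option autoImplicit false

/-!
# The frozen statement S15767 from the tiling theorem

The interaction `Ph` gives energy one to every star `{u, u + e₀, u + e₁, u + e₂}` at which the
configuration violates a matching condition.
-/

namespace Pool.Agent.TH989.J591

open Pool.Agent.TH793.SB MeasureTheory

/-- number of tiles -/
abbrev nT : ℕ := Fintype.card Tile

/-- spin configurations -/
abbrev Conf : Type := Site → Fin nT

/-- numbering of the tiles -/
noncomputable def ee : Tile ≃ Fin nT := Fintype.equivFin Tile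

/-- the tiling of a spin configuration -/
noncomputable def tl (X : Conf) : Cfg := fun u => ee.symm (X u)

/-- the star of a site -/
def star (u : Site) : Finset Site := insert u (Finset.univ.image fun i : Fin 3 => u + st i 1)

lemma mem_star {u v : Site} : v ∈ star u ↔ v = u ∨ ∃ i, v = u + st i 1 := by
  simp only [star, Finset.mem_insert, Finset.mem_image, Finset.mem_univ, true_and]
  constructor
  · rintro (h | ⟨i, h⟩)
    · exact Or.inl h
    · exact Or.inr ⟨i, h.symm⟩
  · rintro (h | ⟨i, h⟩)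
    · exact Or.inl h
    · exact Or.inr ⟨i, h.symm⟩

lemma st_apply (i j : Fin 3) (n : ℤ) : st i n j = if j = i then n else 0 := rfl

lemma star_inj {u v : Site} (h : star u = star v) : u = v := by
  have h1 : u ∈ star v := h ▸ mem_star.mpr (Or.inl rfl)
  have h2 : v ∈ star u := h ▸ mem_star.mpr (Or.inl rfl)
  rcases mem_star.mp h1 with h1 | ⟨i, h1⟩
  · exact h1
  rcases mem_star.mp h2 with h2 | ⟨j, h2⟩
  · exact h2.symm
  exfalso
  have h3 := congrFun h1 i
  have h4 := congrFun h2 i
  simp only [Pi.add_apply, st_apply, if_true] at h3 h4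
  split_ifs at h4 <;> omega

lemma star_image (u a : Site) : (star u).image (fun i => i + a) = star (u + a) := by
  ext v
  simp only [Finset.mem_image, mem_star]
  constructor
  · rintro ⟨w, (rfl | ⟨i, rfl⟩), rfl⟩
    · exact Or.inl rfl
    · exact Or.inr ⟨i, by abel⟩
  · rintro (rfl | ⟨i, rfl⟩)
    · exact ⟨u, Or.inl rfl, rfl⟩
    · exact ⟨u + st i 1, Or.inr ⟨i, rfl⟩, by abel⟩

lemma good_congr {Y Z : Cfg} {u : Site} (h : ∀ v ∈ star u, Y v = Z v) :
    Good Y u ↔ Good Z u := by
  unfold Good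
  have h0 := h u (mem_star.mpr (Or.inl rfl))
  constructor
  · intro hY i
    rw [← h0, ← h _ (mem_star.mpr (Or.inr ⟨i, rfl⟩))]
    exact hY i
  · intro hY i
    rw [h0, h _ (mem_star.mpr (Or.inr ⟨i, rfl⟩))]
    exact hY i

lemma tl_congr {X Y : Conf} {u : Site} (h : X u = Y u) : tl X u = tl Y u := by
  unfold tl; rw [h]

open scoped Classical in
/-- indicator of a bad site -/
noncomputable def bd (X : Conf) (u : Site) : ℝ := if Good (tl X) u then 0 else 1

lemma bd_nonneg (X : Conf) (u : Site) : 0 ≤ bd X u := by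
  unfold bd; split_ifs <;> norm_num

lemma bd_le_one (X : Conf) (u : Site) : bd X u ≤ 1 := by
  unfold bd; split_ifs <;> norm_num

lemma bd_congr {X Y : Conf} {u : Site} (h : ∀ v ∈ star u, X v = Y v) : bd X u = bd Y u := by
  unfold bd
  have := good_congr (Y := tl X) (Z := tl Y) (u := u) fun v hv => tl_congr (h v hv)
  by_cases h1 : Good (tl X) u
  · rw [if_pos h1, if_pos (this.mp h1)]
  · rw [if_neg h1, if_neg fun h2 => h1 (this.mpr h2)]

lemma bd_shift (X : Conf) (a u : Site) : bd (fun i => X (i - a)) (u + a) = bd X u := by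
  unfold bd
  have : Good (tl fun i => X (i - a)) (u + a) ↔ Good (tl X) u := by
    unfold Good tl
    have e1 : u + a - a = u := by abel
    have e2 : ∀ i, u + a + st i 1 - a = u + st i 1 := fun i => by abel
    simp only [e1, e2]
  by_cases h1 : Good (tl X) u
  · rw [if_pos h1, if_pos (this.mpr h1)]
  · rw [if_neg h1, if_neg fun h2 => h1 (this.mp h2)]

open scoped Classical in
/-- the interaction -/
noncomputable def Ph (Λ : Finset Site) (X : Conf) : ℝ :=
  if ∃ u, Λ = star u ∧ ¬ Good (tl X) u then 1 else 0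

lemma Ph_star (u : Site) (X : Conf) : Ph (star u) X = bd X u := by
  unfold Ph bd
  by_cases h : Good (tl X) u
  · rw [if_pos h, if_neg]
    rintro ⟨v, hv, hv2⟩
    rw [← star_inj hv] at hv2
    exact hv2 h
  · rw [if_neg h, if_pos ⟨u, rfl, h⟩]

lemma Ph_of_not {Λ : Finset Site} (h : ∀ u, Λ ≠ star u) (X : Conf) : Ph Λ X = 0 := by
  unfold Ph
  rw [if_neg]
  rintro ⟨u, hu, -⟩
  exact h u hu

lemma Ph_nonneg (Λ : Finset Site) (X : Conf) : 0 ≤ Ph Λ X := by
  unfold Ph; split_ifs <;> norm_num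

lemma Ph_local (Λ : Finset Site) (X Y : Conf) (h : ∀ i ∈ Λ, X i = Y i) : Ph Λ X = Ph Λ Y := by
  by_cases hs : ∃ u, Λ = star u
  · obtain ⟨u, rfl⟩ := hs
    rw [Ph_star, Ph_star]
    exact bd_congr h
  · push Not at hs
    rw [Ph_of_not hs, Ph_of_not hs]

lemma Ph_shift (Λ : Finset Site) (X : Conf) (a : Site) :
    Ph (Λ.image (fun i => i + a)) (fun i => X (i - a)) = Ph Λ X := by
  by_cases hs : ∃ u, Λ = star u
  · obtain ⟨u, rfl⟩ := hs
    rw [star_image, Ph_star, Ph_star]
    exact bd_shift X a u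
  · push Not at hs
    rw [Ph_of_not hs, Ph_of_not]
    intro u hu
    apply hs (u - a)
    have h1 : (Λ.image (fun i => i + a)).image (fun i => i + (-a)) = Λ := by
      rw [Finset.image_image]
      have : ((fun i : Site => i + (-a)) ∘ fun i => i + a) = id := by
        funext i
        simp
      rw [this, Finset.image_id]
    rw [← h1, hu, star_image, sub_eq_add_neg]

lemma star_diam {u i j : Site} (hi : i ∈ star u) (hj : j ∈ star u) (k : Fin 3) :
    |i k - j k| ≤ 1 := by
  have key : ∀ v ∈ star u, u k ≤ v k ∧ v k ≤ u k + 1 := by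
    intro v hv
    rcases mem_star.mp hv with rfl | ⟨l, rfl⟩
    · constructor <;> linarith
    · simp only [Pi.add_apply, st_apply]
      split_ifs <;> constructor <;> linarith
  have h1 := key i hi
  have h2 := key j hj
  rw [abs_le]
  constructor <;> linarith

/-- admissible interactions -/
def Adm (Φ : Finset Site → Conf → ℝ) : Prop :=
  (∀ (Λ : Finset Site) (X Y : Conf), (∀ i ∈ Λ, X i = Y i) → Φ Λ X = Φ Λ Y) ∧
  (∀ (Λ : Finset Site) (X : Conf) (a : Site),
    Φ (Λ.image (fun i => i + a)) (fun i => X (i - a)) = Φ Λ X) ∧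
  (∃ R : ℕ, ∀ Λ : Finset Site, (∃ i ∈ Λ, ∃ j ∈ Λ, ∃ k : Fin 3, (R : ℤ) < |i k - j k|) →
    ∀ X : Conf, Φ Λ X = 0)

lemma adm_Ph : Adm Ph := by
  refine ⟨Ph_local, Ph_shift, 1, ?_⟩
  rintro Λ ⟨i, hi, j, hj, k, hk⟩ X
  apply Ph_of_not
  rintro u rfl
  have := star_diam hi hj k
  push_cast at hk
  linarith

/-- centred box as a finset -/
noncomputable def bx (d : Site) (R : ℕ) : Finset Site :=
  Fintype.piFinset fun k => Finset.Icc (d k - R) (d k + R)

lemma mem_bx {d v : Site} {R : ℕ} : v ∈ bx d R ↔ ∀ k, |v k - d k| ≤ R := by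
  simp only [bx, Fintype.mem_piFinset, Finset.mem_Icc, abs_le]
  constructor
  · intro h k
    have := h k
    constructor <;> linarith [this.1, this.2]
  · intro h k
    have := h k
    constructor <;> linarith [this.1, this.2]

/-- neighbourhood -/
noncomputable def nbh (D : Finset Site) (R : ℕ) : Finset Site := D.biUnion fun d => bx d R

lemma mem_nbh {D : Finset Site} {R : ℕ} {v : Site} :
    v ∈ nbh D R ↔ ∃ d ∈ D, ∀ k, |v k - d k| ≤ R := by
  simp only [nbh, Finset.mem_biUnion, mem_bx]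

/-- an interaction changes only near the changed sites -/
lemma supp_sub {Φ : Finset Site → Conf → ℝ}
    (h1 : ∀ (Λ : Finset Site) (X Y : Conf), (∀ i ∈ Λ, X i = Y i) → Φ Λ X = Φ Λ Y) {R : ℕ}
    (h3 : ∀ Λ : Finset Site, (∃ i ∈ Λ, ∃ j ∈ Λ, ∃ k : Fin 3, (R : ℤ) < |i k - j k|) →
      ∀ X : Conf, Φ Λ X = 0) {X Y : Conf} {D : Finset Site} (hD : ∀ v ∉ D, Y v = X v)
    {Λ : Finset Site} (h : Φ Λ Y - Φ Λ X ≠ 0) :
    Λ.Nonempty ∧ (∀ a ∈ Λ, Λ ⊆ bx a R) ∧ Λ ⊆ nbh D R := by
  have hm : ∃ i ∈ Λ, i ∈ D := by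
    by_contra hcon
    push Not at hcon
    apply h
    rw [h1 Λ Y X fun i hi => hD i (hcon i hi), sub_self]
  have hd : ∀ i ∈ Λ, ∀ j ∈ Λ, ∀ k : Fin 3, |i k - j k| ≤ R := by
    by_contra hcon
    push Not at hcon
    apply h
    rw [h3 Λ hcon, h3 Λ hcon, sub_self]
  obtain ⟨i, hi, hiD⟩ := hm
  refine ⟨⟨i, hi⟩, fun a ha v hv => mem_bx.mpr fun k => hd v hv a ha k, fun v hv => ?_⟩
  exact mem_nbh.mpr ⟨i, hiD, fun k => hd v hv i hi k⟩

/-- the sum of the energy differences as a sum over bad sites -/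
lemma sum_Ph {X Y : Conf} {D N : Finset Site} (hD : ∀ v ∉ D, Y v = X v)
    (hN : ∀ u, (∃ v ∈ star u, v ∈ D) → u ∈ N) :
    ∑ᶠ Λ : Finset Site, (Ph Λ Y - Ph Λ X) = ∑ u ∈ N, (bd Y u - bd X u) := by
  classical
  rw [finsum_eq_sum_of_support_subset (s := N.image star)]
  · rw [Finset.sum_image fun u _ v _ h => star_inj h]
    refine Finset.sum_congr rfl fun u _ => ?_
    rw [Ph_star, Ph_star]
  · intro Λ hΛ
    rw [Function.mem_support] at hΛ
    rw [Finset.mem_coe, Finset.mem_image]
    by_cases hs : ∃ u, Λ = star u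
    · obtain ⟨u, rfl⟩ := hs
      refine ⟨u, hN u ?_, rfl⟩
      by_contra hcon
      push Not at hcon
      apply hΛ
      rw [Ph_local (star u) Y X fun i hi => hD i (hcon i hi), sub_self]
    · push Not at hs
      exfalso
      apply hΛ
      rw [Ph_of_not hs, Ph_of_not hs, sub_self]

lemma star_nbh {D : Finset Site} {u : Site} (h : ∃ v ∈ star u, v ∈ D) : u ∈ nbh D 1 := by
  obtain ⟨v, hv, hD⟩ := h
  refine mem_nbh.mpr ⟨v, hD, fun k => ?_⟩
  have := star_diam (mem_star.mpr (Or.inl rfl) : u ∈ star u) hv k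
  simpa using this

/-- for a valid configuration the energy difference is the number of bad sites -/
lemma sum_Ph_valid {X Y : Conf} (hX : Valid (tl X)) (hf : {i | Y i ≠ X i}.Finite) :
    ∑ᶠ Λ : Finset Site, (Ph Λ Y - Ph Λ X) = ((bad (tl Y)).ncard : ℝ) := by
  classical
  set D := hf.toFinset with hDdef
  have hD : ∀ v ∉ D, Y v = X v := by
    intro v hv
    by_contra h
    exact hv (hf.mem_toFinset.mpr h)
  rw [sum_Ph (N := nbh D 1) hD fun u hu => star_nbh hu]
  have h1 : bad (tl Y) = ((nbh D 1).filter fun u => ¬ Good (tl Y) u : Finset Site) := by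
    ext u
    simp only [bad, Set.mem_ofPred_eq, Finset.coe_filter]
    constructor
    · intro h
      refine ⟨?_, h⟩
      apply star_nbh
      by_contra hcon
      push Not at hcon
      exact h ((good_congr fun v hv => tl_congr (hD v (hcon v hv))).mpr (hX u))
    · exact fun h => h.2
  rw [h1, Set.ncard_coe_finset, Finset.card_filter]
  push_cast
  refine Finset.sum_congr rfl fun u _ => ?_
  unfold bd
  rw [if_pos (hX u), sub_zero]
  by_cases h : Good (tl Y) u
  · simp [h]
  · simp [h]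


/-! ## stability -/

/-- extension of a pattern -/
noncomputable def xt (W : Finset Site) (p : W → Fin nT) (X0 : Conf) : Conf :=
  fun u => if h : u ∈ W then p ⟨u, h⟩ else X0 u

/-- a local function is a combination of indicators of patterns -/
lemma local_expand (W : Finset Site) (G : Conf → ℝ) (X0 : Conf)
    (hG : ∀ X Y : Conf, (∀ i ∈ W, X i = Y i) → G X = G Y) (Z : Conf) :
    G Z = ∑ p : W → Fin nT, G (xt W p X0) * (if ∀ i ∈ W, tl Z i = tl (xt W p X0) i then 1 else 0) := by
  classical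
  have hiff : ∀ p : W → Fin nT, (∀ i ∈ W, tl Z i = tl (xt W p X0) i) ↔ p = fun i => Z i.1 := by
    intro p
    constructor
    · intro h
      funext i
      have h1 := h i.1 i.2
      unfold tl at h1
      have h2 := ee.symm.injective h1
      rw [h2]
      unfold xt
      rw [dif_pos i.2]
    · rintro rfl i hi
      unfold tl xt
      rw [dif_pos hi]
  rw [Finset.sum_eq_single (fun i : W => Z i.1)]
  · rw [if_pos ((hiff _).mpr rfl), mul_one]
    apply hG
    intro i hi
    unfold xt
    rw [dif_pos hi]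
  · intro p _ hp
    rw [if_neg fun h => hp ((hiff p).mp h), mul_zero]
  · intro h
    exact absurd (Finset.mem_univ _) h

/-- the energy difference of a finite range interaction is at most a constant times the number of
bad sites -/
lemma diff_bound (hS : SBC) {Φ : Finset Site → Conf → ℝ} (hΦ : Adm Φ) :
    ∃ C : ℝ, 0 ≤ C ∧ ∀ X Y : Conf, Valid (tl X) → {i | Y i ≠ X i}.Finite →
      |∑ᶠ Λ : Finset Site, (Φ Λ Y - Φ Λ X)| ≤ C * ((bad (tl Y)).ncard : ℝ) := by
  classical
  obtain ⟨h1, h2, R, h3⟩ := hΦ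
  set W : Finset Site := bx 0 R with hW
  set P : Finset (Finset Site) := W.powerset with hP
  set G : Conf → ℝ := fun Z => ∑ Λ ∈ P, if (0 : Site) ∈ Λ then Φ Λ Z / Λ.card else 0 with hGdef
  have hG : ∀ X Y : Conf, (∀ i ∈ W, X i = Y i) → G X = G Y := by
    intro X Y h
    rw [hGdef]
    refine Finset.sum_congr rfl fun Λ hΛ => ?_
    rw [h1 Λ X Y fun i hi => h i (Finset.mem_powerset.mp hΛ hi)]
  by_cases hne : Nonempty Conf
  swap
  · exact ⟨0, le_rfl, fun X => absurd ⟨X⟩ hne⟩
  obtain ⟨X0⟩ := hne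
  choose C hC using fun p : W → Fin nT => hS W (tl (xt W p X0))
  refine ⟨∑ p : W → Fin nT, |G (xt W p X0)| * |C p|,
    Finset.sum_nonneg fun p _ => mul_nonneg (abs_nonneg _) (abs_nonneg _), ?_⟩
  intro X Y hX hf
  set D := hf.toFinset with hDdef
  have hD : ∀ v ∉ D, Y v = X v := by
    intro v hv
    by_contra h
    exact hv (hf.mem_toFinset.mpr h)
  set N := nbh D R with hN
  set f : Finset Site → ℝ := fun Λ => Φ Λ Y - Φ Λ X with hfdef
  have hsupp : ∀ {Λ : Finset Site}, f Λ ≠ 0 → Λ.Nonempty ∧ (∀ a ∈ Λ, Λ ⊆ bx a R) ∧ Λ ⊆ N :=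
    fun h => supp_sub h1 h3 hD h
  -- the translated interaction
  have htr : ∀ (Λ : Finset Site) (a : Site) (Z : Conf),
      Φ (Λ.image fun i => i + a) Z = Φ Λ fun i => Z (i + a) := by
    intro Λ a Z
    have := h2 Λ (fun i => Z (i + a)) a
    simpa using this
  -- step 1
  have e1 : ∑ᶠ Λ : Finset Site, (Φ Λ Y - Φ Λ X) =
      ∑ a ∈ N, (G (fun i => Y (i + a)) - G (fun i => X (i + a))) := by
    have s1 : ∑ᶠ Λ : Finset Site, (Φ Λ Y - Φ Λ X) = ∑ Λ ∈ N.powerset, f Λ := by
      apply finsum_eq_sum_of_support_subset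
      intro Λ hΛ
      exact Finset.mem_coe.mpr (Finset.mem_powerset.mpr (hsupp hΛ).2.2)
    have s2 : ∀ Λ ∈ N.powerset, f Λ = ∑ a ∈ N, if a ∈ Λ then f Λ / Λ.card else 0 := by
      intro Λ hΛ
      rw [← Finset.sum_filter, Finset.sum_const, Finset.filter_mem_eq_inter,
        Finset.inter_eq_right.mpr (Finset.mem_powerset.mp hΛ), nsmul_eq_mul]
      by_cases h0 : f Λ = 0
      · rw [h0]; simp
      · have := Finset.card_pos.mpr (hsupp h0).1
        have h5 : (Λ.card : ℝ) ≠ 0 := by positivity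
        field_simp
    rw [s1, Finset.sum_congr rfl s2, Finset.sum_comm]
    refine Finset.sum_congr rfl fun a _ => ?_
    set g : Finset Site → ℝ := fun Λ => if a ∈ Λ then f Λ / Λ.card else 0 with hg
    have hgf : ∀ {Λ : Finset Site}, g Λ ≠ 0 → a ∈ Λ ∧ f Λ ≠ 0 := by
      intro Λ h
      by_cases ha : a ∈ Λ
      · refine ⟨ha, fun h0 => h ?_⟩
        simp only [hg, if_pos ha, h0, zero_div]
      · exact absurd (by simp only [hg, if_neg ha]) h
    have s3 : ∑ Λ ∈ N.powerset, g Λ = ∑ᶠ Λ, g Λ := by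
      symm
      apply finsum_eq_sum_of_support_subset
      intro Λ hΛ
      exact Finset.mem_coe.mpr (Finset.mem_powerset.mpr (hsupp (hgf hΛ).2).2.2)
    have s4 : ∑ᶠ Λ, g Λ = ∑ Λ ∈ P.image (fun Λ => Λ.image fun i => i + a), g Λ := by
      apply finsum_eq_sum_of_support_subset
      intro Λ hΛ
      obtain ⟨ha, hf0⟩ := hgf hΛ
      obtain ⟨-, hb, -⟩ := hsupp hf0
      rw [Finset.mem_coe, Finset.mem_image]
      refine ⟨Λ.image fun i => i + (-a), ?_, ?_⟩
      · rw [hP, Finset.mem_powerset]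
        intro v hv
        rw [Finset.mem_image] at hv
        obtain ⟨w, hw, rfl⟩ := hv
        have := mem_bx.mp (hb a ha hw)
        rw [hW, mem_bx]
        intro k
        have := this k
        simpa [sub_eq_add_neg] using this
      · rw [Finset.image_image]
        have : ((fun i : Site => i + a) ∘ fun i => i + (-a)) = id := by
          funext i
          simp
        rw [this, Finset.image_id]
    rw [s3, s4, Finset.sum_image]
    · rw [hGdef]
      simp only
      rw [← Finset.sum_sub_distrib]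
      refine Finset.sum_congr rfl fun Λ _ => ?_
      have hmem : a ∈ Λ.image (fun i => i + a) ↔ (0 : Site) ∈ Λ := by
        rw [Finset.mem_image]
        constructor
        · rintro ⟨v, hv, hva⟩
          have : v = 0 := by simpa using hva
          rwa [this] at hv
        · intro h
          exact ⟨0, h, by simp⟩
      have hcard : (Λ.image fun i => i + a).card = Λ.card :=
        Finset.card_image_of_injective _ (add_left_injective a)
      simp only [hg, hmem, hcard, hfdef, htr]
      split_ifs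
      · rw [sub_div]
      · rw [sub_zero]
    · intro Λ _ Λ' _ h
      exact Finset.image_injective (add_left_injective a) h
  -- step 2
  have e2 : ∑ a ∈ N, (G (fun i => Y (i + a)) - G (fun i => X (i + a))) =
      ∑ p : W → Fin nT, G (xt W p X0) * ∑ a ∈ N,
        ((if ∀ i ∈ W, tl Y (i + a) = tl (xt W p X0) i then (1 : ℝ) else 0) -
          (if ∀ i ∈ W, tl X (i + a) = tl (xt W p X0) i then (1 : ℝ) else 0)) := by
    have : ∀ a ∈ N, G (fun i => Y (i + a)) - G (fun i => X (i + a)) =
        ∑ p : W → Fin nT, G (xt W p X0) *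
        ((if ∀ i ∈ W, tl Y (i + a) = tl (xt W p X0) i then (1 : ℝ) else 0) -
          (if ∀ i ∈ W, tl X (i + a) = tl (xt W p X0) i then (1 : ℝ) else 0)) := by
      intro a _
      rw [local_expand W G X0 hG (fun i => Y (i + a)), local_expand W G X0 hG (fun i => X (i + a)),
        ← Finset.sum_sub_distrib]
      refine Finset.sum_congr rfl fun p _ => ?_
      rw [← mul_sub]
      rfl
    rw [Finset.sum_congr rfl this, Finset.sum_comm]
    refine Finset.sum_congr rfl fun p _ => ?_
    rw [Finset.mul_sum]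
  have e3 : ∀ p : W → Fin nT, |∑ a ∈ N,
        ((if ∀ i ∈ W, tl Y (i + a) = tl (xt W p X0) i then (1 : ℝ) else 0) -
          (if ∀ i ∈ W, tl X (i + a) = tl (xt W p X0) i then (1 : ℝ) else 0))| ≤
        |C p| * ((bad (tl Y)).ncard : ℝ) := by
    intro p
    have hfin : {u | tl Y u ≠ tl X u}.Finite := by
      refine hf.subset fun u hu => ?_
      intro h
      exact hu (tl_congr h)
    have := hC p (tl X) (tl Y) hX hfin
    rw [finsum_eq_sum_of_support_subset (s := N)] at this
    · refine this.trans ?_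
      exact mul_le_mul_of_nonneg_right (le_abs_self _) (Nat.cast_nonneg _)
    · intro a ha
      rw [Function.mem_support] at ha
      rw [Finset.mem_coe]
      by_contra hcon
      apply ha
      have : ∀ i ∈ W, tl Y (i + a) = tl X (i + a) := by
        intro i hi
        apply tl_congr
        apply hD
        intro hiD
        apply hcon
        refine mem_nbh.mpr ⟨i + a, hiD, fun k => ?_⟩
        have := mem_bx.mp hi k
        simp only [Pi.add_apply, Pi.zero_apply, sub_zero] at this ⊢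
        rw [abs_sub_comm]
        simpa using this
      have h6 : (∀ i ∈ W, tl Y (i + a) = tl (xt W p X0) i) ↔
          (∀ i ∈ W, tl X (i + a) = tl (xt W p X0) i) := by
        constructor
        · intro h i hi
          rw [← this i hi]; exact h i hi
        · intro h i hi
          rw [this i hi]; exact h i hi
      simp only [h6, sub_self]
  rw [e1, e2, Finset.sum_mul]
  refine (Finset.abs_sum_le_sum_abs _ _).trans (Finset.sum_le_sum fun p _ => ?_)
  rw [abs_mul, mul_assoc]
  exact mul_le_mul_of_nonneg_left (e3 p) (abs_nonneg _)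


/-! ## ground states -/

/-- the valid configurations -/
def Om : Set Conf := {X | Valid (tl X)}

lemma isClosed_Om : IsClosed Om := by
  have : Om = ⋂ (u : Site) (i : Fin 3),
      (fun X : Conf => (X (u + st i 1), X u)) ⁻¹'
        {q | In i (ee.symm q.1) = Out i (ee.symm q.2) + 1} := by
    ext X
    simp only [Om, Valid, Good, tl, Set.mem_iInter, Set.mem_preimage, Set.mem_ofPred_eq]
  rw [this]
  refine isClosed_iInter fun u => isClosed_iInter fun i => ?_
  exact (isClosed_discrete _).preimage ((continuous_apply _).prodMk (continuous_apply _))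

lemma Om_shift {X : Conf} (hX : X ∈ Om) (a : Site) : (fun i => X (i - a)) ∈ Om := by
  intro u i
  have := hX (u - a) i
  unfold tl at this ⊢
  have e : u + st i 1 - a = u - a + st i 1 := by abel
  show In i (ee.symm (X (u + st i 1 - a))) = Out i (ee.symm (X (u - a))) + 1
  rw [e]
  exact this

lemma Om_nonempty (hE : Exist) : Om.Nonempty := by
  obtain ⟨X, hX⟩ := hE
  refine ⟨fun u => ee (X u), ?_⟩
  have : tl (fun u => ee (X u)) = X := by
    funext u
    simp [tl]
  show Valid (tl fun u => ee (X u))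
  rw [this]; exact hX

/-- bad at a site -/
def Bs (u : Site) : Set Conf := {X | ¬ Good (tl X) u}

lemma measurable_shift (a : Site) : Measurable fun X : Conf => fun i : Site => X (i - a) :=
  measurable_pi_lambda _ fun i => measurable_pi_apply (i - a)

lemma measurableSet_Bs (u : Site) : MeasurableSet (Bs u) := by
  have : Bs u = ⋃ i : Fin 3, (fun X : Conf => (X (u + st i 1), X u)) ⁻¹'
        {q | ¬ In i (ee.symm q.1) = Out i (ee.symm q.2) + 1} := by
    ext X
    simp only [Bs, Good, tl, Set.mem_iUnion, Set.mem_preimage, Set.mem_ofPred_eq, not_forall]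
  rw [this]
  refine MeasurableSet.iUnion fun i => ?_
  exact (MeasurableSet.of_discrete).preimage
    ((measurable_pi_apply _).prodMk (measurable_pi_apply _))

lemma Om_compl : Omᶜ = ⋃ u : Site, Bs u := by
  ext X
  simp only [Om, Valid, Bs, Set.mem_compl_iff, Set.mem_ofPred_eq, Set.mem_iUnion, not_forall]

lemma Bs_measure {ν : Measure Conf}
    (hinv : ∀ a : Site, ν.map (fun X : Conf => fun i => X (i - a)) = ν) (u : Site) :
    ν (Bs u) = ν (Bs 0) := by
  rw [← hinv u, Measure.map_apply (measurable_shift u) (measurableSet_Bs u), hinv u]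
  congr 1
  ext X
  have e1 : u - u = (0 : Site) := sub_self u
  have e2 : ∀ i, u + st i 1 - u = (0 : Site) + st i 1 := fun i => by abel
  simp only [Bs, Set.mem_preimage, Set.mem_ofPred_eq, Good, tl, e1, e2]

/-- cube -/
noncomputable def cb (a b : ℤ) : Finset Site := Fintype.piFinset fun _ => Finset.Ico a b

lemma mem_cb {a b : ℤ} {v : Site} : v ∈ cb a b ↔ ∀ k, a ≤ v k ∧ v k < b := by
  simp only [cb, Fintype.mem_piFinset, Finset.mem_Ico]

lemma card_cb (a b : ℤ) : (cb a b).card = (b - a).toNat ^ 3 := by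
  simp [cb, Fintype.card_piFinset]

/-- few bad sites in a cube of a ground-state configuration -/
lemma few_bad {X X0 : Conf} (h0 : Valid (tl X0))
    (hX : ∀ Y : Conf, {i | Y i ≠ X i}.Finite → 0 ≤ ∑ᶠ Λ : Finset Site, (Ph Λ Y - Ph Λ X))
    (L : ℕ) (hL : 1 ≤ L) : ∑ u ∈ cb 0 L, bd X u ≤ 8 * (L : ℝ) ^ 2 := by
  classical
  set Y : Conf := fun u => if u ∈ cb 0 L then X0 u else X u with hY
  have hD : ∀ v ∉ cb 0 (L : ℤ), Y v = X v := fun v hv => by simp only [hY, if_neg hv]
  have hfin : {i | Y i ≠ X i}.Finite := by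
    refine (cb 0 (L : ℤ)).finite_toSet.subset fun v hv => ?_
    by_contra h
    exact hv (hD v h)
  have hsum := hX Y hfin
  rw [sum_Ph (N := cb (-1) L) hD, Finset.sum_sub_distrib] at hsum
  · have h1 : ∑ u ∈ cb (-1) L, bd Y u ≤ ∑ u ∈ cb (-1) L \ cb 0 (L - 1), (1 : ℝ) := by
      rw [← Finset.sum_sdiff (s₁ := cb 0 ((L : ℤ) - 1)) (s₂ := cb (-1) L) (f := fun u => bd Y u)]
      · have : ∑ u ∈ cb 0 ((L : ℤ) - 1), bd Y u = 0 := by
          refine Finset.sum_eq_zero fun u hu => ?_
          have hh : bd Y u = bd X0 u := by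
            apply bd_congr
            intro v hv
            have : v ∈ cb 0 (L : ℤ) := by
              rw [mem_cb] at hu ⊢
              intro k
              have h2 := hu k
              rcases mem_star.mp hv with rfl | ⟨i, rfl⟩
              · constructor <;> linarith [h2.1, h2.2]
              · simp only [Pi.add_apply, st_apply]
                split_ifs <;> constructor <;> linarith [h2.1, h2.2]
            simp only [hY, if_pos this]
          rw [hh]
          unfold bd
          rw [if_pos (h0 u)]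
        rw [this, add_zero]
        exact Finset.sum_le_sum fun u _ => bd_le_one Y u
      · intro u hu
        rw [mem_cb] at hu ⊢
        intro k
        have := hu k
        constructor <;> linarith [this.1, this.2]
    have h2 : ∑ u ∈ cb 0 (L : ℤ), bd X u ≤ ∑ u ∈ cb (-1) (L : ℤ), bd X u := by
      apply Finset.sum_le_sum_of_subset_of_nonneg
      · intro u hu
        rw [mem_cb] at hu ⊢
        intro k
        have := hu k
        constructor <;> linarith [this.1, this.2]
      · intro u _ _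
        exact bd_nonneg X u
    have h3 : ∑ u ∈ cb (-1) L \ cb 0 ((L : ℤ) - 1), (1 : ℝ) ≤ 8 * (L : ℝ) ^ 2 := by
      rw [Finset.sum_const, nsmul_eq_mul, mul_one]
      have hsub : cb 0 ((L : ℤ) - 1) ⊆ cb (-1) L := by
        intro u hu
        rw [mem_cb] at hu ⊢
        intro k
        have := hu k
        constructor <;> linarith [this.1, this.2]
      have hc := Finset.card_sdiff_add_card_eq_card hsub
      rw [card_cb, card_cb] at hc
      have e1 : ((L : ℤ) - 1 - 0).toNat = L - 1 := by omega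
      have e2 : ((L : ℤ) - -1).toNat = L + 1 := by omega
      rw [e1, e2] at hc
      obtain ⟨M, rfl⟩ : ∃ M, L = M + 1 := ⟨L - 1, by omega⟩
      have e3 : M + 1 - 1 = M := by omega
      rw [e3] at hc
      generalize (cb (-1) ((M + 1 : ℕ) : ℤ) \ cb 0 (((M + 1 : ℕ) : ℤ) - 1)).card = q at hc ⊢
      have hc' : (q : ℝ) + (M : ℝ) ^ 3 = (M + 1 + 1 : ℝ) ^ 3 := by exact_mod_cast hc
      push_cast
      have hM : (0 : ℝ) ≤ M := Nat.cast_nonneg M
      nlinarith
    linarith
  · rintro u ⟨v, hv, hvD⟩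
    rw [mem_cb] at hvD ⊢
    intro k
    have h2 := hvD k
    rcases mem_star.mp hv with rfl | ⟨i, rfl⟩
    · constructor <;> linarith [h2.1, h2.2]
    · simp only [Pi.add_apply, st_apply] at h2
      split_ifs at h2 <;> constructor <;> linarith [h2.1, h2.2]

/-- ground state measures -/
def GSM (Φ : Finset Site → Conf → ℝ) (μ : Measure Conf) : Prop :=
  IsProbabilityMeasure μ ∧ (∀ a : Site, μ.map (fun X : Conf => fun i => X (i - a)) = μ) ∧
  (∀ᵐ X ∂μ, ∀ Y : Conf, {i | Y i ≠ X i}.Finite → 0 ≤ ∑ᶠ Λ : Finset Site, (Φ Λ Y - Φ Λ X))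

/-- ground state measures are carried by the valid configurations -/
lemma gsm_Om (hE : Exist) {ν : Measure Conf} (hν : GSM Ph ν) : ν Omᶜ = 0 := by
  classical
  obtain ⟨hp, hinv, hae⟩ := hν
  obtain ⟨X0, hX0⟩ := Om_nonempty hE
  have hb0 : ν (Bs 0) = 0 := by
    have key : ∀ L : ℕ, 1 ≤ L → (L : ℝ) ^ 3 * ν.real (Bs 0) ≤ 8 * (L : ℝ) ^ 2 := by
      intro L hL
      have hbd : ∀ u, (fun X => bd X u) = (Bs u).indicator (fun _ => (1 : ℝ)) := by
        intro u
        funext X
        unfold bd Bs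
        by_cases h : Good (tl X) u
        · rw [if_pos h, Set.indicator_of_notMem]
          simpa using h
        · rw [if_neg h, Set.indicator_of_mem]
          simpa using h
      have hint : ∀ u, Integrable (fun X => bd X u) ν := by
        intro u
        rw [hbd u]
        exact (integrable_const _).indicator (measurableSet_Bs u)
      have h1 : ∫ X, ∑ u ∈ cb 0 (L : ℤ), bd X u ∂ν = (L : ℝ) ^ 3 * ν.real (Bs 0) := by
        rw [integral_finsetSum _ fun u _ => hint u]
        have : ∀ u ∈ cb 0 (L : ℤ), ∫ X, bd X u ∂ν = ν.real (Bs 0) := by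
          intro u _
          rw [hbd u, integral_indicator_const _ (measurableSet_Bs u), smul_eq_mul, mul_one]
          simp only [Measure.real, Bs_measure hinv u]
        rw [Finset.sum_congr rfl this, Finset.sum_const, card_cb, nsmul_eq_mul]
        have e1 : ((L : ℤ) - 0).toNat = L := by omega
        rw [e1]
        push_cast
        rfl
      rw [← h1]
      have h2 : ∫ X, ∑ u ∈ cb 0 (L : ℤ), bd X u ∂ν ≤ ∫ _, 8 * (L : ℝ) ^ 2 ∂ν := by
        apply integral_mono_ae
        · exact integrable_finsetSum _ fun u _ => hint u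
        · exact integrable_const _
        · filter_upwards [hae] with X hX
          exact few_bad hX0 hX L hL
      rw [integral_const] at h2
      simpa using h2
    have h3 : ν.real (Bs 0) ≤ 0 := by
      by_contra hcon
      push Not at hcon
      obtain ⟨L, hL⟩ := exists_nat_gt (8 / ν.real (Bs 0))
      have hL0 : (0 : ℝ) < L := lt_trans (by positivity) hL
      have hL1 : 1 ≤ L := by exact_mod_cast hL0
      have := key L hL1
      rw [div_lt_iff₀ hcon] at hL
      have h5 : (L : ℝ) ^ 2 * (L * ν.real (Bs 0)) ≤ (L : ℝ) ^ 2 * 8 := by nlinarith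
      have h6 := le_of_mul_le_mul_left h5 (by positivity)
      linarith
    have h4 : ν.real (Bs 0) = 0 := le_antisymm h3 measureReal_nonneg
    rwa [measureReal_eq_zero_iff] at h4
  rw [Om_compl]
  refine measure_iUnion_null fun u => ?_
  rw [Bs_measure hinv u, hb0]

/-- **S15767** from the tiling theorem -/
theorem s15767_of (h1 : SBC) (h2 : NoPer) (h3 : Exist) (h4 : CountDiff) (h5 : UniqMeas)
    (h6 : InvMeas) :
    ∃ d : ℕ, 1 ≤ d ∧ ∃ n : ℕ,
    ∃ Adm : (Finset (Fin d → ℤ) → ((Fin d → ℤ) → Fin n) → ℝ) → Prop,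
    (∀ Φ, Adm Φ ↔
      (∀ (Λ : Finset (Fin d → ℤ)) (X Y : (Fin d → ℤ) → Fin n),
          (∀ i ∈ Λ, X i = Y i) → Φ Λ X = Φ Λ Y) ∧
      (∀ (Λ : Finset (Fin d → ℤ)) (X : (Fin d → ℤ) → Fin n) (a : Fin d → ℤ),
          Φ (Λ.image (fun i => i + a)) (fun i => X (i - a)) = Φ Λ X) ∧
      (∃ R : ℕ, ∀ Λ : Finset (Fin d → ℤ),
          (∃ i ∈ Λ, ∃ j ∈ Λ, ∃ k : Fin d, (R : ℤ) < |i k - j k|) →
          ∀ X : (Fin d → ℤ) → Fin n, Φ Λ X = 0)) ∧
    ∃ GSM : (Finset (Fin d → ℤ) → ((Fin d → ℤ) → Fin n) → ℝ) →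
        Measure ((Fin d → ℤ) → Fin n) → Prop,
    (∀ Φ μ, GSM Φ μ ↔
      IsProbabilityMeasure μ ∧
      (∀ a : Fin d → ℤ,
          μ.map (fun X : (Fin d → ℤ) → Fin n => fun i => X (i - a)) = μ) ∧
      (∀ᵐ X ∂μ, ∀ Y : (Fin d → ℤ) → Fin n, {i | Y i ≠ X i}.Finite →
          0 ≤ ∑ᶠ Λ : Finset (Fin d → ℤ), (Φ Λ Y - Φ Λ X))) ∧
    ∃ Φ, Adm Φ ∧ ∃ μ, GSM Φ μ ∧ (∀ ν, GSM Φ ν → ν = μ) ∧
      μ {X | ∃ a : Fin d → ℤ, a ≠ 0 ∧ (fun i => X (i - a)) = X} = 0 ∧
      ∀ Φ', Adm Φ' → ∃ ε₀ : ℝ, 0 < ε₀ ∧ ∀ ε : ℝ, 0 ≤ ε → ε < ε₀ →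
        GSM (fun Λ X => Φ Λ X + ε * Φ' Λ X) μ := by
  classical
  refine ⟨3, by norm_num, nT, Adm, fun Φ => Iff.rfl, GSM, fun Φ μ => Iff.rfl, Ph, adm_Ph, ?_⟩
  obtain ⟨μ, hp, hμ, hinv⟩ := h6 3 nT Om (Om_nonempty h3) isClosed_Om fun X hX a => Om_shift hX a
  have hμae : ∀ᵐ X ∂μ, X ∈ Om := by
    rw [ae_iff]
    exact hμ
  refine ⟨μ, ⟨hp, hinv, ?_⟩, ?_, ?_, ?_⟩
  · filter_upwards [hμae] with X hX Y hf
    rw [sum_Ph_valid hX hf]
    exact Nat.cast_nonneg _
  · intro ν hν
    refine h5 3 nT Om (by norm_num) ?_ ν μ hν.1 hp (gsm_Om h3 hν) hμ hν.2.1 hinv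
    intro DA pA
    obtain ⟨C, hC⟩ := h4 DA fun u => ee.symm (pA u)
    refine ⟨C, fun X hX X' hX' L hL => ?_⟩
    have := hC (tl X) (tl X') hX hX' L hL
    have e : ∀ Z : Conf, ∀ a : Site, (∀ i ∈ DA, tl Z (i + a) = ee.symm (pA i)) ↔
        (∀ i ∈ DA, Z (i + a) = pA i) := by
      intro Z a
      simp only [tl, EmbeddingLike.apply_eq_iff_eq]
    simp only [e] at this
    convert this using 2
  · refine measure_mono_null ?_ hμ
    rintro X ⟨a, ha, hXa⟩ hX
    apply ha
    apply h2 (tl X) hX a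
    intro u
    exact tl_congr (X := fun i => X (i - a)) (Y := X) (congrFun hXa u)
  · intro Φ' hΦ'
    obtain ⟨C, hC0, hC⟩ := diff_bound h1 hΦ'
    refine ⟨1 / (C + 1), by positivity, fun ε hε0 hε => ⟨hp, hinv, ?_⟩⟩
    filter_upwards [hμae] with X hX Y hf
    have hsuppP : (Function.support fun Λ : Finset Site => Ph Λ Y - Ph Λ X).Finite := by
      have hD : ∀ v ∉ hf.toFinset, Y v = X v := by
        intro v hv
        by_contra h
        exact hv (hf.mem_toFinset.mpr h)
      obtain ⟨a1, a2, R, a3⟩ := adm_Ph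
      refine ((nbh hf.toFinset R).powerset.finite_toSet).subset fun Λ hΛ => ?_
      exact Finset.mem_coe.mpr (Finset.mem_powerset.mpr (supp_sub a1 a3 hD hΛ).2.2)
    have hsupp' : (Function.support fun Λ : Finset Site => Φ' Λ Y - Φ' Λ X).Finite := by
      have hD : ∀ v ∉ hf.toFinset, Y v = X v := by
        intro v hv
        by_contra h
        exact hv (hf.mem_toFinset.mpr h)
      obtain ⟨a1, a2, R, a3⟩ := hΦ'
      refine ((nbh hf.toFinset R).powerset.finite_toSet).subset fun Λ hΛ => ?_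
      exact Finset.mem_coe.mpr (Finset.mem_powerset.mpr (supp_sub a1 a3 hD hΛ).2.2)
    have e : ∑ᶠ Λ : Finset Site, ((Ph Λ Y + ε * Φ' Λ Y) - (Ph Λ X + ε * Φ' Λ X)) =
        ∑ᶠ Λ : Finset Site, (Ph Λ Y - Ph Λ X) + ε * ∑ᶠ Λ : Finset Site, (Φ' Λ Y - Φ' Λ X) := by
      rw [mul_finsum, ← finsum_add_distrib hsuppP]
      · refine finsum_congr fun Λ => ?_
        ring
      · refine hsupp'.subset fun Λ hΛ => ?_
        rw [Function.mem_support] at hΛ ⊢
        intro h0
        exact hΛ (by rw [h0, mul_zero])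
    show 0 ≤ ∑ᶠ Λ : Finset Site, ((Ph Λ Y + ε * Φ' Λ Y) - (Ph Λ X + ε * Φ' Λ X))
    rw [e, sum_Ph_valid hX hf]
    have hb := hC X Y hX hf
    set B : ℝ := ((bad (tl Y)).ncard : ℝ) with hB
    have hB0 : 0 ≤ B := Nat.cast_nonneg _
    have hlow := (abs_le.mp hb).1
    have hεC : ε * C ≤ 1 := by
      have : ε * (C + 1) ≤ 1 := by
        rw [lt_div_iff₀ (by positivity)] at hε
        exact hε.le
      nlinarith
    have h7 : ε * -(C * B) ≤ ε * ∑ᶠ Λ : Finset Site, (Φ' Λ Y - Φ' Λ X) :=
      mul_le_mul_of_nonneg_left hlow hε0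
    nlinarith

end Pool.Agent.TH989.J591
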