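import Pool.Agent.TH490.StmP

set_option autoImplicit false

/-!
Job 1173 (MP325-DBG): expected number of geometrically bad items.
-/

namespace Pool.Agent.TH989.DBG

open Finset Classical Pool.Agent.TH490

noncomputable section

/-! ### real inequalities -/

lemma term {q : ℕ} {x r l m W S t B E : ℝ} (hx : 0 < x) (hm : 0 ≤ m) (hW : 0 ≤ W)
    (hml : m ≤ 2 * r * x * l) (ht0 : 0 ≤ t) (ht : t ≤ B)
    (hS : S * (x ^ 3) ^ (q + 1) ≤ (q + 1) * m ^ (q + 1) * t * W)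
    (hE : (q + 1) * (2 * r * x * l) ^ q * B ≤ E * (x ^ 3) ^ (q + 1)) : S ≤ E * (m * W) := by
  have hX : 0 < (x ^ 3) ^ (q + 1) := by positivity
  have h0 : 0 ≤ 2 * r * x * l := hm.trans hml
  refine le_of_mul_le_mul_right ?_ hX
  calc S * (x ^ 3) ^ (q + 1) ≤ (q + 1) * m ^ (q + 1) * t * W := hS
    _ = ((q + 1) * m ^ q * t) * (m * W) := by ring
    _ ≤ ((q + 1) * (2 * r * x * l) ^ q * B) * (m * W) := by
        refine mul_le_mul_of_nonneg_right ?_ (mul_nonneg hm hW)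
        have h1 : m ^ q ≤ (2 * r * x * l) ^ q := pow_le_pow_left₀ hm hml q
        have h2 : ((q:ℝ) + 1) * m ^ q ≤ (q + 1) * (2 * r * x * l) ^ q :=
          mul_le_mul_of_nonneg_left h1 (by positivity)
        exact mul_le_mul h2 ht ht0 (by positivity)
    _ ≤ (E * (x ^ 3) ^ (q + 1)) * (m * W) := mul_le_mul_of_nonneg_right hE (mul_nonneg hm hW)
    _ = E * (m * W) * (x ^ 3) ^ (q + 1) := by ring

/-- parameters: `x = N`, `r = R`, `l = log N` -/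
structure Par (x r l : ℝ) : Prop where
  r1 : 1 ≤ r
  l1 : 1 ≤ l
  xr : r ^ 100 ≤ x

section

variable {x r l : ℝ}

lemma Par.x1 (h : Par x r l) : 1 ≤ x := (one_le_pow₀ h.r1).trans h.xr

lemma Par.lk (h : Par x r l) {k : ℕ} (hk : k ≤ 11) : l ^ k ≤ l ^ 11 := pow_le_pow_right₀ h.l1 hk

lemma Par.rk (h : Par x r l) {k : ℕ} (hk : k ≤ 99) : r ^ k ≤ x / r := by
  have hr : 0 < r := lt_of_lt_of_le one_pos h.r1
  rw [le_div_iff₀ hr, ← pow_succ]
  exact (pow_le_pow_right₀ h.r1 (by omega)).trans h.xr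

lemma Par.sq (h : Par x r l) : r ^ 22 ≤ Real.sqrt x := by
  have hr : 0 < r := lt_of_lt_of_le one_pos h.r1
  apply Real.le_sqrt_of_sq_le
  rw [← pow_mul]
  exact (pow_le_pow_right₀ h.r1 (by norm_num)).trans h.xr

/-- `r ^ k * l ^ j ≤ x * (l ^ 11 / r)` -/
lemma Par.rl (h : Par x r l) {k j : ℕ} (hk : k ≤ 99) (hj : j ≤ 11) : r ^ k * l ^ j ≤ x * (l ^ 11 / r) := by
  have hr : 0 < r := lt_of_lt_of_le one_pos h.r1
  have hl : 0 < l := lt_of_lt_of_le one_pos h.l1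
  calc r ^ k * l ^ j ≤ (x / r) * l ^ 11 := mul_le_mul (h.rk hk) (h.lk hj) (by positivity)
        (by have := h.x1; positivity)
    _ = x * (l ^ 11 / r) := by ring

/-- `l ^ j / r ^ (k + 1) ≤ l ^ 11 / r` -/
lemma Par.lr (h : Par x r l) (k : ℕ) {j : ℕ} (hj : j ≤ 11) : l ^ j / r ^ (k + 1) ≤ l ^ 11 / r := by
  have hr : 0 < r := lt_of_lt_of_le one_pos h.r1
  have hl : 0 < l := lt_of_lt_of_le one_pos h.l1
  refine div_le_div₀ (by positivity) (h.lk hj) hr ?_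
  calc r = r ^ 1 := (pow_one r).symm
    _ ≤ r ^ (k + 1) := pow_le_pow_right₀ h.r1 (by omega)

lemma e1 (h : Par x r l) : ((1:ℕ) + 1) * (2 * r * x * l) ^ 1 * x ^ 3 ≤ (4 * (l ^ 11 / r)) * (x ^ 3) ^ (1 + 1) := by
  have hx := h.x1
  have h1 := h.rl (k := 1) (j := 1) (by norm_num) (by norm_num)
  have h2 : x ^ 5 ≤ x ^ 5 * 1 := by linarith
  have hu : 0 ≤ l ^ 11 / r := by
    have := h.r1; have := h.l1; positivity
  calc ((1:ℕ) + 1) * (2 * r * x * l) ^ 1 * x ^ 3 = 4 * x ^ 4 * (r ^ 1 * l ^ 1) := by push_cast; ring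
    _ ≤ 4 * x ^ 4 * (x * (l ^ 11 / r)) := by gcongr
    _ = (4 * (l ^ 11 / r)) * x ^ 5 := by ring
    _ ≤ (4 * (l ^ 11 / r)) * x ^ 6 := by
        refine mul_le_mul_of_nonneg_left (pow_le_pow_right₀ hx (by norm_num)) (by positivity)
    _ = _ := by ring

lemma e2 (h : Par x r l) {c : ℝ} (hc : 0 < c) :
    ((2:ℕ) + 1) * (2 * r * x * l) ^ 2 * (c * x ^ 6) ≤ ((12 * c) * (l ^ 11 / r)) * (x ^ 3) ^ (2 + 1) := by
  have hx := h.x1
  have h1 := h.rl (k := 2) (j := 2) (by norm_num) (by norm_num)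
  calc ((2:ℕ) + 1) * (2 * r * x * l) ^ 2 * (c * x ^ 6) = 12 * c * x ^ 8 * (r ^ 2 * l ^ 2) := by push_cast; ring
    _ ≤ 12 * c * x ^ 8 * (x * (l ^ 11 / r)) := by gcongr
    _ = _ := by ring

lemma e3 (h : Par x r l) {c : ℝ} (hc : 0 < c) :
    ((5:ℕ) + 1) * (2 * r * x * l) ^ 5 * (c * x ^ 13 * l ^ 2 / (r ^ 5) ^ 2) ≤
      ((192 * c) * (l ^ 11 / r)) * (x ^ 3) ^ (5 + 1) := by
  have hx := h.x1
  have hr : 0 < r := lt_of_lt_of_le one_pos h.r1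
  have h1 := h.lr 4 (j := 7) (by norm_num)
  calc ((5:ℕ) + 1) * (2 * r * x * l) ^ 5 * (c * x ^ 13 * l ^ 2 / (r ^ 5) ^ 2) =
        192 * c * x ^ 18 * (l ^ 7 / r ^ (4 + 1)) := by push_cast; field_simp; ring
    _ ≤ 192 * c * x ^ 18 * (l ^ 11 / r) := by gcongr
    _ = _ := by ring

lemma e4 (h : Par x r l) {c : ℝ} (hc : 0 < c) :
    ((3:ℕ) + 1) * (2 * r * x * l) ^ 3 * (c * (r ^ 5) ^ 3 * x ^ 8 * l ^ 2) ≤
      ((32 * c) * (l ^ 11 / r)) * (x ^ 3) ^ (3 + 1) := by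
  have hx := h.x1
  have h1 := h.rl (k := 18) (j := 5) (by norm_num) (by norm_num)
  calc ((3:ℕ) + 1) * (2 * r * x * l) ^ 3 * (c * (r ^ 5) ^ 3 * x ^ 8 * l ^ 2) =
        32 * c * x ^ 11 * (r ^ 18 * l ^ 5) := by push_cast; ring
    _ ≤ 32 * c * x ^ 11 * (x * (l ^ 11 / r)) := by gcongr
    _ = _ := by ring

lemma e5 (h : Par x r l) :
    ((1:ℕ) + 1) * (2 * r * x * l) ^ 1 * (729 * (r ^ 5) ^ 6 * x ^ 4) ≤
      (2916 * (l ^ 11 / r)) * (x ^ 3) ^ (1 + 1) := by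
  have hx := h.x1
  have h1 := h.rl (k := 31) (j := 1) (by norm_num) (by norm_num)
  calc ((1:ℕ) + 1) * (2 * r * x * l) ^ 1 * (729 * (r ^ 5) ^ 6 * x ^ 4) =
        2916 * x ^ 5 * (r ^ 31 * l ^ 1) := by push_cast; ring
    _ ≤ 2916 * x ^ 5 * (x * (l ^ 11 / r)) := by gcongr
    _ = _ := by ring

lemma e6 (h : Par x r l) :
    ((2:ℕ) + 1) * (2 * r * x * l) ^ 2 * (19683 * (r ^ 5) ^ 9 * x ^ 6) ≤
      (236196 * (l ^ 11 / r)) * (x ^ 3) ^ (2 + 1) := by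
  have hx := h.x1
  have h1 := h.rl (k := 47) (j := 2) (by norm_num) (by norm_num)
  calc ((2:ℕ) + 1) * (2 * r * x * l) ^ 2 * (19683 * (r ^ 5) ^ 9 * x ^ 6) =
        236196 * x ^ 8 * (r ^ 47 * l ^ 2) := by push_cast; ring
    _ ≤ 236196 * x ^ 8 * (x * (l ^ 11 / r)) := by gcongr
    _ = _ := by ring

lemma e7 (h : Par x r l) {c : ℝ} (hc : 0 < c) :
    ((4:ℕ) + 1) * (2 * r * x * l) ^ 4 * (c * (r ^ 5) ^ 6 * x ^ 10 * l) ≤
      ((80 * c) * (l ^ 11 / r)) * (x ^ 3) ^ (4 + 1) := by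
  have hx := h.x1
  have h1 := h.rl (k := 34) (j := 5) (by norm_num) (by norm_num)
  calc ((4:ℕ) + 1) * (2 * r * x * l) ^ 4 * (c * (r ^ 5) ^ 6 * x ^ 10 * l) =
        80 * c * x ^ 14 * (r ^ 34 * l ^ 5) := by push_cast; ring
    _ ≤ 80 * c * x ^ 14 * (x * (l ^ 11 / r)) := by gcongr
    _ = _ := by ring

lemma e8 (h : Par x r l) {c : ℝ} (hc : 0 < c) :
    ((6:ℕ) + 1) * (2 * r * x * l) ^ 6 * (c * (r ^ 5) ^ 3 * x ^ 14 * Real.sqrt x * l ^ 3) ≤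
      ((448 * c) * (l ^ 11 / r)) * (x ^ 3) ^ (6 + 1) := by
  have hx := h.x1
  have hx0 : 0 ≤ x := by linarith
  have hr : 0 < r := lt_of_lt_of_le one_pos h.r1
  have hl : 0 < l := lt_of_lt_of_le one_pos h.l1
  have h1 := h.sq
  have h2 : r ^ 21 * l ^ 9 ≤ Real.sqrt x * (l ^ 11 / r) := by
    calc r ^ 21 * l ^ 9 = r ^ 22 * (l ^ 9 / r) := by field_simp
      _ ≤ Real.sqrt x * (l ^ 11 / r) := by
        have := h.lk (k := 9) (by norm_num)
        gcongr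
  calc ((6:ℕ) + 1) * (2 * r * x * l) ^ 6 * (c * (r ^ 5) ^ 3 * x ^ 14 * Real.sqrt x * l ^ 3) =
        448 * c * x ^ 20 * Real.sqrt x * (r ^ 21 * l ^ 9) := by push_cast; ring
    _ ≤ 448 * c * x ^ 20 * Real.sqrt x * (Real.sqrt x * (l ^ 11 / r)) := by gcongr
    _ = 448 * c * x ^ 20 * (Real.sqrt x * Real.sqrt x) * (l ^ 11 / r) := by ring
    _ = _ := by rw [Real.mul_self_sqrt hx0]; ring

lemma e9 (h : Par x r l) {c : ℝ} (hc : 0 < c) :
    ((8:ℕ) + 1) * (2 * r * x * l) ^ 8 * (c * x ^ 19 * l ^ 3 / (r ^ 5) ^ 2) ≤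
      ((2304 * c) * (l ^ 11 / r)) * (x ^ 3) ^ (8 + 1) := by
  have hx := h.x1
  have hr : 0 < r := lt_of_lt_of_le one_pos h.r1
  have h1 := h.lr 1 (j := 11) (by norm_num)
  calc ((8:ℕ) + 1) * (2 * r * x * l) ^ 8 * (c * x ^ 19 * l ^ 3 / (r ^ 5) ^ 2) =
        2304 * c * x ^ 27 * (l ^ 11 / r ^ (1 + 1)) := by push_cast; field_simp; ring
    _ ≤ 2304 * c * x ^ 27 * (l ^ 11 / r) := by gcongr
    _ = _ := by ring

end

/-! ### counting -/

lemma card_posN (N : ℕ) : Fintype.card (Pos N) = N ^ 3 := by simp [Pos]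

lemma cnt_fib {A P β : Type} [Fintype A] [Fintype P] [Fintype β] (T : A → Prop) (S : P → β → Prop)
    (a : A → P) (b : A → β) (hinj : Function.Injective (fun t => (a t, b t)))
    (hT : ∀ t, T t → S (a t) (b t)) (B : ℝ)
    (hB : ∀ y, ((univ.filter (fun z => S y z)).card : ℝ) ≤ B) :
    ((univ.filter (fun t => T t)).card : ℝ) ≤ Fintype.card P * B := by
  have h1 : (univ.filter (fun t => T t)).card ≤ (univ.filter (fun p : P × β => S p.1 p.2)).card := by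
    refine card_le_card_of_injOn (fun t => (a t, b t)) (fun t ht => ?_) hinj.injOn
    rw [mem_coe, mem_filter] at ht ⊢
    exact ⟨mem_univ _, hT t ht.2⟩
  have h2 : (univ.filter (fun p : P × β => S p.1 p.2)).card = ∑ y : P, (univ.filter (fun z => S y z)).card := by
    rw [card_filter, Fintype.sum_prod_type]
    refine sum_congr rfl fun y _ => ?_
    rw [card_filter]
  calc ((univ.filter (fun t => T t)).card : ℝ) ≤ ((univ.filter (fun p : P × β => S p.1 p.2)).card : ℝ) := by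
        exact_mod_cast h1
    _ = ∑ y : P, ((univ.filter (fun z => S y z)).card : ℝ) := by rw [h2]; push_cast; rfl
    _ ≤ ∑ _y : P, B := sum_le_sum fun y _ => hB y
    _ = Fintype.card P * B := by rw [sum_const, card_univ, nsmul_eq_mul]

lemma cnt_eq (N : ℕ) : ((univ.filter (fun t : Fin 2 → Pos N => t 0 = t 1)).card : ℝ) ≤ (N : ℝ) ^ 3 := by
  have h1 : (univ.filter (fun t : Fin 2 → Pos N => t 0 = t 1)).card ≤ (univ : Finset (Pos N)).card := by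
    refine card_le_card_of_injOn (fun t => t 0) (fun _ _ => mem_coe.2 (mem_univ _)) ?_
    intro t ht t' ht' h
    rw [mem_coe, mem_filter] at ht ht'
    have h2 : t 0 = t' 0 := h
    have h3 : t 1 = t' 1 := by rw [← ht.2, ← ht'.2]; exact h2
    funext i
    fin_cases i
    · exact h2
    · exact h3
  rw [card_univ, card_posN] at h1
  exact_mod_cast h1

lemma cnt_col {c : ℝ} (N : ℕ) (h : ∀ y : Pos N,
    ((univ.filter (fun t : Pos N × Pos N => Col y t.1 t.2)).card : ℝ) ≤ c * (N : ℝ) ^ 3) :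
    ((univ.filter (fun t : Fin 3 → Pos N => Col (t 0) (t 1) (t 2))).card : ℝ) ≤ c * (N : ℝ) ^ 6 := by
  refine (cnt_fib (fun t : Fin 3 → Pos N => Col (t 0) (t 1) (t 2)) (fun y (z : Pos N × Pos N) => Col y z.1 z.2)
    (fun t => t 0) (fun t => (t 1, t 2)) ?_ (fun t ht => ht) _ h).trans (le_of_eq ?_)
  · intro t t' h
    rw [Prod.mk.injEq, Prod.mk.injEq] at h
    funext i
    fin_cases i
    · exact h.1
    · exact h.2.1
    · exact h.2.2
  · rw [card_posN]; push_cast; ring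

lemma cnt_rs {c : ℝ} (N M : ℕ) (h : ∀ y : Pos N,
    ((univ.filter (fun z : Pos N => RS M y z)).card : ℝ) ≤ c * (M : ℝ) ^ 2 * (N : ℝ) ^ 2) :
    ((univ.filter (fun t : Fin 2 → Pos N => RS M (t 0) (t 1))).card : ℝ) ≤
      c * (M : ℝ) ^ 2 * (N : ℝ) ^ 5 := by
  refine (cnt_fib (fun t : Fin 2 → Pos N => RS M (t 0) (t 1)) (fun y (z : Pos N) => RS M y z)
    (fun t => t 0) (fun t => t 1) ?_ (fun t ht => ht) _ h).trans (le_of_eq ?_)
  · intro t t' h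
    rw [Prod.mk.injEq] at h
    funext i
    fin_cases i
    · exact h.1
    · exact h.2
  · rw [card_posN]; push_cast; ring

lemma cnt_cop {c l : ℝ} (N M : ℕ) (h : ∀ y : Pos N,
    ((univ.filter (fun t : Pos N × Pos N × Pos N => Cop y t.1 t.2.1 t.2.2)).card : ℝ)
      ≤ c * (N : ℝ) ^ 6 * l) :
    ((univ.filter (fun t : Fin 4 → Pos N => LCop M (t 0) (t 1) (t 2) (t 3))).card : ℝ) ≤
      c * (N : ℝ) ^ 9 * l := by
  refine (cnt_fib (fun t : Fin 4 → Pos N => LCop M (t 0) (t 1) (t 2) (t 3))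
    (fun y (z : Pos N × Pos N × Pos N) => Cop y z.1 z.2.1 z.2.2)
    (fun t => t 0) (fun t => (t 1, t 2, t 3)) ?_ (fun t ht => ht.1) _ h).trans (le_of_eq ?_)
  · intro t t' h
    rw [Prod.mk.injEq, Prod.mk.injEq, Prod.mk.injEq] at h
    funext i
    fin_cases i
    · exact h.1
    · exact h.2.1
    · exact h.2.2.1
    · exact h.2.2.2
  · rw [card_posN]; push_cast; ring

lemma swp {A B : Type} [Fintype A] [Fintype B] (p : A → B → Prop) [∀ a b, Decidable (p a b)] :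
    ∑ a : A, (univ.filter (fun b => p a b)).card = ∑ b : B, (univ.filter (fun a => p a b)).card := by
  simp_rw [card_filter]
  exact sum_comm

/-- number of injective tuples with property `T` -/
def nT {I P : Type} [Fintype I] (q : ℕ) (T : (Fin q → P) → Prop) (f : I → P) : ℕ :=
  (univ.filter (fun τ : Fin q → I => Function.Injective τ ∧ T (fun j => f (τ j)))).card

/-- expected number of injective tuples with property `T` -/
lemma sum_tup (h1 : P1_one) (I P : Type) [Fintype I] [DecidableEq I] [Fintype P] [Nonempty P] (q : ℕ)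
    (T : (Fin q → P) → Prop) :
    (∑ f : I → P, nT q T f) * Fintype.card P ^ q ≤ Fintype.card I ^ q * (univ.filter (fun t : Fin q → P => T t)).card *
        Fintype.card P ^ Fintype.card I := by
  have e1 : ∑ f : I → P, nT q T f =
      ∑ τ : Fin q → I, (univ.filter (fun f : I → P => Function.Injective τ ∧ T (fun j => f (τ j)))).card := by
    unfold nT
    convert swp (fun (f : I → P) (τ : Fin q → I) => Function.Injective τ ∧ T (fun j => f (τ j)))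
  rw [e1, sum_mul]
  have e2 : ∀ τ : Fin q → I,
      (univ.filter (fun f : I → P => Function.Injective τ ∧ T (fun j => f (τ j)))).card * Fintype.card P ^ q ≤
        (univ.filter (fun t : Fin q → P => T t)).card * Fintype.card P ^ Fintype.card I := by
    intro τ
    by_cases hτ : Function.Injective τ
    · rw [← h1 I P q T τ hτ]
      refine Nat.mul_le_mul_right _ (card_le_card fun f hf => ?_)
      rw [mem_filter] at hf ⊢
      exact ⟨mem_univ _, hf.2.2⟩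
    · have : univ.filter (fun f : I → P => Function.Injective τ ∧ T (fun j => f (τ j))) = ∅ :=
        filter_eq_empty_iff.2 fun f _ hf => hτ hf.1
      rw [this, card_empty, zero_mul]
      exact Nat.zero_le _
  refine (sum_le_sum fun τ _ => e2 τ).trans (le_of_eq ?_)
  rw [sum_const, card_univ, smul_eq_mul, Fintype.card_fun, Fintype.card_fin, mul_assoc]

lemma inj2 {I : Type} {u v : I} (h : u ≠ v) : Function.Injective ![u, v] := by
  intro i j hij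
  fin_cases i <;> fin_cases j <;> simp_all

lemma inj4 {I : Type} {u v a b : I} (h : u ≠ v) (h1 : a ≠ u) (h2 : a ≠ v) (h3 : b ≠ u) (h4 : b ≠ v)
    (h5 : a ≠ b) : Function.Injective ![u, v, a, b] := by
  intro i j hij
  fin_cases i <;> fin_cases j <;> simp_all

/-- related pairs -/
lemma rel_le {I : Type} [Fintype I] {N : ℕ} (M : ℕ) (f : I → Pos N) :
    ∑ u : I, (univ.filter (fun v => relf M f u v)).card ≤ Fintype.card I +
      nT 2 (fun t => RS M (t 0) (t 1)) f + nT 4 (fun t => LCop M (t 0) (t 1) (t 2) (t 3)) f := by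
  have e1 : ∑ u : I, (univ.filter (fun v => relf M f u v)).card =
      (univ.filter (fun p : I × I => relf M f p.1 p.2)).card := by
    rw [card_filter, Fintype.sum_prod_type]
    refine sum_congr rfl fun y _ => ?_
    rw [card_filter]
  rw [e1]
  have e2 : univ.filter (fun p : I × I => relf M f p.1 p.2) ⊆
      ((univ : Finset I).image (fun u => (u, u)) ∪
      (univ.filter (fun τ : Fin 2 → I => Function.Injective τ ∧ RS M (f (τ 0)) (f (τ 1)))).image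
        (fun τ => (τ 0, τ 1))) ∪
      (univ.filter (fun τ : Fin 4 → I => Function.Injective τ ∧
        LCop M (f (τ 0)) (f (τ 1)) (f (τ 2)) (f (τ 3)))).image (fun τ => (τ 0, τ 1)) := by
    rintro ⟨u, v⟩ hp
    rw [mem_filter] at hp
    have hp2 : relf M f u v := hp.2
    rw [mem_union, mem_union, mem_image, mem_image, mem_image]
    by_cases huv : u = v
    · subst huv
      exact Or.inl (Or.inl ⟨u, mem_univ _, rfl⟩)
    · rcases hp2 with h | h | ⟨a, b, h1, h2, h3, h4, h5, h6⟩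
      · exact absurd h huv
      · refine Or.inl (Or.inr ⟨![u, v], ?_, rfl⟩)
        rw [mem_filter]
        exact ⟨mem_univ _, inj2 huv, h⟩
      · refine Or.inr ⟨![u, v, a, b], ?_, rfl⟩
        rw [mem_filter]
        exact ⟨mem_univ _, inj4 huv h1 h2 h3 h4 h5, h6⟩
  refine (card_le_card e2).trans ((card_union_le _ _).trans ?_)
  refine add_le_add ((card_union_le _ _).trans (add_le_add ?_ card_image_le)) card_image_le
  exact card_image_le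

lemma badDeg_le {I : Type} [Fintype I] {N : ℕ} (M Q : ℕ) (f : I → Pos N) :
    Q * (BadDeg M Q f).card ≤ ∑ u : I, (univ.filter (fun v => relf M f u v)).card := by
  calc Q * (BadDeg M Q f).card = ∑ _u ∈ BadDeg M Q f, Q := by rw [sum_const, smul_eq_mul, mul_comm]
    _ ≤ ∑ u ∈ BadDeg M Q f, (univ.filter (fun v => relf M f u v)).card := by
        refine sum_le_sum fun u hu => ?_
        unfold BadDeg at hu
        rw [mem_filter] at hu
        exact hu.2.le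
    _ ≤ _ := sum_le_sum_of_subset_of_nonneg (subset_univ _) fun _ _ _ => Nat.zero_le _

lemma zg_card {I : Type} [Fintype I] {N : ℕ} (M Q : ℕ) (f : I → Pos N) : (Zg M Q f).card ≤
    (BadTup 2 (fun t => t 0 = t 1) f).card + (BadTup 3 (fun t => Col (t 0) (t 1) (t 2)) f).card +
    (BadTup 6 (TLL M) f).card + (BadTup 4 (TLS M) f).card + (BadTup 2 (TSS M) f).card +
    (BadTup 3 (TSSS M) f).card + (BadTup 5 (TLSS M) f).card + (BadTup 7 (TLLS M) f).card +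
    (BadTup 9 (TLLL M) f).card + (BadDeg M Q f).card := by
  unfold Zg
  have h : ∀ (A B : Finset I) (a : ℕ), A.card ≤ a → (A ∪ B).card ≤ a + B.card := fun A B a ha =>
    (card_union_le _ _).trans (Nat.add_le_add_right ha _)
  exact h _ _ _ (h _ _ _ (h _ _ _ (h _ _ _ (h _ _ _ (h _ _ _ (h _ _ _ (h _ _ _ (h _ _ _ le_rfl))))))))

lemma lim {δ : ℝ} (hδ : 0 < δ) : ∃ R₁ : ℕ, ∀ R : ℕ, R₁ ≤ R →
    (100 * Real.log ((R : ℝ) + 1)) ^ 11 / R ≤ δ := by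
  have h1 := (Real.isLittleO_pow_log_id_atTop (n := 11)).bound (c := δ / (2 * 100 ^ 11)) (by positivity)
  rw [Filter.eventually_atTop] at h1
  obtain ⟨y, hy⟩ := h1
  refine ⟨max 1 ⌈y⌉₊, fun R hR => ?_⟩
  have hR1 : 1 ≤ R := (le_max_left _ _).trans hR
  have hR2 : y ≤ R := (Nat.le_ceil y).trans (by exact_mod_cast (le_max_right _ _).trans hR)
  have hR1' : (1:ℝ) ≤ R := by exact_mod_cast hR1
  have h2 := hy ((R:ℝ) + 1) (by linarith)
  have h3 : 0 ≤ Real.log ((R:ℝ) + 1) := Real.log_nonneg (by linarith)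
  rw [Real.norm_eq_abs, id, Real.norm_eq_abs, abs_of_nonneg (by positivity), abs_of_nonneg (by positivity)] at h2
  rw [div_le_iff₀ (by linarith), mul_pow]
  calc 100 ^ 11 * Real.log ((R:ℝ) + 1) ^ 11 ≤ 100 ^ 11 * (δ / (2 * 100 ^ 11) * ((R:ℝ) + 1)) := by gcongr
    _ = δ * ((R + 1) / 2) := by ring
    _ ≤ δ * R := by
        refine mul_le_mul_of_nonneg_left ?_ hδ.le
        linarith

lemma tup_le (h : P1_bad) (n N R : ℕ) (hN : 1 ≤ N) (q : ℕ) (T : (Fin q → Pos N) → Prop) :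
    (∑ f : Fin n × Fin (2 * R) → Pos N, ((BadTup q T f).card : ℝ)) * ((N : ℝ) ^ 3) ^ q ≤
      q * ((n : ℝ) * (2 * R)) ^ q * ((univ.filter (fun t : Fin q → Pos N => T t)).card : ℝ) *
        ((N : ℝ) ^ 3) ^ (n * (2 * R)) := by
  have : NeZero N := ⟨by omega⟩
  have h1 := h (Fin n × Fin (2 * R)) (Pos N) q T
  rw [card_posN, Fintype.card_prod, Fintype.card_fin, Fintype.card_fin] at h1
  exact_mod_cast h1

lemma tup_le' (h : P1_one) (n N R : ℕ) (hN : 1 ≤ N) (q : ℕ) (T : (Fin (q + 1) → Pos N) → Prop) :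
    (∑ f : Fin n × Fin (2 * R) → Pos N, (nT (q + 1) T f : ℝ)) * ((N : ℝ) ^ 3) ^ (q + 1) ≤
      (q + 1) * ((n : ℝ) * (2 * R)) ^ (q + 1) *
        ((univ.filter (fun t : Fin (q + 1) → Pos N => T t)).card : ℝ) *
        ((N : ℝ) ^ 3) ^ (n * (2 * R)) := by
  have : NeZero N := ⟨by omega⟩
  have h1 := sum_tup h (Fin n × Fin (2 * R)) (Pos N) (q + 1) T
  rw [card_posN, Fintype.card_prod, Fintype.card_fin, Fintype.card_fin] at h1
  have h2 : (∑ f : Fin n × Fin (2 * R) → Pos N, (nT (q + 1) T f : ℝ)) * ((N : ℝ) ^ 3) ^ (q + 1) ≤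
      ((n : ℝ) * (2 * R)) ^ (q + 1) *
        ((univ.filter (fun t : Fin (q + 1) → Pos N => T t)).card : ℝ) *
        ((N : ℝ) ^ 3) ^ (n * (2 * R)) := by exact_mod_cast h1
  refine h2.trans ?_
  have h3 : 0 ≤ ((n : ℝ) * (2 * R)) ^ (q + 1) *
        ((univ.filter (fun t : Fin (q + 1) → Pos N => T t)).card : ℝ) *
        ((N : ℝ) ^ 3) ^ (n * (2 * R)) := by positivity
  have h4 : (0:ℝ) ≤ q := Nat.cast_nonneg q
  nlinarith

/-- the parameters -/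
lemma params {C : ℝ} (hC0 : 0 < C) : ∃ N₀ : ℕ, 3 ≤ N₀ ∧ ∀ N R : ℕ, N₀ ≤ N → R ^ 100 ≤ N → N < (R + 1) ^ 100 →
    1 ≤ R ∧ Par (N : ℝ) (R : ℝ) (Real.log N) ∧ C * (Real.log N ^ 11 / R) ≤ 1 / 1024 := by
  obtain ⟨R₁, hR₁⟩ := lim (δ := 1 / (1024 * C)) (by positivity)
  refine ⟨(R₁ + 1) ^ 100 + 3, Nat.le_add_left _ _, fun N R hN hRN hNR => ?_⟩
  have hN3 : 3 ≤ N := (Nat.le_add_left _ _).trans hN
  have hR : R₁ < R := by
    have h1 : (R₁ + 1) ^ 100 < (R + 1) ^ 100 := lt_of_le_of_lt ((Nat.le_add_right _ _).trans hN) hNR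
    have h2 := lt_of_pow_lt_pow_left₀ 100 (Nat.zero_le _) h1
    omega
  have hR1 : 1 ≤ R := by omega
  have hx3 : (3:ℝ) ≤ N := by exact_mod_cast hN3
  have hr1 : (1:ℝ) ≤ R := by exact_mod_cast hR1
  have hr0 : (0:ℝ) < R := by linarith
  have hl1 : 1 ≤ Real.log N := by
    rw [Real.le_log_iff_exp_le (by linarith)]
    have := Real.exp_one_lt_d9
    linarith
  have hxr : (R:ℝ) ^ 100 ≤ N := by exact_mod_cast hRN
  refine ⟨hR1, ⟨hr1, hl1, hxr⟩, ?_⟩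
  have hlu : Real.log N ≤ 100 * Real.log ((R:ℝ) + 1) := by
    have h1 : (N:ℝ) ≤ ((R:ℝ) + 1) ^ 100 := by exact_mod_cast hNR.le
    calc Real.log N ≤ Real.log (((R:ℝ) + 1) ^ 100) := Real.log_le_log (by linarith) h1
      _ = 100 * Real.log ((R:ℝ) + 1) := by rw [Real.log_pow]; norm_num
  have h1 : Real.log N ^ 11 / R ≤ 1 / (1024 * C) := by
    refine le_trans ?_ (hR₁ R hR.le)
    have : Real.log N ^ 11 ≤ (100 * Real.log ((R:ℝ) + 1)) ^ 11 := pow_le_pow_left₀ (by linarith) hlu 11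
    exact div_le_div_of_nonneg_right this hr0.le
  calc C * (Real.log N ^ 11 / R) ≤ C * (1 / (1024 * C)) := mul_le_mul_of_nonneg_left h1 hC0.le
    _ = 1 / 1024 := by field_simp

lemma bT (h : P1_bad) {n N R : ℕ} (hR : 1 ≤ R) (hP : Par (N : ℝ) (R : ℝ) (Real.log N))
    (hnl : (n : ℝ) ≤ N * Real.log N) (q : ℕ) (T : (Fin (q + 1) → Pos N) → Prop) {B E : ℝ}
    (ht : ((univ.filter (fun t : Fin (q + 1) → Pos N => T t)).card : ℝ) ≤ B)
    (hE : (q + 1) * (2 * (R:ℝ) * N * Real.log N) ^ q * B ≤ E * ((N:ℝ) ^ 3) ^ (q + 1)) :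
    ∑ f : Fin n × Fin (2 * R) → Pos N, ((BadTup (q + 1) T f).card : ℝ) ≤
      E * (((n : ℝ) * (2 * R)) * ((N : ℝ) ^ 3) ^ (n * (2 * R))) := by
  have hx1 := hP.x1
  have hN1 : 1 ≤ N := by exact_mod_cast hx1
  refine term (q := q) (by linarith) (by positivity) (by positivity) ?_ (Nat.cast_nonneg _) ht ?_ hE
  · calc (n : ℝ) * (2 * R) ≤ (N * Real.log N) * (2 * R) := mul_le_mul_of_nonneg_right hnl (by positivity)
      _ = _ := by ring
  · have := tup_le h n N R hN1 (q + 1) T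
    rw [Nat.cast_add, Nat.cast_one] at this
    exact this

lemma bT' (h : P1_one) {n N R : ℕ} (hR : 1 ≤ R) (hP : Par (N : ℝ) (R : ℝ) (Real.log N))
    (hnl : (n : ℝ) ≤ N * Real.log N) (q : ℕ) (T : (Fin (q + 1) → Pos N) → Prop) {B E : ℝ}
    (ht : ((univ.filter (fun t : Fin (q + 1) → Pos N => T t)).card : ℝ) ≤ B)
    (hE : (q + 1) * (2 * (R:ℝ) * N * Real.log N) ^ q * B ≤ E * ((N:ℝ) ^ 3) ^ (q + 1)) :
    ∑ f : Fin n × Fin (2 * R) → Pos N, (nT (q + 1) T f : ℝ) ≤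
      E * (((n : ℝ) * (2 * R)) * ((N : ℝ) ^ 3) ^ (n * (2 * R))) := by
  have hx1 := hP.x1
  have hN1 : 1 ≤ N := by exact_mod_cast hx1
  refine term (q := q) (by linarith) (by positivity) (by positivity) ?_ (Nat.cast_nonneg _) ht ?_ hE
  · calc (n : ℝ) * (2 * R) ≤ (N * Real.log N) * (2 * R) := mul_le_mul_of_nonneg_right hnl (by positivity)
      _ = _ := by ring
  · exact tup_le' h n N R hN1 q T

lemma f1 {x r l c : ℝ} :
    ((1:ℕ) + 1) * (2 * r * x * l) ^ 1 * (c * (r ^ 5) ^ 2 * x ^ 5) ≤ (4 * c * (r ^ 11 * l)) * (x ^ 3) ^ (1 + 1) := by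
  refine le_of_eq ?_
  push_cast; ring

lemma f2 {x r l c : ℝ} :
    ((3:ℕ) + 1) * (2 * r * x * l) ^ 3 * (c * x ^ 9 * l) ≤ (32 * c * (r ^ 3 * l ^ 4)) * (x ^ 3) ^ (3 + 1) := by
  refine le_of_eq ?_
  push_cast; ring

lemma deg_bound (P1 : P1_one) {cr c3 : ℝ} (hcr : 0 < cr) (hc3 : 0 < c3) {n N R : ℕ} (hR : 1 ≤ R)
    (hP : Par (N : ℝ) (R : ℝ) (Real.log N)) (hnl : (n : ℝ) ≤ N * Real.log N)
    (Gr : ∀ y : Pos N, ((univ.filter (fun z : Pos N => RS (R ^ 5) y z)).card : ℝ) ≤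
      cr * ((R ^ 5 : ℕ) : ℝ) ^ 2 * (N : ℝ) ^ 2)
    (G3 : ∀ y : Pos N, ((univ.filter (fun t : Pos N × Pos N × Pos N => Cop y t.1 t.2.1 t.2.2)).card : ℝ)
      ≤ c3 * (N : ℝ) ^ 6 * Real.log N) :
    ∑ f : Fin n × Fin (2 * R) → Pos N, ((BadDeg (R ^ 5) (R ^ 12) f).card : ℝ) ≤
      ((1 + 4 * cr + 32 * c3) * (Real.log N ^ 11 / R)) *
        (((n : ℝ) * (2 * R)) * ((N : ℝ) ^ 3) ^ (n * (2 * R))) := by
  have hr0 : (0:ℝ) < R := lt_of_lt_of_le one_pos hP.r1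
  have hl0 : 0 < Real.log N := lt_of_lt_of_le one_pos hP.l1
  have t2 := cnt_rs N (R ^ 5) Gr
  rw [Nat.cast_pow] at t2
  have a2 := bT' P1 hR hP hnl 1 (fun t => RS (R ^ 5) (t 0) (t 1)) t2 f1
  have a4 := bT' P1 hR hP hnl 3 (fun t => LCop (R ^ 5) (t 0) (t 1) (t 2) (t 3)) (cnt_cop N (R ^ 5) G3)
    f2
  set MW := ((n : ℝ) * (2 * R)) * ((N : ℝ) ^ 3) ^ (n * (2 * R)) with hMW
  have hMW0 : 0 ≤ MW := by positivity
  have a0 : ∀ f : Fin n × Fin (2 * R) → Pos N, (R:ℝ) ^ 12 * ((BadDeg (R ^ 5) (R ^ 12) f).card : ℝ) ≤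
      (n:ℝ) * (2 * R) + (nT (1 + 1) (fun t => RS (R ^ 5) (t 0) (t 1)) f : ℝ) +
      (nT (3 + 1) (fun t => LCop (R ^ 5) (t 0) (t 1) (t 2) (t 3)) f : ℝ) := by
    intro f
    have h1 := (badDeg_le (R ^ 5) (R ^ 12) f).trans (rel_le (R ^ 5) f)
    rw [Fintype.card_prod, Fintype.card_fin, Fintype.card_fin] at h1
    have h2 : ((R ^ 12 * (BadDeg (R ^ 5) (R ^ 12) f).card : ℕ) : ℝ) ≤ ((n * (2 * R) +
      nT 2 (fun t => RS (R ^ 5) (t 0) (t 1)) f +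
      nT 4 (fun t => LCop (R ^ 5) (t 0) (t 1) (t 2) (t 3)) f : ℕ) : ℝ) := Nat.cast_le.2 h1
    rw [Nat.cast_mul, Nat.cast_pow, Nat.cast_add, Nat.cast_add, Nat.cast_mul, Nat.cast_mul] at h2
    exact h2
  have hx1 := hP.x1
  have hN1 : 1 ≤ N := by exact_mod_cast hx1
  have a5 : (R:ℝ) ^ 12 * ∑ f : Fin n × Fin (2 * R) → Pos N, ((BadDeg (R ^ 5) (R ^ 12) f).card : ℝ) ≤
      MW + (4 * cr * ((R:ℝ) ^ 11 * Real.log N)) * MW + (32 * c3 * ((R:ℝ) ^ 3 * Real.log N ^ 4)) * MW := by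
    rw [mul_sum]
    refine (sum_le_sum fun f _ => a0 f).trans ?_
    rw [sum_add_distrib, sum_add_distrib]
    refine add_le_add (add_le_add ?_ a2) a4
    rw [sum_const, card_univ, Fintype.card_fun, card_posN, Fintype.card_prod, Fintype.card_fin,
      Fintype.card_fin, nsmul_eq_mul, hMW]
    push_cast
    exact le_of_eq (mul_comm _ _)
  have hU : (R:ℝ) ^ 12 * (Real.log N ^ 11 / R) = (R:ℝ) ^ 11 * Real.log N ^ 11 := by field_simp
  have b1 : 1 ≤ (R:ℝ) ^ 11 * Real.log N ^ 11 := by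
    have h1 := one_le_pow₀ (n := 11) hP.r1
    have h2 := one_le_pow₀ (n := 11) hP.l1
    nlinarith
  have b2 : (R:ℝ) ^ 11 * Real.log N ≤ (R:ℝ) ^ 11 * Real.log N ^ 11 := by
    have := hP.lk (k := 1) (by norm_num)
    rw [pow_one] at this
    gcongr
  have b3 : (R:ℝ) ^ 3 * Real.log N ^ 4 ≤ (R:ℝ) ^ 11 * Real.log N ^ 11 := by
    have h1 := hP.lk (k := 4) (by norm_num)
    have h2 : (R:ℝ) ^ 3 ≤ (R:ℝ) ^ 11 := pow_le_pow_right₀ hP.r1 (by norm_num)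
    gcongr
  refine le_of_mul_le_mul_left ?_ (pow_pos hr0 12)
  refine a5.trans ?_
  calc MW + (4 * cr * ((R:ℝ) ^ 11 * Real.log N)) * MW + (32 * c3 * ((R:ℝ) ^ 3 * Real.log N ^ 4)) * MW ≤
      ((R:ℝ) ^ 11 * Real.log N ^ 11) * MW + (4 * cr * ((R:ℝ) ^ 11 * Real.log N ^ 11)) * MW +
        (32 * c3 * ((R:ℝ) ^ 11 * Real.log N ^ 11)) * MW := by
        have q1 : MW ≤ ((R:ℝ) ^ 11 * Real.log N ^ 11) * MW := by nlinarith
        have q2 : (4 * cr * ((R:ℝ) ^ 11 * Real.log N)) * MW ≤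
          (4 * cr * ((R:ℝ) ^ 11 * Real.log N ^ 11)) * MW := by gcongr
        have q3 : (32 * c3 * ((R:ℝ) ^ 3 * Real.log N ^ 4)) * MW ≤
          (32 * c3 * ((R:ℝ) ^ 11 * Real.log N ^ 11)) * MW := by gcongr
        linarith
    _ = (1 + 4 * cr + 32 * c3) * ((R:ℝ) ^ 11 * Real.log N ^ 11) * MW := by ring
    _ = _ := by rw [← hU]; ring

lemma fin_sum {n R N : ℕ} {c1 c2 c3 c4 c5 c6 c7 c8 c9 c10 u : ℝ} (hx : (0:ℝ) ≤ (N:ℝ))
    (s1 : ∑ f : Fin n × Fin (2 * R) → Pos N, ((BadTup (1 + 1) (fun t => t 0 = t 1) f).card : ℝ) ≤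
      (c1 * u) * (((n : ℝ) * (2 * R)) * ((N : ℝ) ^ 3) ^ (n * (2 * R))))
    (s2 : ∑ f : Fin n × Fin (2 * R) → Pos N, ((BadTup (2 + 1) (fun t => Col (t 0) (t 1) (t 2)) f).card : ℝ) ≤
      (c2 * u) * (((n : ℝ) * (2 * R)) * ((N : ℝ) ^ 3) ^ (n * (2 * R))))
    (s3 : ∑ f : Fin n × Fin (2 * R) → Pos N, ((BadTup (5 + 1) (TLL (R ^ 5)) f).card : ℝ) ≤
      (c3 * u) * (((n : ℝ) * (2 * R)) * ((N : ℝ) ^ 3) ^ (n * (2 * R))))
    (s4 : ∑ f : Fin n × Fin (2 * R) → Pos N, ((BadTup (3 + 1) (TLS (R ^ 5)) f).card : ℝ) ≤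
      (c4 * u) * (((n : ℝ) * (2 * R)) * ((N : ℝ) ^ 3) ^ (n * (2 * R))))
    (s5 : ∑ f : Fin n × Fin (2 * R) → Pos N, ((BadTup (1 + 1) (TSS (R ^ 5)) f).card : ℝ) ≤
      (c5 * u) * (((n : ℝ) * (2 * R)) * ((N : ℝ) ^ 3) ^ (n * (2 * R))))
    (s6 : ∑ f : Fin n × Fin (2 * R) → Pos N, ((BadTup (2 + 1) (TSSS (R ^ 5)) f).card : ℝ) ≤
      (c6 * u) * (((n : ℝ) * (2 * R)) * ((N : ℝ) ^ 3) ^ (n * (2 * R))))
    (s7 : ∑ f : Fin n × Fin (2 * R) → Pos N, ((BadTup (4 + 1) (TLSS (R ^ 5)) f).card : ℝ) ≤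
      (c7 * u) * (((n : ℝ) * (2 * R)) * ((N : ℝ) ^ 3) ^ (n * (2 * R))))
    (s8 : ∑ f : Fin n × Fin (2 * R) → Pos N, ((BadTup (6 + 1) (TLLS (R ^ 5)) f).card : ℝ) ≤
      (c8 * u) * (((n : ℝ) * (2 * R)) * ((N : ℝ) ^ 3) ^ (n * (2 * R))))
    (s9 : ∑ f : Fin n × Fin (2 * R) → Pos N, ((BadTup (8 + 1) (TLLL (R ^ 5)) f).card : ℝ) ≤
      (c9 * u) * (((n : ℝ) * (2 * R)) * ((N : ℝ) ^ 3) ^ (n * (2 * R))))
    (s10 : ∑ f : Fin n × Fin (2 * R) → Pos N, ((BadDeg (R ^ 5) (R ^ 12) f).card : ℝ) ≤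
      (c10 * u) * (((n : ℝ) * (2 * R)) * ((N : ℝ) ^ 3) ^ (n * (2 * R))))
    (hCu : (c1 + c2 + c3 + c4 + c5 + c6 + c7 + c8 + c9 + c10) * u ≤ 1 / 1024) :
    ∑ f : Fin n × Fin (2 * R) → Pos N, ((Zg (R ^ 5) (R ^ 12) f).card : ℝ) ≤
      (1 / 1024) * (n * (2 * R)) * ((N : ℝ) ^ 3) ^ (n * (2 * R)) := by
  have hz : ∑ f : Fin n × Fin (2 * R) → Pos N, ((Zg (R ^ 5) (R ^ 12) f).card : ℝ) ≤
      ∑ f : Fin n × Fin (2 * R) → Pos N, (((BadTup (1 + 1) (fun t => t 0 = t 1) f).card : ℝ) +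
        ((BadTup (2 + 1) (fun t => Col (t 0) (t 1) (t 2)) f).card : ℝ) +
        ((BadTup (5 + 1) (TLL (R ^ 5)) f).card : ℝ) + ((BadTup (3 + 1) (TLS (R ^ 5)) f).card : ℝ) +
        ((BadTup (1 + 1) (TSS (R ^ 5)) f).card : ℝ) + ((BadTup (2 + 1) (TSSS (R ^ 5)) f).card : ℝ) +
        ((BadTup (4 + 1) (TLSS (R ^ 5)) f).card : ℝ) + ((BadTup (6 + 1) (TLLS (R ^ 5)) f).card : ℝ) +
        ((BadTup (8 + 1) (TLLL (R ^ 5)) f).card : ℝ) + ((BadDeg (R ^ 5) (R ^ 12) f).card : ℝ)) := by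
    refine sum_le_sum fun f _ => ?_
    have h := zg_card (R ^ 5) (R ^ 12) f
    have h' := (Nat.cast_le (α := ℝ)).2 h
    simp only [Nat.cast_add] at h'
    exact h'
  refine hz.trans ?_
  rw [sum_add_distrib, sum_add_distrib, sum_add_distrib, sum_add_distrib, sum_add_distrib, sum_add_distrib,
    sum_add_distrib, sum_add_distrib, sum_add_distrib]
  have hMW0 : 0 ≤ ((n : ℝ) * (2 * R)) * ((N : ℝ) ^ 3) ^ (n * (2 * R)) :=
    mul_nonneg (mul_nonneg (Nat.cast_nonneg _) (mul_nonneg zero_le_two (Nat.cast_nonneg _)))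
      (pow_nonneg (pow_nonneg hx _) _)
  have e0 : (1 : ℝ) / 1024 * (n * (2 * R)) * ((N : ℝ) ^ 3) ^ (n * (2 * R)) =
      1 / 1024 * (((n : ℝ) * (2 * R)) * ((N : ℝ) ^ 3) ^ (n * (2 * R))) := mul_assoc _ _ _
  rw [e0]
  refine le_trans ?_ (mul_le_mul_of_nonneg_right hCu hMW0)
  generalize ((n : ℝ) * (2 * R)) * ((N : ℝ) ^ 3) ^ (n * (2 * R)) = MW at *
  have e10 : (c1 + c2 + c3 + c4 + c5 + c6 + c7 + c8 + c9 + c10) * u * MW =
    c1 * u * MW + c2 * u * MW + c3 * u * MW + c4 * u * MW + c5 * u * MW + c6 * u * MW +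
    c7 * u * MW + c8 * u * MW + c9 * u * MW + c10 * u * MW := by ring
  rw [e10]
  exact add_le_add (add_le_add (add_le_add (add_le_add (add_le_add (add_le_add (add_le_add
    (add_le_add (add_le_add s1 s2) s3) s4) s5) s6) s7) s8) s9) s10

theorem dbg : G2_col → G3_cop → G3_rs → G5_LL → G5_LS → G5_SS → G5_SSS → G5_LSS → G5_LLS → G5_LLL →
    P1_one → P1_bad → D_badgeo := by
  rintro ⟨c2, hc2, G2⟩ ⟨c3, hc3, G3⟩ ⟨cr, hcr, Gr⟩ ⟨cLL, hcLL, GLL⟩ ⟨cLS, hcLS, GLS⟩ GSS GSSS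
    ⟨cLSS, hcLSS, GLSS⟩ ⟨cLLS, hcLLS, GLLS⟩ ⟨cLLL, hcLLL, GLLL⟩ P1 PB
  obtain ⟨N₀, hN₀3, hN₀⟩ := params (C := 4 + 12 * c2 + 192 * cLL + 32 * cLS + 2916 + 236196 + 80 * cLSS +
    448 * cLLS + 2304 * cLLL + (1 + 4 * cr + 32 * c3)) (by positivity)
  refine ⟨N₀, fun N hN R hRN hNR n hn hnl => ?_⟩
  obtain ⟨hR1, hP, hCu⟩ := hN₀ N R hN hRN hNR
  have hM1 : 1 ≤ R ^ 5 := Nat.one_le_pow _ _ hR1
  have hM6 : (R ^ 5) ^ 6 ≤ N := by
    rw [← pow_mul]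
    exact (Nat.pow_le_pow_right hR1 (by norm_num)).trans hRN
  have hMN : R ^ 5 ≤ N := (Nat.pow_le_pow_right hR1 (by norm_num)).trans hRN
  have h2N : 2 ≤ N := by omega
  have h1N : 1 ≤ N := by omega
  have g3 := GLL N h2N (R ^ 5) hM1 hM6
  have g4 := GLS N h2N (R ^ 5) hM1
  have g5 := GSS N h1N (R ^ 5) hM1
  have g6 := GSSS N h1N (R ^ 5) hM1
  have g7 := GLSS N h2N (R ^ 5) hM1
  have g8 := GLLS N h2N (R ^ 5) hM1
  have g9 := GLLL N h2N (R ^ 5) hM1 hM6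
  rw [Nat.cast_pow] at g3 g4 g5 g6 g7 g8 g9
  have s1 := bT PB hR1 hP hnl 1 (fun t => t 0 = t 1) (by convert cnt_eq N) (e1 hP)
  have s2 := bT PB hR1 hP hnl 2 (fun t => Col (t 0) (t 1) (t 2)) (cnt_col N (G2 N)) (e2 hP hc2)
  have s3 := bT PB hR1 hP hnl 5 (TLL (R ^ 5)) g3 (e3 hP hcLL)
  have s4 := bT PB hR1 hP hnl 3 (TLS (R ^ 5)) g4 (e4 hP hcLS)
  have s5 := bT PB hR1 hP hnl 1 (TSS (R ^ 5)) g5 (e5 hP)
  have s6 := bT PB hR1 hP hnl 2 (TSSS (R ^ 5)) g6 (e6 hP)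
  have s7 := bT PB hR1 hP hnl 4 (TLSS (R ^ 5)) g7 (e7 hP hcLSS)
  have s8 := bT PB hR1 hP hnl 6 (TLLS (R ^ 5)) g8 (e8 hP hcLLS)
  have s9 := bT PB hR1 hP hnl 8 (TLLL (R ^ 5)) g9 (e9 hP hcLLL)
  have s10 := deg_bound P1 hcr hc3 hR1 hP hnl (Gr N h1N (R ^ 5) hM1 hMN) (G3 N h2N)
  exact fin_sum (Nat.cast_nonneg _) s1 s2 s3 s4 s5 s6 s7 s8 s9 s10 hCu

end

end Pool.Agent.TH989.DBG
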