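import Mathlib

set_option autoImplicit false

/-! Job 911: three existence lemmas of commutative algebra. -/

open TensorProduct

namespace Pool.Agent.TH165.Tan

/-- The polynomial ring in two variables. -/
theorem exists_poly2 (C : Type) [CommRing C] :
    ∃ (B : Type) (_ : CommRing B) (ι : C →+* B) (p q : B), ι.Smooth ∧
      ∀ (Q : Type) [CommRing Q] (ζ : C →+* Q) (u v : Q),
        ∃! β : B →+* Q, β.comp ι = ζ ∧ β p = u ∧ β q = v := by
  refine ⟨MvPolynomial (Fin 2) C, inferInstance, algebraMap _ _, MvPolynomial.X 0,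
    MvPolynomial.X 1, ?_, ?_⟩
  · rw [RingHom.smooth_algebraMap]
    exact { formallySmooth := inferInstance, finitePresentation := inferInstance }
  · intro Q _ ζ u v
    refine ⟨MvPolynomial.eval₂Hom ζ ![u, v], ⟨?_, by simp, by simp⟩, ?_⟩
    · ext x
      simp [MvPolynomial.algebraMap_eq]
    · rintro β ⟨h1, h2, h3⟩
      apply MvPolynomial.ringHom_ext
      · intro r
        have := congrArg (fun f : C →+* Q => f r) h1
        simp only [RingHom.comp_apply, MvPolynomial.algebraMap_eq] at this
        rw [this]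
        simp
      · intro i
        fin_cases i
        · simpa using h2
        · simpa using h3

namespace H989

open Polynomial

variable {D : Type} [CommRing D] (π s : D)

/-- the ideal -/
noncomputable def wI : Ideal D[X] := Ideal.span {C π * X ^ 2 + X + C s}

lemma wI_mem : C π * X ^ 2 + X + C s ∈ wI π s := Ideal.subset_span rfl

lemma w_rel : algebraMap D (D[X] ⧸ wI π s) π * (Ideal.Quotient.mk (wI π s) X) ^ 2 +
    Ideal.Quotient.mk (wI π s) X + algebraMap D (D[X] ⧸ wI π s) s = 0 := by
  have h := Ideal.Quotient.eq_zero_iff_mem.2 (wI_mem π s)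
  rw [map_add, map_add, map_mul, map_pow] at h
  exact h

lemma wI_le {Q : Type*} [CommRing Q] (f : D[X] →+* Q)
    (h : f (C π * X ^ 2 + X + C s) = 0) : ∀ a ∈ wI π s, f a = 0 := by
  intro a ha
  have h1 : wI π s ≤ RingHom.ker f := by
    unfold wI
    rw [Ideal.span_le, Set.singleton_subset_iff]
    exact h
  exact h1 ha

lemma formallyEtale (h2 : (2 : D) = 0) : Algebra.FormallyEtale D (D[X] ⧸ wI π s) := by
  rw [Algebra.FormallyEtale.iff_comp_bijective]
  intro B _ _ I hI
  have hB2 : (2 : B) = 0 := by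
    have := congrArg (algebraMap D B) h2
    rwa [map_ofNat, map_zero] at this
  have hII : ∀ x ∈ I, ∀ y ∈ I, x * y = 0 := by
    intro x hx y hy
    have : x * y ∈ I ^ 2 := by
      rw [pow_two]; exact Ideal.mul_mem_mul hx hy
    rw [hI] at this
    exact this
  constructor
  · intro f g hfg
    have key : f (Ideal.Quotient.mk (wI π s) X) = g (Ideal.Quotient.mk (wI π s) X) := by
      have e1 := congrArg f (w_rel π s)
      have e2 := congrArg g (w_rel π s)
      simp only [map_add, map_mul, map_pow, AlgHom.commutes, map_zero] at e1 e2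
      have e3 : f (Ideal.Quotient.mk (wI π s) X) - g (Ideal.Quotient.mk (wI π s) X) ∈ I := by
        have := congrArg (fun k : (D[X] ⧸ wI π s) →ₐ[D] B ⧸ I =>
          k (Ideal.Quotient.mk (wI π s) X)) hfg
        simp only [AlgHom.comp_apply, Ideal.Quotient.mkₐ_eq_mk] at this
        exact Ideal.Quotient.eq.1 this
      have e4 := hII _ e3 _ e3
      set v := f (Ideal.Quotient.mk (wI π s) X)
      set v' := g (Ideal.Quotient.mk (wI π s) X)
      have e5 : v - v' = 0 := by
        linear_combination e1 - e2 - (algebraMap D B π) * e4 -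
          (algebraMap D B π) * (v' * (v - v')) * hB2
      exact sub_eq_zero.1 e5
    apply Ideal.Quotient.algHom_ext
    apply Polynomial.algHom_ext
    simpa using key
  · intro h
    obtain ⟨v, hv⟩ := Ideal.Quotient.mk_surjective (h (Ideal.Quotient.mk (wI π s) X))
    set r := algebraMap D B π * v ^ 2 + v + algebraMap D B s with hr
    have hrI : r ∈ I := by
      rw [← Ideal.Quotient.eq_zero_iff_mem]
      have e1 := congrArg h (w_rel π s)
      simp only [map_add, map_mul, map_pow, AlgHom.commutes, map_zero] at e1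
      rw [hr, map_add, map_add, map_mul, map_pow, hv]
      exact e1
    have hrr := hII r hrI r hrI
    have hroot : algebraMap D B π * (v - r) ^ 2 + (v - r) + algebraMap D B s = 0 := by
      have e1 : algebraMap D B π * v ^ 2 + v + algebraMap D B s = r := hr.symm
      linear_combination e1 + algebraMap D B π * hrr - algebraMap D B π * v * r * hB2
    refine ⟨Ideal.Quotient.liftₐ (wI π s) (aeval (v - r)) ?_, ?_⟩
    · intro a ha
      exact wI_le π s (aeval (v - r)).toRingHom (by simpa using hroot) a ha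
    · apply Ideal.Quotient.algHom_ext
      apply Polynomial.algHom_ext
      have e2 : Ideal.Quotient.mk I r = 0 := Ideal.Quotient.eq_zero_iff_mem.2 hrI
      simp only [AlgHom.comp_apply, Ideal.Quotient.mkₐ_eq_mk, Ideal.Quotient.liftₐ_apply]
      have e3 : (aeval (v - r)) (X : D[X]) = v - r := aeval_X _
      show Ideal.Quotient.mk I ((aeval (v - r)) (X : D[X])) = h (Ideal.Quotient.mk (wI π s) X)
      rw [e3, map_sub, e2, sub_zero, hv]

end H989

/-- In characteristic 2, the algebra `D[w] / (π w² + w + s)` is étale. -/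
theorem exists_wAlg {D : Type} [CommRing D] (h2 : (2 : D) = 0) (π s : D) :
    ∃ (E : Type) (_ : CommRing E) (ι : D →+* E) (w : E), ι.Etale ∧
      ι π * w ^ 2 + w + ι s = 0 ∧
      ∀ (Q : Type) [CommRing Q] (ζ : D →+* Q) (v : Q), ζ π * v ^ 2 + v + ζ s = 0 →
        ∃! ε : E →+* Q, ε.comp ι = ζ ∧ ε w = v := by
  refine ⟨Polynomial D ⧸ H989.wI π s, inferInstance, algebraMap _ _,
    Ideal.Quotient.mk _ Polynomial.X, ?_, H989.w_rel π s, ?_⟩
  · rw [RingHom.etale_algebraMap]
    have h1 := H989.formallyEtale π s h2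
    have h3 : Algebra.FinitePresentation D (Polynomial D ⧸ H989.wI π s) :=
      Algebra.FinitePresentation.quotient ⟨{Polynomial.C π * Polynomial.X ^ 2 + Polynomial.X +
        Polynomial.C s}, by rw [Finset.coe_singleton]; rfl⟩
    exact ⟨h1, h3⟩
  · intro Q _ ζ v hv
    have hker : ∀ a ∈ H989.wI π s, (Polynomial.eval₂RingHom ζ v) a = 0 :=
      H989.wI_le π s _ (by simpa using hv)
    refine ⟨Ideal.Quotient.lift (H989.wI π s) (Polynomial.eval₂RingHom ζ v) hker, ⟨?_, ?_⟩, ?_⟩
    · ext x
      show Ideal.Quotient.lift (H989.wI π s) (Polynomial.eval₂RingHom ζ v) hker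
        (Ideal.Quotient.mk _ (Polynomial.C x)) = ζ x
      rw [Ideal.Quotient.lift_mk]
      simp
    · rw [Ideal.Quotient.lift_mk]
      simp
    · rintro ε ⟨h3, h4⟩
      apply Ideal.Quotient.ringHom_ext
      apply Polynomial.ringHom_ext
      · intro a
        have := congrArg (fun f : D →+* Q => f a) h3
        simp only [RingHom.comp_apply] at this
        rw [RingHom.comp_apply, RingHom.comp_apply, Ideal.Quotient.lift_mk]
        simp only [Polynomial.coe_eval₂RingHom, Polynomial.eval₂_C]
        exact this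
      · rw [RingHom.comp_apply, RingHom.comp_apply, Ideal.Quotient.lift_mk]
        simp only [Polynomial.coe_eval₂RingHom, Polynomial.eval₂_X]
        exact h4

/-- The universal ring. -/
theorem exists_univ (t : Prop) :
    ∃ (A : Type) (_ : CommRing A) (π η a c : A), (2 : A) = 0 ∧ η ^ 2 = 0 ∧ (t → η = 0) ∧
      ∀ (Q : Type) [CommRing Q] (π' η' a' c' : Q), (2 : Q) = 0 → η' ^ 2 = 0 → (t → η' = 0) →
        ∃! α : A →+* Q, α π = π' ∧ α η = η' ∧ α a = a' ∧ α c = c' := by
  obtain ⟨J, hJ⟩ : ∃ J : Ideal (MvPolynomial (Fin 4) ℤ), J = Ideal.span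
    {x | x = 2 ∨ x = MvPolynomial.X 1 ^ 2 ∨ (t ∧ x = MvPolynomial.X 1)} := ⟨_, rfl⟩
  have hmem : ∀ x : MvPolynomial (Fin 4) ℤ, (x = 2 ∨ x = MvPolynomial.X 1 ^ 2 ∨
      (t ∧ x = MvPolynomial.X 1)) → Ideal.Quotient.mk J x = 0 := by
    intro x hx
    rw [Ideal.Quotient.eq_zero_iff_mem, hJ]
    exact Ideal.subset_span hx
  refine ⟨MvPolynomial (Fin 4) ℤ ⧸ J, inferInstance, Ideal.Quotient.mk J (MvPolynomial.X 0),
    Ideal.Quotient.mk J (MvPolynomial.X 1), Ideal.Quotient.mk J (MvPolynomial.X 2),
    Ideal.Quotient.mk J (MvPolynomial.X 3), ?_, ?_, ?_, ?_⟩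
  · have := hmem 2 (Or.inl rfl)
    rwa [map_ofNat] at this
  · rw [← map_pow]
    exact hmem _ (Or.inr (Or.inl rfl))
  · intro ht
    exact hmem _ (Or.inr (Or.inr ⟨ht, rfl⟩))
  · intro Q _ π' η' a' c' h2 hη ht
    have hker : ∀ x ∈ J, MvPolynomial.eval₂Hom (Int.castRingHom Q) ![π', η', a', c'] x = 0 := by
      intro x hx
      have hle : J ≤ RingHom.ker (MvPolynomial.eval₂Hom (Int.castRingHom Q)
          ![π', η', a', c']) := by
        rw [hJ, Ideal.span_le]
        rintro y (rfl | rfl | ⟨h, rfl⟩)
        · simp only [SetLike.mem_coe, RingHom.mem_ker]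
          rw [map_ofNat]; exact h2
        · simp only [SetLike.mem_coe, RingHom.mem_ker]
          simpa using hη
        · simp only [SetLike.mem_coe, RingHom.mem_ker]
          simpa using ht h
      exact hle hx
    refine ⟨Ideal.Quotient.lift J _ hker, ⟨?_, ?_, ?_, ?_⟩, ?_⟩
    · rw [Ideal.Quotient.lift_mk]; simp
    · rw [Ideal.Quotient.lift_mk]; simp
    · rw [Ideal.Quotient.lift_mk]; simp
    · rw [Ideal.Quotient.lift_mk]; simp
    · rintro α ⟨h3, h4, h5, h6⟩
      apply Ideal.Quotient.ringHom_ext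
      apply MvPolynomial.ringHom_ext
      · intro r
        simp
      · intro i
        rw [RingHom.comp_apply, RingHom.comp_apply, Ideal.Quotient.lift_mk]
        fin_cases i
        · simpa using h3
        · simpa using h4
        · simpa using h5
        · simpa using h6

end Pool.Agent.TH165.Tan
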