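import Mathlib
import Pool.Agent.TH165.Tan.MdLem

set_option autoImplicit false
set_option linter.unusedSectionVars false

/-! Job 912: extension of scalars to a quadratic algebra; the kernel of localization. -/

open TensorProduct

namespace Pool.Agent.TH165.Tan

namespace H989

/-- the module `Q × Q` over `R[ω] / (ω² = a + b ω)` -/
def Dbl {R : Type} (_a _b : R) (Q : Type) : Type := Q × Q

section

variable {R : Type} [CommRing R] {a b : R} {Q : Type} [AddCommGroup Q] [Module R Q]

instance : AddCommGroup (Dbl a b Q) := inferInstanceAs (AddCommGroup (Q × Q))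

/-- the elements -/
def dm (a b : R) (x y : Q) : Dbl a b Q := (x, y)

lemma dm_add (x y x' y' : Q) : dm a b x y + dm a b x' y' = dm a b (x + x') (y + y') := rfl

lemma dm_zero : dm a b (0 : Q) 0 = 0 := rfl

instance : SMul (QuadraticAlgebra R a b) (Dbl a b Q) :=
  ⟨fun z p => dm a b (z.re • p.1 + (a * z.im) • p.2) (z.im • p.1 + (z.re + b * z.im) • p.2)⟩

lemma smul_dm (z : QuadraticAlgebra R a b) (x y : Q) : z • dm a b x y =
    dm a b (z.re • x + (a * z.im) • y) (z.im • x + (z.re + b * z.im) • y) := rfl

lemma dm_ext {x y x' y' : Q} (h : x = x') (h' : y = y') : dm a b x y = dm a b x' y' := by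
  rw [h, h']

lemma exists_dm (p : Dbl a b Q) : ∃ x y : Q, p = dm a b x y := ⟨p.1, p.2, rfl⟩

instance : Module (QuadraticAlgebra R a b) (Dbl a b Q) where
  one_smul p := by
    obtain ⟨x, y, rfl⟩ := exists_dm p
    rw [smul_dm, QuadraticAlgebra.re_one, QuadraticAlgebra.im_one]
    apply dm_ext
    · module
    · module
  mul_smul z w p := by
    obtain ⟨x, y, rfl⟩ := exists_dm p
    rw [smul_dm, smul_dm, smul_dm, QuadraticAlgebra.re_mul, QuadraticAlgebra.im_mul]
    apply dm_ext
    · module
    · module
  smul_zero z := by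
    rw [← dm_zero, smul_dm]
    apply dm_ext
    · module
    · module
  smul_add z p q := by
    obtain ⟨x, y, rfl⟩ := exists_dm p
    obtain ⟨x', y', rfl⟩ := exists_dm q
    rw [dm_add, smul_dm, smul_dm, smul_dm, dm_add]
    apply dm_ext
    · module
    · module
  add_smul z w p := by
    obtain ⟨x, y, rfl⟩ := exists_dm p
    rw [smul_dm, smul_dm, smul_dm, dm_add, QuadraticAlgebra.re_add, QuadraticAlgebra.im_add]
    apply dm_ext
    · module
    · module
  zero_smul p := by
    obtain ⟨x, y, rfl⟩ := exists_dm p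
    rw [smul_dm, QuadraticAlgebra.re_zero, QuadraticAlgebra.im_zero, ← dm_zero]
    apply dm_ext
    · module
    · module

lemma alg_re (r : R) : (algebraMap R (QuadraticAlgebra R a b) r).re = r := rfl

lemma alg_im (r : R) : (algebraMap R (QuadraticAlgebra R a b) r).im = 0 := rfl

/-- the inclusion of the first factor -/
def inl {R₀ : Type} [CommRing R₀] {ρ : R₀ →+* R} {M₀ : Type} [AddCommGroup M₀] [Module R₀ M₀]
    (f : M₀ →ₛₗ[ρ] Q) : M₀ →ₛₗ[(algebraMap R (QuadraticAlgebra R a b)).comp ρ] Dbl a b Q where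
  toFun m := dm a b (f m) 0
  map_add' x y := by
    rw [map_add, dm_add]
    exact dm_ext rfl (add_zero 0).symm
  map_smul' r x := by
    rw [RingHom.comp_apply, smul_dm, alg_re, alg_im, map_smulₛₗ]
    apply dm_ext
    · module
    · module

/-- the inclusion of the first factor -/
def inl0 {M : Type} [AddCommGroup M] [Module R M]
    (f : M →ₗ[R] Q) : M →ₛₗ[algebraMap R (QuadraticAlgebra R a b)] Dbl a b Q where
  toFun m := dm a b (f m) 0
  map_add' x y := by
    rw [map_add, dm_add]
    exact dm_ext rfl (add_zero 0).symm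
  map_smul' r x := by
    rw [smul_dm, alg_re, alg_im, map_smul]
    apply dm_ext
    · module
    · module

lemma inl0_apply {M : Type} [AddCommGroup M] [Module R M] (f : M →ₗ[R] Q) (m : M) :
    (inl0 (a := a) (b := b) f) m = dm a b (f m) 0 := rfl

/-- the first component -/
def fstA : Dbl a b Q →+ Q := AddMonoidHom.fst Q Q

lemma fstA_dm (x y : Q) : fstA (dm a b x y) = x := rfl

lemma fstA_alg (r : R) (p : Dbl a b Q) :
    fstA (algebraMap R (QuadraticAlgebra R a b) r • p) = r • fstA p := by
  obtain ⟨x, y, rfl⟩ := exists_dm p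
  rw [smul_dm, fstA_dm, fstA_dm, alg_re, alg_im]
  module

end

end H989

open H989

section

variable {R : Type} [CommRing R] {a b : R} {M N : Type} [AddCommGroup M] [Module R M]
  [AddCommGroup N] [Module (QuadraticAlgebra R a b) N]
  {g : M →ₛₗ[algebraMap R (QuadraticAlgebra R a b)] N}

namespace H989

/-- the map `(m₀, m₁) ↦ g m₀ + ω g m₁` -/
def Phi (g : M →ₛₗ[algebraMap R (QuadraticAlgebra R a b)] N) :
    Dbl a b M →ₗ[QuadraticAlgebra R a b] N where
  toFun p := g p.1 + (QuadraticAlgebra.omega : QuadraticAlgebra R a b) • g p.2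
  map_add' p q := by
    obtain ⟨x, y, rfl⟩ := exists_dm p
    obtain ⟨x', y', rfl⟩ := exists_dm q
    show g (x + x') + _ • g (y + y') = g x + _ • g y + (g x' + _ • g y')
    rw [map_add, map_add]
    module
  map_smul' z p := by
    obtain ⟨x, y, rfl⟩ := exists_dm p
    show g (z.re • x + (a * z.im) • y) +
      (QuadraticAlgebra.omega : QuadraticAlgebra R a b) • g (z.im • x + (z.re + b * z.im) • y) =
      z • (g x + (QuadraticAlgebra.omega : QuadraticAlgebra R a b) • g y)
    have e1 : z = algebraMap R (QuadraticAlgebra R a b) z.re +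
        QuadraticAlgebra.omega * algebraMap R (QuadraticAlgebra R a b) z.im := by
      ext
      · rw [QuadraticAlgebra.re_add, QuadraticAlgebra.re_mul, alg_re, alg_re, alg_im]
        simp
      · rw [QuadraticAlgebra.im_add, QuadraticAlgebra.im_mul, alg_re, alg_im, alg_im]
        simp
    have e2 : z * QuadraticAlgebra.omega =
        algebraMap R (QuadraticAlgebra R a b) (a * z.im) +
        QuadraticAlgebra.omega * algebraMap R (QuadraticAlgebra R a b) (z.re + b * z.im) := by
      ext
      · rw [QuadraticAlgebra.re_add, QuadraticAlgebra.re_mul, QuadraticAlgebra.re_mul, alg_re,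
          alg_re, alg_im]
        simp
      · rw [QuadraticAlgebra.im_add, QuadraticAlgebra.im_mul, QuadraticAlgebra.im_mul, alg_re,
          alg_im, alg_im]
        simp
    have e3 : z • g x = (algebraMap R (QuadraticAlgebra R a b) z.re +
        QuadraticAlgebra.omega * algebraMap R (QuadraticAlgebra R a b) z.im) • g x := by
      rw [← e1]
    rw [smul_add, smul_smul, e2, e3, map_add, map_add, map_smulₛₗ, map_smulₛₗ, map_smulₛₗ,
      map_smulₛₗ]
    module

lemma Phi_dm (g : M →ₛₗ[algebraMap R (QuadraticAlgebra R a b)] N) (x y : M) :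
    Phi g (dm a b x y) = g x + (QuadraticAlgebra.omega : QuadraticAlgebra R a b) • g y := rfl

end H989

/-- Extension of scalars to `R[ω] / (ω² = a + b ω)`. -/
theorem qa_decomp (hg : IsExtL g) (n : N) :
    ∃! p : M × M, g p.1 + (QuadraticAlgebra.omega : QuadraticAlgebra R a b) • g p.2 = n := by
  obtain ⟨w, hw, -⟩ := hg (Dbl a b M) (inl0 LinearMap.id)
  have hw' : ∀ m, w (g m) = dm a b m 0 := fun m => by
    rw [hw m, inl0_apply]; rfl
  have h1 : ∀ x y : M, w (Phi g (dm a b x y)) = dm a b x y := by
    intro x y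
    rw [Phi_dm, map_add, map_smul, hw', hw', smul_dm, dm_add]
    apply dm_ext
    · simp
    · simp
  have h2 : ∀ n : N, Phi g (w n) = n := by
    have h3 : (Phi g).comp w = LinearMap.id := by
      obtain ⟨k, -, hk⟩ := hg N g
      rw [hk LinearMap.id (fun m => rfl)]
      apply hk
      intro m
      rw [LinearMap.comp_apply, hw', Phi_dm, map_zero, smul_zero, add_zero]
    intro n
    have := congrArg (fun f : N →ₗ[QuadraticAlgebra R a b] N => f n) h3
    simpa using this
  refine ⟨w n, h2 n, ?_⟩
  rintro ⟨x, y⟩ hp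
  have h3 : Phi g (dm a b x y) = n := hp
  have h4 := h1 x y
  rw [h3] at h4
  exact h4.symm

theorem qa_desc (hg : IsExtL g) {R₀ : Type} [CommRing R₀] {ρ : R₀ →+* R} {M₀ : Type}
    [AddCommGroup M₀] [Module R₀ M₀] (j : M₀ →ₛₗ[ρ] M)
    (k : M₀ →ₛₗ[(algebraMap R (QuadraticAlgebra R a b)).comp ρ] N) (hk : ∀ m, k m = g (j m))
    (hk' : IsExtL k) : IsExtL j := by
  -- the image of `j` spans
  have hspan : Submodule.span R (Set.range j) = ⊤ := by
    obtain ⟨L, hL⟩ : ∃ L : Submodule R M, L = Submodule.span R (Set.range j) := ⟨_, rfl⟩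
    obtain ⟨w, hw, -⟩ := hg (Dbl a b (M ⧸ L)) (inl0 L.mkQ)
    have hw0 : w = 0 := by
      obtain ⟨k₀, -, hk₀⟩ := hk' (Dbl a b (M ⧸ L)) 0
      rw [hk₀ w, hk₀ 0]
      · intro m; rfl
      · intro m
        rw [hk, hw, inl0_apply]
        have : L.mkQ (j m) = 0 := by
          rw [Submodule.mkQ_apply, Submodule.Quotient.mk_eq_zero, hL]
          exact Submodule.subset_span ⟨m, rfl⟩
        rw [this]
        rfl
    rw [← hL, Submodule.eq_top_iff']
    intro m
    have h1 := hw m
    rw [hw0, inl0_apply] at h1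
    have h2 : fstA (dm a b (L.mkQ m) 0) = 0 := by
      rw [← h1]; rfl
    rw [fstA_dm, Submodule.mkQ_apply, Submodule.Quotient.mk_eq_zero] at h2
    exact h2
  intro P _ _ h
  obtain ⟨w, hw, -⟩ := hk' (Dbl a b P) (inl h)
  refine ⟨{ toFun := fun m => fstA (w (g m))
            map_add' := fun x y => by rw [map_add, map_add, map_add]
            map_smul' := fun r x => by
              rw [map_smulₛₗ, map_smul, fstA_alg]; rfl }, ?_, ?_⟩
  · intro m
    show fstA (w (g (j m))) = h m
    rw [← hk, hw]
    rfl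
  · intro v hv
    apply LinearMap.ext_on_range (v := j) hspan
    intro m
    rw [hv]
    show h m = fstA (w (g (j m)))
    rw [← hk, hw]
    rfl

end

/-- The kernel of the localization map. -/
theorem loc_ker {R : Type} [CommRing R] (f : R) {M N : Type} [AddCommGroup M] [Module R M]
    [AddCommGroup N] [Module (Localization.Away f) N]
    {g : M →ₛₗ[algebraMap R (Localization.Away f)] N} (hg : IsExtL g) {m : M} (h : g m = 0) :
    ∃ n : ℕ, f ^ n • m = 0 := by
  obtain ⟨w, hw, -⟩ := hg (LocalizedModule (Submonoid.powers f) M)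
    { toFun := fun m => LocalizedModule.mkLinearMap (Submonoid.powers f) M m
      map_add' := fun x y => by rw [map_add]
      map_smul' := fun r x => by
        rw [map_smul]
        exact (algebraMap_smul _ r _).symm }
  have h1 := hw m
  rw [h, map_zero] at h1
  have h2 : LocalizedModule.mkLinearMap (Submonoid.powers f) M m = 0 := h1.symm
  rw [IsLocalizedModule.eq_zero_iff (Submonoid.powers f)] at h2
  obtain ⟨⟨c, n, rfl⟩, hc⟩ := h2
  exact ⟨n, hc⟩

end Pool.Agent.TH165.Tan
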